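import Pool.Agent.H.MP_1693ff_gtD.MFamA

/-!
# Changing a block of parameters
-/

namespace CI

open Real Set Filter Topology MeasureTheory
open CF hiding St

noncomputable section

/-- The parameters `t` with the block `(b, s₀), …, (b, s₀+j-1)` replaced by `τ`. -/
def blk (b : Bool) (s₀ j : ℕ) (t : Bool × ℕ → ℝ) (τ : Fin j → ℝ) : Bool × ℕ → ℝ := fun x =>
  if h : x.1 = b ∧ s₀ ≤ x.2 ∧ x.2 < s₀ + j then τ ⟨x.2 - s₀, by omega⟩ else t x

end

theorem mblk_lt {b : Bool} {s₀ j : ℕ} {t : Bool × ℕ → ℝ} {τ : Fin j → ℝ} {s : ℕ} (hs : s < s₀) :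
    blk b s₀ j t τ (b, s) = t (b, s) := by
  unfold blk
  rw [dif_neg]
  rintro ⟨-, h, -⟩
  change s₀ ≤ s at h
  omega

theorem mblk_ne {b b' : Bool} (hb : b' ≠ b) {s₀ j : ℕ} {t : Bool × ℕ → ℝ} {τ : Fin j → ℝ} (s : ℕ) :
    blk b s₀ j t τ (b', s) = t (b', s) := by
  unfold blk
  rw [dif_neg]
  rintro ⟨h, -⟩
  exact hb h

theorem mblk_eq {b : Bool} {s₀ j : ℕ} {t : Bool × ℕ → ℝ} {τ : Fin j → ℝ} (x : Fin j) :
    blk b s₀ j t τ (b, s₀ + x) = τ x := by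
  unfold blk
  rw [dif_pos ⟨rfl, Nat.le_add_right _ _, Nat.add_lt_add_left x.2 _⟩]
  congr 1
  refine Fin.ext ?_
  change s₀ + (x : ℕ) - s₀ = x
  omega

variable {E : Type*} [NormedAddCommGroup E] [InnerProductSpace ℝ E]

/-- the perturbation as a sum of the summand with index `b` and the other one -/
theorem mblk_fam (δ : ℝ) (N : ℕ) (c : Bool → E) (b : Bool) (t : Bool × ℕ → ℝ) (u : E) :
    fam δ N c t u = gt δ N (fun s => t (b, s)) (sg (c b) u) +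
      gt δ N (fun s => t (!b, s)) (sg (c (!b)) u) := by
  cases b
  · rfl
  · unfold fam
    rw [add_comm]
    rfl

theorem mblk_other {b : Bool} {s₀ j : ℕ} {t : Bool × ℕ → ℝ} {τ τ' : Fin j → ℝ} :
    (fun s => blk b s₀ j t τ (!b, s)) = fun s => blk b s₀ j t τ' (!b, s) := by
  funext s
  rw [mblk_ne (by simp) s, mblk_ne (by simp) s]

theorem blk_mem {b : Bool} {s₀ j : ℕ} {t : Bool × ℕ → ℝ} {τ : Fin j → ℝ}
    (h0 : ∀ x, t x ∈ Icc (0 : ℝ) 1) (h1 : ∀ x, τ x ∈ Icc (0 : ℝ) 1) (x : Bool × ℕ) :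
    blk b s₀ j t τ x ∈ Icc (0 : ℝ) 1 := by
  unfold blk
  split_ifs with h
  · exact h1 _
  · exact h0 x

/-- `gt_far` for the summand with index `b`, the other summand is the same. -/
theorem blk_far (δ : ℝ) (N : ℕ) (c : Bool → E) (b : Bool) (s₀ j : ℕ) (t : Bool × ℕ → ℝ)
    (τ τ' : Fin j → ℝ) {u : E} (hu : 2 ≤ 2 ^ (s₀ + N) * sg (c b) u) :
    fam δ N c (blk b s₀ j t τ) u = fam δ N c (blk b s₀ j t τ') u := by
  rw [mblk_fam δ N c b, mblk_fam δ N c b, mblk_other (τ := τ) (τ' := τ')]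
  congr 1
  refine gt_far N s₀ ?_ hu
  intro s hs
  rw [mblk_lt hs, mblk_lt hs]

/-- `gt_band`. -/
theorem blk_band (δ : ℝ) (N : ℕ) (c : Bool → E) (b : Bool) (s₀ j : ℕ) (t : Bool × ℕ → ℝ)
    (τ τ' : Fin j → ℝ) (x : Fin j) {u : E}
    (hu : 2 ^ (s₀ + x + N) * sg (c b) u ∈ Icc (5 / 4 : ℝ) (7 / 4)) :
    fam δ N c (blk b s₀ j t τ) u - fam δ N c (blk b s₀ j t τ') u =
      (τ x - τ' x) * (δ * (1 / 2) ^ ((s₀ + x) ^ 2)) := by
  rw [mblk_fam δ N c b, mblk_fam δ N c b, mblk_other (τ := τ) (τ' := τ'),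
    gt_band δ N (s₀ + x) _ hu, gt_band δ N (s₀ + x) _ hu, mblk_eq, mblk_eq]
  ring

/-- `gt_near` for both summands. -/
theorem fam_near {δ η : ℝ} (hδ : 0 ≤ δ) (hη : 0 ≤ η) (N S : ℕ) (c : Bool → E)
    {t t' : Bool × ℕ → ℝ} (h0 : ∀ x, t x ∈ Icc (0 : ℝ) 1) (h1 : ∀ x, t' x ∈ Icc (0 : ℝ) 1)
    (h : ∀ b, ∀ s < S, |t (b, s) - t' (b, s)| ≤ η) (u : E) :
    |fam δ N c t u - fam δ N c t' u| ≤ 2 * δ * (η + (1 / 2) ^ S) := by
  unfold fam
  have h2 := gt_near hδ hη N S (t := fun s => t (false, s)) (t' := fun s => t' (false, s))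
    (fun s => h0 _) (fun s => h1 _) (fun s hs => h false s hs) (sg (c false) u)
  have h3 := gt_near hδ hη N S (t := fun s => t (true, s)) (t' := fun s => t' (true, s))
    (fun s => h0 _) (fun s => h1 _) (fun s hs => h true s hs) (sg (c true) u)
  rw [add_sub_add_comm]
  refine (abs_add_le _ _).trans ?_
  linarith

end CI
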