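import Pool.Agent.H.MP_1693ff_gtD.MRad

/-!
# Bounds of a realisation
-/

namespace CI

open Real Set Filter Topology MeasureTheory
open CF hiding St

variable {E : Type*} [NormedAddCommGroup E] [InnerProductSpace ℝ E]

omit [InnerProductSpace ℝ E] in
theorem mcls_ball {K : Set E} {p : E} (hp : p ∈ interior K) :
    ∃ r : ℝ, 0 < r ∧ Metric.closedBall p r ⊆ K := by
  obtain ⟨r, hr, h⟩ := Metric.isOpen_iff.1 isOpen_interior p hp
  refine ⟨r / 2, by positivity, fun x hx => interior_subset (h ?_)⟩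
  rw [Metric.mem_ball]
  rw [Metric.mem_closedBall] at hx
  linarith

/-- `Cl` for a large bound. -/
theorem Cl.mono_ex {i : ℝ} {c p e ω : E} {f₁ F₂ : E → ℝ} {K : Set E} {d A B M : ℝ}
    (body : IsBody K) (ne : ‖e‖ = 1) (nω : ‖ω‖ = 1) (o : inner ℝ e ω = (0 : ℝ)) (hd : 0 < d)
    (hp : p ∈ interior K) (hp' : p + d • e ∈ interior K) (cn : ‖c‖ = 1)
    (cc : c = (inner ℝ e c : ℝ) • e + (inner ℝ ω c : ℝ) • ω) (cy : 0 < (inner ℝ ω c : ℝ))
    (tail : ∀ s, |s| ≤ 1 →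
      |Jf i (√(1 + s ^ 2) * radial K (p + d • e) (e + s • ω) / d) - A - B * s| ≤ M * s ^ 2)
    (ch1 : ∀ u, ‖u‖ = 1 → chord i K p u = f₁ u)
    (ch2 : ∀ u, ‖u‖ = 1 → chord i K (p + d • e) u = F₂ u) :
    ∃ m : ℕ, 1 ≤ m ∧ Cl i m c f₁ F₂ K p e ω d A B := by
  obtain ⟨r1, hr1, hb1⟩ := mcls_ball hp
  obtain ⟨r2, hr2, hb2⟩ := mcls_ball hp'
  obtain ⟨R1, hR1⟩ := body.2.1.isBounded.subset_closedBall p
  obtain ⟨R2, hR2⟩ := body.2.1.isBounded.subset_closedBall (p + d • e)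
  obtain ⟨X, hX⟩ : ∃ X : ℝ, X = 1 / d + d + 1 / r1 + 1 / r2 + |R1| + |R2| +
      1 / (inner ℝ ω c : ℝ) + |A| + |B| + |M| := ⟨_, rfl⟩
  have p1 : 0 < 1 / d := by positivity
  have p2 : 0 < 1 / r1 := by positivity
  have p3 : 0 < 1 / r2 := by positivity
  have p4 : 0 < 1 / (inner ℝ ω c : ℝ) := by positivity
  have p5 := abs_nonneg R1
  have p6 := abs_nonneg R2
  have p7 := abs_nonneg A
  have p8 := abs_nonneg B
  have p9 := abs_nonneg M
  have q1 := le_abs_self R1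
  have q2 := le_abs_self R2
  have q3 := le_abs_self M
  obtain ⟨m, hm⟩ : ∃ m : ℕ, m = ⌈X⌉₊ + 1 := ⟨_, rfl⟩
  have hmX : X ≤ m := by
    rw [hm]
    push_cast
    linarith [Nat.le_ceil X]
  have hm1 : 1 ≤ m := by omega
  have hm0 : (0 : ℝ) < m := by exact_mod_cast hm1
  have key : ∀ x : ℝ, 0 < x → 1 / x ≤ (m : ℝ) → (m : ℝ)⁻¹ ≤ x := by
    intro x hx h
    rw [inv_le_comm₀ hm0 hx, ← one_div]
    exact h
  refine ⟨m, hm1, ?_⟩
  exact
    { body := body
      ne := ne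
      nω := nω
      o := o
      d0 := key d hd (by linarith)
      d1 := by linarith
      i1 := (Metric.closedBall_subset_closedBall (key r1 hr1 (by linarith))).trans hb1
      i2 := (Metric.closedBall_subset_closedBall (key r2 hr2 (by linarith))).trans hb2
      o1 := hR1.trans (Metric.closedBall_subset_closedBall (by linarith))
      o2 := hR2.trans (Metric.closedBall_subset_closedBall (by linarith))
      cn := cn
      cc := cc
      cy := key _ cy (by linarith)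
      A1 := by linarith
      B1 := by linarith
      tail := fun s hs => (tail s hs).trans
        (mul_le_mul_of_nonneg_right (by linarith) (sq_nonneg s))
      ch1 := ch1
      ch2 := ch2 }

/-- For `c` not parallel to the unit vector `e`: `ω` = normalised `c - ⟨e, c⟩ e`. -/
theorem exists_ω {c e : E} (ne : ‖e‖ = 1) (h : ∀ x : ℝ, c ≠ x • e) : ∃ ω : E, ‖ω‖ = 1 ∧
    inner ℝ e ω = (0 : ℝ) ∧ c = (inner ℝ e c : ℝ) • e + (inner ℝ ω c : ℝ) • ω ∧
      0 < (inner ℝ ω c : ℝ) := by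
  obtain ⟨v, hv⟩ : ∃ v : E, v = c - (inner ℝ e c : ℝ) • e := ⟨_, rfl⟩
  have hv0 : v ≠ 0 := by
    intro h0
    rw [hv, sub_eq_zero] at h0
    exact h _ h0
  have hn : 0 < ‖v‖ := norm_pos_iff.2 hv0
  have hev : inner ℝ e v = (0 : ℝ) := by
    rw [hv, inner_sub_right, inner_smul_right, real_inner_self_eq_norm_sq, ne]
    ring
  have hve : inner ℝ v e = (0 : ℝ) := by rw [real_inner_comm, hev]
  have hc : c = (inner ℝ e c : ℝ) • e + v := by
    rw [hv]
    abel
  have hvc : inner ℝ v c = ‖v‖ ^ 2 := by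
    conv_lhs => rw [hc]
    rw [inner_add_right, inner_smul_right, hve, real_inner_self_eq_norm_sq]
    ring
  have hωc : inner ℝ (‖v‖⁻¹ • v) c = ‖v‖ := by
    rw [inner_smul_left, hvc]
    simp only [conj_trivial]
    field_simp
  refine ⟨‖v‖⁻¹ • v, ?_, ?_, ?_, ?_⟩
  · rw [norm_smul, norm_inv, norm_norm, inv_mul_cancel₀ hn.ne']
  · rw [inner_smul_right, hev, mul_zero]
  · rw [hωc, smul_smul, mul_inv_cancel₀ hn.ne', one_smul]
    exact hc
  · rw [hωc]
    exact hn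

end CI
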