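import Pool.Agent.H.MP_1693ff_gtD.MDefs

/-!
# The functions `Jf`, `Tf`
-/

namespace CI

open Real Set Filter Topology MeasureTheory
open CF hiding St

/-- Derivative of `log` resp. `r^i / i`. -/
theorem jf_deriv (i : ℝ) {r : ℝ} (hr : 0 < r) : HasDerivAt (Jf i) (r ^ (i - 1)) r := by
  by_cases hi : i = 0
  · subst hi
    have h1 : Jf 0 = log := by
      funext x
      simp [Jf]
    rw [h1, zero_sub, rpow_neg_one]
    exact hasDerivAt_log hr.ne'
  · have h1 : Jf i = fun x => x ^ i / i := by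
      funext x
      simp [Jf, hi]
    have h2 := (hasDerivAt_rpow_const (x := r) (p := i) (Or.inl hr.ne')).div_const i
    rw [h1]
    rwa [mul_div_cancel_left₀ _ hi] at h2

theorem jf_cont (i : ℝ) : ContinuousOn (Jf i) (Ioi 0) := fun _ hr =>
  (jf_deriv i hr).continuousAt.continuousWithinAt

theorem jf_mono (i : ℝ) : StrictMonoOn (Jf i) (Ioi 0) := by
  refine strictMonoOn_of_deriv_pos (convex_Ioi 0) (jf_cont i) ?_
  intro x hx
  rw [interior_Ioi] at hx
  rw [(jf_deriv i hx).deriv]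
  exact rpow_pos_of_pos hx _

/-- `J (c r) = c^i J r + Jc c`. -/
theorem jf_mul (i : ℝ) {c r : ℝ} (hc : 0 < c) (hr : 0 < r) :
    Jf i (c * r) = c ^ i * Jf i r + Jc i c := by
  by_cases hi : i = 0
  · subst hi
    simp only [Jf, Jc, if_true]
    rw [log_mul hc.ne' hr.ne', rpow_zero]
    ring
  · simp only [Jf, Jc, if_neg hi]
    rw [mul_rpow hc.le hr.le]
    ring

/-- `J ρ + J ρ' = T (ρ^i + ρ'^i)` resp. `T (ρ ρ')` for `i = 0`. -/
theorem jf_tf (i : ℝ) {ρ ρ' : ℝ} (h : 0 < ρ) (h' : 0 < ρ') :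
    Jf i ρ + Jf i ρ' = Tf i (if i = 0 then ρ * ρ' else ρ ^ i + ρ' ^ i) := by
  by_cases hi : i = 0
  · subst hi
    simp only [Jf, Tf, if_true]
    rw [log_mul h.ne' h'.ne']
  · simp only [Jf, Tf, if_neg hi]
    ring

/-- Fundamental theorem of calculus. -/
theorem jf_lint (i : ℝ) {a b : ℝ} (ha : 0 < a) (hab : a ≤ b) :
    ∫⁻ y in Ioc a b, ENNReal.ofReal (y ^ (i - 1)) = ENNReal.ofReal (Jf i b - Jf i a) := by
  have hpos : ∀ y ∈ Icc a b, 0 < y := fun y hy => lt_of_lt_of_le ha hy.1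
  have hc : ContinuousOn (fun y : ℝ => y ^ (i - 1)) (Icc a b) := by
    intro y hy
    exact (continuousAt_rpow_const y (i - 1) (Or.inl (hpos y hy).ne')).continuousWithinAt
  have hint : IntegrableOn (fun y : ℝ => y ^ (i - 1)) (Ioc a b) :=
    (hc.integrableOn_compact isCompact_Icc).mono_set Ioc_subset_Icc_self
  have h1 : ∫ y in a..b, y ^ (i - 1) = Jf i b - Jf i a := by
    refine intervalIntegral.integral_eq_sub_of_hasDerivAt ?_ ?_
    · intro y hy
      rw [uIcc_of_le hab] at hy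
      exact jf_deriv i (hpos y hy)
    · exact (intervalIntegrable_iff_integrableOn_Ioc_of_le hab).2 hint
  rw [← h1, intervalIntegral.integral_of_le hab, ofReal_integral_eq_lintegral_ofReal hint]
  filter_upwards [ae_restrict_mem measurableSet_Ioc] with y hy
  exact rpow_nonneg (hpos y (Ioc_subset_Icc_self hy)).le _

end CI
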