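import Pool.Agent.H.MP_1693ff_gtD.MDefs

/-!
# Unit vectors of a plane
-/

namespace CI

open Real Set Filter Topology MeasureTheory
open CF hiding St

variable {E : Type*} [NormedAddCommGroup E] [InnerProductSpace ℝ E]

/-- `‖a e + ω‖ = √(1 + a²)`, `un e ω a` is a unit vector, `a e + ω = √(1+a²) un`. -/
theorem un_facts {e ω : E} (ne : ‖e‖ = 1) (nω : ‖ω‖ = 1) (o : inner ℝ e ω = (0 : ℝ)) (a : ℝ) :
    ‖a • e + ω‖ = √(1 + a ^ 2) ∧ ‖un e ω a‖ = 1 ∧ a • e + ω ≠ 0 ∧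
      a • e + ω = √(1 + a ^ 2) • un e ω a := by
  have h0 : (0 : ℝ) < 1 + a ^ 2 := by positivity
  have hs : 0 < √(1 + a ^ 2) := Real.sqrt_pos.2 h0
  have h1 : ‖a • e + ω‖ ^ 2 = 1 + a ^ 2 := by
    rw [norm_add_sq_real, norm_smul, inner_smul_left, o, ne, nω, mul_one, mul_zero, mul_zero,
      Real.norm_eq_abs, sq_abs]
    ring
  have h2 : ‖a • e + ω‖ = √(1 + a ^ 2) := by
    rw [← h1, Real.sqrt_sq (norm_nonneg _)]
  refine ⟨h2, ?_, ?_, ?_⟩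
  · unfold un
    rw [norm_smul, h2, norm_inv, Real.norm_of_nonneg hs.le, inv_mul_cancel₀ hs.ne']
  · intro h
    rw [h, norm_zero] at h2
    exact hs.ne h2
  · unfold un
    rw [smul_smul, mul_inv_cancel₀ hs.ne', one_smul]

/-- `un` is linear in `(e, ω)`: `‖un e ω a - un e' ω' a‖ ≤ (|a| ‖e-e'‖ + ‖ω-ω'‖)/√(1+a²)`. -/
theorem un_diff (e ω e' ω' : E) (a : ℝ) :
    ‖un e ω a - un e' ω' a‖ ≤ ‖e - e'‖ + ‖ω - ω'‖ := by
  have h0 : (0 : ℝ) < 1 + a ^ 2 := by positivity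
  have hs : 0 < √(1 + a ^ 2) := Real.sqrt_pos.2 h0
  have h1 : un e ω a - un e' ω' a = (√(1 + a ^ 2))⁻¹ • (a • (e - e') + (ω - ω')) := by
    unfold un
    rw [← smul_sub, smul_sub a]
    congr 1
    abel
  have ha : |a| ≤ √(1 + a ^ 2) := Real.abs_le_sqrt (by linarith)
  have hone : 1 ≤ √(1 + a ^ 2) := by
    rw [Real.one_le_sqrt]
    nlinarith [sq_nonneg a]
  rw [h1, norm_smul, norm_inv, Real.norm_of_nonneg hs.le, inv_mul_le_iff₀ hs]
  refine (norm_add_le _ _).trans ?_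
  rw [norm_smul, Real.norm_eq_abs, mul_add]
  refine add_le_add (mul_le_mul_of_nonneg_right ha (norm_nonneg _)) ?_
  exact le_mul_of_one_le_left (norm_nonneg _) hone

end CI
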