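import Pool.Agent.H.MP_1693ff_gtD.MTailB
import Pool.Agent.H.MP_1693ff_gtD.MJ
import Pool.Agent.H.MP_1693ff_gtD.MUn

/-!
# First order expansion of the radial function
-/

namespace CI

open Real Set Filter Topology MeasureTheory
open CF hiding St

variable {E : Type*} [NormedAddCommGroup E] [InnerProductSpace ℝ E]

theorem mtailc_jf (i : ℝ) {r : ℝ} (hr : 0 < r) : ContDiffAt ℝ 2 (Jf i) r := by
  by_cases hi : i = 0
  · subst hi
    have h1 : Jf 0 = log := by
      funext x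
      simp [Jf]
    rw [h1]
    exact contDiffAt_log.mpr hr.ne'
  · have h1 : Jf i = fun x => x ^ i / i := by
      funext x
      simp [Jf, hi]
    rw [h1]
    exact (contDiffAt_rpow_const_of_ne hr.ne').div_const i

theorem mtailc_tf (i : ℝ) {r : ℝ} (hr : i = 0 → 0 < r) : ContDiffAt ℝ 2 (Tf i) r := by
  by_cases hi : i = 0
  · have h1 : Tf i = log := by
      funext x
      simp [Tf, hi]
    rw [h1]
    exact contDiffAt_log.mpr (hr hi).ne'
  · have h1 : Tf i = fun x => x / i := by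
      funext x
      simp [Tf, hi]
    rw [h1]
    exact contDiffAt_id.div_const i

theorem mtailc_sm (i : ℝ) {d g c : ℝ} (hd : 0 < d) (hg : 0 < g) :
    ContDiffAt ℝ 2 (fun s : ℝ => Jf i (√(1 + s ^ 2) * (g + c * s)⁻¹ / d)) 0 := by
  have h1 : ContDiffAt ℝ 2 (fun s : ℝ => √(1 + s ^ 2) * (g + c * s)⁻¹ / d) 0 := by
    refine ContDiffAt.div_const (ContDiffAt.mul ?_ ?_) d
    · refine ContDiffAt.sqrt ?_ ?_
      · fun_prop
      · simp
    · refine ContDiffAt.inv ?_ ?_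
      · fun_prop
      · simp [hg.ne']
  have h2 : 0 < (fun s : ℝ => √(1 + s ^ 2) * (g + c * s)⁻¹ / d) 0 := by
    have h3 : 0 < √(1 + (0 : ℝ) ^ 2) * (g + c * 0)⁻¹ / d := by
      rw [mul_zero, add_zero]
      have : 0 < √(1 + (0 : ℝ) ^ 2) := Real.sqrt_pos.mpr (by norm_num)
      positivity
    exact h3
  exact (mtailc_jf i h2).comp (0 : ℝ) h1

theorem mtailc_le (i : ℝ) {K : Set E} (hK : IsBody K) {p e ω : E} (hp : p ∈ interior K)
    {d g c : ℝ} (hd : 0 < d) (hg : 0 < g) (hne : ∀ s : ℝ, e + s • ω ≠ 0)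
    (h : ∀ s, 0 < g + c * s → radial K p (e + s • ω) ≤ (g + c * s)⁻¹) :
    ∀ᶠ s in 𝓝 (0 : ℝ), Jf i (√(1 + s ^ 2) * radial K p (e + s • ω) / d) ≤
      Jf i (√(1 + s ^ 2) * (g + c * s)⁻¹ / d) := by
  have hev : ∀ᶠ s in 𝓝 (0 : ℝ), 0 < g + c * s := by
    have h1 : Tendsto (fun s : ℝ => g + c * s) (𝓝 0) (𝓝 (g + c * 0)) :=
      (by fun_prop : Continuous fun s : ℝ => g + c * s).tendsto 0
    exact h1.eventually_const_lt (by simpa using hg)
  filter_upwards [hev] with s hs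
  have hsq : 0 < √(1 + s ^ 2) := Real.sqrt_pos.mpr (by positivity)
  have hr := rad_pos hK hp (hne s)
  refine (jf_mono i).monotoneOn (Set.mem_Ioi.mpr ?_) (Set.mem_Ioi.mpr ?_) ?_
  · exact div_pos (mul_pos hsq hr) hd
  · exact div_pos (mul_pos hsq (inv_pos.mpr hs)) hd
  · exact div_le_div_of_nonneg_right (mul_le_mul_of_nonneg_left (h s hs) hsq.le) hd.le

/-- **First order expansion.**  `u s = J (√(1+s²) radial K p (e + s ω)/d)`,
`v s = J (√(1+s²) radial K p (-(e + s ω))/d)`.  By `rad_supp` (for `e`, `ω` and `-e`, `-ω`) and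
`jf_mono`: `u s ≤ hP s := J (√(1+s²)/(d (g + c s)))`, etc., with equality at `0`.
`u s + v s = d^{-i} T (F (e + s ω)) - 2 Jc d` (`rad_smul` with `e + s ω = √(1+s²) (unit vector)`,
`jf_mul`, `jf_tf`, homogeneity of `F`), a `C²` function of `s` near `0` (`F (e) > 0` as a chord
function).  `pinch` gives the estimate for `|s| ≤ s₁`; for `s₁ ≤ |s| ≤ 1` everything is bounded
(`rad_cont`, compactness, or `rad_bd`). -/
theorem tail_ex {K : Set E} (hK : IsBody K) {p e ω : E} (hp : p ∈ interior K) (ne : ‖e‖ = 1)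
    (nω : ‖ω‖ = 1) (o : inner ℝ e ω = (0 : ℝ)) {d : ℝ} (hd : 0 < d) {i : ℝ} {F : E → ℝ}
    (hF : EvC 2 F) (ch : ∀ u, ‖u‖ = 1 → chord i K p u = F u) : ∃ A B M : ℝ, ∀ s : ℝ, |s| ≤ 1 →
      |Jf i (√(1 + s ^ 2) * radial K p (e + s • ω) / d) - A - B * s| ≤ M * s ^ 2 := by
  have oω : inner ℝ ω e = (0 : ℝ) := by
    rw [real_inner_comm]
    exact o
  have hne : ∀ s : ℝ, e + s • ω ≠ 0 := by
    intro s
    have h := (un_facts nω ne oω s).2.2.1
    rwa [add_comm] at h
  have hsq : ∀ s : ℝ, 0 < √(1 + s ^ 2) := fun s => Real.sqrt_pos.mpr (by positivity)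
  have hpos : ∀ s : ℝ, 0 < √(1 + s ^ 2) * radial K p (e + s • ω) / d := fun s =>
    div_pos (mul_pos (hsq s) (rad_pos hK hp (hne s))) hd
  have hne2 : ∀ s : ℝ, -e + s • (-ω) ≠ 0 := by
    intro s h
    apply hne s
    rw [smul_neg, ← neg_add, neg_eq_zero] at h
    exact h
  have key : ∀ s, Jf i (√(1 + s ^ 2) * radial K p (e + s • ω) / d) +
      Jf i (√(1 + s ^ 2) * radial K p (-e + s • (-ω)) / d) =
      (d⁻¹) ^ i * Tf i (F (e + s • ω)) + 2 * Jc i d⁻¹ := by
    intro s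
    obtain ⟨-, n1, -, e1⟩ := un_facts nω ne oω s
    set w := un ω e s with hwdef
    have hw : w ≠ 0 := by
      intro h
      rw [h, norm_zero] at n1
      exact zero_ne_one n1
    have e2 : e + s • ω = √(1 + s ^ 2) • w := by
      rw [add_comm]
      exact e1
    have e3 : -e + s • (-ω) = √(1 + s ^ 2) • (-w) := by
      rw [smul_neg, ← neg_add, e2, smul_neg]
    have hs0 := (hsq s).ne'
    have r1 : √(1 + s ^ 2) * radial K p (e + s • ω) / d = d⁻¹ * radial K p w := by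
      rw [e2, rad_smul hK hp hw (hsq s)]
      field_simp
    have r2 : √(1 + s ^ 2) * radial K p (-e + s • (-ω)) / d = d⁻¹ * radial K p (-w) := by
      rw [e3, rad_smul hK hp (neg_ne_zero.mpr hw) (hsq s)]
      field_simp
    have hr1 := rad_pos hK hp hw
    have hr2 := rad_pos hK hp (neg_ne_zero.mpr hw)
    rw [r1, r2, jf_mul i (inv_pos.mpr hd) hr1, jf_mul i (inv_pos.mpr hd) hr2]
    have h3 := jf_tf i hr1 hr2
    have h4 : (if i = 0 then radial K p w * radial K p (-w)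
        else radial K p w ^ i + radial K p (-w) ^ i) = F (e + s • ω) := by
      rw [e2, hF.hom _ hs0, ← ch w n1]
      rfl
    rw [h4] at h3
    linear_combination (d⁻¹) ^ i * h3
  obtain ⟨g, c, hg, hrg, hgc⟩ := rad_supp hK hp ne nω o
  obtain ⟨g', c', hg', hrg', hgc'⟩ := rad_supp hK hp (v := -e) (ω := -ω)
    (by rw [norm_neg]; exact ne) (by rw [norm_neg]; exact nω) (by rw [inner_neg_neg]; exact o)
  have he0 : e ≠ 0 := by
    intro h
    rw [h, norm_zero] at ne
    exact zero_ne_one ne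
  have hFe : i = 0 → 0 < F e := by
    intro hi
    rw [← ch e ne]
    unfold chord
    rw [if_pos hi]
    exact mul_pos (rad_pos hK hp he0) (rad_pos hK hp (neg_ne_zero.mpr he0))
  have c3 : ContDiffAt ℝ 2 (fun s : ℝ => (d⁻¹) ^ i * Tf i (F (e + s • ω)) + 2 * Jc i d⁻¹) 0 := by
    have k1 : ContDiffAt ℝ 2 (fun s : ℝ => e + s • ω) 0 := by fun_prop
    have k2 : ContDiffAt ℝ 2 F ((fun s : ℝ => e + s • ω) 0) := by
      have h5 : (fun s : ℝ => e + s • ω) 0 = e := by simp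
      rw [h5]
      exact hF.c.contDiffAt (isOpen_compl_singleton.mem_nhds he0)
    have k3 : ContDiffAt ℝ 2 (fun s : ℝ => F (e + s • ω)) 0 := k2.comp (0 : ℝ) k1
    have k4 : ContDiffAt ℝ 2 (Tf i) ((fun s : ℝ => F (e + s • ω)) 0) := by
      refine mtailc_tf i fun hi => ?_
      show 0 < F (e + (0 : ℝ) • ω)
      rw [zero_smul, add_zero]
      exact hFe hi
    have k5 : ContDiffAt ℝ 2 (fun s : ℝ => Tf i (F (e + s • ω))) 0 :=
      ContDiffAt.comp (0 : ℝ) (g := Tf i) (f := fun s : ℝ => F (e + s • ω)) k4 k3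
    exact (contDiffAt_const.mul k5).add contDiffAt_const
  obtain ⟨B, C, hC, hBC⟩ := pinch (mtailc_sm i (c := c) hd hg) (mtailc_sm i (c := c') hd hg') c3
    (mtailc_le i hK hp hd hg hne hgc) (mtailc_le i hK hp hd hg' hne2 hgc')
    (Eventually.of_forall key)
    (by
      show Jf i (√(1 + (0 : ℝ) ^ 2) * (g + c * 0)⁻¹ / d) =
        Jf i (√(1 + (0 : ℝ) ^ 2) * radial K p (e + (0 : ℝ) • ω) / d)
      rw [zero_smul, add_zero, hrg, mul_zero, add_zero])
    (by
      show Jf i (√(1 + (0 : ℝ) ^ 2) * (g' + c' * 0)⁻¹ / d) =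
        Jf i (√(1 + (0 : ℝ) ^ 2) * radial K p (-e + (0 : ℝ) • (-ω)) / d)
      rw [zero_smul, add_zero, hrg', mul_zero, add_zero])
  obtain ⟨δ, hδ, hδ2⟩ := Metric.eventually_nhds_iff.mp hBC
  have hcu : Continuous (fun s : ℝ => Jf i (√(1 + s ^ 2) * radial K p (e + s • ω) / d)) := by
    rw [continuous_iff_continuousAt]
    intro s
    have k1 : ContinuousAt (fun s : ℝ => radial K p (e + s • ω)) s := by
      have k2 : ContinuousAt (radial K p) ((fun s : ℝ => e + s • ω) s) :=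
        (rad_cont hK hp).continuousAt (isOpen_compl_singleton.mem_nhds (hne s))
      have k3 : ContinuousAt (fun s : ℝ => e + s • ω) s := by fun_prop
      exact ContinuousAt.comp (f := fun s : ℝ => e + s • ω) k2 k3
    have k4 : ContinuousAt (fun s : ℝ => √(1 + s ^ 2)) s := by fun_prop
    have k5 : ContinuousAt (fun s : ℝ => √(1 + s ^ 2) * radial K p (e + s • ω) / d) s :=
      (k4.mul k1).div_const d
    have k6 : ContinuousAt (Jf i) ((fun s : ℝ => √(1 + s ^ 2) * radial K p (e + s • ω) / d) s) :=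
      (jf_cont i).continuousAt (Ioi_mem_nhds (hpos s))
    exact ContinuousAt.comp (f := fun s : ℝ => √(1 + s ^ 2) * radial K p (e + s • ω) / d) k6 k5
  obtain ⟨M0, hM0⟩ := isCompact_Icc.exists_bound_of_continuousOn (s := Icc (-1 : ℝ) 1)
    hcu.continuousOn
  have hM00 : 0 ≤ M0 := (norm_nonneg _).trans (hM0 0 ⟨by norm_num, by norm_num⟩)
  refine ⟨Jf i (√(1 + (0 : ℝ) ^ 2) * radial K p (e + (0 : ℝ) • ω) / d), B,
    C + (2 * M0 + |B|) / δ ^ 2, fun s hs => ?_⟩
  have hnn : 0 ≤ (2 * M0 + |B|) / δ ^ 2 := by positivity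
  by_cases hsδ : |s| < δ
  · have h6 := hδ2 (y := s) (by rwa [Real.dist_eq, sub_zero])
    calc _ ≤ C * s ^ 2 := h6
      _ ≤ (C + (2 * M0 + |B|) / δ ^ 2) * s ^ 2 := by
        refine mul_le_mul_of_nonneg_right ?_ (sq_nonneg s)
        linarith
  · push Not at hsδ
    have hs' := abs_le.mp hs
    have b1 := hM0 s ⟨hs'.1, hs'.2⟩
    have b2 := hM0 0 ⟨by norm_num, by norm_num⟩
    rw [Real.norm_eq_abs] at b1 b2
    have b3 : |B * s| ≤ |B| := by
      rw [abs_mul]
      calc |B| * |s| ≤ |B| * 1 := mul_le_mul_of_nonneg_left hs (abs_nonneg _)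
        _ = |B| := mul_one _
    have b4 : δ ^ 2 ≤ s ^ 2 := by
      rw [← sq_abs s]
      exact pow_le_pow_left₀ hδ.le hsδ 2
    have b5 : 2 * M0 + |B| ≤ (2 * M0 + |B|) / δ ^ 2 * s ^ 2 := by
      rw [div_mul_eq_mul_div, le_div_iff₀ (by positivity)]
      exact mul_le_mul_of_nonneg_left b4 (by positivity)
    have b6 : 0 ≤ C * s ^ 2 := by positivity
    rw [add_mul]
    have b7 : |Jf i (√(1 + s ^ 2) * radial K p (e + s • ω) / d) -
        Jf i (√(1 + (0 : ℝ) ^ 2) * radial K p (e + (0 : ℝ) • ω) / d) - B * s| ≤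
        M0 + M0 + |B| := by
      refine (abs_sub _ _).trans ?_
      refine add_le_add ((abs_sub _ _).trans (add_le_add b1 b2)) b3
    linarith

end CI
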