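import Pool.Agent.H.MP_1693ff_gtD.MCls
import Pool.Agent.H.MP_1693ff_gtD.MTailC

/-!
# Every pair is in one of countably many classes
-/

namespace CI

open Real Set Filter Topology MeasureTheory
open CF hiding St

variable {E : Type*} [NormedAddCommGroup E] [InnerProductSpace ℝ E]

theorem mclsb_np {c : Bool → E} (hc : LinearIndependent ℝ c) (cn : ∀ b, ‖c b‖ = 1) (e : E) :
    ∃ b, ∀ x : ℝ, c b ≠ x • e := by
  by_contra hcon
  push Not at hcon
  obtain ⟨x, hx⟩ := hcon true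
  obtain ⟨y, hy⟩ := hcon false
  have h1 := Fintype.linearIndependent_iff.1 hc (fun b => if b then y else -x) (by
    rw [Fintype.sum_bool, hx, hy]
    simp only [if_true, Bool.false_eq_true, if_false]
    rw [smul_smul, smul_smul, neg_mul, neg_smul, mul_comm y x, add_neg_cancel]) true
  simp only [if_true] at h1
  have h2 := cn false
  rw [hy, h1, zero_smul, norm_zero] at h2
  exact zero_ne_one h2

/-- `d = ‖p₂ - p₁‖`, `e = (p₂ - p₁)/d`; one of the `c b` is not parallel to `e` (otherwise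
they would be linearly dependent); `exists_ω`, `tail_ex`, `Cl.mono_ex`. -/
theorem exists_cl {c : Bool → E} (hc : LinearIndependent ℝ c) (cn : ∀ b, ‖c b‖ = 1) {i : ℝ}
    {f₁ F₂ : E → ℝ} (hF : EvC 2 F₂) (h : IsPair i f₁ F₂) : ∃ (m : ℕ) (b : Bool), 1 ≤ m ∧
      ∃ (K : Set E) (p e ω : E) (d A B : ℝ), Cl i m (c b) f₁ F₂ K p e ω d A B := by
  obtain ⟨K, p₁, p₂, hK, hne, h1, h2, ch1, ch2⟩ := h
  have hd : 0 < ‖p₂ - p₁‖ := norm_pos_iff.2 (sub_ne_zero.2 hne.symm)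
  set d : ℝ := ‖p₂ - p₁‖ with hdd
  set e : E := d⁻¹ • (p₂ - p₁) with he
  have ne : ‖e‖ = 1 := by
    rw [he, norm_smul, norm_inv, Real.norm_eq_abs, abs_of_pos hd, ← hdd]
    exact inv_mul_cancel₀ hd.ne'
  have hp : p₁ + d • e = p₂ := by
    rw [he, smul_smul, mul_inv_cancel₀ hd.ne', one_smul]
    abel
  obtain ⟨b, hb⟩ := mclsb_np hc cn e
  obtain ⟨ω, nω, o, cc, cy⟩ := exists_ω ne hb
  have h2' : p₁ + d • e ∈ interior K := by rw [hp]; exact h2
  have ch2' : ∀ u, ‖u‖ = 1 → chord i K (p₁ + d • e) u = F₂ u := by rw [hp]; exact ch2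
  obtain ⟨A, B, M, hM⟩ := tail_ex hK h2' ne nω o hd hF ch2'
  obtain ⟨m, hm, hcl⟩ := Cl.mono_ex hK ne nω o hd h1 h2' (cn b) cc cy hM ch1 ch2'
  exact ⟨m, b, hm, K, p₁, e, ω, d, A, B, hcl⟩

end CI
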