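import Pool.Agent.H.MP_1693ff_gtD.MJB

/-!
# Comparison of two bodies: chord functions
-/

namespace CI

open Real Set Filter Topology MeasureTheory
open CF hiding St

/-- powers are bounded above and below on `[1/m, m]` -/
theorem mcmp_bd {m : ℝ} (hm : 1 ≤ m) (s : ℝ) {t : ℝ} (ht : t ∈ Icc m⁻¹ m) :
    m ^ (-|s|) ≤ t ^ s ∧ t ^ s ≤ m ^ |s| := by
  have hm0 : 0 < m := by linarith
  have ht0 : 0 < t := lt_of_lt_of_le (inv_pos.mpr hm0) ht.1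
  have h1 : |log t| ≤ log m := by
    rw [abs_le]
    refine ⟨?_, Real.log_le_log ht0 ht.2⟩
    rw [← Real.log_inv]
    exact Real.log_le_log (inv_pos.mpr hm0) ht.1
  have h2 : |log t * s| ≤ log m * |s| := by
    rw [abs_mul]
    exact mul_le_mul_of_nonneg_right h1 (abs_nonneg s)
  rw [Real.rpow_def_of_pos hm0, Real.rpow_def_of_pos ht0, Real.rpow_def_of_pos hm0]
  obtain ⟨h3, h4⟩ := abs_le.1 h2
  refine ⟨Real.exp_le_exp.2 ?_, Real.exp_le_exp.2 h4⟩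
  linarith

/-- powers are Lipschitz on `[1/m, m]` -/
theorem mcmp_lip {m : ℝ} (hm : 1 ≤ m) (s : ℝ) {t t' : ℝ} (ht : t ∈ Icc m⁻¹ m)
    (ht' : t' ∈ Icc m⁻¹ m) : |t ^ s - t' ^ s| ≤ (|s| * m ^ |s - 1|) * |t - t'| := by
  have hm0 : 0 < m := by linarith
  have h1 := Convex.norm_image_sub_le_of_norm_hasDerivWithin_le (f := fun t : ℝ => t ^ s)
    (f' := fun t => s * t ^ (s - 1)) (C := |s| * m ^ |s - 1|) (s := Icc m⁻¹ m) (x := t') (y := t)
    (fun x hx => (Real.hasDerivAt_rpow_const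
      (Or.inl (lt_of_lt_of_le (inv_pos.mpr hm0) hx.1).ne')).hasDerivWithinAt)
    (fun x hx => by
      have hx0 : 0 < x := lt_of_lt_of_le (inv_pos.mpr hm0) hx.1
      rw [norm_mul, Real.norm_eq_abs, Real.norm_eq_abs, abs_of_pos (Real.rpow_pos_of_pos hx0 _)]
      exact mul_le_mul_of_nonneg_left (mcmp_bd hm (s - 1) hx).2 (abs_nonneg s))
    (convex_Icc _ _) ht' ht
  exact h1

/-- `log` is Lipschitz on `[1/m, m]` -/
theorem mcmp_log {m : ℝ} (hm : 1 ≤ m) {t t' : ℝ} (ht : t ∈ Icc m⁻¹ m)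
    (ht' : t' ∈ Icc m⁻¹ m) : |log t - log t'| ≤ m * |t - t'| := by
  have hm0 : 0 < m := by linarith
  have h1 := Convex.norm_image_sub_le_of_norm_hasDerivWithin_le (f := fun t : ℝ => log t)
    (f' := fun t => t⁻¹) (C := m) (s := Icc m⁻¹ m) (x := t') (y := t)
    (fun x hx => (Real.hasDerivAt_log
      (lt_of_lt_of_le (inv_pos.mpr hm0) hx.1).ne').hasDerivWithinAt)
    (fun x hx => by
      have hx0 : 0 < x := lt_of_lt_of_le (inv_pos.mpr hm0) hx.1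
      rw [Real.norm_eq_abs, abs_of_pos (inv_pos.mpr hx0)]
      have h2 := inv_anti₀ (inv_pos.mpr hm0) hx.1
      rwa [inv_inv] at h2)
    (convex_Icc _ _) ht' ht
  exact h1

/-- the logarithmic term -/
theorem mcmp_jc (i : ℝ) {m : ℝ} (hm : 1 ≤ m) {t t' : ℝ} (ht : t ∈ Icc m⁻¹ m)
    (ht' : t' ∈ Icc m⁻¹ m) {L : ℝ} (hL : 0 < L) :
    |Jc i (t * L) - Jc i (t' * L)| ≤ m * |t - t'| := by
  have hm0 : 0 < m := by linarith
  have ht0 : 0 < t := lt_of_lt_of_le (inv_pos.mpr hm0) ht.1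
  have ht0' : 0 < t' := lt_of_lt_of_le (inv_pos.mpr hm0) ht'.1
  unfold Jc
  by_cases hi : i = 0
  · rw [if_pos hi, if_pos hi, Real.log_mul ht0.ne' hL.ne', Real.log_mul ht0'.ne' hL.ne']
    have h1 : log t + log L - (log t' + log L) = log t - log t' := by ring
    rw [h1]
    exact mcmp_log hm ht ht'
  · rw [if_neg hi, if_neg hi, sub_zero, abs_zero]
    positivity

theorem mcmp_one_le (a : ℝ) : 1 ≤ √(1 + a ^ 2) := by
  rw [Real.one_le_sqrt]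
  nlinarith [sq_nonneg a]

theorem mcmp_sqrt_le (a : ℝ) : √(1 + a ^ 2) ≤ 1 + |a| := by
  rw [Real.sqrt_le_left (by positivity)]
  have := abs_nonneg a
  nlinarith [sq_abs a]

/-- the power of `√(1+a²)` -/
theorem mcmp_pow_le {i : ℝ} (hi : -1 < i) (a : ℝ) : √(1 + a ^ 2) ^ (-i) ≤ 1 + |a| := by
  have h1 : √(1 + a ^ 2) ^ (-i) ≤ √(1 + a ^ 2) ^ (1 : ℝ) :=
    Real.rpow_le_rpow_of_exponent_le (mcmp_one_le a) (by linarith)
  rw [Real.rpow_one] at h1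
  exact h1.trans (mcmp_sqrt_le a)

/-- lower bound for the power of `√(1+a²)` -/
theorem mcmp_pow_ge (i : ℝ) {m a : ℝ} (hm : 1 ≤ m) (ha : |a| ≤ m + 1) :
    (m + 2) ^ (-|-i|) ≤ √(1 + a ^ 2) ^ (-i) := by
  refine (mcmp_bd (m := m + 2) (by linarith) (-i) ⟨?_, ?_⟩).1
  · have h1 : (m + 2)⁻¹ ≤ 1 := by
      rw [inv_le_one_iff₀]
      right
      linarith
    exact h1.trans (mcmp_one_le a)
  · have := mcmp_sqrt_le a
    linarith

/-- With `Λ = √(1+a²)`, `(d Λ)^{-i} = d^{-i} Λ^{-i}`, `Λ^{-i} ≤ 1 + |a|` (`i ≥ -1`, `1 ≤ Λ ≤ 1+|a|`)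
the difference is `Λ^{-i} (d^{-i} T x - d'^{-i} T x') - 2 (Jc (dΛ) - Jc (d'Λ))`; the last term is
`0` for `i ≠ 0` and `2 (log d - log d')` for `i = 0`.  `tf_lip`; `d ↦ d^{-i}`, `log` are Lipschitz
on `[1/m, m]`.  For `|a| ≤ m + 1`: `Λ^{-i}` is bounded below. -/
theorem psi_cmp {i m c₀ C₀ : ℝ} (hi : -1 < i) (hm : 1 ≤ m) (hc : 0 < c₀) (hcC : c₀ ≤ C₀) :
    ∃ M l : ℝ, 0 < M ∧ 0 < l ∧ ∀ d ∈ Icc m⁻¹ m, ∀ d' ∈ Icc m⁻¹ m, ∀ x ∈ Icc c₀ C₀,
      ∀ x' ∈ Icc c₀ C₀, ∀ a : ℝ,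
      |((d * √(1 + a ^ 2)) ^ (-i) * Tf i x - 2 * Jc i (d * √(1 + a ^ 2))) -
        ((d' * √(1 + a ^ 2)) ^ (-i) * Tf i x' - 2 * Jc i (d' * √(1 + a ^ 2)))| ≤
          M * (|d - d'| + |x - x'|) * (1 + |a|) ∧
      (|a| ≤ m + 1 → l * |x - x'| - M * |d - d'| ≤
        |((d * √(1 + a ^ 2)) ^ (-i) * Tf i x - 2 * Jc i (d * √(1 + a ^ 2))) -
        ((d' * √(1 + a ^ 2)) ^ (-i) * Tf i x' - 2 * Jc i (d' * √(1 + a ^ 2)))|) := by
  have hm0 : 0 < m := by linarith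
  obtain ⟨l0, L, hl0, hL, hT, hlip⟩ := tf_lip i hc hcC
  obtain ⟨Ld, hLd⟩ : ∃ Ld : ℝ, Ld = |(-i)| * m ^ |(-i) - 1| := ⟨_, rfl⟩
  obtain ⟨D, hD⟩ : ∃ D : ℝ, D = m ^ |(-i)| := ⟨_, rfl⟩
  obtain ⟨δ, hδ⟩ : ∃ δ : ℝ, δ = m ^ (-|(-i)|) := ⟨_, rfl⟩
  obtain ⟨κ, hκ⟩ : ∃ κ : ℝ, κ = (m + 2) ^ (-|(-i)|) := ⟨_, rfl⟩
  have hLd0 : 0 ≤ Ld := by rw [hLd]; positivity
  have hD0 : 0 < D := by rw [hD]; positivity
  have hδ0 : 0 < δ := by rw [hδ]; positivity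
  have hκ0 : 0 < κ := by rw [hκ]; positivity
  refine ⟨(m + 2) * (Ld * L) + D * L + 2 * m, κ * (δ * l0), by positivity, by positivity, ?_⟩
  intro d hd d' hd' x hx x' hx' a
  have hd0 : 0 < d := lt_of_lt_of_le (inv_pos.mpr hm0) hd.1
  have hd0' : 0 < d' := lt_of_lt_of_le (inv_pos.mpr hm0) hd'.1
  obtain ⟨Λ, hΛ⟩ : ∃ Λ : ℝ, Λ = √(1 + a ^ 2) := ⟨_, rfl⟩
  have hΛ1 : 1 ≤ Λ := by rw [hΛ]; exact mcmp_one_le a
  have hΛ0 : 0 < Λ := by linarith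
  obtain ⟨P, hP⟩ : ∃ P : ℝ, P = Λ ^ (-i) := ⟨_, rfl⟩
  have hP0 : 0 < P := by rw [hP]; exact Real.rpow_pos_of_pos hΛ0 _
  have hP1 : P ≤ 1 + |a| := by rw [hP, hΛ]; exact mcmp_pow_le hi a
  rw [← hΛ, Real.mul_rpow hd0.le hΛ0.le, Real.mul_rpow hd0'.le hΛ0.le, ← hP]
  obtain ⟨u, hu⟩ : ∃ u : ℝ, u = d ^ (-i) := ⟨_, rfl⟩
  obtain ⟨u', hu'⟩ : ∃ u' : ℝ, u' = d' ^ (-i) := ⟨_, rfl⟩
  have huu : |u - u'| ≤ Ld * |d - d'| := by
    rw [hu, hu', hLd]; exact mcmp_lip hm (-i) hd hd'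
  have hu1 : u' ≤ D := by rw [hu', hD]; exact (mcmp_bd hm (-i) hd').2
  have hu2 : δ ≤ u' := by rw [hu', hδ]; exact (mcmp_bd hm (-i) hd').1
  have hj : |Jc i (d * Λ) - Jc i (d' * Λ)| ≤ m * |d - d'| := mcmp_jc i hm hd hd' hΛ0
  rw [← hu, ← hu']
  obtain ⟨T, hT1⟩ : ∃ T : ℝ, T = Tf i x := ⟨_, rfl⟩
  obtain ⟨T', hT1'⟩ : ∃ T' : ℝ, T' = Tf i x' := ⟨_, rfl⟩
  have hTb : |T| ≤ L := by rw [hT1]; exact hT x hx
  have hTl : l0 * |x - x'| ≤ |T - T'| := by rw [hT1, hT1']; exact (hlip x hx x' hx').1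
  have hTL : |T - T'| ≤ L * |x - x'| := by rw [hT1, hT1']; exact (hlip x hx x' hx').2
  obtain ⟨J, hJ⟩ : ∃ J : ℝ, J = Jc i (d * Λ) - Jc i (d' * Λ) := ⟨_, rfl⟩
  rw [← hT1, ← hT1']
  have e1 : u * P * T - 2 * Jc i (d * Λ) - (u' * P * T' - 2 * Jc i (d' * Λ)) =
      P * ((u - u') * T + u' * (T - T')) - 2 * J := by
    rw [hJ]; ring
  rw [e1]
  rw [← hJ] at hj
  obtain ⟨X, hX⟩ : ∃ X : ℝ, X = |d - d'| := ⟨_, rfl⟩
  obtain ⟨Z, hZ⟩ : ∃ Z : ℝ, Z = |x - x'| := ⟨_, rfl⟩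
  have hX0 : 0 ≤ X := by rw [hX]; exact abs_nonneg _
  have hZ0 : 0 ≤ Z := by rw [hZ]; exact abs_nonneg _
  rw [← hX] at huu hj
  rw [← hZ] at hTl hTL
  rw [← hX, ← hZ]
  have ha0 : 0 ≤ |a| := abs_nonneg a
  have hv1 : |(u - u') * T| ≤ Ld * L * X := by
    rw [abs_mul]
    calc |u - u'| * |T| ≤ (Ld * X) * L := mul_le_mul huu hTb (abs_nonneg _) (by positivity)
      _ = Ld * L * X := by ring
  have hu0' : 0 ≤ u' := hδ0.le.trans hu2
  have hv2 : |u' * (T - T')| ≤ D * L * Z := by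
    rw [abs_mul, abs_of_nonneg hu0']
    calc u' * |T - T'| ≤ D * (L * Z) := mul_le_mul hu1 hTL (abs_nonneg _) hD0.le
      _ = D * L * Z := by ring
  have hv3 : δ * l0 * Z ≤ |u' * (T - T')| := by
    rw [abs_mul, abs_of_nonneg hu0']
    calc δ * l0 * Z = δ * (l0 * Z) := by ring
      _ ≤ u' * |T - T'| := mul_le_mul hu2 hTl (by positivity) hu0'
  have hv4 : |2 * J| ≤ 2 * m * X := by
    rw [abs_mul, abs_two]
    linarith
  constructor
  · calc |P * ((u - u') * T + u' * (T - T')) - 2 * J|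
        ≤ |P * ((u - u') * T + u' * (T - T'))| + |2 * J| := abs_sub _ _
      _ = P * |(u - u') * T + u' * (T - T')| + |2 * J| := by rw [abs_mul, abs_of_pos hP0]
      _ ≤ (1 + |a|) * (Ld * L * X + D * L * Z) + (1 + |a|) * (2 * m * X) := by
          refine add_le_add ?_ ?_
          · refine mul_le_mul hP1 ?_ (abs_nonneg _) (by positivity)
            exact (abs_add_le _ _).trans (add_le_add hv1 hv2)
          · refine hv4.trans ?_
            have : 0 ≤ 2 * m * X := by positivity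
            nlinarith
      _ = (Ld * L * X + D * L * Z + 2 * m * X) * (1 + |a|) := by ring
      _ ≤ ((m + 2) * (Ld * L) + D * L + 2 * m) * (X + Z) * (1 + |a|) := by
          refine mul_le_mul_of_nonneg_right ?_ (by positivity)
          have p1 : 0 ≤ Ld * L := by positivity
          have p2 : 0 ≤ D * L := by positivity
          have e2 : ((m + 2) * (Ld * L) + D * L + 2 * m) * (X + Z) -
              (Ld * L * X + D * L * Z + 2 * m * X) =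
              (m + 1) * (Ld * L) * X + (m + 2) * (Ld * L) * Z + D * L * X + 2 * m * Z := by ring
          have e3 : 0 ≤ (m + 1) * (Ld * L) * X + (m + 2) * (Ld * L) * Z + D * L * X +
              2 * m * Z := by positivity
          linarith
  · intro ha
    have hP2 : κ ≤ P := by rw [hκ, hP, hΛ]; exact mcmp_pow_ge i hm ha
    have hP3 : P ≤ m + 2 := by linarith
    have h1 : |P * ((u - u') * T + u' * (T - T'))| - |2 * J| ≤
        |P * ((u - u') * T + u' * (T - T')) - 2 * J| := abs_sub_abs_le_abs_sub _ _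
    have h2 : P * (|u' * (T - T')| - |(u - u') * T|) ≤ |P * ((u - u') * T + u' * (T - T'))| := by
      rw [abs_mul P, abs_of_pos hP0]
      refine mul_le_mul_of_nonneg_left ?_ hP0.le
      have h3 := abs_sub_abs_le_abs_sub (u' * (T - T')) (-((u - u') * T))
      rw [abs_neg, sub_neg_eq_add, add_comm (u' * (T - T'))] at h3
      exact h3
    have h4 : κ * (δ * l0) * Z ≤ P * |u' * (T - T')| := by
      calc κ * (δ * l0) * Z = κ * (δ * l0 * Z) := by ring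
        _ ≤ P * |u' * (T - T')| := mul_le_mul hP2 hv3 (by positivity) hP0.le
    have h5 : P * |(u - u') * T| ≤ (m + 2) * (Ld * L * X) :=
      mul_le_mul hP3 hv1 (abs_nonneg _) (by linarith)
    have h6 : 0 ≤ D * L * X := by positivity
    have e4 : ((m + 2) * (Ld * L) + D * L + 2 * m) * X =
        (m + 2) * (Ld * L * X) + D * L * X + 2 * m * X := by ring
    have h7 : P * (|u' * (T - T')| - |(u - u') * T|) =
        P * |u' * (T - T')| - P * |(u - u') * T| := by ring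
    linarith

end CI
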