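import Pool.Agent.H.MP_1693ff_gtD.MSy
import Pool.Agent.H.MP_1693ff_gtD.MJ

/-!
# Comparison of two bodies: near the axis
-/

namespace CI

open Real Set Filter Topology MeasureTheory
open CF hiding St

variable {E : Type*} [NormedAddCommGroup E] [InnerProductSpace ℝ E]

theorem mcmpb_ne {e ω : E} (ne : ‖e‖ = 1) (o : inner ℝ e ω = (0 : ℝ)) (s : ℝ) :
    e + s • ω ≠ 0 := by
  intro h0
  have h1 : inner ℝ e (e + s • ω) = (0 : ℝ) := by rw [h0, inner_zero_right]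
  rw [inner_add_right, inner_smul_right, o, mul_zero, add_zero, real_inner_self_eq_norm_sq, ne] at h1
  norm_num at h1

/-- the factor -/
theorem mcmpb_pow {i a s : ℝ} (hi : -1 < i) (ha : 1 ≤ a) (hs : s ^ 2 = 1 / a ^ 2) :
    ((a * √(1 + s ^ 2))⁻¹) ^ i ≤ 2 * a ^ (-i) := by
  have ha0 : 0 < a := lt_of_lt_of_le one_pos ha
  have hs0 : 0 ≤ s ^ 2 := sq_nonneg s
  have hs1 : s ^ 2 ≤ 1 := by
    rw [hs]
    exact div_le_one_of_le₀ (one_le_pow₀ ha) (by positivity)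
  have hq1 : 1 ≤ √(1 + s ^ 2) := by
    rw [show (1 : ℝ) = √1 from Real.sqrt_one.symm]
    refine Real.sqrt_le_sqrt ?_
    rw [Real.sqrt_one]
    linarith
  have hq2 : √(1 + s ^ 2) ≤ 2 := by
    rw [Real.sqrt_le_left (by norm_num)]
    linarith
  have hq0 : 0 < √(1 + s ^ 2) := lt_of_lt_of_le one_pos hq1
  rw [Real.inv_rpow (by positivity), ← Real.rpow_neg (by positivity),
    Real.mul_rpow ha0.le hq0.le, mul_comm]
  refine mul_le_mul_of_nonneg_right ?_ (Real.rpow_nonneg ha0.le _)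
  calc √(1 + s ^ 2) ^ (-i) ≤ √(1 + s ^ 2) ^ (1 : ℝ) :=
        Real.rpow_le_rpow_of_exponent_le hq1 (by linarith)
    _ = √(1 + s ^ 2) := Real.rpow_one _
    _ ≤ 2 := hq2

/-- the comparison in the direction `e + s ω`, `s = ± 1/a` -/
theorem mcmpb_aux {i m d A B d' A' B' ε : ℝ} {c p e ω p' e' ω' : E} {f₁ F₂ F₂' : E → ℝ}
    {K K' : Set E} (hi : -1 < i) (hm : 1 ≤ m) (h : Cl i m c f₁ F₂ K p e ω d A B)
    (h' : Cl i m c f₁ F₂' K' p' e' ω' d' A' B') (hA : |A - A'| ≤ ε) (hB : |B - B'| ≤ ε)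
    {a s : ℝ} (ha : 1 ≤ a) (hs : s ^ 2 = 1 / a ^ 2) :
    |Jf i (radial K (p + d • e) (a • (e + s • ω)) / d) -
      Jf i (radial K' (p' + d' • e') (a • (e' + s • ω')) / d')| ≤
        4 * m * (ε + 1 / a ^ 2) * a ^ (-i) := by
  have ha0 : 0 < a := lt_of_lt_of_le one_pos ha
  have hs0 : 0 ≤ s ^ 2 := sq_nonneg s
  have hs1 : |s| ≤ 1 := by
    rw [← sq_le_one_iff_abs_le_one, hs]
    exact div_le_one_of_le₀ (one_le_pow₀ ha) (by positivity)
  have hq0 : 0 < √(1 + s ^ 2) := Real.sqrt_pos.2 (by positivity)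
  obtain ⟨-, hp, hd⟩ := h.int hm
  obtain ⟨-, hp', hd'⟩ := h'.int hm
  have hr := rad_pos h.body hp (mcmpb_ne h.ne h.o s)
  have hr' := rad_pos h'.body hp' (mcmpb_ne h'.ne h'.o s)
  have hc0 : 0 < (a * √(1 + s ^ 2))⁻¹ := by positivity
  have e1 : radial K (p + d • e) (a • (e + s • ω)) / d =
      (a * √(1 + s ^ 2))⁻¹ * (√(1 + s ^ 2) * radial K (p + d • e) (e + s • ω) / d) := by
    rw [rad_smul h.body hp (mcmpb_ne h.ne h.o s) ha0]
    field_simp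
  have e2 : radial K' (p' + d' • e') (a • (e' + s • ω')) / d' =
      (a * √(1 + s ^ 2))⁻¹ * (√(1 + s ^ 2) * radial K' (p' + d' • e') (e' + s • ω') / d') := by
    rw [rad_smul h'.body hp' (mcmpb_ne h'.ne h'.o s) ha0]
    field_simp
  rw [e1, e2, jf_mul i hc0 (by positivity), jf_mul i hc0 (by positivity)]
  have t1 := h.tail s hs1
  have t2 := h'.tail s hs1
  have hp := mcmpb_pow hi ha hs
  have hpn : 0 ≤ ((a * √(1 + s ^ 2))⁻¹) ^ i := Real.rpow_nonneg hc0.le _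
  have han : 0 ≤ a ^ (-i) := Real.rpow_nonneg ha0.le _
  have hε : 0 ≤ ε := (abs_nonneg _).trans hA
  generalize Jf i (√(1 + s ^ 2) * radial K (p + d • e) (e + s • ω) / d) = X at t1 ⊢
  generalize Jf i (√(1 + s ^ 2) * radial K' (p' + d' • e') (e' + s • ω') / d') = X' at t2 ⊢
  generalize ((a * √(1 + s ^ 2))⁻¹) ^ i = Q at hp hpn ⊢
  have hX : |X - X'| ≤ 2 * ε + 2 * m * s ^ 2 := by
    have h3 : |(B - B') * s| ≤ ε := by
      rw [abs_mul]
      calc |B - B'| * |s| ≤ ε * 1 := mul_le_mul hB hs1 (abs_nonneg _) hε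
        _ = ε := mul_one _
    rw [abs_le] at t1 t2 hA h3 ⊢
    obtain ⟨t1a, t1b⟩ := t1
    obtain ⟨t2a, t2b⟩ := t2
    obtain ⟨a1, a2⟩ := hA
    obtain ⟨b1, b2⟩ := h3
    constructor <;> nlinarith
  have e3 : Q * X + Jc i (a * √(1 + s ^ 2))⁻¹ - (Q * X' + Jc i (a * √(1 + s ^ 2))⁻¹) =
      Q * (X - X') := by ring
  rw [e3, abs_mul, abs_of_nonneg hpn]
  have h4 : 2 * ε + 2 * m * s ^ 2 ≤ 2 * m * (ε + 1 / a ^ 2) := by
    rw [hs]
    nlinarith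
  calc Q * |X - X'| ≤ (2 * a ^ (-i)) * (2 * m * (ε + 1 / a ^ 2)) :=
        mul_le_mul hp (hX.trans h4) (abs_nonneg _) (by positivity)
    _ = 4 * m * (ε + 1 / a ^ 2) * a ^ (-i) := by ring

/-- For `a ≥ 1`, `s = 1/a`: `radial K p₂ (a e + ω)/d = (1+a²)^{-1/2} X`,
`X = √(1+s²) radial K p₂ (e + s ω)/d` (`rad_smul`, `√(1+a²) s = √(1+s²)`), so by `jf_mul` the
difference is `(1+a²)^{-i/2} (J X - J X')` and `tail` gives `|J X - J X'| ≤ 2ε + 2m/a²`;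
`(1+a²)^{-i/2} ≤ 2 a^{-i}`. -/
theorem cmp_t3 {i m d A B d' A' B' ε : ℝ} {c p e ω p' e' ω' : E} {f₁ F₂ F₂' : E → ℝ}
    {K K' : Set E} (hi : -1 < i) (hm : 1 ≤ m) (h : Cl i m c f₁ F₂ K p e ω d A B)
    (h' : Cl i m c f₁ F₂' K' p' e' ω' d' A' B') (hA : |A - A'| ≤ ε) (hB : |B - B'| ≤ ε)
    {a : ℝ} (ha : 1 ≤ a) :
    |Jf i (radial K (p + d • e) (a • e + ω) / d) -
      Jf i (radial K' (p' + d' • e') (a • e' + ω') / d')| ≤
        4 * m * (ε + 1 / a ^ 2) * a ^ (-i) := by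
  have ha0 : 0 < a := lt_of_lt_of_le one_pos ha
  have h1 := mcmpb_aux hi hm h h' hA hB ha (s := 1 / a) (by rw [div_pow, one_pow])
  have e1 : a • (e + (1 / a) • ω) = a • e + ω := by
    rw [smul_add, smul_smul, mul_one_div_cancel ha0.ne', one_smul]
  have e2 : a • (e' + (1 / a) • ω') = a • e' + ω' := by
    rw [smul_add, smul_smul, mul_one_div_cancel ha0.ne', one_smul]
  rw [e1, e2] at h1
  exact h1

/-- The same for `-(-a e + ω) = a (e + s ω)`, `s = -1/a`. -/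
theorem cmp_t4 {i m d A B d' A' B' ε : ℝ} {c p e ω p' e' ω' : E} {f₁ F₂ F₂' : E → ℝ}
    {K K' : Set E} (hi : -1 < i) (hm : 1 ≤ m) (h : Cl i m c f₁ F₂ K p e ω d A B)
    (h' : Cl i m c f₁ F₂' K' p' e' ω' d' A' B') (hA : |A - A'| ≤ ε) (hB : |B - B'| ≤ ε)
    {a : ℝ} (ha : 1 ≤ a) :
    |Jf i (radial K (p + d • e) (-((-a) • e + ω)) / d) -
      Jf i (radial K' (p' + d' • e') (-((-a) • e' + ω')) / d')| ≤
        4 * m * (ε + 1 / a ^ 2) * a ^ (-i) := by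
  have ha0 : 0 < a := lt_of_lt_of_le one_pos ha
  have h1 := mcmpb_aux hi hm h h' hA hB ha (s := -(1 / a)) (by rw [neg_sq, div_pow, one_pow])
  have e1 : a • (e + (-(1 / a)) • ω) = -((-a) • e + ω) := by
    rw [smul_add, smul_smul, mul_neg, mul_one_div_cancel ha0.ne', neg_smul, one_smul, neg_smul,
      neg_add, neg_neg]
  have e2 : a • (e' + (-(1 / a)) • ω') = -((-a) • e' + ω') := by
    rw [smul_add, smul_smul, mul_neg, mul_one_div_cancel ha0.ne', neg_smul, one_smul, neg_smul,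
      neg_add, neg_neg]
  rw [e1, e2] at h1
  exact h1

end CI
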