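import Pool.Agent.H.MP_1693ff_gtD.MDefs

/-!
# A counting argument
-/

namespace CI

open Real Set Filter Topology MeasureTheory
open CF hiding St

/-- Grid of mesh `2 C q^k` in `[0,1]^j`: at least `(1/(2 C q^k))^j` points, pairwise different
in some coordinate by more than `C q^k`.  The cells `⌊v_l / (c (q/C₂)^k)⌋`, `l ∈ ι`: at most
`(2m/(c (q/C₂)^k) + 2)^{|ι|} ≤ C' (C₂/q)^{k |ι|}` cells.  As `(C₂/q)^{|ι|} q^j < 1` there are
more grid points than cells for large `k`, so two different grid points `τ, τ'` are in the same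
cell (`Finset.exists_ne_map_eq_of_card_lt_of_maps_to`), contradiction. -/
theorem count {ι : Type} [Fintype ι] {j : ℕ} {m c C C₂ q : ℝ} (hq0 : 0 < q) (hq1 : q < 1)
    (hC₂ : 1 ≤ C₂) (hC : 0 < C) (hc : 0 < c) (hm : 0 < m)
    (hj : q ^ j * (C₂ / q) ^ (Fintype.card ι) < 1) (k₀ : ℕ)
    (H : ∀ k ≥ k₀, ∃ v : (Fin j → ℝ) → ι → ℝ, (∀ τ l, |v τ l| ≤ m) ∧ ∀ τ τ' : Fin j → ℝ,
      (∀ x, τ x ∈ Icc (0 : ℝ) 1) → (∀ x, τ' x ∈ Icc (0 : ℝ) 1) →
      (∀ l, |v τ l - v τ' l| ≤ c * (q / C₂) ^ k) → ∀ x, |τ x - τ' x| ≤ C * q ^ k) : False := by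
  classical
  have hC₂0 : 0 < C₂ := by linarith
  set K := Fintype.card ι with hK
  set r : ℝ := q ^ j * (C₂ / q) ^ K with hr
  have hr0 : 0 ≤ r := by positivity
  set A : ℝ := (2 * C) ^ j * ((2 * m + 3 * c) / c) ^ K with hA
  have hA0 : 0 < A := by positivity
  obtain ⟨k, hk0, hk⟩ : ∃ k ≥ k₀, A * r ^ k < 1 := by
    have h1 : Tendsto (fun k : ℕ => A * r ^ k) atTop (𝓝 (A * 0)) :=
      (tendsto_pow_atTop_nhds_zero_of_lt_one hr0 hj).const_mul A
    rw [mul_zero] at h1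
    have h2 := (h1.eventually_lt_const one_pos).and (eventually_ge_atTop k₀)
    obtain ⟨k, hk⟩ := h2.exists
    exact ⟨k, hk.2, hk.1⟩
  obtain ⟨v, hv, hv'⟩ := H k hk0
  set δ : ℝ := c * (q / C₂) ^ k with hδ
  have hδ0 : 0 < δ := by positivity
  have hδc : δ ≤ c := by
    have : (q / C₂) ^ k ≤ 1 := pow_le_one₀ (by positivity) (by rw [div_le_one hC₂0]; linarith)
    rw [hδ]; nlinarith
  set μ : ℝ := 2 * C * q ^ k with hμ
  have hμ0 : 0 < μ := by positivity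
  set N : ℕ := ⌊1 / μ⌋₊ with hN
  set M : ℕ := ⌈m / δ⌉₊ with hM
  have hNle : (N : ℝ) * μ ≤ 1 := by
    have := Nat.floor_le (a := 1 / μ) (by positivity)
    rwa [le_div_iff₀ hμ0] at this
  have hNge : 1 < ((N : ℝ) + 1) * μ := by
    have := Nat.lt_floor_add_one (1 / μ)
    rwa [div_lt_iff₀ hμ0] at this
  have hMge : m / δ ≤ M := Nat.le_ceil _
  have hMle : (M : ℝ) < m / δ + 1 := Nat.ceil_lt_add_one (by positivity)
  have hM2 : (2 * (M : ℝ) + 1) ≤ (2 * m + 3 * c) / δ := by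
    have e1 : (2 * m + 3 * c) / δ = 2 * (m / δ) + 3 * (c / δ) := by ring
    have e2 : 1 ≤ c / δ := by rwa [le_div_iff₀ hδ0, one_mul]
    rw [e1]; linarith
  -- more grid points than cells
  have hcard : (2 * M + 1) ^ K < (N + 1) ^ j := by
    have h1 : ((2 * (M : ℝ) + 1)) ^ K ≤ ((2 * m + 3 * c) / δ) ^ K :=
      pow_le_pow_left₀ (by positivity) hM2 K
    have h2 : 1 ≤ (((N : ℝ) + 1) * μ) ^ j := one_le_pow₀ hNge.le
    have h3 : μ ^ j * ((2 * m + 3 * c) / δ) ^ K = A * r ^ k := by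
      rw [hμ, hδ, hA, hr, mul_pow (2 * C), mul_pow (q ^ j), div_mul_eq_div_div, div_pow (_ / c),
        ← pow_mul, ← pow_mul, ← pow_mul, ← pow_mul, div_pow q, div_pow C₂, div_div_eq_mul_div,
        mul_comm k j, mul_comm k K]
      field_simp
    have h4 : ((2 * (M : ℝ) + 1)) ^ K * μ ^ j < (((N : ℝ) + 1)) ^ j * μ ^ j := by
      calc ((2 * (M : ℝ) + 1)) ^ K * μ ^ j ≤ ((2 * m + 3 * c) / δ) ^ K * μ ^ j := by gcongr
        _ = A * r ^ k := by rw [mul_comm, h3]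
        _ < 1 := hk
        _ ≤ (((N : ℝ) + 1)) ^ j * μ ^ j := by rw [← mul_pow]; exact h2
    have h5 : ((2 * (M : ℝ) + 1)) ^ K < (((N : ℝ) + 1)) ^ j :=
      lt_of_mul_lt_mul_right h4 (by positivity)
    exact_mod_cast h5
  let g : (Fin j → Fin (N + 1)) → (Fin j → ℝ) := fun a x => ((a x : ℕ) : ℝ) * μ
  have hg : ∀ a x, g a x ∈ Icc (0 : ℝ) 1 := by
    intro a x
    refine ⟨by positivity, ?_⟩
    have : ((a x : ℕ) : ℝ) ≤ N := by exact_mod_cast Nat.lt_succ_iff.1 (a x).2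
    calc ((a x : ℕ) : ℝ) * μ ≤ N * μ := by gcongr
      _ ≤ 1 := hNle
  let φ : (Fin j → Fin (N + 1)) → (ι → ℤ) := fun a l => ⌊v (g a) l / δ⌋
  obtain ⟨a, -, b, -, hab, hφ⟩ := Finset.exists_ne_map_eq_of_card_lt_of_maps_to
    (s := (Finset.univ : Finset (Fin j → Fin (N + 1))))
    (t := Fintype.piFinset fun _ : ι => Finset.Icc (-(M : ℤ)) M) (f := φ)
    (by
      rw [Fintype.card_piFinset, Finset.prod_const, Int.card_Icc, Finset.card_univ,
        Finset.card_univ, Fintype.card_fun, Fintype.card_fin, Fintype.card_fin]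
      have : ((M : ℤ) + 1 - -(M : ℤ)).toNat = 2 * M + 1 := by omega
      rw [this]
      exact hcard)
    (by
      intro a _
      simp only [Fintype.coe_piFinset, Finset.coe_Icc, Set.mem_pi, Set.mem_univ, true_implies,
        Set.mem_Icc]
      intro l
      have h1 := abs_le.1 (hv (g a) l)
      have h2 : v (g a) l / δ ≤ M := (by gcongr; exact h1.2 : v (g a) l / δ ≤ m / δ).trans hMge
      have h3 : -(M : ℝ) ≤ v (g a) l / δ := by
        have : -(m / δ) ≤ v (g a) l / δ := by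
          rw [← neg_div]; gcongr; exact h1.1
        linarith
      constructor
      · exact Int.le_floor.2 (by push_cast; exact h3)
      · have h4 : (⌊v (g a) l / δ⌋ : ℝ) ≤ M := (Int.floor_le _).trans h2
        exact_mod_cast h4)
  apply hab
  have key := hv' (g a) (g b) (hg a) (hg b) (fun l => by
    have h1 : ⌊v (g a) l / δ⌋ = ⌊v (g b) l / δ⌋ := congrFun hφ l
    have h2 := Int.abs_sub_lt_one_of_floor_eq_floor h1
    rw [← sub_div, abs_div, abs_of_pos hδ0, div_lt_one hδ0] at h2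
    exact h2.le)
  funext x
  have h1 := key x
  by_contra hne
  have h2 : (1 : ℝ) ≤ |((a x : ℕ) : ℝ) - ((b x : ℕ) : ℝ)| := by
    have h3 : ((a x : ℕ) : ℤ) - ((b x : ℕ) : ℤ) ≠ 0 := by
      intro h4
      apply hne
      apply Fin.ext
      omega
    have h5 := Int.one_le_abs h3
    have h6 : ((1 : ℤ) : ℝ) ≤ ((|((a x : ℕ) : ℤ) - ((b x : ℕ) : ℤ)| : ℤ) : ℝ) := by
      exact_mod_cast h5
    push_cast at h6
    exact h6
  have h3 : |g a x - g b x| = |((a x : ℕ) : ℝ) - ((b x : ℕ) : ℝ)| * μ := by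
    change |((a x : ℕ) : ℝ) * μ - ((b x : ℕ) : ℝ) * μ| = _
    rw [← sub_mul, abs_mul, abs_of_pos hμ0]
  rw [h3] at h1
  have h4 : μ ≤ |((a x : ℕ) : ℝ) - ((b x : ℕ) : ℝ)| * μ := by nlinarith
  have h5 : 0 < C * q ^ k := by positivity
  rw [hμ] at h4
  nlinarith

end CI
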