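import Mathlib
import Pool.Agent.H.MP_1693ff_gt.Defs

/-!
# MP_1693ff_gt, `i > -1`: pairs of i-chord functions are not generic.  Definitions
-/

namespace CI

open Real Set Filter Topology MeasureTheory
open CF hiding St

noncomputable section

/-- `J' = r^{i-1}`. -/
def Jf (i r : ℝ) : ℝ := if i = 0 then log r else r ^ i / i

/-- The constant in `J (c r) = c^i J r + Jc c`. -/
def Jc (i c : ℝ) : ℝ := if i = 0 then log c else 0

/-- `J ρ + J ρ' = T (chord)`. -/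
def Tf (i x : ℝ) : ℝ := if i = 0 then log x else x / i

/-- Heights of the upper half (`Y`) and of the lower half (`y`) of a planar convex set above the
points with slope parameter `a`, seen from the points `(0,0)` (index `1`) and `(1,0)`
(index `2`): `(a y, y)` resp. `(1 + a y, y)` is in the set for `0 < y ≤ Y a`, and
`(- a y, -y)` resp. `(1 - a y, -y)` is in the set for `0 < y ≤ y a`. -/
structure Sy (r R : ℝ) (Y₁ Y₂ y₁ y₂ : ℝ → ℝ) : Prop where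
  c1 : Continuous Y₁
  c2 : Continuous Y₂
  d1 : Continuous y₁
  d2 : Continuous y₂
  b1 : ∀ a, r ≤ Y₁ a * √(1 + a ^ 2) ∧ Y₁ a * √(1 + a ^ 2) ≤ R
  b2 : ∀ a, r ≤ Y₂ a * √(1 + a ^ 2) ∧ Y₂ a * √(1 + a ^ 2) ≤ R
  b3 : ∀ a, r ≤ y₁ a * √(1 + a ^ 2) ∧ y₁ a * √(1 + a ^ 2) ≤ R
  b4 : ∀ a, r ≤ y₂ a * √(1 + a ^ 2) ∧ y₂ a * √(1 + a ^ 2) ≤ R
  up : ∀ a y, 0 < y → (y ≤ Y₂ a ↔ y ≤ Y₁ (a + y⁻¹))
  lo : ∀ a y, 0 < y → (y ≤ y₁ a ↔ y ≤ y₂ (a + y⁻¹))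

/-- lower bound for the slope parameter after one step. -/
def ph (R s : ℝ) : ℝ := s + √(1 + s ^ 2) / R

/-- iterated lower bound (two steps each time). -/
def sq (R s : ℝ) : ℕ → ℝ
  | 0 => s
  | k + 1 => ph R (ph R (sq R s k))

/-- Comparison hypotheses for two systems. -/
structure Cmp (i M ε R ac : ℝ) (Y₁ Y₂ y₁ y₂ Y₁' Y₂' y₁' y₂' : ℝ → ℝ) : Prop where
  t1 : ∀ a, |(Jf i (Y₁ a) + Jf i (y₁ a)) - (Jf i (Y₁' a) + Jf i (y₁' a))| ≤ M * ε * (1 + |a|)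
  t2 : ∀ a, 1 / R ≤ |a - ac| →
    |(Jf i (Y₂ a) + Jf i (y₂ a)) - (Jf i (Y₂' a) + Jf i (y₂' a))| ≤ M * ε * (1 + |a|)
  t3 : ∀ a, 1 ≤ a → |Jf i (Y₂ a) - Jf i (Y₂' a)| ≤ M * (ε + 1 / a ^ 2) * a ^ (-i)
  t4 : ∀ a, 1 ≤ a → |Jf i (y₂ (-a)) - Jf i (y₂' (-a))| ≤ M * (ε + 1 / a ^ 2) * a ^ (-i)

/-! ## Bodies -/

variable {E : Type*} [NormedAddCommGroup E] [InnerProductSpace ℝ E]

/-- the unit vector in the direction `a e + ω`. -/
def un (e ω : E) (a : ℝ) : E := (√(1 + a ^ 2))⁻¹ • (a • e + ω)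

/-- A body `K` with `i`-chord functions `f₁` at `p` and `F₂` at `p + d e`, together with bounds
(`m`), the plane spanned by `e, ω`, which contains `c`, and the first order expansion `A + B s` of
the radial function at `p + d e` near the direction `e` in this plane. -/
structure Cl (i m : ℝ) (c : E) (f₁ F₂ : E → ℝ) (K : Set E) (p e ω : E) (d A B : ℝ) : Prop where
  body : IsBody K
  ne : ‖e‖ = 1
  nω : ‖ω‖ = 1
  o : inner ℝ e ω = (0 : ℝ)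
  d0 : m⁻¹ ≤ d
  d1 : d ≤ m
  i1 : Metric.closedBall p m⁻¹ ⊆ K
  i2 : Metric.closedBall (p + d • e) m⁻¹ ⊆ K
  o1 : K ⊆ Metric.closedBall p m
  o2 : K ⊆ Metric.closedBall (p + d • e) m
  cn : ‖c‖ = 1
  cc : c = (inner ℝ e c : ℝ) • e + (inner ℝ ω c : ℝ) • ω
  cy : m⁻¹ ≤ inner ℝ ω c
  A1 : |A| ≤ m
  B1 : |B| ≤ m
  tail : ∀ s, |s| ≤ 1 →
    |Jf i (√(1 + s ^ 2) * radial K (p + d • e) (e + s • ω) / d) - A - B * s| ≤ m * s ^ 2
  ch1 : ∀ u, ‖u‖ = 1 → chord i K p u = f₁ u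
  ch2 : ∀ u, ‖u‖ = 1 → chord i K (p + d • e) u = F₂ u

/-- `(f₁, f₂)` are the `i`-chord functions of a convex body at two distinct interior points. -/
def IsPair {E : Type*} [NormedAddCommGroup E] [NormedSpace ℝ E] (i : ℝ) (f₁ f₂ : E → ℝ) : Prop :=
  ∃ (K : Set E) (p₁ p₂ : E), IsBody K ∧ p₁ ≠ p₂ ∧ p₁ ∈ interior K ∧ p₂ ∈ interior K ∧
    (∀ u, ‖u‖ = 1 → chord i K p₁ u = f₁ u) ∧ ∀ u, ‖u‖ = 1 → chord i K p₂ u = f₂ u

/-- An even function on the unit sphere of class `C^N`, given as a function on `E ∖ {0}` which is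
constant on lines through `0`. -/
structure EvC (N : WithTop ℕ∞) (f : E → ℝ) : Prop where
  hom : ∀ t : ℝ, t ≠ 0 → ∀ u, f (t • u) = f u
  c : ContDiffOn ℝ N f {0}ᶜ

/-! ## The perturbations -/

/-- a bump: `0` outside `[1, 2]`, `1` on `[5/4, 7/4]`. -/
def bu (x : ℝ) : ℝ := Real.smoothTransition (4 * (x - 1)) * Real.smoothTransition (4 * (2 - x))

/-- `σ ↦ Σ t_s δ 2^{-s²} bu (2^{s+N} σ)`. -/
def gt (δ : ℝ) (N : ℕ) (t : ℕ → ℝ) (σ : ℝ) : ℝ :=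
  ∑' s : ℕ, t s * (δ * (1 / 2) ^ (s ^ 2)) * bu (2 ^ (s + N) * σ)

/-- `sin²` of the angle with `± c`. -/
def sg (c u : E) : ℝ := 1 - (inner ℝ c u : ℝ) ^ 2 / ‖u‖ ^ 2

/-- The perturbation with parameters `t`. -/
def fam (δ : ℝ) (N : ℕ) (c : Bool → E) (t : Bool × ℕ → ℝ) (u : E) : ℝ :=
  gt δ N (fun s => t (false, s)) (sg (c false) u) + gt δ N (fun s => t (true, s)) (sg (c true) u)

end

end CI
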