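import Pool.Agent.H.MP_1693ff_gtD.MFamB

/-!
# The perturbations: smoothness
-/

namespace CI

open Real Set Filter Topology MeasureTheory
open CF hiding St

theorem mfamc_cd (δ : ℝ) (N : ℕ) (t : ℕ → ℝ) (s : ℕ) : ContDiff ℝ (⊤ : ℕ∞)
    (fun σ : ℝ => t s * (δ * (1 / 2) ^ (s ^ 2)) * bu (2 ^ (s + N) * σ)) :=
  contDiff_const.mul (bu_facts.1.comp (contDiff_const.mul contDiff_id))

theorem mfamc_key (N : ℕ) : ∃ v : ℕ → ℕ → ℝ, (∀ k, Summable (v k)) ∧ ∀ k δ, 0 ≤ δ →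
    ∀ t : ℕ → ℝ, (∀ s, t s ∈ Icc (0 : ℝ) 1) → ∀ (s : ℕ) (x : ℝ),
    ‖iteratedFDeriv ℝ k (fun σ => t s * (δ * (1 / 2) ^ (s ^ 2)) * bu (2 ^ (s + N) * σ)) x‖ ≤
      δ * v k s := by
  choose v h1 h2 using fun k => term_bd N k
  exact ⟨v, h1, h2⟩

/-- `contDiff_tsum` with `term_bd`. -/
theorem gt_smooth {δ : ℝ} (hδ : 0 ≤ δ) (N : ℕ) {t : ℕ → ℝ} (h0 : ∀ s, t s ∈ Icc (0 : ℝ) 1) :
    ContDiff ℝ (⊤ : ℕ∞) (gt δ N t) := by
  obtain ⟨v, h1, h2⟩ := mfamc_key N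
  exact contDiff_tsum (𝕜 := ℝ) (v := fun k s => δ * v k s) (fun s => mfamc_cd δ N t s)
    (fun k _ => (h1 k).mul_left δ) (fun k s x _ => h2 k δ hδ t h0 s x)

/-- `iteratedFDeriv_tsum`, `norm_tsum_le_tsum_norm`, `term_bd`. -/
theorem gt_bd (N k : ℕ) : ∃ C : ℝ, 0 ≤ C ∧ ∀ δ, 0 ≤ δ → ∀ t : ℕ → ℝ,
    (∀ s, t s ∈ Icc (0 : ℝ) 1) → ∀ j ≤ k, ∀ x, ‖iteratedFDeriv ℝ j (gt δ N t) x‖ ≤ C * δ := by
  obtain ⟨v, h1, h2⟩ := mfamc_key N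
  refine ⟨∑ j ∈ Finset.range (k + 1), |∑' s, v j s|,
    Finset.sum_nonneg fun j _ => abs_nonneg _, ?_⟩
  intro δ hδ t h0 j hj x
  have e : iteratedFDeriv ℝ j (gt δ N t) x = ∑' s, iteratedFDeriv ℝ j
      (fun σ : ℝ => t s * (δ * (1 / 2) ^ (s ^ 2)) * bu (2 ^ (s + N) * σ)) x := by
    have := iteratedFDeriv_tsum (𝕜 := ℝ) (v := fun k s => δ * v k s) (N := ⊤)
      (fun s => mfamc_cd δ N t s) (fun k _ => (h1 k).mul_left δ)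
      (fun k s x _ => h2 k δ hδ t h0 s x) (k := j) le_top
    exact congrFun this x
  have h3 : ‖iteratedFDeriv ℝ j (gt δ N t) x‖ ≤ δ * ∑' s, v j s := by
    rw [e]
    exact tsum_of_norm_bounded ((h1 j).hasSum.mul_left δ) (fun s => h2 j δ hδ t h0 s x)
  have h4 : |∑' s, v j s| ≤ ∑ j ∈ Finset.range (k + 1), |∑' s, v j s| :=
    Finset.single_le_sum (f := fun j => |∑' s, v j s|) (fun j _ => abs_nonneg _)
      (Finset.mem_range.2 (by omega))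
  calc ‖iteratedFDeriv ℝ j (gt δ N t) x‖ ≤ δ * ∑' s, v j s := h3
    _ ≤ δ * |∑' s, v j s| := mul_le_mul_of_nonneg_left (le_abs_self _) hδ
    _ ≤ δ * ∑ j ∈ Finset.range (k + 1), |∑' s, v j s| := mul_le_mul_of_nonneg_left h4 hδ
    _ = _ := mul_comm _ _

/-- Mean value theorem with `gt_bd` (`k = 1`). -/
theorem gt_lip (N : ℕ) : ∃ C : ℝ, 0 ≤ C ∧ ∀ δ, 0 ≤ δ → ∀ t : ℕ → ℝ,
    (∀ s, t s ∈ Icc (0 : ℝ) 1) → ∀ x y, |gt δ N t x - gt δ N t y| ≤ C * δ * |x - y| := by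
  obtain ⟨C, hC, h⟩ := gt_bd N 1
  refine ⟨C, hC, ?_⟩
  intro δ hδ t h0 x y
  have hd : Differentiable ℝ (gt δ N t) := (gt_smooth hδ N h0).differentiable (by simp)
  have := Convex.norm_image_sub_le_of_norm_fderiv_le (𝕜 := ℝ) (f := gt δ N t) (C := C * δ)
    (s := univ) (x := y) (y := x) (fun z _ => hd z) (fun z _ => by
      have := h δ hδ t h0 1 le_rfl z
      rwa [norm_iteratedFDeriv_one] at this) convex_univ (mem_univ _) (mem_univ _)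
  simpa [Real.norm_eq_abs] using this

end CI
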