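import Pool.Agent.H.MP_1693ff_gtD.MDefs

/-!
# The function `sg`
-/

namespace CI

open Real Set Filter Topology MeasureTheory
open CF hiding St

variable {E : Type*} [NormedAddCommGroup E] [InnerProductSpace ℝ E]

/-- For unit vectors `u, v, c`: `|sg c u - sg c v| = |⟨c,u⟩² - ⟨c,v⟩²| ≤ 2 ‖u - v‖`, and
`0 ≤ sg c u ≤ 1`. -/
theorem sg_lip {c u v : E} (hc : ‖c‖ = 1) (hu : ‖u‖ = 1) (hv : ‖v‖ = 1) :
    |sg c u - sg c v| ≤ 2 * ‖u - v‖ ∧ 0 ≤ sg c u ∧ sg c u ≤ 1 := by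
  have h1 : ∀ w : E, ‖w‖ = 1 → |(inner ℝ c w : ℝ)| ≤ 1 ∧ sg c w = 1 - (inner ℝ c w : ℝ) ^ 2 := by
    intro w hw
    refine ⟨?_, ?_⟩
    · have h2 := abs_real_inner_le_norm c w
      rwa [hc, hw, one_mul] at h2
    · unfold sg
      rw [hw, one_pow, div_one]
  obtain ⟨u1, u2⟩ := h1 u hu
  obtain ⟨v1, v2⟩ := h1 v hv
  have hsq : (inner ℝ c u : ℝ) ^ 2 ≤ 1 := by
    rw [← sq_abs]
    exact pow_le_one₀ (abs_nonneg _) u1
  refine ⟨?_, ?_, ?_⟩
  · have h3 : |(inner ℝ c (u - v) : ℝ)| ≤ ‖u - v‖ := by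
      have h2 := abs_real_inner_le_norm c (u - v)
      rwa [hc, one_mul] at h2
    have h4 : sg c u - sg c v = -((inner ℝ c (u - v) : ℝ) * ((inner ℝ c u : ℝ) + inner ℝ c v)) := by
      rw [u2, v2, inner_sub_right]
      ring
    have h5 : |(inner ℝ c u : ℝ) + inner ℝ c v| ≤ 2 := (abs_add_le _ _).trans (by linarith)
    rw [h4, abs_neg, abs_mul, mul_comm]
    exact mul_le_mul h5 h3 (abs_nonneg _) (by norm_num)
  · rw [u2]
    linarith
  · rw [u2]
    have := sq_nonneg (inner ℝ c u : ℝ)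
    linarith

/-- For `c = x e + y ω`, `x² + y² = 1`: `⟨c, a e + ω⟩ = a x + y`,
`sg c (un e ω a) = 1 - (a x + y)²/(1+a²) = (a y - x)²/(1+a²) = y² (a - x/y)²/(1+a²)`. -/
theorem sg_un {c e ω : E} (hc : ‖c‖ = 1) (ne : ‖e‖ = 1) (nω : ‖ω‖ = 1)
    (o : inner ℝ e ω = (0 : ℝ)) (cc : c = (inner ℝ e c : ℝ) • e + (inner ℝ ω c : ℝ) • ω)
    (cy : 0 < (inner ℝ ω c : ℝ)) (a : ℝ) :
    sg c (un e ω a) = (inner ℝ ω c : ℝ) ^ 2 * (a - inner ℝ e c / inner ℝ ω c) ^ 2 /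
      (1 + a ^ 2) := by
  obtain ⟨x, hx⟩ : ∃ x : ℝ, x = inner ℝ e c := ⟨_, rfl⟩
  obtain ⟨y, hy⟩ : ∃ y : ℝ, y = inner ℝ ω c := ⟨_, rfl⟩
  have hxc : (inner ℝ c e : ℝ) = x := by rw [hx, real_inner_comm]
  have hyc : (inner ℝ c ω : ℝ) = y := by rw [hy, real_inner_comm]
  have o' : (inner ℝ ω e : ℝ) = 0 := by rw [real_inner_comm, o]
  have h1 : x ^ 2 + y ^ 2 = 1 := by
    have h2 : (inner ℝ c c : ℝ) = 1 := by
      rw [real_inner_self_eq_norm_sq, hc, one_pow]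
    rw [← h2]
    conv_rhs => rw [cc]
    rw [inner_add_left, inner_smul_left, inner_smul_left, inner_add_right, inner_add_right,
      inner_smul_right, inner_smul_right, inner_smul_right, inner_smul_right,
      real_inner_self_eq_norm_sq, real_inner_self_eq_norm_sq, ne, nω, o, o',
      ← hx, ← hy]
    simp
    ring
  have hq : 0 < 1 + a ^ 2 := by positivity
  have h3 : ‖un e ω a‖ ^ 2 = 1 := by
    unfold un
    rw [norm_smul, mul_pow, norm_inv, inv_pow, Real.norm_eq_abs, sq_abs, Real.sq_sqrt hq.le,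
      ← real_inner_self_eq_norm_sq, inner_add_left, inner_add_right, inner_add_right,
      inner_smul_left, inner_smul_left, inner_smul_right, inner_smul_right,
      real_inner_self_eq_norm_sq, real_inner_self_eq_norm_sq, ne, nω, o, o']
    simp
    field_simp
    ring
  have h4 : (inner ℝ c (un e ω a) : ℝ) ^ 2 = (a * x + y) ^ 2 / (1 + a ^ 2) := by
    unfold un
    rw [inner_smul_right, inner_add_right, inner_smul_right, hxc, hyc, mul_pow, inv_pow,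
      Real.sq_sqrt hq.le]
    ring
  unfold sg
  rw [h3, h4, div_one, ← hx, ← hy]
  have hy0 : y ≠ 0 := by
    rw [hy]
    exact cy.ne'
  have h5 : y ^ 2 * (a - x / y) ^ 2 = (a * y - x) ^ 2 := by
    rw [← mul_pow]
    congr 1
    field_simp
  rw [h5]
  field_simp
  linear_combination (-(1 + a ^ 2)) * h1

end CI
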