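import Pool.Agent.H.MP_1693ff_gtD.MFamA
import Pool.Agent.H.MP_1693ff_gtD.MFamC
import Pool.Agent.H.MP_1693ff_gtD.MGeoB

/-!
# The perturbations as functions on the sphere: support, Lipschitz bound
-/

namespace CI

open Real Set Filter Topology MeasureTheory
open CF hiding St

variable {E : Type*} [NormedAddCommGroup E] [InnerProductSpace ℝ E]

theorem mfamf_sg {ρ : ℝ} (hρ : 0 < ρ) {c u : E} (hc : ‖c‖ = 1) (hu : ‖u‖ = 1)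
    (h1 : ρ ≤ ‖u - c‖) (h2 : ρ ≤ ‖u + c‖) : ρ ^ 2 / 4 ≤ sg c u := by
  have e1 := norm_sub_sq_real u c
  have e2 := norm_add_sq_real u c
  rw [hu, hc] at e1 e2
  have k1 : ρ ^ 2 ≤ ‖u - c‖ ^ 2 := pow_le_pow_left₀ hρ.le h1 2
  have k2 : ρ ^ 2 ≤ ‖u + c‖ ^ 2 := pow_le_pow_left₀ hρ.le h2 2
  obtain ⟨y, hy⟩ : ∃ y : ℝ, y = inner ℝ u c := ⟨_, rfl⟩
  rw [← hy] at e1 e2
  have hs : sg c u = 1 - y ^ 2 := by
    unfold sg
    rw [hu, one_pow, div_one, real_inner_comm, ← hy]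
  rw [hs]
  have k3 : y ≤ 1 - ρ ^ 2 / 2 := by linarith
  have k4 : -(1 - ρ ^ 2 / 2) ≤ y := by linarith
  have k5 : 0 ≤ 1 - ρ ^ 2 / 2 := by linarith
  have k6 : y ^ 2 ≤ (1 - ρ ^ 2 / 2) ^ 2 := sq_le_sq' k4 k3
  have k7 : 0 < ρ ^ 2 := by positivity
  nlinarith

/-- If `‖u - c‖ ≥ ρ` and `‖u + c‖ ≥ ρ` then `|⟨u, c⟩| ≤ 1 - ρ²/2`, so `sg c u ≥ ρ²/4`
(`ρ ≤ 2` automatically); `gt_supp`. -/
theorem fam_supp {δ ρ : ℝ} (hρ : 0 < ρ) {N : ℕ} (hN : 8 ≤ 2 ^ N * ρ ^ 2) {c : Bool → E}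
    (cn : ∀ b, ‖c b‖ = 1) (t : Bool × ℕ → ℝ) {u : E} (hu : ‖u‖ = 1)
    (h1 : ∀ b, ρ ≤ ‖u - c b‖) (h2 : ∀ b, ρ ≤ ‖u + c b‖) : fam δ N c t u = 0 := by
  have h : ∀ b, 2 ≤ 2 ^ N * sg (c b) u := by
    intro b
    have h3 := mfamf_sg hρ (cn b) hu (h1 b) (h2 b)
    have h4 : (0 : ℝ) ≤ 2 ^ N := by positivity
    nlinarith [mul_le_mul_of_nonneg_left h3 h4]
  unfold fam
  rw [gt_supp δ N _ (h false), gt_supp δ N _ (h true), add_zero]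

/-- `gt_lip`, `sg_lip`. -/
theorem fam_lip {δ : ℝ} (hδ : 0 ≤ δ) (N : ℕ) : ∃ C : ℝ, 0 ≤ C ∧ ∀ c : Bool → E,
    (∀ b, ‖c b‖ = 1) → ∀ t : Bool × ℕ → ℝ, (∀ x, t x ∈ Icc (0 : ℝ) 1) → ∀ u v : E, ‖u‖ = 1 →
      ‖v‖ = 1 → |fam δ N c t u - fam δ N c t v| ≤ C * ‖u - v‖ := by
  obtain ⟨C, hC0, hC⟩ := gt_lip N
  refine ⟨4 * (C * δ), by positivity, ?_⟩
  intro c cn t ht u v hu hv
  have hb : ∀ b, |gt δ N (fun s => t (b, s)) (sg (c b) u) -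
      gt δ N (fun s => t (b, s)) (sg (c b) v)| ≤ C * δ * (2 * ‖u - v‖) := by
    intro b
    refine (hC δ hδ _ (fun s => ht _) _ _).trans ?_
    exact mul_le_mul_of_nonneg_left (sg_lip (cn b) hu hv).1 (by positivity)
  have e : fam δ N c t u - fam δ N c t v =
      (gt δ N (fun s => t (false, s)) (sg (c false) u) -
        gt δ N (fun s => t (false, s)) (sg (c false) v)) +
      (gt δ N (fun s => t (true, s)) (sg (c true) u) -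
        gt δ N (fun s => t (true, s)) (sg (c true) v)) := by
    unfold fam
    ring
  rw [e]
  refine (abs_add_le _ _).trans ?_
  have := hb false
  have := hb true
  linarith

end CI
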