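import Pool.Agent.H.MP_1693ff_gtD.MGeo
import Pool.Agent.H.MP_1693ff_gtD.MGeoB
import Pool.Agent.H.MP_1693ff_gtD.MUn

/-!
# Geometry of a line of directions near `c`
-/

namespace CI

open Real Set Filter Topology MeasureTheory
open CF hiding St

variable {E : Type*} [NormedAddCommGroup E] [InnerProductSpace ℝ E]

/-- lower bound away from the zero -/
theorem mgeoc_low {m y t a κ : ℝ} (hm : 1 ≤ m) (hy : m⁻¹ ≤ y) (ha : |a - t| ≤ m) (hκ : 0 < κ)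
    (ht : κ ≤ |t|) :
    κ ^ 2 / (m ^ 2 * (1 + 2 * m ^ 2 + 2 * κ ^ 2)) ≤ y ^ 2 * t ^ 2 / (1 + a ^ 2) := by
  have m0 : 0 < m := by linarith
  have hy2 : 1 / m ^ 2 ≤ y ^ 2 := by
    have h1 : (m⁻¹) ^ 2 ≤ y ^ 2 := pow_le_pow_left₀ (inv_nonneg.2 m0.le) hy 2
    rwa [inv_pow, inv_eq_one_div] at h1
  have ht2 : κ ^ 2 ≤ t ^ 2 := by
    rw [← sq_abs t]
    exact pow_le_pow_left₀ hκ.le ht 2
  have ha2 : (a - t) ^ 2 ≤ m ^ 2 := by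
    rw [← sq_abs (a - t)]
    exact pow_le_pow_left₀ (abs_nonneg _) ha 2
  have h1 : 1 + a ^ 2 ≤ 1 + 2 * m ^ 2 + 2 * t ^ 2 := by nlinarith [sq_nonneg (a - 2 * t)]
  have p1 : 0 < 1 + a ^ 2 := by positivity
  have p2 : 0 < 1 + 2 * m ^ 2 + 2 * t ^ 2 := by positivity
  calc κ ^ 2 / (m ^ 2 * (1 + 2 * m ^ 2 + 2 * κ ^ 2))
      = 1 / m ^ 2 * (κ ^ 2 / (1 + 2 * m ^ 2 + 2 * κ ^ 2)) := by
        rw [div_mul_div_comm, one_mul]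
    _ ≤ 1 / m ^ 2 * (t ^ 2 / (1 + 2 * m ^ 2 + 2 * t ^ 2)) := by
        refine mul_le_mul_of_nonneg_left ?_ (by positivity)
        rw [div_le_div_iff₀ (by positivity) p2]
        have : 0 < 1 + 2 * m ^ 2 := by positivity
        nlinarith
    _ ≤ y ^ 2 * (t ^ 2 / (1 + 2 * m ^ 2 + 2 * t ^ 2)) :=
        mul_le_mul_of_nonneg_right hy2 (by positivity)
    _ ≤ y ^ 2 * (t ^ 2 / (1 + a ^ 2)) := by
        refine mul_le_mul_of_nonneg_left ?_ (sq_nonneg _)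
        exact div_le_div_of_nonneg_left (sq_nonneg _) p1 h1
    _ = y ^ 2 * t ^ 2 / (1 + a ^ 2) := by rw [mul_div_assoc]

/-- Lipschitz estimate -/
theorem mgeoc_lip {y c a b : ℝ} (hy0 : 0 ≤ y) (hy1 : y ≤ 1) (ha0 : c ≤ a) (ha1 : a ≤ c + 1)
    (hb0 : c ≤ b) (hb1 : b ≤ c + 1) :
    |y ^ 2 * (a - c) ^ 2 / (1 + a ^ 2) - y ^ 2 * (b - c) ^ 2 / (1 + b ^ 2)| ≤ 3 * |a - b| := by
  have p1 : 0 < 1 + a ^ 2 := by positivity
  have p2 : 0 < 1 + b ^ 2 := by positivity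
  have hy2 : y ^ 2 ≤ 1 := pow_le_one₀ hy0 hy1
  have e1 : y ^ 2 * (a - c) ^ 2 / (1 + a ^ 2) - y ^ 2 * (b - c) ^ 2 / (1 + b ^ 2) =
      y ^ 2 * ((a - b) * ((a - c) + (b - c)) * (1 + b ^ 2) + (b - c) ^ 2 * ((b - a) * (b + a))) /
        ((1 + a ^ 2) * (1 + b ^ 2)) := by
    rw [div_sub_div _ _ p1.ne' p2.ne']
    congr 1
    ring
  rw [e1, abs_div, abs_of_pos (mul_pos p1 p2), div_le_iff₀ (mul_pos p1 p2), abs_mul,
    abs_of_nonneg (sq_nonneg y)]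
  have hA : 0 ≤ |a - b| := abs_nonneg _
  have h1 : |(a - b) * ((a - c) + (b - c)) * (1 + b ^ 2)| ≤
      |a - b| * 2 * ((1 + a ^ 2) * (1 + b ^ 2)) := by
    rw [abs_mul, abs_mul, abs_of_pos p2]
    have h2 : |(a - c) + (b - c)| ≤ 2 := by
      rw [abs_le]
      constructor <;> linarith
    have h3 : (1 : ℝ) * (1 + b ^ 2) ≤ (1 + a ^ 2) * (1 + b ^ 2) :=
      mul_le_mul_of_nonneg_right (by nlinarith [sq_nonneg a]) p2.le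
    calc |a - b| * |(a - c) + (b - c)| * (1 + b ^ 2)
        ≤ |a - b| * 2 * (1 + b ^ 2) :=
          mul_le_mul_of_nonneg_right (mul_le_mul_of_nonneg_left h2 hA) p2.le
      _ ≤ |a - b| * 2 * ((1 + a ^ 2) * (1 + b ^ 2)) := by
          refine mul_le_mul_of_nonneg_left ?_ (by positivity)
          linarith
  have h4 : |(b - c) ^ 2 * ((b - a) * (b + a))| ≤ |a - b| * ((1 + a ^ 2) * (1 + b ^ 2)) := by
    rw [abs_mul, abs_of_nonneg (sq_nonneg (b - c)), abs_mul, abs_sub_comm b a]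
    have h5 : (b - c) ^ 2 ≤ 1 := by
      refine pow_le_one₀ (by linarith) (by linarith)
    have h6 : |b + a| ≤ (1 + a ^ 2) * (1 + b ^ 2) := by
      rw [abs_le]
      constructor <;> nlinarith [sq_nonneg (a + 1), sq_nonneg (b + 1), sq_nonneg (a - 1),
        sq_nonneg (b - 1), sq_nonneg (a * b)]
    calc (b - c) ^ 2 * (|a - b| * |b + a|)
        ≤ 1 * (|a - b| * |b + a|) := mul_le_mul_of_nonneg_right h5 (by positivity)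
      _ = |a - b| * |b + a| := one_mul _
      _ ≤ _ := mul_le_mul_of_nonneg_left h6 hA
  have h7 := abs_add_le ((a - b) * ((a - c) + (b - c)) * (1 + b ^ 2))
    ((b - c) ^ 2 * ((b - a) * (b + a)))
  calc y ^ 2 * |(a - b) * ((a - c) + (b - c)) * (1 + b ^ 2) + (b - c) ^ 2 * ((b - a) * (b + a))|
      ≤ 1 * |(a - b) * ((a - c) + (b - c)) * (1 + b ^ 2) +
          (b - c) ^ 2 * ((b - a) * (b + a))| := mul_le_mul_of_nonneg_right hy2 (abs_nonneg _)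
    _ ≤ 3 * |a - b| * ((1 + a ^ 2) * (1 + b ^ 2)) := by linarith

/-- `sg_un`, `|ac| ≤ m`, `y ≥ 1/m`.  For `|a - ac| ≥ κ = 1/m²`:
`(a-ac)²/(1+a²) ≥ (a-ac)²/(1 + 2ac² + 2(a-ac)²) ≥ κ²/(1+2m²+2κ²)`.  On
`[ac, ac + κ]` the function `a ↦ sg c (un e ω a)` is Lipschitz (explicit formula) and `0` at
`ac`; `ivt_band`. -/
theorem band {m : ℝ} (hm : 1 ≤ m) : ∃ σ₀ l : ℝ, 0 < σ₀ ∧ 0 < l ∧
    ∀ c e ω : E, ‖c‖ = 1 → ‖e‖ = 1 → ‖ω‖ = 1 → inner ℝ e ω = (0 : ℝ) →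
      c = (inner ℝ e c : ℝ) • e + (inner ℝ ω c : ℝ) • ω → m⁻¹ ≤ (inner ℝ ω c : ℝ) →
      (∀ a, 1 / m ^ 2 ≤ |a - inner ℝ e c / inner ℝ ω c| → σ₀ ≤ sg c (un e ω a)) ∧
      ∀ σ₁ σ₂, 0 < σ₁ → σ₁ < σ₂ → σ₂ ≤ σ₀ → ∃ x₁ x₂,
        inner ℝ e c / inner ℝ ω c - 1 / m ^ 2 ≤ x₁ ∧ x₁ ≤ x₂ ∧
        x₂ ≤ inner ℝ e c / inner ℝ ω c + 1 / m ^ 2 ∧ l * (σ₂ - σ₁) ≤ x₂ - x₁ ∧
        ∀ a ∈ Icc x₁ x₂, sg c (un e ω a) ∈ Icc σ₁ σ₂ := by
  have m0 : 0 < m := by linarith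
  have κ0 : 0 < 1 / m ^ 2 := by positivity
  have κ1 : 1 / m ^ 2 ≤ 1 := by
    rw [div_le_one (by positivity)]
    exact one_le_pow₀ hm
  refine ⟨(1 / m ^ 2) ^ 2 / (m ^ 2 * (1 + 2 * m ^ 2 + 2 * (1 / m ^ 2) ^ 2)), 1 / 3,
    by positivity, by norm_num, fun c e ω hc he hω o cc cy => ?_⟩
  have y0 : 0 < (inner ℝ ω c : ℝ) := lt_of_lt_of_le (inv_pos.2 m0) cy
  have y1 : (inner ℝ ω c : ℝ) ≤ 1 := by
    have := real_inner_le_norm ω c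
    rwa [hω, hc, one_mul] at this
  have x1 : |(inner ℝ e c : ℝ)| ≤ 1 := by
    have := abs_real_inner_le_norm e c
    rwa [he, hc, one_mul] at this
  have hsg : ∀ a, sg c (un e ω a) = (inner ℝ ω c : ℝ) ^ 2 *
      (a - inner ℝ e c / inner ℝ ω c) ^ 2 / (1 + a ^ 2) := fun a => sg_un hc he hω o cc y0 a
  have hac : |(inner ℝ e c : ℝ) / inner ℝ ω c| ≤ m := by
    rw [abs_div, abs_of_pos y0, div_le_iff₀ y0]
    have h1 : 1 ≤ m * (inner ℝ ω c : ℝ) := by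
      have := mul_le_mul_of_nonneg_left cy m0.le
      rwa [mul_inv_cancel₀ m0.ne'] at this
    linarith
  have hlow : ∀ a, 1 / m ^ 2 ≤ |a - inner ℝ e c / inner ℝ ω c| →
      (1 / m ^ 2) ^ 2 / (m ^ 2 * (1 + 2 * m ^ 2 + 2 * (1 / m ^ 2) ^ 2)) ≤ sg c (un e ω a) := by
    intro a ha
    rw [hsg]
    refine mgeoc_low hm cy ?_ κ0 ha
    rwa [sub_sub_cancel]
  refine ⟨hlow, fun σ₁ σ₂ h1 h12 h2 => ?_⟩
  have hL : ∀ x ∈ Icc ((inner ℝ e c : ℝ) / inner ℝ ω c) (inner ℝ e c / inner ℝ ω c + 1 / m ^ 2),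
      ∀ y ∈ Icc ((inner ℝ e c : ℝ) / inner ℝ ω c) (inner ℝ e c / inner ℝ ω c + 1 / m ^ 2),
      |sg c (un e ω x) - sg c (un e ω y)| ≤ 3 * |x - y| := by
    intro x hx y hy
    rw [hsg, hsg]
    exact mgeoc_lip y0.le y1 hx.1 (by linarith [hx.2]) hy.1 (by linarith [hy.2])
  have hz : sg c (un e ω ((inner ℝ e c : ℝ) / inner ℝ ω c)) ≤ σ₁ := by
    rw [hsg, sub_self]
    simpa using h1.le
  have ht : σ₂ ≤ sg c (un e ω ((inner ℝ e c : ℝ) / inner ℝ ω c + 1 / m ^ 2)) := by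
    refine h2.trans (hlow _ ?_)
    rw [add_sub_cancel_left, abs_of_pos κ0]
  obtain ⟨z₁, z₂, g1, g2, g3, g4, g5⟩ := ivt_band (g := fun a => sg c (un e ω a))
    (by linarith : (inner ℝ e c : ℝ) / inner ℝ ω c ≤ inner ℝ e c / inner ℝ ω c + 1 / m ^ 2)
    (by norm_num : (0 : ℝ) < 3) hL hz h12 ht
  exact ⟨z₁, z₂, by linarith, g2, g3, by linarith, g5⟩

end CI
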