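import Pool.Agent.H.MP_1693ff_gtD.MKeyB
import Pool.Agent.H.MP_1693ff_gtD.MBlk
import Pool.Agent.H.MP_1693ff_gtD.MGeoC
import Pool.Agent.H.MP_1693ff_gtD.MFamF

/-!
# The parameters of a block are determined by few numbers, approximately
-/

namespace CI

open Real Set Filter Topology MeasureTheory
open CF hiding St

variable {E : Type*} [NormedAddCommGroup E] [InnerProductSpace ℝ E]

theorem mest_tri {f₂ φ φ' g g' : E → ℝ} {L Cl η : ℝ} {v v' : E} (hη : 0 ≤ η) (hL : 0 ≤ L)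
    (hCl : 0 ≤ Cl) (hvv : ‖v - v'‖ ≤ 2 * η) (hf₂ : |f₂ v - f₂ v'| ≤ L * ‖v - v'‖)
    (h1 : |φ v - g v| ≤ η) (h2 : |φ' v' - g' v'| ≤ η) (h3 : |g' v - g' v'| ≤ Cl * ‖v - v'‖) :
    |((f₂ v + φ v) - (f₂ v' + φ' v')) - (g v - g' v)| ≤ (2 * L + 2 * Cl + 2) * η := by
  have e : ((f₂ v + φ v) - (f₂ v' + φ' v')) - (g v - g' v) =
      (f₂ v - f₂ v') + (φ v - g v) + (g' v - g' v') - (φ' v' - g' v') := by ring
  rw [e]
  have a1 := abs_sub ((f₂ v - f₂ v') + (φ v - g v) + (g' v - g' v')) (φ' v' - g' v')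
  have a2 := abs_add_le ((f₂ v - f₂ v') + (φ v - g v)) (g' v - g' v')
  have a3 := abs_add_le (f₂ v - f₂ v') (φ v - g v)
  have b1 : L * ‖v - v'‖ ≤ L * (2 * η) := mul_le_mul_of_nonneg_left hvv hL
  have b2 : Cl * ‖v - v'‖ ≤ Cl * (2 * η) := mul_le_mul_of_nonneg_left hvv hCl
  nlinarith

/-- `key` (constants `C, C₂, q, k₀`) and `band` (`σ₀, l`), `fam_lip`.  Put
`ε = C₃ (q/C₂)^k`, `C₃ = 2 L + 2 C_lip + 3`.  Outside `|a - ac| < 1/m²`: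
`F₂ (un e ω a) - F₂' (un e' ω' a)` is at most `L ‖un - un'‖` (`f₂`) + `2 (q/C₂)^k`
(approximation) + `|fam (blk τ) (un e ω a) - fam (blk τ') (un e ω a)| = 0` (`blk_far`, as
`sg ≥ σ₀`) + `C_lip ‖un - un'‖`, so at most `ε`.  For `x : Fin j` take
`σ₁ = 5/4 · 2^{-(s₀+x+N)}`, `σ₂ = 7/4 · 2^{-(s₀+x+N)} ≤ σ₀` in `band`: on `[x₁, x₂]`
`|F₂ (un e ω a) - F₂' (un e' ω' a)| ≥ w |τ x - τ' x| - ε`, `w = δ 2^{-(s₀+x)²}` (`blk_band`), so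
`key` gives `l (σ₂-σ₁) (w |τ x - τ' x| - ε) ≤ C (C₃ + 1) q^k` (`ε C₂^k = C₃ q^k`; if the
left factor is negative there is nothing to show), and `ε ≤ C₃ q^k`. -/
theorem block_est {i m L : ℝ} (hi : -1 < i) (hm : 1 ≤ m) (hL : 0 ≤ L) :
    ∃ (C₂ q σ₀ : ℝ) (k₀ : ℕ), 1 ≤ C₂ ∧ 0 < q ∧ q < 1 ∧ 0 < σ₀ ∧
    ∀ (δ : ℝ) (N : ℕ) (b : Bool) (s₀ j : ℕ), 0 < δ → 2 ≤ 2 ^ (s₀ + N) * σ₀ → ∃ C' : ℝ, 0 < C' ∧
    ∀ (c : Bool → E) (f₁ f₂ φ φ' : E → ℝ) (t : Bool × ℕ → ℝ) (τ τ' : Fin j → ℝ)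
      (K K' : Set E) (p e ω p' e' ω' : E) (d A B d' A' B' : ℝ) (k : ℕ), k₀ ≤ k →
      (∀ b, ‖c b‖ = 1) → (∀ x, t x ∈ Icc (0 : ℝ) 1) →
      (∀ x, τ x ∈ Icc (0 : ℝ) 1) → (∀ x, τ' x ∈ Icc (0 : ℝ) 1) →
      (∀ u v, ‖u‖ = 1 → ‖v‖ = 1 → |f₁ u - f₁ v| ≤ L * ‖u - v‖) →
      (∀ u v, ‖u‖ = 1 → ‖v‖ = 1 → |f₂ u - f₂ v| ≤ L * ‖u - v‖) →
      (∀ u, ‖u‖ = 1 → |φ u - fam δ N c (blk b s₀ j t τ) u| ≤ (q / C₂) ^ k) →
      (∀ u, ‖u‖ = 1 → |φ' u - fam δ N c (blk b s₀ j t τ') u| ≤ (q / C₂) ^ k) →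
      Cl i m (c b) f₁ (fun u => f₂ u + φ u) K p e ω d A B →
      Cl i m (c b) f₁ (fun u => f₂ u + φ' u) K' p' e' ω' d' A' B' →
      ‖e - e'‖ ≤ (q / C₂) ^ k → ‖ω - ω'‖ ≤ (q / C₂) ^ k → |d - d'| ≤ (q / C₂) ^ k →
      |A - A'| ≤ (q / C₂) ^ k → |B - B'| ≤ (q / C₂) ^ k → ∀ x, |τ x - τ' x| ≤ C' * q ^ k := by
  obtain ⟨C, C₂, q, k₀, hC, hC₂, hq0, hq1, hkey⟩ := key (E := E) hi hm hL
  obtain ⟨σ₀, l, hσ₀, hl, hband⟩ := band (E := E) hm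
  refine ⟨C₂, q, σ₀, k₀, hC₂, hq0, hq1, hσ₀, ?_⟩
  intro δ N b s₀ j hδ hs
  obtain ⟨Cl', hCl0, hlip⟩ := fam_lip (E := E) hδ.le N
  set C₃ : ℝ := 2 * L + 2 * Cl' + 3 with hC₃
  have hC₃1 : 1 ≤ C₃ := by linarith
  have hC₃0 : 0 < C₃ := by linarith
  set w0 : ℝ := δ * (1 / 2) ^ ((s₀ + j) ^ 2) with hw0
  set g0 : ℝ := (1 / 2) / 2 ^ (s₀ + j + N) with hg0
  have hw0p : 0 < w0 := by positivity
  have hg0p : 0 < g0 := by positivity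
  refine ⟨(C * (C₃ + 1) / (l * g0) + C₃) / w0, by positivity, ?_⟩
  intro c f₁ f₂ φ φ' t τ τ' K K' p e ω p' e' ω' d A B d' A' B' k hk cn ht hτ hτ' hf₁ hf₂ hφ hφ'
    h h' he hω hd hA hB x
  set η : ℝ := (q / C₂) ^ k with hηd
  have hC₂0 : 0 < C₂ := by linarith
  have hη : 0 ≤ η := by positivity
  have hηq : η * C₂ ^ k = q ^ k := by
    rw [hηd, div_pow, div_mul_cancel₀ _ (pow_pos hC₂0 k).ne']
  have hk1 : 1 ≤ C₂ ^ k := one_le_pow₀ hC₂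
  have hηle : η ≤ q ^ k := by
    rw [← hηq]
    exact le_mul_of_one_le_right hη hk1
  have hηC : η ≤ C₃ * η := le_mul_of_one_le_left hη hC₃1
  obtain ⟨hfar, hb⟩ := hband (c b) e ω (cn b) h.ne h.nω h.o h.cc h.cy
  have hmain : ∀ a : ℝ, |((f₂ (un e ω a) + φ (un e ω a)) - (f₂ (un e' ω' a) + φ' (un e' ω' a))) -
      (fam δ N c (blk b s₀ j t τ) (un e ω a) - fam δ N c (blk b s₀ j t τ') (un e ω a))| ≤
      (2 * L + 2 * Cl' + 2) * η := by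
    intro a
    have hu := (un_facts h.ne h.nω h.o a).2.1
    have hu' := (un_facts h'.ne h'.nω h'.o a).2.1
    have hvv : ‖un e ω a - un e' ω' a‖ ≤ 2 * η := by
      have := un_diff e ω e' ω' a
      linarith
    exact mest_tri hη hL hCl0 hvv (hf₂ _ _ hu hu') (hφ _ hu) (hφ' _ hu')
      (hlip c cn _ (fun y => blk_mem ht hτ' y) _ _ hu hu')
  have hF : ∀ a, 1 / m ^ 2 ≤ |a - inner ℝ e (c b) / inner ℝ ω (c b)| →
      |(f₂ (un e ω a) + φ (un e ω a)) - (f₂ (un e' ω' a) + φ' (un e' ω' a))| ≤ C₃ * η := by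
    intro a ha
    have h1 := hmain a
    have h2 : fam δ N c (blk b s₀ j t τ) (un e ω a) = fam δ N c (blk b s₀ j t τ') (un e ω a) := by
      apply blk_far
      exact hs.trans (mul_le_mul_of_nonneg_left (hfar a ha) (by positivity))
    rw [h2, sub_self, sub_zero] at h1
    refine h1.trans (mul_le_mul_of_nonneg_right (by linarith) hη)
  have h2x : (0 : ℝ) < 2 ^ (s₀ + (x : ℕ) + N) := by positivity
  have hσ12 : (5 / 4 : ℝ) / 2 ^ (s₀ + (x : ℕ) + N) < (7 / 4) / 2 ^ (s₀ + (x : ℕ) + N) :=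
    div_lt_div_of_pos_right (by norm_num) h2x
  have hσ2 : (7 / 4 : ℝ) / 2 ^ (s₀ + (x : ℕ) + N) ≤ σ₀ := by
    rw [div_le_iff₀ h2x]
    have h1 : (2 : ℝ) ^ (s₀ + N) ≤ 2 ^ (s₀ + (x : ℕ) + N) :=
      pow_le_pow_right₀ (by norm_num) (by omega)
    have h2 : (2 : ℝ) ^ (s₀ + N) * σ₀ ≤ 2 ^ (s₀ + (x : ℕ) + N) * σ₀ :=
      mul_le_mul_of_nonneg_right h1 hσ₀.le
    rw [mul_comm]
    linarith
  obtain ⟨x₁, x₂, hx1, hx12, hx2, hxl, hxs⟩ := hb ((5 / 4) / 2 ^ (s₀ + (x : ℕ) + N))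
    ((7 / 4) / 2 ^ (s₀ + (x : ℕ) + N)) (by positivity) hσ12 hσ2
  set w : ℝ := δ * (1 / 2) ^ ((s₀ + (x : ℕ)) ^ 2) with hw
  have hwp : 0 < w := by positivity
  have hw0w : w0 ≤ w := by
    refine mul_le_mul_of_nonneg_left ?_ hδ.le
    refine pow_le_pow_of_le_one (by norm_num) (by norm_num) ?_
    exact Nat.pow_le_pow_left (by have := x.2; omega) 2
  have hlow : ∀ a ∈ Icc x₁ x₂, w * |τ x - τ' x| - C₃ * η ≤
      |(f₂ (un e ω a) + φ (un e ω a)) - (f₂ (un e' ω' a) + φ' (un e' ω' a))| := by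
    intro a ha
    have h1 := hmain a
    obtain ⟨hs1, hs2⟩ := hxs a ha
    rw [div_le_iff₀ h2x] at hs1
    rw [le_div_iff₀ h2x] at hs2
    have h2 := blk_band δ N c b s₀ j t τ τ' x (u := un e ω a)
      ⟨by rw [mul_comm]; exact hs1, by rw [mul_comm]; exact hs2⟩
    rw [h2] at h1
    have h3 : w * |τ x - τ' x| = |(τ x - τ' x) * (δ * (1 / 2) ^ ((s₀ + (x : ℕ)) ^ 2))| := by
      rw [abs_mul, abs_of_pos hwp, mul_comm]
    rw [h3]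
    have h4 := abs_sub_abs_le_abs_sub ((τ x - τ' x) * (δ * (1 / 2) ^ ((s₀ + (x : ℕ)) ^ 2)))
      ((f₂ (un e ω a) + φ (un e ω a)) - (f₂ (un e' ω' a) + φ' (un e' ω' a)))
    have h6 := abs_sub_comm ((τ x - τ' x) * (δ * (1 / 2) ^ ((s₀ + (x : ℕ)) ^ 2)))
      ((f₂ (un e ω a) + φ (un e ω a)) - (f₂ (un e' ω' a) + φ' (un e' ω' a)))
    rw [h6] at h4
    have h5 : (2 * L + 2 * Cl' + 2) * η ≤ C₃ * η := mul_le_mul_of_nonneg_right (by linarith) hη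
    linarith
  have hK := hkey (c b) p e ω p' e' ω' f₁ (fun u => f₂ u + φ u) (fun u => f₂ u + φ' u) K K' d A B
    d' A' B' (C₃ * η) h h' (he.trans hηC) (hω.trans hηC) (hd.trans hηC) (hA.trans hηC)
    (hB.trans hηC) hf₁ hF k hk x₁ x₂ (w * |τ x - τ' x| - C₃ * η) hx1 hx12 hx2 hlow
  have hK2 : (x₂ - x₁) * (w * |τ x - τ' x| - C₃ * η) ≤ C * (C₃ + 1) * q ^ k := by
    refine hK.trans (le_of_eq ?_)
    rw [mul_assoc C₃ η, hηq]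
    ring
  have hqk : 0 ≤ q ^ k := by positivity
  have hg : g0 ≤ (7 / 4) / 2 ^ (s₀ + (x : ℕ) + N) - (5 / 4) / 2 ^ (s₀ + (x : ℕ) + N) := by
    rw [← sub_div, hg0]
    have e1 : (7 / 4 - 5 / 4 : ℝ) = 1 / 2 := by norm_num
    rw [e1]
    refine div_le_div_of_nonneg_left (by norm_num) h2x ?_
    exact pow_le_pow_right₀ (by norm_num) (by have := x.2; omega)
  have hlg : l * g0 ≤ x₂ - x₁ := (mul_le_mul_of_nonneg_left hg hl.le).trans hxl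
  have hlgp : 0 < l * g0 := by positivity
  have hfin : w * |τ x - τ' x| ≤ (C * (C₃ + 1) / (l * g0) + C₃) * q ^ k := by
    have hX : 0 ≤ C * (C₃ + 1) / (l * g0) * q ^ k := by positivity
    have hY : C₃ * η ≤ C₃ * q ^ k := mul_le_mul_of_nonneg_left hηle hC₃0.le
    rw [add_mul]
    by_cases hneg : w * |τ x - τ' x| - C₃ * η ≤ 0
    · linarith
    · have hpos := not_le.1 hneg
      have h1 : (l * g0) * (w * |τ x - τ' x| - C₃ * η) ≤ C * (C₃ + 1) * q ^ k :=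
        (mul_le_mul_of_nonneg_right hlg hpos.le).trans hK2
      have h2 : w * |τ x - τ' x| - C₃ * η ≤ C * (C₃ + 1) / (l * g0) * q ^ k := by
        rw [div_mul_eq_mul_div, le_div_iff₀ hlgp, mul_comm]
        exact h1
      linarith
  rw [div_mul_eq_mul_div, le_div_iff₀ hw0p]
  have h1 : |τ x - τ' x| * w0 ≤ |τ x - τ' x| * w :=
    mul_le_mul_of_nonneg_left hw0w (abs_nonneg _)
  rw [mul_comm _ w] at h1
  exact h1.trans hfin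

end CI
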