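import Pool.Agent.H.MP_1693ff_gtD.MDefs

/-!
# The perturbations: at most one active term
-/

namespace CI

open Real Set Filter Topology MeasureTheory
open CF hiding St

/-- `bu` is smooth, `0 ≤ bu ≤ 1`, `bu = 0` outside `(1,2)`, `bu = 1` on `[5/4, 7/4]`. -/
theorem bu_facts : ContDiff ℝ (⊤ : ℕ∞) bu ∧ (∀ x, 0 ≤ bu x ∧ bu x ≤ 1) ∧ (∀ x ≤ 1, bu x = 0) ∧
    (∀ x, 2 ≤ x → bu x = 0) ∧ ∀ x ∈ Icc (5 / 4 : ℝ) (7 / 4), bu x = 1 := by
  refine ⟨?_, ?_, ?_, ?_, ?_⟩
  · unfold bu
    exact (Real.smoothTransition.contDiff.comp (by fun_prop)).mul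
      (Real.smoothTransition.contDiff.comp (by fun_prop))
  · intro x
    unfold bu
    exact ⟨mul_nonneg (Real.smoothTransition.nonneg _) (Real.smoothTransition.nonneg _),
      mul_le_one₀ (Real.smoothTransition.le_one _) (Real.smoothTransition.nonneg _)
        (Real.smoothTransition.le_one _)⟩
  · intro x hx
    unfold bu
    rw [Real.smoothTransition.zero_of_nonpos (by linarith), zero_mul]
  · intro x hx
    unfold bu
    rw [Real.smoothTransition.zero_of_nonpos (x := 4 * (2 - x)) (by linarith), mul_zero]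
  · intro x hx
    unfold bu
    rw [Real.smoothTransition.one_of_one_le (by linarith [hx.1]),
      Real.smoothTransition.one_of_one_le (by linarith [hx.2]), one_mul]

/-- At every `σ` at most one term is nonzero. -/
theorem gt_single (δ : ℝ) (N : ℕ) (t : ℕ → ℝ) (σ : ℝ) :
    (gt δ N t σ = 0 ∧ ∀ s, bu (2 ^ (s + N) * σ) = 0) ∨
    ∃ s, (∀ s', s' ≠ s → bu (2 ^ (s' + N) * σ) = 0) ∧
      gt δ N t σ = t s * (δ * (1 / 2) ^ (s ^ 2)) * bu (2 ^ (s + N) * σ) := by
  obtain ⟨-, -, h1, h2, -⟩ := bu_facts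
  by_cases h : ∀ s, bu (2 ^ (s + N) * σ) = 0
  · left
    refine ⟨?_, h⟩
    unfold gt
    simp only [h, mul_zero, tsum_zero]
  · right
    push Not at h
    obtain ⟨s, hs⟩ := h
    have h3 : 1 < 2 ^ (s + N) * σ := by
      by_contra h4
      exact hs (h1 _ (not_lt.1 h4))
    have h4 : 2 ^ (s + N) * σ < 2 := by
      by_contra h5
      exact hs (h2 _ (not_lt.1 h5))
    have hσ : 0 < σ := by
      by_contra h5
      have h6 : (2 : ℝ) ^ (s + N) * σ ≤ 0 :=
        mul_nonpos_of_nonneg_of_nonpos (by positivity) (not_lt.1 h5)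
      linarith
    have h5 : ∀ s', s' ≠ s → bu (2 ^ (s' + N) * σ) = 0 := by
      intro s' hne
      rcases lt_or_gt_of_ne hne with h6 | h6
      · apply h1
        have h7 : (2 : ℝ) ^ (s' + N + 1) ≤ 2 ^ (s + N) :=
          pow_le_pow_right₀ (by norm_num) (by omega)
        have h8 := mul_le_mul_of_nonneg_right h7 hσ.le
        rw [pow_succ] at h8
        nlinarith
      · apply h2
        have h7 : (2 : ℝ) ^ (s + N + 1) ≤ 2 ^ (s' + N) :=
          pow_le_pow_right₀ (by norm_num) (by omega)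
        have h8 := mul_le_mul_of_nonneg_right h7 hσ.le
        rw [pow_succ] at h8
        nlinarith
    refine ⟨s, h5, ?_⟩
    unfold gt
    refine tsum_eq_single s fun s' hs' => ?_
    rw [h5 s' hs', mul_zero]

end CI
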