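import Pool.Agent.H.MP_1693ff_gtD.MFam

/-!
# The perturbations: elementary properties
-/

namespace CI

open Real Set Filter Topology MeasureTheory
open CF hiding St

theorem mfama_zero {δ : ℝ} {N : ℕ} {t : ℕ → ℝ} {σ : ℝ} (h : ∀ s, bu (2 ^ (s + N) * σ) = 0) :
    gt δ N t σ = 0 := by
  unfold gt
  simp [h]

theorem mfama_single {δ : ℝ} {N : ℕ} {t : ℕ → ℝ} {σ : ℝ} {s : ℕ}
    (h : ∀ s', s' ≠ s → bu (2 ^ (s' + N) * σ) = 0) :
    gt δ N t σ = t s * (δ * (1 / 2) ^ (s ^ 2)) * bu (2 ^ (s + N) * σ) := by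
  unfold gt
  exact tsum_eq_single s fun s' hs' => by rw [h s' hs', mul_zero]

theorem mfama_bu {N s₀ s : ℕ} {σ : ℝ} (hσ : 2 ≤ 2 ^ (s₀ + N) * σ) (hs : s₀ ≤ s) :
    bu (2 ^ (s + N) * σ) = 0 := by
  refine bu_facts.2.2.2.1 _ (hσ.trans ?_)
  have h0 : (0 : ℝ) < 2 ^ (s₀ + N) := by positivity
  have h1 : 0 ≤ σ := by
    by_contra hc
    have := mul_neg_of_pos_of_neg h0 (not_le.1 hc)
    linarith
  refine mul_le_mul_of_nonneg_right ?_ h1
  exact pow_le_pow_right₀ (by norm_num) (by omega)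

/-- Sequences which agree up to `η` in the first `S` terms: the values agree up to
`δ (η + 2^{-S})` (`gt_single`; the active `s` is the same). -/
theorem gt_near {δ η : ℝ} (hδ : 0 ≤ δ) (hη : 0 ≤ η) (N S : ℕ) {t t' : ℕ → ℝ}
    (h0 : ∀ s, t s ∈ Icc (0 : ℝ) 1) (h1 : ∀ s, t' s ∈ Icc (0 : ℝ) 1)
    (h : ∀ s < S, |t s - t' s| ≤ η) (σ : ℝ) :
    |gt δ N t σ - gt δ N t' σ| ≤ δ * (η + (1 / 2) ^ S) := by
  rcases gt_single δ N t σ with ⟨h2, h3⟩ | ⟨s, h2, h3⟩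
  · rw [h2, mfama_zero h3, sub_self, abs_zero]
    positivity
  · have hb := bu_facts.2.1 (2 ^ (s + N) * σ)
    have hpow : (0 : ℝ) ≤ (1 / 2) ^ (s ^ 2) := by positivity
    have hpow1 : ((1 : ℝ) / 2) ^ (s ^ 2) ≤ 1 := pow_le_one₀ (by norm_num) (by norm_num)
    rw [h3, mfama_single h2]
    rw [show t s * (δ * (1 / 2) ^ (s ^ 2)) * bu (2 ^ (s + N) * σ) -
      t' s * (δ * (1 / 2) ^ (s ^ 2)) * bu (2 ^ (s + N) * σ) =
      δ * ((t s - t' s) * (1 / 2) ^ (s ^ 2)) * bu (2 ^ (s + N) * σ) by ring]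
    rw [abs_mul, abs_mul, abs_mul, abs_of_nonneg hδ, abs_of_nonneg hpow, abs_of_nonneg hb.1]
    have h4 : |t s - t' s| * (1 / 2) ^ (s ^ 2) ≤ η + (1 / 2) ^ S := by
      by_cases hs : s < S
      · have h5 : |t s - t' s| * (1 / 2) ^ (s ^ 2) ≤ η * 1 :=
          mul_le_mul (h s hs) hpow1 hpow hη
        have h6 : (0 : ℝ) ≤ (1 / 2) ^ S := by positivity
        linarith
      · have h5 : |t s - t' s| ≤ 1 := by
          have h6 := h0 s
          have h7 := h1 s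
          rw [abs_le]
          constructor
          · linarith [h6.1, h7.2]
          · linarith [h6.2, h7.1]
        have h8 : ((1 : ℝ) / 2) ^ (s ^ 2) ≤ (1 / 2) ^ S := by
          refine pow_le_pow_of_le_one (by norm_num) (by norm_num) ?_
          nlinarith [not_lt.1 hs, Nat.zero_le s]
        have h9 : |t s - t' s| * (1 / 2) ^ (s ^ 2) ≤ 1 * (1 / 2) ^ S :=
          mul_le_mul h5 h8 hpow zero_le_one
        linarith
    have h10 : (0 : ℝ) ≤ δ * (|t s - t' s| * (1 / 2) ^ (s ^ 2)) := by positivity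
    calc δ * (|t s - t' s| * (1 / 2) ^ (s ^ 2)) * bu (2 ^ (s + N) * σ)
        ≤ δ * (|t s - t' s| * (1 / 2) ^ (s ^ 2)) * 1 := mul_le_mul_of_nonneg_left hb.2 h10
      _ ≤ δ * (η + (1 / 2) ^ S) := by
          rw [mul_one]
          exact mul_le_mul_of_nonneg_left h4 hδ

/-- If `t, t'` agree in the first `s₀` terms the values agree for `σ ≥ 2^{1-s₀-N}`. -/
theorem gt_far {δ : ℝ} (N s₀ : ℕ) {t t' : ℕ → ℝ} (h : ∀ s < s₀, t s = t' s) {σ : ℝ}
    (hσ : 2 ≤ 2 ^ (s₀ + N) * σ) : gt δ N t σ = gt δ N t' σ := by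
  unfold gt
  refine tsum_congr fun s => ?_
  by_cases hs : s < s₀
  · rw [h s hs]
  · rw [mfama_bu hσ (not_lt.1 hs), mul_zero, mul_zero]

/-- On the plateau of the `l`-th bump. -/
theorem gt_band (δ : ℝ) (N l : ℕ) (t : ℕ → ℝ) {σ : ℝ}
    (hσ : 2 ^ (l + N) * σ ∈ Icc (5 / 4 : ℝ) (7 / 4)) :
    gt δ N t σ = t l * (δ * (1 / 2) ^ (l ^ 2)) := by
  have hz : ∀ s', s' ≠ l → bu (2 ^ (s' + N) * σ) = 0 := by
    intro s' hs'
    rcases Nat.lt_or_gt_of_ne hs' with h1 | h1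
    · refine bu_facts.2.2.1 _ ?_
      obtain ⟨k, rfl⟩ := Nat.exists_eq_add_of_lt h1
      have e : (2 : ℝ) ^ (s' + k + 1 + N) * σ = 2 ^ (k + 1) * (2 ^ (s' + N) * σ) := by
        rw [← mul_assoc, ← pow_add]
        congr 2
        omega
      have h2 : (2 : ℝ) ≤ 2 ^ (k + 1) := by
        rw [pow_succ]
        have : (1 : ℝ) ≤ 2 ^ k := one_le_pow₀ (by norm_num)
        linarith
      have h3 := hσ.2
      rw [e] at h3
      by_contra hc
      have h4 := mul_le_mul h2 (not_le.1 hc).le zero_le_one (by positivity)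
      linarith
    · refine mfama_bu (s₀ := l + 1) ?_ h1
      have e : (2 : ℝ) ^ (l + 1 + N) * σ = 2 * (2 ^ (l + N) * σ) := by
        rw [show l + 1 + N = (l + N) + 1 by omega, pow_succ]
        ring
      rw [e]
      linarith [hσ.1]
  rw [mfama_single hz, bu_facts.2.2.2.2 _ hσ, mul_one]

/-- The function vanishes for `σ ≥ 2^{1-N}`. -/
theorem gt_supp (δ : ℝ) (N : ℕ) (t : ℕ → ℝ) {σ : ℝ} (hσ : 2 ≤ 2 ^ N * σ) : gt δ N t σ = 0 := by
  refine mfama_zero fun s => mfama_bu (s₀ := 0) ?_ (Nat.zero_le s)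
  rw [Nat.zero_add]
  exact hσ

end CI
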