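import Pool.Agent.H.MP_1693ff_gtD.MFam

/-!
# The perturbations: bounds of the derivatives of the terms
-/

namespace CI

open Real Set Filter Topology MeasureTheory
open CF hiding St

/-- All derivatives of `bu` are bounded (compact support). -/
theorem bu_bd (k : ℕ) : ∃ C : ℝ, 0 ≤ C ∧ ∀ x, ‖iteratedFDeriv ℝ k bu x‖ ≤ C := by
  obtain ⟨h1, -, h3, h4, -⟩ := bu_facts
  have hcs : HasCompactSupport bu := by
    refine HasCompactSupport.intro (isCompact_Icc : IsCompact (Icc (1 : ℝ) 2)) fun x hx => ?_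
    rcases le_or_gt x 1 with h | h
    · exact h3 x h
    · rcases le_or_gt 2 x with h' | h'
      · exact h4 x h'
      · exact absurd ⟨h.le, h'.le⟩ hx
  have hc : Continuous (iteratedFDeriv ℝ k bu) :=
    h1.continuous_iteratedFDeriv (by exact_mod_cast le_top)
  obtain ⟨C, hC⟩ := hc.bounded_above_of_compact_support (hcs.iteratedFDeriv k)
  exact ⟨C, (norm_nonneg _).trans (hC 0), hC⟩

theorem mfamb_pow (N k s : ℕ) : (1 / 2 : ℝ) ^ (s ^ 2) * (2 ^ (s + N)) ^ k ≤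
    2 ^ (N * k + (k + 1) ^ 2) * (1 / 2) ^ s := by
  rw [one_div, inv_pow, inv_pow, inv_mul_eq_div, ← div_eq_mul_inv,
    div_le_div_iff₀ (by positivity) (by positivity), ← pow_mul, ← pow_add, ← pow_add]
  refine pow_le_pow_right₀ one_le_two ?_
  have h : s * (k + 1) ≤ s ^ 2 + (k + 1) ^ 2 := by
    rcases le_total s (k + 1) with h | h
    · nlinarith [Nat.mul_le_mul_right (k + 1) h]
    · nlinarith [Nat.mul_le_mul_left s h]
  nlinarith

/-- The `s`-th term: `‖D^k‖ ≤ δ (1/2)^{s²} 2^{(s+N) k} C_k`, which is summable in `s`. -/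
theorem term_bd (N k : ℕ) : ∃ v : ℕ → ℝ, Summable v ∧ ∀ δ, 0 ≤ δ → ∀ t : ℕ → ℝ,
    (∀ s, t s ∈ Icc (0 : ℝ) 1) → ∀ (s : ℕ) (x : ℝ),
    ‖iteratedFDeriv ℝ k (fun σ => t s * (δ * (1 / 2) ^ (s ^ 2)) * bu (2 ^ (s + N) * σ)) x‖ ≤
      δ * v s := by
  obtain ⟨C, hC0, hC⟩ := bu_bd k
  refine ⟨fun s => (1 / 2 : ℝ) ^ (s ^ 2) * (2 ^ (s + N)) ^ k * C, ?_, ?_⟩
  · refine Summable.of_nonneg_of_le (fun s => by positivity)
      (fun s => mul_le_mul_of_nonneg_right (mfamb_pow N k s) hC0) ?_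
    exact ((summable_geometric_of_lt_one (by norm_num) (by norm_num)).mul_left _).mul_right _
  · intro δ hδ t ht s x
    have hbu : ContDiff ℝ k bu := bu_facts.1.of_le (by exact_mod_cast le_top)
    rw [norm_iteratedFDeriv_eq_norm_iteratedDeriv, iteratedDeriv_const_mul_field,
      iteratedDeriv_comp_const_mul hbu]
    have h1 : ‖iteratedDeriv k bu (2 ^ (s + N) * x)‖ ≤ C := by
      rw [← norm_iteratedFDeriv_eq_norm_iteratedDeriv]
      exact hC _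
    have h2 : ‖t s * (δ * (1 / 2) ^ (s ^ 2))‖ ≤ δ * (1 / 2) ^ (s ^ 2) := by
      rw [norm_mul, Real.norm_of_nonneg (ht s).1,
        Real.norm_of_nonneg (by positivity : 0 ≤ δ * (1 / 2) ^ (s ^ 2))]
      exact mul_le_of_le_one_left (by positivity) (ht s).2
    have h3 : ‖(2 ^ (s + N) : ℝ) ^ k‖ = (2 ^ (s + N)) ^ k := Real.norm_of_nonneg (by positivity)
    show ‖t s * (δ * (1 / 2) ^ (s ^ 2)) * ((2 ^ (s + N)) ^ k * iteratedDeriv k bu (2 ^ (s + N) * x))‖ ≤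
      δ * ((1 / 2 : ℝ) ^ (s ^ 2) * (2 ^ (s + N)) ^ k * C)
    rw [norm_mul (t s * (δ * (1 / 2) ^ (s ^ 2))), norm_mul ((2 ^ (s + N) : ℝ) ^ k), h3]
    calc ‖t s * (δ * (1 / 2) ^ (s ^ 2))‖ * ((2 ^ (s + N)) ^ k * ‖iteratedDeriv k bu (2 ^ (s + N) * x)‖)
        ≤ (δ * (1 / 2) ^ (s ^ 2)) * ((2 ^ (s + N)) ^ k * C) :=
          mul_le_mul h2 (mul_le_mul_of_nonneg_left h1 (by positivity)) (by positivity) (by positivity)
      _ = δ * ((1 / 2 : ℝ) ^ (s ^ 2) * (2 ^ (s + N)) ^ k * C) := by ring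

end CI
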