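import Pool.Agent.H.MP_1693ff_gtD.MFamC

/-!
# The perturbations as functions on the sphere: smoothness
-/

namespace CI

open Real Set Filter Topology MeasureTheory
open CF hiding St

variable {E : Type*} [NormedAddCommGroup E] [InnerProductSpace ℝ E]

/-- `sg c` is homogeneous of degree `0` and smooth outside `0`. -/
theorem sg_ev (c : E) : EvC (⊤ : ℕ∞) (sg c) := by
  constructor
  · intro t ht u
    unfold sg
    rw [real_inner_smul_right, norm_smul, Real.norm_eq_abs, mul_pow, mul_pow, sq_abs,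
      mul_div_mul_left _ _ (pow_ne_zero 2 ht)]
  · have h1 : ContDiff ℝ (⊤ : ℕ∞) (fun u : E => (inner ℝ c u : ℝ) ^ 2) :=
      (contDiff_const.inner ℝ contDiff_id).pow 2
    have h2 : ContDiff ℝ (⊤ : ℕ∞) (fun u : E => ‖u‖ ^ 2) := contDiff_norm_sq ℝ
    have h3 : ContDiffOn ℝ (⊤ : ℕ∞) (fun u : E => (inner ℝ c u : ℝ) ^ 2 / ‖u‖ ^ 2) {0}ᶜ :=
      h1.contDiffOn.div h2.contDiffOn (fun u hu => pow_ne_zero 2 (norm_ne_zero_iff.2 hu))
    exact contDiffOn_const.sub h3

theorem fam_ev {δ : ℝ} (hδ : 0 ≤ δ) (N : ℕ) (c : Bool → E) {t : Bool × ℕ → ℝ}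
    (h0 : ∀ x, t x ∈ Icc (0 : ℝ) 1) : EvC (⊤ : ℕ∞) (fam δ N c t) := by
  constructor
  · intro s hs u
    unfold fam
    rw [(sg_ev (c false)).hom s hs, (sg_ev (c true)).hom s hs]
  · exact ((gt_smooth hδ N (fun s => h0 (false, s))).comp_contDiffOn (sg_ev (c false)).c).add
      ((gt_smooth hδ N (fun s => h0 (true, s))).comp_contDiffOn (sg_ev (c true)).c)

end CI
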