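import Pool.Agent.H.MP_1693ff_gtD.MFamD

/-!
# The perturbations as functions on the sphere: derivatives
-/

namespace CI

open Real Set Filter Topology MeasureTheory
open CF hiding St

variable {E : Type*} [NormedAddCommGroup E] [InnerProductSpace ℝ E]

theorem mfame_sph [FiniteDimensional ℝ E] (k : ℕ) (c : E) : ∃ D : ℝ, 1 ≤ D ∧ ∀ j ≤ k,
    ∀ u : E, ‖u‖ = 1 → ‖iteratedFDerivWithin ℝ j (sg c) {0}ᶜ u‖ ≤ D := by
  have hopen : IsOpen ({0}ᶜ : Set E) := isOpen_compl_singleton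
  have hsub : Metric.sphere (0 : E) 1 ⊆ {0}ᶜ := by
    intro u hu h0
    rw [mem_sphere_zero_iff_norm, Set.mem_singleton_iff.1 h0, norm_zero] at hu
    exact zero_ne_one hu
  have h : ∀ j : ℕ, ∃ C : ℝ, ∀ u ∈ Metric.sphere (0 : E) 1,
      ‖iteratedFDerivWithin ℝ j (sg c) {0}ᶜ u‖ ≤ C := by
    intro j
    have hc : ContinuousOn (iteratedFDerivWithin ℝ j (sg c) {0}ᶜ) {0}ᶜ :=
      (sg_ev c).c.continuousOn_iteratedFDerivWithin (by exact_mod_cast le_top)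
        hopen.uniqueDiffOn
    exact (isCompact_sphere (0 : E) 1).exists_bound_of_continuousOn (hc.mono hsub)
  choose C hC using h
  have hnn : ∀ j ∈ Finset.range (k + 1), 0 ≤ |C j| := fun j _ => abs_nonneg _
  refine ⟨1 + ∑ j ∈ Finset.range (k + 1), |C j|, ?_, ?_⟩
  · linarith [Finset.sum_nonneg hnn]
  · intro j hj u hu
    have h1 := hC j u (mem_sphere_zero_iff_norm.2 hu)
    have h2 : |C j| ≤ ∑ j ∈ Finset.range (k + 1), |C j| :=
      Finset.single_le_sum hnn (Finset.mem_range.2 (Nat.lt_succ_of_le hj))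
    have h3 := le_abs_self (C j)
    linarith

theorem mfame_comp [FiniteDimensional ℝ E] (N k : ℕ) (c : E) : ∃ B : ℝ, 0 ≤ B ∧
    ∀ δ, 0 ≤ δ → ∀ t : ℕ → ℝ, (∀ s, t s ∈ Icc (0 : ℝ) 1) → ∀ j ≤ k, ∀ u : E, ‖u‖ = 1 →
      ‖iteratedFDerivWithin ℝ j (gt δ N t ∘ sg c) {0}ᶜ u‖ ≤ B * δ := by
  obtain ⟨C, hC0, hC⟩ := gt_bd N k
  obtain ⟨D, hD1, hD⟩ := mfame_sph k c
  have hopen : IsOpen ({0}ᶜ : Set E) := isOpen_compl_singleton
  have hD0 : 0 ≤ D := zero_le_one.trans hD1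
  refine ⟨k.factorial * C * D ^ k, by positivity, ?_⟩
  intro δ hδ t ht j hj u hu
  have hu0 : u ∈ ({0}ᶜ : Set E) := by
    intro h0
    rw [Set.mem_singleton_iff.1 h0, norm_zero] at hu
    exact zero_ne_one hu
  have h := norm_iteratedFDerivWithin_comp_le (𝕜 := ℝ) (g := gt δ N t) (f := sg c) (n := j)
    (s := {0}ᶜ) (t := univ) (x := u) (N := ((⊤ : ℕ∞) : WithTop ℕ∞))
    (gt_smooth hδ N ht).contDiffOn (sg_ev c).c (by exact_mod_cast le_top) uniqueDiffOn_univ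
    hopen.uniqueDiffOn (mapsTo_univ _ _) hu0 (C := C * δ) (D := D)
    (fun i hi => by
      rw [iteratedFDerivWithin_univ]
      exact hC δ hδ t ht i (hi.trans hj) _)
    (fun i hi1 hi => (hD i (hi.trans hj) u hu).trans (le_self_pow₀ hD1 (by omega)))
  refine h.trans ?_
  have h1 : (j.factorial : ℝ) ≤ k.factorial := by exact_mod_cast Nat.factorial_le hj
  have h2 : D ^ j ≤ D ^ k := pow_le_pow_right₀ hD1 hj
  calc (j.factorial : ℝ) * (C * δ) * D ^ j ≤ k.factorial * (C * δ) * D ^ k := by gcongr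
    _ = k.factorial * C * D ^ k * δ := by ring

/-- Derivatives of `sg c` on the unit sphere are bounded (compactness: continuous functions,
finite dimension), then the Faa di Bruno bound `norm_iteratedFDeriv_comp_le` (or
`norm_iteratedFDerivWithin_comp_le` on the open set `{0}ᶜ`) with `gt_bd`. -/
theorem fam_small [FiniteDimensional ℝ E] (N k : ℕ) (c : Bool → E) {ε : ℝ} (hε : 0 < ε) :
    ∃ δ > 0, ∀ t : Bool × ℕ → ℝ, (∀ x, t x ∈ Icc (0 : ℝ) 1) → ∀ j ≤ k, ∀ u : E, ‖u‖ = 1 →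
      ‖iteratedFDeriv ℝ j (fam δ N c t) u‖ ≤ ε := by
  obtain ⟨B₀, hB₀, h₀⟩ := mfame_comp N k (c false)
  obtain ⟨B₁, hB₁, h₁⟩ := mfame_comp N k (c true)
  have hopen : IsOpen ({0}ᶜ : Set E) := isOpen_compl_singleton
  refine ⟨ε / (B₀ + B₁ + 1), by positivity, ?_⟩
  intro t ht j hj u hu
  have hu0 : u ∈ ({0}ᶜ : Set E) := by
    intro h0
    rw [Set.mem_singleton_iff.1 h0, norm_zero] at hu
    exact zero_ne_one hu
  have hδ : 0 ≤ ε / (B₀ + B₁ + 1) := by positivity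
  obtain ⟨δ, hδe⟩ : ∃ δ, δ = ε / (B₀ + B₁ + 1) := ⟨_, rfl⟩
  rw [← hδe] at hδ ⊢
  have ht0 : ∀ s : ℕ, (fun s => t (false, s)) s ∈ Icc (0 : ℝ) 1 := fun s => ht _
  have ht1 : ∀ s : ℕ, (fun s => t (true, s)) s ∈ Icc (0 : ℝ) 1 := fun s => ht _
  have hf : fam δ N c t = (gt δ N (fun s => t (false, s)) ∘ sg (c false)) +
      (gt δ N (fun s => t (true, s)) ∘ sg (c true)) := rfl
  have hc0 : ContDiffOn ℝ j (gt δ N (fun s => t (false, s)) ∘ sg (c false)) {0}ᶜ :=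
    ((gt_smooth hδ N ht0).comp_contDiffOn (sg_ev (c false)).c).of_le (by exact_mod_cast le_top)
  have hc1 : ContDiffOn ℝ j (gt δ N (fun s => t (true, s)) ∘ sg (c true)) {0}ᶜ :=
    ((gt_smooth hδ N ht1).comp_contDiffOn (sg_ev (c true)).c).of_le (by exact_mod_cast le_top)
  rw [← iteratedFDerivWithin_of_isOpen j hopen hu0, hf,
    iteratedFDerivWithin_add_apply (hc0 u hu0) (hc1 u hu0) hopen.uniqueDiffOn hu0]
  refine (norm_add_le _ _).trans ?_
  have e0 := h₀ δ hδ _ ht0 j hj u hu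
  have e1 := h₁ δ hδ _ ht1 j hj u hu
  have e2 : (B₀ + B₁ + 1) * δ = ε := by
    rw [hδe]
    field_simp
  nlinarith

end CI
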