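import Pool.Agent.H.MP_1693ff_gtD.MDefs

/-!
# Point reflection
-/

namespace CI

open Real Set Filter Topology MeasureTheory
open CF hiding St

variable {i r R M ε ac : ℝ} {Y₁ Y₂ y₁ y₂ Y₁' Y₂' y₁' y₂' : ℝ → ℝ}

/-- Point reflection: `up` for the new system is `lo` at `-a - y⁻¹` and conversely. -/
theorem Sy.flip (S : Sy r R Y₁ Y₂ y₁ y₂) :
    Sy r R (fun a => y₁ (-a)) (fun a => y₂ (-a)) (fun a => Y₁ (-a)) (fun a => Y₂ (-a)) where
  c1 := S.d1.comp continuous_neg
  c2 := S.d2.comp continuous_neg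
  d1 := S.c1.comp continuous_neg
  d2 := S.c2.comp continuous_neg
  b1 := fun a => by simpa using S.b3 (-a)
  b2 := fun a => by simpa using S.b4 (-a)
  b3 := fun a => by simpa using S.b1 (-a)
  b4 := fun a => by simpa using S.b2 (-a)
  up := fun a y hy => by
    have h := S.lo (-(a + y⁻¹)) y hy
    have e : -(a + y⁻¹) + y⁻¹ = -a := by ring
    rw [e] at h
    exact h.symm
  lo := fun a y hy => by
    have h := S.up (-(a + y⁻¹)) y hy
    have e : -(a + y⁻¹) + y⁻¹ = -a := by ring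
    rw [e] at h
    exact h.symm

theorem Cmp.flip (C : Cmp i M ε R ac Y₁ Y₂ y₁ y₂ Y₁' Y₂' y₁' y₂') :
    Cmp i M ε R (-ac) (fun a => y₁ (-a)) (fun a => y₂ (-a)) (fun a => Y₁ (-a))
      (fun a => Y₂ (-a)) (fun a => y₁' (-a)) (fun a => y₂' (-a)) (fun a => Y₁' (-a))
      (fun a => Y₂' (-a)) where
  t1 := fun a => by
    have h := C.t1 (-a)
    rw [abs_neg a] at h
    rw [add_comm (Jf i (y₁ (-a))), add_comm (Jf i (y₁' (-a)))]
    exact h
  t2 := fun a ha => by
    have h := C.t2 (-a) (by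
      rw [show -a - ac = -(a - -ac) by ring, abs_neg]
      exact ha)
    rw [abs_neg a] at h
    rw [add_comm (Jf i (y₂ (-a))), add_comm (Jf i (y₂' (-a)))]
    exact h
  t3 := fun a ha => C.t4 a ha
  t4 := fun a ha => by
    simp only [neg_neg]
    exact C.t3 a ha

end CI
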