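import Pool.Agent.H.MP_1693ff_gtD.MNowB
import Pool.Agent.H.MP_1693ff_gtD.MClsB
import Pool.Agent.H.MP_1693ff_gtD.MFamD

/-!
# A pair which is not realised
-/

namespace CI

open Real Set Filter Topology MeasureTheory
open CF hiding St

theorem mgen_add {E : Type*} [NormedAddCommGroup E] [InnerProductSpace ℝ E] {f g : E → ℝ}
    {N M : WithTop ℕ∞} (hf : EvC N f) (hg : EvC M g) (h : N ≤ M) :
    EvC N (fun u => f u + g u) where
  hom := fun t ht u => by rw [hf.hom t ht, hg.hom t ht]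
  c := hf.c.add (hg.c.of_le h)

/-- Baire category in the compact space `[0,1]^{Bool × ℕ}` (`nowhere` for all `m : ℕ`, `b`;
`exists_cl`). -/
theorem exists_good {n : ℕ} {i : ℝ} (hi : -1 < i)
    {f₁ f₂ : EuclideanSpace ℝ (Fin n) → ℝ} (h1 : EvC 2 f₁) (h2 : EvC 2 f₂) {δ : ℝ} (hδ : 0 < δ)
    (N : ℕ) {c : Bool → EuclideanSpace ℝ (Fin n)} (hc : LinearIndependent ℝ c)
    (cn : ∀ b, ‖c b‖ = 1) : ∃ t : Bool × ℕ → ℝ, (∀ x, t x ∈ Icc (0 : ℝ) 1) ∧
      ¬ IsPair i f₁ (fun u => f₂ u + fam δ N c t u) := by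
  by_contra hcon
  push Not at hcon
  set T : ℕ × Bool → Set (Bool × ℕ → Icc (0 : ℝ) 1) := fun q => {t |
      ∃ (K : Set (EuclideanSpace ℝ (Fin n))) (p e ω : EuclideanSpace ℝ (Fin n)) (d A B : ℝ),
        Cl i ((q.1 + 1 : ℕ) : ℝ) (c q.2) f₁ (fun u => f₂ u + fam δ N c (fun x => (t x : ℝ)) u)
          K p e ω d A B} with hT
  have hint : ∀ q, interior (closure (T q)) = ∅ := fun q =>
    nowhere hi (by push_cast; linarith [q.1.cast_nonneg (α := ℝ)]) h1 h2 hδ N cn q.2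
  have hU : ⋃ q, closure (T q) = univ := by
    refine eq_univ_of_forall fun t => ?_
    have ht : ∀ x, ((t x : ℝ)) ∈ Icc (0 : ℝ) 1 := fun x => (t x).2
    have hF : EvC 2 (fun u => f₂ u + fam δ N c (fun x => (t x : ℝ)) u) :=
      mgen_add h2 (fam_ev hδ.le N c ht) (by
        have h3 : ((2 : ℕ∞) : WithTop ℕ∞) ≤ ((⊤ : ℕ∞) : WithTop ℕ∞) := WithTop.coe_le_coe.2 le_top
        exact h3)
    obtain ⟨m, b, hm, hK⟩ := exists_cl hc cn hF (hcon _ ht)
    refine mem_iUnion.2 ⟨(m - 1, b), subset_closure ?_⟩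
    have e : m - 1 + 1 = m := Nat.sub_add_cancel hm
    show ∃ (K : Set (EuclideanSpace ℝ (Fin n))) (p e ω : EuclideanSpace ℝ (Fin n)) (d A B : ℝ),
        Cl i ((m - 1 + 1 : ℕ) : ℝ) (c b) f₁ (fun u => f₂ u + fam δ N c (fun x => (t x : ℝ)) u)
          K p e ω d A B
    rw [e]
    exact hK
  have : Nonempty (Bool × ℕ → Icc (0 : ℝ) 1) := ⟨fun _ => 0⟩
  obtain ⟨q, hq⟩ := nonempty_interior_of_iUnion_of_closed (fun q => isClosed_closure) hU
  rw [hint q] at hq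
  exact not_nonempty_empty hq

end CI
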