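import Pool.Agent.H.MP_1693ff_gtD.MDefs

/-!
# Two independent unit vectors
-/

namespace CI

open Real Set Filter Topology MeasureTheory
open CF hiding St

theorem mgenb_aux1 {n : ℕ} (hn : 2 ≤ n) {u₀ : EuclideanSpace ℝ (Fin n)} (h0 : ‖u₀‖ = 1) :
    ∃ e : EuclideanSpace ℝ (Fin n), ‖e‖ = 1 ∧ inner ℝ u₀ e = (0 : ℝ) := by
  have hu : u₀ ≠ 0 := by
    intro h
    rw [h, norm_zero] at h0
    exact zero_ne_one h0
  have hne : (Submodule.span ℝ {u₀})ᗮ ≠ ⊥ := by
    intro h
    rw [Submodule.orthogonal_eq_bot_iff] at h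
    have h1 := finrank_span_singleton (K := ℝ) hu
    rw [h, finrank_top, finrank_euclideanSpace_fin] at h1
    omega
  obtain ⟨w, hw, hw0⟩ := Submodule.exists_mem_ne_zero_of_ne_bot hne
  have hwn : ‖w‖ ≠ 0 := norm_ne_zero_iff.2 hw0
  refine ⟨‖w‖⁻¹ • w, ?_, ?_⟩
  · rw [norm_smul, norm_inv, norm_norm, inv_mul_cancel₀ hwn]
  · rw [inner_smul_right, Submodule.mem_orthogonal_singleton_iff_inner_right.1 hw, mul_zero]

/-- Two linearly independent unit vectors near a given one. -/
theorem exists_c {n : ℕ} (hn : 2 ≤ n) {u₀ : EuclideanSpace ℝ (Fin n)} (h0 : ‖u₀‖ = 1) {ρ : ℝ}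
    (hρ : 0 < ρ) : ∃ c : Bool → EuclideanSpace ℝ (Fin n), LinearIndependent ℝ c ∧
      (∀ b, ‖c b‖ = 1) ∧ ∀ b, ‖c b - u₀‖ ≤ ρ := by
  obtain ⟨e, he, hue⟩ := mgenb_aux1 hn h0
  have heu : inner ℝ e u₀ = (0 : ℝ) := by rw [real_inner_comm]; exact hue
  have hcont : Continuous fun θ : ℝ => cos θ • u₀ + sin θ • e :=
    (continuous_cos.smul continuous_const).add (continuous_sin.smul continuous_const)
  have hten : Tendsto (fun θ : ℝ => cos θ • u₀ + sin θ • e) (𝓝[>] 0) (𝓝 u₀) := by
    have h := (hcont.tendsto 0).mono_left (nhdsWithin_le_nhds (s := Ioi 0))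
    rwa [cos_zero, sin_zero, one_smul, zero_smul, add_zero] at h
  have hev1 : ∀ᶠ θ in 𝓝[>] (0 : ℝ), dist (cos θ • u₀ + sin θ • e) u₀ < ρ :=
    hten (Metric.ball_mem_nhds u₀ hρ)
  have hev2 : ∀ᶠ θ in 𝓝[>] (0 : ℝ), θ < π :=
    nhdsWithin_le_nhds (gt_mem_nhds pi_pos)
  have hev3 : ∀ᶠ θ in 𝓝[>] (0 : ℝ), 0 < θ := self_mem_nhdsWithin
  obtain ⟨θ, h1, h2, h3⟩ := (hev1.and (hev2.and hev3)).exists
  have hs : 0 < sin θ := sin_pos_of_pos_of_lt_pi h3 h2
  refine ⟨fun b => if b then u₀ else cos θ • u₀ + sin θ • e, ?_, ?_, ?_⟩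
  · rw [Fintype.linearIndependent_iff]
    intro g hg
    rw [Fintype.sum_bool] at hg
    simp only [if_true, Bool.false_eq_true, if_false] at hg
    have h4 : inner ℝ e (g true • u₀ + g false • (cos θ • u₀ + sin θ • e)) = (0 : ℝ) := by
      rw [hg, inner_zero_right]
    rw [inner_add_right, inner_smul_right, inner_smul_right, inner_add_right, inner_smul_right,
      inner_smul_right, heu, real_inner_self_eq_norm_sq, he] at h4
    have h5 : g false = 0 := by
      have h6 : g false * sin θ = 0 := by linarith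
      exact (mul_eq_zero.1 h6).resolve_right hs.ne'
    rw [h5, zero_smul, add_zero] at hg
    have hu : u₀ ≠ 0 := by
      intro h
      rw [h, norm_zero] at h0
      exact zero_ne_one h0
    intro b
    cases b
    · exact h5
    · exact (smul_eq_zero.1 hg).resolve_right hu
  · intro b
    cases b
    · have h4 : ‖cos θ • u₀ + sin θ • e‖ ^ 2 = 1 := by
        rw [← real_inner_self_eq_norm_sq, inner_add_left, inner_add_right, inner_add_right,
          inner_smul_left, inner_smul_left, inner_smul_left, inner_smul_left, inner_smul_right,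
          inner_smul_right, inner_smul_right, inner_smul_right, heu, hue,
          real_inner_self_eq_norm_sq, real_inner_self_eq_norm_sq, he, h0]
        simp only [conj_trivial]
        have := cos_sq_add_sin_sq θ
        nlinarith
      simp only [Bool.false_eq_true, if_false]
      have h5 := norm_nonneg (cos θ • u₀ + sin θ • e)
      nlinarith
    · simpa using h0
  · intro b
    cases b
    · simp only [Bool.false_eq_true, if_false]
      rw [dist_eq_norm] at h1
      exact h1.le
    · simp only [if_true, sub_self, norm_zero]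
      exact hρ.le

end CI
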