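import Pool.Agent.H.MP_1693ff_gtD.MGen
import Pool.Agent.H.MP_1693ff_gtD.MGenB
import Pool.Agent.H.MP_1693ff_gtD.MFamE

/-!
# Pairs are not generic
-/

namespace CI

open Real Set Filter Topology MeasureTheory
open CF hiding St

/-- **Theorem.**  `exists_c` with `ρ/2`, `N` with `8 ≤ 2^N (ρ/2)²`, `δ` from `fam_small`,
`exists_good`, `fam_ev`, `fam_supp`. -/
theorem generic {n : ℕ} (hn : 2 ≤ n) {i : ℝ} (hi : -1 < i)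
    {f₁ f₂ : EuclideanSpace ℝ (Fin n) → ℝ} (h1 : EvC 2 f₁) (h2 : EvC 2 f₂) (k : ℕ) {ε ρ : ℝ}
    (hε : 0 < ε) (hρ : 0 < ρ) {u₀ : EuclideanSpace ℝ (Fin n)} (h0 : ‖u₀‖ = 1) :
    ∃ g : EuclideanSpace ℝ (Fin n) → ℝ, EvC (⊤ : ℕ∞) g ∧
      (∀ j ≤ k, ∀ u, ‖u‖ = 1 → ‖iteratedFDeriv ℝ j g u‖ ≤ ε) ∧
      (∀ u, ‖u‖ = 1 → ρ ≤ ‖u - u₀‖ → ρ ≤ ‖u + u₀‖ → g u = 0) ∧
      ¬ IsPair i f₁ (fun u => f₂ u + g u) := by
  obtain ⟨c, hc, cn, cu⟩ := exists_c hn h0 (half_pos hρ)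
  have hρ2 : 0 < (ρ / 2) ^ 2 := by positivity
  obtain ⟨N, hN⟩ := pow_unbounded_of_one_lt (8 / (ρ / 2) ^ 2) (one_lt_two (α := ℝ))
  have hN8 : 8 ≤ (2 : ℝ) ^ N * (ρ / 2) ^ 2 := by
    rw [div_lt_iff₀ hρ2] at hN
    exact hN.le
  obtain ⟨δ, hδ, hsm⟩ := fam_small N k c hε
  obtain ⟨t, ht, hno⟩ := exists_good hi h1 h2 hδ N hc cn
  refine ⟨fam δ N c t, fam_ev (le_of_lt hδ) N c ht, hsm t ht, fun u hu hu1 hu2 => ?_, hno⟩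
  refine fam_supp (half_pos hρ) hN8 cn t hu (fun b => ?_) fun b => ?_
  · have e1 : u - u₀ = (u - c b) + (c b - u₀) := by abel
    have e2 : ‖u - u₀‖ ≤ ‖u - c b‖ + ‖c b - u₀‖ := by
      rw [e1]
      exact norm_add_le _ _
    have e3 := cu b
    linarith
  · have e1 : u + u₀ = (u + c b) - (c b - u₀) := by abel
    have e2 : ‖u + u₀‖ ≤ ‖u + c b‖ + ‖c b - u₀‖ := by
      rw [e1]
      exact norm_sub_le _ _
    have e3 := cu b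
    linarith

end CI
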