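import Pool.Agent.H.MP_1693ff_gtD.MDefs

/-!
# Lipschitz functions on an interval
-/

namespace CI

open Real Set Filter Topology MeasureTheory
open CF hiding St

/-- `g` continuous and Lipschitz on `[a, b]`, `g a ≤ x₁ < x₂ ≤ g b`: there is a subinterval on
which `g ∈ [x₁, x₂]`, of length at least `(x₂ - x₁)/L`: `z₂` = the smallest point with
`g = x₂`, `z₁` = the largest point of `[a, z₂]` with `g = x₁`. -/
theorem ivt_band {g : ℝ → ℝ} {a b L x₁ x₂ : ℝ} (hab : a ≤ b) (hL : 0 < L)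
    (hg : ∀ x ∈ Icc a b, ∀ y ∈ Icc a b, |g x - g y| ≤ L * |x - y|) (h1 : g a ≤ x₁)
    (h12 : x₁ < x₂) (h2 : x₂ ≤ g b) : ∃ z₁ z₂, a ≤ z₁ ∧ z₁ ≤ z₂ ∧ z₂ ≤ b ∧
      x₂ - x₁ ≤ L * (z₂ - z₁) ∧ ∀ z ∈ Icc z₁ z₂, g z ∈ Icc x₁ x₂ := by
  have hcont : ContinuousOn g (Icc a b) := by
    have : LipschitzOnWith ⟨L, hL.le⟩ g (Icc a b) := by
      refine LipschitzOnWith.of_dist_le_mul fun x hx y hy => ?_
      rw [Real.dist_eq, Real.dist_eq]
      exact hg x hx y hy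
    exact this.continuousOn
  -- the smallest point with value `x₂`
  have hne2 : (Icc a b ∩ g ⁻¹' {x₂}).Nonempty := by
    obtain ⟨z, hz, hgz⟩ := intermediate_value_Icc hab hcont ⟨(h1.trans h12.le), h2⟩
    exact ⟨z, hz, hgz⟩
  have hcl2 : IsClosed (Icc a b ∩ g ⁻¹' {x₂}) :=
    hcont.preimage_isClosed_of_isClosed isClosed_Icc isClosed_singleton
  have hco2 : IsCompact (Icc a b ∩ g ⁻¹' {x₂}) := isCompact_Icc.of_isClosed_subset hcl2 inter_subset_left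
  have hz2 := hco2.sInf_mem hne2
  set z₂ := sInf (Icc a b ∩ g ⁻¹' {x₂}) with hz2def
  have hgz2 : g z₂ = x₂ := hz2.2
  have hlt2 : ∀ z ∈ Icc a z₂, g z ≤ x₂ := by
    intro z hz
    by_contra hc
    push Not at hc
    have hzb : z ≤ b := hz.2.trans hz2.1.2
    obtain ⟨w, hw, hgw⟩ := intermediate_value_Icc hz.1 (hcont.mono (Icc_subset_Icc_right hzb))
      (⟨h1.trans h12.le, hc.le⟩ : x₂ ∈ Icc (g a) (g z))
    have hwm : w ∈ Icc a b ∩ g ⁻¹' {x₂} := ⟨⟨hw.1, hw.2.trans hzb⟩, hgw⟩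
    have hle : z₂ ≤ w := csInf_le hco2.bddBelow hwm
    have hwz : w = z := le_antisymm hw.2 (hz.2.trans hle)
    rw [hwz] at hgw
    linarith
  -- the largest point of `[a, z₂]` with value `x₁`
  have hcont1 : ContinuousOn g (Icc a z₂) := hcont.mono (Icc_subset_Icc_right hz2.1.2)
  have hne1 : (Icc a z₂ ∩ g ⁻¹' {x₁}).Nonempty := by
    obtain ⟨z, hz, hgz⟩ := intermediate_value_Icc hz2.1.1 hcont1
      (⟨h1, by rw [hgz2]; exact h12.le⟩ : x₁ ∈ Icc (g a) (g z₂))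
    exact ⟨z, hz, hgz⟩
  have hcl1 : IsClosed (Icc a z₂ ∩ g ⁻¹' {x₁}) :=
    hcont1.preimage_isClosed_of_isClosed isClosed_Icc isClosed_singleton
  have hco1 : IsCompact (Icc a z₂ ∩ g ⁻¹' {x₁}) := isCompact_Icc.of_isClosed_subset hcl1 inter_subset_left
  have hz1 := hco1.sSup_mem hne1
  set z₁ := sSup (Icc a z₂ ∩ g ⁻¹' {x₁}) with hz1def
  have hgz1 : g z₁ = x₁ := hz1.2
  have hgt1 : ∀ z ∈ Icc z₁ z₂, x₁ ≤ g z := by
    intro z hz
    by_contra hc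
    push Not at hc
    have hza : a ≤ z := hz1.1.1.trans hz.1
    obtain ⟨w, hw, hgw⟩ := intermediate_value_Icc hz.2 (hcont1.mono (Icc_subset_Icc_left hza))
      (⟨hc.le, by rw [hgz2]; exact h12.le⟩ : x₁ ∈ Icc (g z) (g z₂))
    have hwm : w ∈ Icc a z₂ ∩ g ⁻¹' {x₁} := ⟨⟨hza.trans hw.1, hw.2⟩, hgw⟩
    have hle : w ≤ z₁ := le_csSup hco1.bddAbove hwm
    have hwz : w = z := le_antisymm (hle.trans hz.1) hw.1
    rw [hwz] at hgw
    linarith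
  refine ⟨z₁, z₂, hz1.1.1, hz1.1.2, hz2.1.2, ?_, fun z hz => ⟨hgt1 z hz, hlt2 z ⟨hz1.1.1.trans hz.1, hz.2⟩⟩⟩
  have h := hg z₂ hz2.1 z₁ ⟨hz1.1.1, hz1.1.2.trans hz2.1.2⟩
  rw [hgz2, hgz1, abs_of_nonneg (sub_nonneg.mpr hz1.1.2)] at h
  exact (le_abs_self _).trans h

end CI
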