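import Pool.Agent.H.MP_1693ff_gtD.MDefs
import Pool.Agent.H.MP_1693ff_gtC.NFinC

/-!
# The case `i < -1`: an open set of pairs
-/

namespace CI

open Real Set Filter Topology MeasureTheory Asymptotics
open CF hiding St

/-- a constant does not change the derivatives of positive order. -/
theorem mint_sub {E : Type*} [NormedAddCommGroup E] [NormedSpace ℝ E] (g : E → ℝ) (c : ℝ) (j : ℕ)
    (u : E) : iteratedFDeriv ℝ (j + 1) (fun u => g u - c) u = iteratedFDeriv ℝ (j + 1) g u := by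
  have h : (fun y => fderiv ℝ (fun u => g u - c) y) = fun y => fderiv ℝ g y := by
    funext y
    exact fderiv_sub_const c
  rw [iteratedFDeriv_succ_eq_comp_right, iteratedFDeriv_succ_eq_comp_right, h]

/-- nearly constant functions. -/
theorem mint_nf {n : ℕ} {g : EuclideanSpace ℝ (Fin n) → ℝ} (hg : EvC 3 g) {δ : ℝ}
    (h : ∀ j ≤ 3, ∀ u, ‖u‖ = 1 → ‖iteratedFDeriv ℝ j (fun u => g u - 1) u‖ ≤ δ) :
    CH.NF g 1 δ := by
  refine ⟨hg.hom, hg.c, fun u hu => ?_, fun u hu => ?_, fun u hu => ?_, fun u hu => ?_⟩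
  · have h1 := h 0 (by norm_num) u hu
    rw [norm_iteratedFDeriv_zero] at h1
    exact h1
  · have h1 := h 1 (by norm_num) u hu
    rw [mint_sub g 1 0 u] at h1
    exact h1
  · have h1 := h 2 (by norm_num) u hu
    rw [mint_sub g 1 1 u] at h1
    exact h1
  · have h1 := h 3 le_rfl u hu
    rw [mint_sub g 1 2 u] at h1
    exact h1

/-- `near_all` for the constants `1, 1`. -/
theorem lt_open {n : ℕ} (hn : 2 ≤ n) {i : ℝ} (hi : i < -1) :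
    ∃ f₁ f₂ : EuclideanSpace ℝ (Fin n) → ℝ, EvC 3 f₁ ∧ EvC 3 f₂ ∧ ∃ δ > 0,
    ∀ g₁ g₂ : EuclideanSpace ℝ (Fin n) → ℝ, EvC 3 g₁ → EvC 3 g₂ →
    (∀ j ≤ 3, ∀ u, ‖u‖ = 1 → ‖iteratedFDeriv ℝ j (fun u => g₁ u - f₁ u) u‖ ≤ δ) →
    (∀ j ≤ 3, ∀ u, ‖u‖ = 1 → ‖iteratedFDeriv ℝ j (fun u => g₂ u - f₂ u) u‖ ≤ δ) →
    IsPair i g₁ g₂ := by
  obtain ⟨δ, D, hδ, hD, H⟩ := CH.near_all hn (e := -i) (C₁ := 1) (C₂ := 1) (by linarith)
    one_pos one_pos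
  have e1 : EvC 3 (fun _ : EuclideanSpace ℝ (Fin n) => (1 : ℝ)) :=
    ⟨fun _ _ _ => rfl, contDiffOn_const⟩
  refine ⟨fun _ => 1, fun _ => 1, e1, e1, δ, hδ, fun g₁ g₂ c1 c2 h1 h2 => ?_⟩
  have hax : ‖(EuclideanSpace.single (⟨0, by omega⟩ : Fin n) (1 : ℝ))‖ = 1 := by
    rw [EuclideanSpace.norm_single, norm_one]
  obtain ⟨K, hK, k1, k2, q1, q2⟩ := H g₁ g₂ (mint_nf c1 h1) (mint_nf c2 h2) D le_rfl _ hax
  rw [neg_neg] at q1 q2
  refine ⟨K, 0, _, hK, ?_, k1, k2, q1, q2⟩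
  intro h0
  have h3 := congrArg norm h0
  rw [norm_zero, norm_smul, hax, mul_one, Real.norm_of_nonneg hD.le] at h3
  exact hD.ne h3

end CI
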