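import Pool.Agent.H.MP_1693ff_gtD.MQDefs

/-!
# The case `i = -1`, `n ≥ 3`: calculus
-/

namespace CI

open Real Set Filter Topology MeasureTheory Asymptotics
open CF hiding St

variable {E : Type*} [NormedAddCommGroup E] [InnerProductSpace ℝ E]

/-- differentiability of `f` and of its derivative. -/
theorem MQA_diff {f : E → ℝ} (h : EvC 2 f) {u : E} (hu : u ≠ 0) :
    HasFDerivAt f (fderiv ℝ f u) u ∧ HasFDerivAt (fderiv ℝ f) (fderiv ℝ (fderiv ℝ f) u) u := by
  have h1 : ContDiffAt ℝ 2 f u := h.c.contDiffAt (isOpen_compl_singleton.mem_nhds hu)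
  have h2 : ContDiffAt ℝ 1 (fderiv ℝ f) u := h1.fderiv_right (by norm_num)
  exact ⟨(h1.differentiableAt (by norm_num)).hasFDerivAt,
    (h2.differentiableAt (by norm_num)).hasFDerivAt⟩

/-- second order expansion from the derivative of the derivative. -/
theorem MQA_peano {g g' : ℝ → ℝ} {c : ℝ} (h1 : ∀ᶠ t in 𝓝 (0 : ℝ), HasDerivAt g (g' t) t)
    (h2 : HasDerivAt g' c 0) :
    (fun t => g t - (g 0 + g' 0 * t + c * t ^ 2 / 2)) =o[𝓝 0] fun t : ℝ => t ^ 2 := by
  rw [isLittleO_iff]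
  intro ε hε
  have h3 := (hasDerivAt_iff_isLittleO.1 h2)
  rw [isLittleO_iff] at h3
  obtain ⟨δ, hδ, h4⟩ := Metric.eventually_nhds_iff_ball.1 (h1.and (h3 hε))
  filter_upwards [Metric.ball_mem_nhds (0 : ℝ) hδ] with t ht
  have ht' : |t| < δ := by
    rwa [Metric.mem_ball, Real.dist_eq, sub_zero] at ht
  have h5 : ∀ x ∈ Metric.closedBall (0 : ℝ) |t|, HasDerivWithinAt
      (fun t => g t - (g 0 + g' 0 * t + c * t ^ 2 / 2)) (g' x - g' 0 - x * c)
      (Metric.closedBall (0 : ℝ) |t|) x := by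
    intro x hx
    have hx' : |x| ≤ |t| := by
      rwa [Metric.mem_closedBall, Real.dist_eq, sub_zero] at hx
    have hxb : x ∈ Metric.ball (0 : ℝ) δ := by
      rw [Metric.mem_ball, Real.dist_eq, sub_zero]
      exact lt_of_le_of_lt hx' ht'
    have h6 : HasDerivAt (fun t => g 0 + g' 0 * t + c * t ^ 2 / 2) (0 + g' 0 * 1 + c * (2 * x) / 2)
        x := by
      have e1 : HasDerivAt (fun t : ℝ => t ^ 2) (2 * x) x := by
        have := hasDerivAt_pow 2 x
        simpa using this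
      exact ((hasDerivAt_const x (g 0)).add ((hasDerivAt_id x).const_mul (g' 0))).add
        ((e1.const_mul c).div_const 2)
    have h7 := ((h4 x hxb).1.sub h6).hasDerivWithinAt (s := Metric.closedBall (0 : ℝ) |t|)
    have e2 : g' x - (0 + g' 0 * 1 + c * (2 * x) / 2) = g' x - g' 0 - x * c := by ring
    rw [e2] at h7
    exact h7
  have h8 : ∀ x ∈ Metric.closedBall (0 : ℝ) |t|, ‖g' x - g' 0 - x * c‖ ≤ ε * |t| := by
    intro x hx
    have hx' : |x| ≤ |t| := by
      rwa [Metric.mem_closedBall, Real.dist_eq, sub_zero] at hx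
    have hxb : x ∈ Metric.ball (0 : ℝ) δ := by
      rw [Metric.mem_ball, Real.dist_eq, sub_zero]
      exact lt_of_le_of_lt hx' ht'
    have h9 := (h4 x hxb).2
    rw [sub_zero, smul_eq_mul, Real.norm_eq_abs x] at h9
    exact h9.trans (mul_le_mul_of_nonneg_left hx' hε.le)
  have h10 := (convex_closedBall (0 : ℝ) |t|).norm_image_sub_le_of_norm_hasDerivWithin_le h5 h8
    (x := 0) (y := t) (Metric.mem_closedBall_self (abs_nonneg _)) (by
      rw [Metric.mem_closedBall, Real.dist_eq, sub_zero])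
  have e3 : g 0 - (g 0 + g' 0 * 0 + c * 0 ^ 2 / 2) = 0 := by ring
  beta_reduce at h10
  rw [e3, sub_zero, sub_zero, Real.norm_eq_abs t] at h10
  rw [Real.norm_eq_abs (t ^ 2), abs_pow, pow_two |t|, ← mul_assoc]
  exact h10

/-- Euler: `Df(e)(e) = 0` for `f` constant on rays. -/
theorem evc_euler {f : E → ℝ} (h : EvC 2 f) {e : E} (he : e ≠ 0) : fderiv ℝ f e e = 0 := by
  have h1 : HasDerivAt (fun t : ℝ => t • e) e 1 := by
    have := (hasDerivAt_id (1 : ℝ)).smul_const e
    rwa [one_smul] at this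
  have h2 : HasFDerivAt f (fderiv ℝ f e) ((1 : ℝ) • e) := by
    rw [one_smul]
    exact (MQA_diff h he).1
  have h3 := h2.comp_hasDerivAt (1 : ℝ) h1
  have h4 : (f ∘ fun t : ℝ => t • e) =ᶠ[𝓝 1] fun _ => f e := by
    filter_upwards [isOpen_compl_singleton.mem_nhds (show (1 : ℝ) ∈ ({0} : Set ℝ)ᶜ from one_ne_zero)]
      with t ht
    exact h.hom t ht e
  have h5 : HasDerivAt (f ∘ fun t : ℝ => t • e) 0 1 :=
    (hasDerivAt_const (1 : ℝ) (f e)).congr_of_eventuallyEq h4
  exact h3.unique h5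

/-- `f (cos t e + sin t w) = f(e) + Df(e)(w) t + D²f(e)(w, w) t²/2 + o(t²)`: the second derivative
of `t ↦ f (u t)` at `0` is `D²f(e)(w, w) + Df(e)(-e)`. -/
theorem evc_taylor {f : E → ℝ} (h : EvC 2 f) {e w : E} (he : e ≠ 0) :
    (fun t : ℝ => f (cos t • e + sin t • w) -
      (f e + fderiv ℝ f e w * t + fderiv ℝ (fderiv ℝ f) e w w * t ^ 2 / 2)) =o[𝓝 0]
      fun t : ℝ => t ^ 2 := by
  have hu : ∀ t : ℝ, HasDerivAt (fun t : ℝ => cos t • e + sin t • w) (-sin t • e + cos t • w) t :=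
    fun t => ((hasDerivAt_cos t).smul_const e).add ((hasDerivAt_sin t).smul_const w)
  have hu' : HasDerivAt (fun t : ℝ => -sin t • e + cos t • w) (-e) 0 := by
    have h1 := ((hasDerivAt_sin (0 : ℝ)).neg.smul_const e).add ((hasDerivAt_cos (0 : ℝ)).smul_const w)
    rw [cos_zero, sin_zero, neg_zero, zero_smul, add_zero, neg_one_smul] at h1
    exact h1
  have e0 : cos (0 : ℝ) • e + sin (0 : ℝ) • w = e := by
    rw [cos_zero, sin_zero, one_smul, zero_smul, add_zero]
  have e1 : -sin (0 : ℝ) • e + cos (0 : ℝ) • w = w := by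
    rw [cos_zero, sin_zero, neg_zero, one_smul, zero_smul, zero_add]
  have hne : ∀ᶠ t in 𝓝 (0 : ℝ), cos t • e + sin t • w ≠ 0 := by
    have h1 : Tendsto (fun t : ℝ => cos t • e + sin t • w) (𝓝 0) (𝓝 e) := by
      have := (hu 0).continuousAt.tendsto
      rwa [e0] at this
    exact h1.eventually (isOpen_compl_singleton.mem_nhds he)
  have h1 : ∀ᶠ t in 𝓝 (0 : ℝ), HasDerivAt (fun t : ℝ => f (cos t • e + sin t • w))
      (fderiv ℝ f (cos t • e + sin t • w) (-sin t • e + cos t • w)) t := by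
    filter_upwards [hne] with t ht
    exact (MQA_diff h ht).1.comp_hasDerivAt t (hu t)
  have h2 : HasDerivAt (fun t : ℝ => fderiv ℝ f (cos t • e + sin t • w)
      (-sin t • e + cos t • w)) (fderiv ℝ (fderiv ℝ f) e w w) 0 := by
    have h3 : HasFDerivAt (fderiv ℝ f) (fderiv ℝ (fderiv ℝ f) e)
        (cos (0 : ℝ) • e + sin (0 : ℝ) • w) := by
      rw [e0]
      exact (MQA_diff h he).2
    have h4 := (h3.comp_hasDerivAt (0 : ℝ) (hu 0)).clm_apply hu'
    rw [e1] at h4
    have e5 : (fderiv ℝ f ∘ fun t : ℝ => cos t • e + sin t • w) 0 = fderiv ℝ f e := by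
      rw [Function.comp_apply, e0]
    rw [e5, map_neg, evc_euler h he, neg_zero, add_zero] at h4
    exact h4
  have h5 := MQA_peano h1 h2
  beta_reduce at h5
  rw [e0, e1] at h5
  exact h5

end CI
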