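import Pool.Agent.H.MP_1693ff_gtD.MQB
import Pool.Agent.H.MP_1693ff_gtD.MQA

/-!
# The case `i = -1`, `n ≥ 3`: `qf` of the quadratic perturbations
-/

namespace CI

open Real Set Filter Topology MeasureTheory Asymptotics
open CF hiding St

variable {n : ℕ}

theorem MQB2_expand (s : Sym2 (Fin n) → ℝ) (e w : EuclideanSpace ℝ (Fin n)) (a b : ℝ) :
    smat s (a • e + b • w) (a • e + b • w) =
      a ^ 2 * smat s e e + a * b * (smat s e w + smat s w e) + b ^ 2 * smat s w w := by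
  unfold smat
  simp only [Finset.mul_sum, ← Finset.sum_add_distrib]
  refine Finset.sum_congr rfl fun i _ => Finset.sum_congr rfl fun j _ => ?_
  simp only [PiLp.add_apply, PiLp.smul_apply, smul_eq_mul]
  ring

theorem MQB2_norm {e w : EuclideanSpace ℝ (Fin n)} (he : ‖e‖ = 1)
    (hw : ‖w‖ = 1) (o : inner ℝ w e = (0 : ℝ)) (t : ℝ) :
    ‖cos t • e + sin t • w‖ ^ 2 = 1 := by
  have o' : inner ℝ e w = (0 : ℝ) := by rw [real_inner_comm, o]
  rw [norm_add_sq_real, norm_smul, norm_smul, he, hw, inner_smul_left, inner_smul_right, o',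
    mul_one, mul_one, Real.norm_eq_abs, Real.norm_eq_abs, sq_abs, sq_abs]
  have := Real.cos_sq_add_sin_sq t
  simp only [mul_zero, add_zero]
  linarith

theorem MQB2_sin : Tendsto (fun t : ℝ => (sin t / t) ^ 2) (𝓝[≠] 0) (𝓝 1) := by
  have h1 := (hasDerivAt_iff_tendsto_slope_zero.1 (hasDerivAt_sin 0))
  rw [cos_zero] at h1
  have h2 := h1.pow 2
  rw [one_pow] at h2
  refine h2.congr fun t => ?_
  rw [zero_add, sin_zero, sub_zero, smul_eq_mul, div_eq_inv_mul]

/-- By `evc_taylor` and uniqueness of the second order expansion of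
`gq s (cos t e + sin t w) = cos² t S(e,e) + 2 cos t sin t S(e,w) + sin² t S(w,w)`. -/
theorem qf_gq (s : Sym2 (Fin n) → ℝ) {e w : EuclideanSpace ℝ (Fin n)} (he : ‖e‖ = 1)
    (hw : ‖w‖ = 1) (o : inner ℝ w e = (0 : ℝ)) :
    qf (gq s) e w = 2 * smat s w w - smat s e e := by
  have he0 : e ≠ 0 := by
    rintro rfl
    rw [norm_zero] at he
    exact zero_ne_one he
  have hev : EvC 2 (gq s) :=
    ⟨(gq_ev s).hom, (gq_ev s).c.of_le (by
      have h : ((2 : ℕ∞) : WithTop ℕ∞) ≤ ((⊤ : ℕ∞) : WithTop ℕ∞) := WithTop.coe_le_coe.2 le_top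
      exact h)⟩
  have h1 := evc_taylor hev (w := w) he0
  have hge : gq s e = smat s e e := by
    unfold gq
    rw [he, one_pow, div_one]
  have hA : ∀ t, gq s (cos t • e + sin t • w) = cos t ^ 2 * smat s e e +
      cos t * sin t * (smat s e w + smat s w e) + sin t ^ 2 * smat s w w := by
    intro t
    unfold gq
    rw [MQB2_norm he hw o, div_one, MQB2_expand]
  have hneg : Tendsto (fun t : ℝ => -t) (𝓝 0) (𝓝 0) := by
    have := (continuous_neg (G := ℝ)).tendsto 0
    rwa [neg_zero] at this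
  have h2 := h1.comp_tendsto hneg
  have h3 : (fun t : ℝ => 2 * (smat s w w - smat s e e) * sin t ^ 2 -
      fderiv ℝ (fderiv ℝ (gq s)) e w w * t ^ 2) =o[𝓝 0] fun t : ℝ => t ^ 2 := by
    have h4 : ((fun t : ℝ => t ^ 2) ∘ fun t : ℝ => -t) = fun t : ℝ => t ^ 2 := by
      funext t
      simp
    rw [h4] at h2
    refine (h1.add h2).congr_left fun t => ?_
    simp only [Function.comp_apply, hA, hge, cos_neg, sin_neg]
    have hcs : cos t ^ 2 = 1 - sin t ^ 2 := by
      have := Real.cos_sq_add_sin_sq t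
      linarith
    rw [hcs]
    ring
  have h5 : Tendsto (fun t : ℝ => (2 * (smat s w w - smat s e e) * sin t ^ 2 -
      fderiv ℝ (fderiv ℝ (gq s)) e w w * t ^ 2) / t ^ 2) (𝓝[≠] 0) (𝓝 0) :=
    (h3.mono nhdsWithin_le_nhds).tendsto_div_nhds_zero
  have h6 : Tendsto (fun t : ℝ => 2 * (smat s w w - smat s e e) * (sin t / t) ^ 2 -
      fderiv ℝ (fderiv ℝ (gq s)) e w w) (𝓝[≠] 0)
      (𝓝 (2 * (smat s w w - smat s e e) * 1 - fderiv ℝ (fderiv ℝ (gq s)) e w w)) :=
    (MQB2_sin.const_mul _).sub_const _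
  have h7 : Tendsto (fun t : ℝ => 2 * (smat s w w - smat s e e) * (sin t / t) ^ 2 -
      fderiv ℝ (fderiv ℝ (gq s)) e w w) (𝓝[≠] 0) (𝓝 0) := by
    refine h5.congr' ?_
    filter_upwards [self_mem_nhdsWithin] with t ht
    have ht0 : t ≠ 0 := ht
    field_simp
  have h8 := tendsto_nhds_unique h6 h7
  unfold qf
  rw [hge]
  linarith

end CI
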