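import Pool.Agent.H.MP_1693ff_gtD.MQDefs

/-!
# The case `i = -1`, `n ≥ 3`: the form `qf`
-/

namespace CI

open Real Set Filter Topology MeasureTheory Asymptotics
open CF hiding St

variable {E : Type*} [NormedAddCommGroup E] [InnerProductSpace ℝ E]

theorem mqa2_diff {f : E → ℝ} (h : EvC 2 f) {u : E} (hu : u ≠ 0) :
    DifferentiableAt ℝ f u ∧ DifferentiableAt ℝ (fderiv ℝ f) u := by
  have h1 : ContDiffAt ℝ 2 f u := h.c.contDiffAt (isOpen_compl_singleton.mem_nhds hu)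
  have h2 : ContDiffAt ℝ 1 (fderiv ℝ f) u := h1.fderiv_right (by norm_num)
  exact ⟨h1.differentiableAt (by norm_num), h2.differentiableAt (by norm_num)⟩

theorem mqa2_cn {F : Type*} [NormedAddCommGroup F] [NormedSpace ℝ F] (g : E → F) (u : E) :
    fderiv ℝ (fun x => g (-x)) u = -fderiv ℝ g (-u) := by
  have h := fderiv_comp_smul (𝕜 := ℝ) (f := g) (x := u) (-1)
  simpa only [neg_one_smul] using h

/-- `D²f(-e) = D²f(e)`, `f(-e) = f(e)`. -/
theorem qf_neg {f : E → ℝ} (h : EvC 2 f) {e : E} (he : e ≠ 0) (w : E) :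
    qf f (-e) w = qf f e w := by
  have h0 : ∀ u, f (-u) = f u := by
    intro u
    have := h.hom (-1) (by norm_num) u
    rwa [neg_one_smul] at this
  have h1 : ∀ u, fderiv ℝ f (-u) = -fderiv ℝ f u := by
    intro u
    have h2 : fderiv ℝ (fun x => f (-x)) u = -fderiv ℝ f (-u) := mqa2_cn f u
    have h3 : (fun x => f (-x)) = f := funext h0
    rw [h3] at h2
    rw [h2, neg_neg]
  have h4 : fderiv ℝ (fderiv ℝ f) (-e) = fderiv ℝ (fderiv ℝ f) e := by
    have h2 : fderiv ℝ (fun x => fderiv ℝ f (-x)) e = -fderiv ℝ (fderiv ℝ f) (-e) :=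
      mqa2_cn (fderiv ℝ f) e
    have h3 : (fun x => fderiv ℝ f (-x)) = fun x => -fderiv ℝ f x := funext h1
    have h5 : fderiv ℝ (fun x => -fderiv ℝ f x) e = -fderiv ℝ (fderiv ℝ f) e := fderiv_fun_neg
    rw [h3, h5] at h2
    exact (neg_injective h2).symm
  unfold qf
  rw [h0, h4]

theorem qf_sub {f g : E → ℝ} (h : EvC 2 f) (h' : EvC 2 g) {e : E} (he : e ≠ 0) (w : E) :
    qf (fun u => f u - g u) e w = qf f e w - qf g e w := by
  have e1 : fderiv ℝ (fun u => f u - g u) =ᶠ[𝓝 e] fun u => fderiv ℝ f u - fderiv ℝ g u := by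
    filter_upwards [isOpen_compl_singleton.mem_nhds he] with u hu
    exact fderiv_fun_sub (mqa2_diff h hu).1 (mqa2_diff h' hu).1
  have e2 : fderiv ℝ (fderiv ℝ (fun u => f u - g u)) e =
      fderiv ℝ (fderiv ℝ f) e - fderiv ℝ (fderiv ℝ g) e := by
    rw [e1.fderiv_eq]
    exact fderiv_fun_sub (mqa2_diff h he).2 (mqa2_diff h' he).2
  unfold qf
  rw [e2, sub_apply, sub_apply]
  ring

theorem qf_add {f g : E → ℝ} (h : EvC 2 f) (h' : EvC 2 g) {e : E} (he : e ≠ 0) (w : E) :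
    qf (fun u => f u + g u) e w = qf f e w + qf g e w := by
  have e1 : fderiv ℝ (fun u => f u + g u) =ᶠ[𝓝 e] fun u => fderiv ℝ f u + fderiv ℝ g u := by
    filter_upwards [isOpen_compl_singleton.mem_nhds he] with u hu
    exact fderiv_fun_add (mqa2_diff h hu).1 (mqa2_diff h' hu).1
  have e2 : fderiv ℝ (fderiv ℝ (fun u => f u + g u)) e =
      fderiv ℝ (fderiv ℝ f) e + fderiv ℝ (fderiv ℝ g) e := by
    rw [e1.fderiv_eq]
    exact fderiv_fun_add (mqa2_diff h he).2 (mqa2_diff h' he).2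
  unfold qf
  rw [e2, add_apply, add_apply]
  ring

end CI
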