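import Pool.Agent.H.MP_1693ff_gtD.MQB
import Pool.Agent.H.MP_1693ff_gtD.MQA2

/-!
# The case `i = -1`, `n ≥ 3`: bad matrices are in the range
-/

namespace CI

open Real Set Filter Topology MeasureTheory Asymptotics
open CF hiding St

/-- Bad matrices. -/
def Bad {n : ℕ} (h : EuclideanSpace ℝ (Fin n) → ℝ) (s : Sym2 (Fin n) → ℝ) : Prop :=
  ∃ e : EuclideanSpace ℝ (Fin n), ‖e‖ = 1 ∧ ∀ w, ‖w‖ = 1 → inner ℝ w e = (0 : ℝ) →
    2 * smat s w w - smat s e e = qf h e w

section aux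

variable {n : ℕ}

theorem mqc2_add_left (s : Sym2 (Fin n) → ℝ) (x x' y : EuclideanSpace ℝ (Fin n)) :
    smat s (x + x') y = smat s x y + smat s x' y := by
  unfold smat
  rw [← Finset.sum_add_distrib]
  refine Finset.sum_congr rfl fun i _ => ?_
  rw [← Finset.sum_add_distrib]
  refine Finset.sum_congr rfl fun k _ => ?_
  rw [PiLp.add_apply]
  ring

theorem mqc2_smul_left (s : Sym2 (Fin n) → ℝ) (c : ℝ) (x y : EuclideanSpace ℝ (Fin n)) :
    smat s (c • x) y = c * smat s x y := by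
  unfold smat
  rw [Finset.mul_sum]
  refine Finset.sum_congr rfl fun i _ => ?_
  rw [Finset.mul_sum]
  refine Finset.sum_congr rfl fun k _ => ?_
  rw [PiLp.smul_apply, smul_eq_mul]
  ring

theorem mqc2_add_right (s : Sym2 (Fin n) → ℝ) (x y y' : EuclideanSpace ℝ (Fin n)) :
    smat s x (y + y') = smat s x y + smat s x y' := by
  rw [smat_symm, mqc2_add_left, smat_symm s y x, smat_symm s y' x]

theorem mqc2_smul_right (s : Sym2 (Fin n) → ℝ) (c : ℝ) (x y : EuclideanSpace ℝ (Fin n)) :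
    smat s x (c • y) = c * smat s x y := by
  rw [smat_symm, mqc2_smul_left, smat_symm s y x]

theorem mqc2_single (s : Sym2 (Fin n) → ℝ) (a b : Fin n) :
    smat s (EuclideanSpace.single a 1) (EuclideanSpace.single b 1) = s s(a, b) := by
  unfold smat
  rw [Finset.sum_eq_single a, Finset.sum_eq_single b]
  · simp
  · intro k _ hk
    simp [hk]
  · intro h
    exact absurd (Finset.mem_univ _) h
  · intro i _ hi
    refine Finset.sum_eq_zero fun k _ => ?_
    simp [hi]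
  · intro h
    exact absurd (Finset.mem_univ _) h

theorem mqc2_inner (s : Sym2 (Fin n) → ℝ) (e y : EuclideanSpace ℝ (Fin n)) :
    (inner ℝ (WithLp.toLp 2 (fun k => ∑ i, s s(i, k) * e i) : EuclideanSpace ℝ (Fin n)) y : ℝ) =
      smat s e y := by
  rw [PiLp.inner_apply]
  unfold smat
  rw [Finset.sum_comm]
  refine Finset.sum_congr rfl fun k _ => ?_
  simp only [RCLike.inner_apply, conj_trivial]
  rw [Finset.mul_sum]
  refine Finset.sum_congr rfl fun i _ => ?_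
  ring

theorem mqc2_pol {h : EuclideanSpace ℝ (Fin n) → ℝ} {s : Sym2 (Fin n) → ℝ}
    {e : EuclideanSpace ℝ (Fin n)}
    (hb : ∀ w, ‖w‖ = 1 → inner ℝ w e = (0 : ℝ) → 2 * smat s w w - smat s e e = qf h e w)
    (w : EuclideanSpace ℝ (Fin n)) (hw : inner ℝ w e = (0 : ℝ)) :
    2 * smat s w w = fderiv ℝ (fderiv ℝ h) e w w + (h e + smat s e e) * inner ℝ w w := by
  by_cases hw0 : w = 0
  · subst hw0
    have h1 : smat s (0 : EuclideanSpace ℝ (Fin n)) 0 = 0 := by
      have := mqc2_smul_left s 0 (0 : EuclideanSpace ℝ (Fin n)) 0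
      rw [zero_smul, zero_mul] at this
      exact this
    rw [h1, map_zero, inner_zero_left]
    simp
  · have hn : ‖w‖ ≠ 0 := norm_ne_zero_iff.2 hw0
    have h1 : ‖‖w‖⁻¹ • w‖ = 1 := by
      rw [norm_smul, norm_inv, norm_norm, inv_mul_cancel₀ hn]
    have h2 : inner ℝ (‖w‖⁻¹ • w) e = (0 : ℝ) := by
      rw [inner_smul_left, hw, mul_zero]
    have h3 := hb _ h1 h2
    unfold qf at h3
    rw [mqc2_smul_left, mqc2_smul_right, map_smul, map_smul, ContinuousLinearMap.smul_apply,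
      smul_eq_mul, smul_eq_mul] at h3
    rw [real_inner_self_eq_norm_sq]
    have h4 : ‖w‖ * ‖w‖⁻¹ = 1 := mul_inv_cancel₀ hn
    have h5 : ‖w‖ ^ 2 * (‖w‖⁻¹ * ‖w‖⁻¹) = 1 := by
      calc ‖w‖ ^ 2 * (‖w‖⁻¹ * ‖w‖⁻¹) = (‖w‖ * ‖w‖⁻¹) * (‖w‖ * ‖w‖⁻¹) := by ring
        _ = 1 := by rw [h4, one_mul]
    linear_combination (‖w‖ ^ 2) * h3 + (fderiv ℝ (fderiv ℝ h) e w w - 2 * smat s w w) * h5

theorem mqc2_main {h : EuclideanSpace ℝ (Fin n) → ℝ} {s : Sym2 (Fin n) → ℝ}
    {e : EuclideanSpace ℝ (Fin n)} (he : ‖e‖ = 1)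
    (hb : ∀ w, ‖w‖ = 1 → inner ℝ w e = (0 : ℝ) → 2 * smat s w w - smat s e e = qf h e w)
    {u : EuclideanSpace ℝ (Fin n)} (hu : ‖u‖⁻¹ • u = e) {b : EuclideanSpace ℝ (Fin n)}
    (hbd : ∀ y, (inner ℝ b y : ℝ) = smat s e y) (x y : EuclideanSpace ℝ (Fin n)) :
    (xm h u b x y + xm h u b y x) / 2 = smat s x y := by
  unfold xm
  rw [hu]
  have hee : (inner ℝ e e : ℝ) = 1 := by
    rw [real_inner_self_eq_norm_sq, he]
    norm_num
  obtain ⟨x', hx'⟩ : ∃ x', x' = x - (inner ℝ x e : ℝ) • e := ⟨_, rfl⟩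
  obtain ⟨y', hy'⟩ : ∃ y', y' = y - (inner ℝ y e : ℝ) • e := ⟨_, rfl⟩
  rw [← hx', ← hy']
  have hx0 : inner ℝ x' e = (0 : ℝ) := by
    rw [hx', inner_sub_left, inner_smul_left, hee]
    simp
  have hy0 : inner ℝ y' e = (0 : ℝ) := by
    rw [hy', inner_sub_left, inner_smul_left, hee]
    simp
  have hxy0 : inner ℝ (x' + y') e = (0 : ℝ) := by
    rw [inner_add_left, hx0, hy0, add_zero]
  have p1 := mqc2_pol hb x' hx0
  have p2 := mqc2_pol hb y' hy0
  have p3 := mqc2_pol hb (x' + y') hxy0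
  rw [mqc2_add_left, mqc2_add_right, mqc2_add_right, map_add, map_add, inner_add_left,
    inner_add_right, inner_add_right, smat_symm s y' x', real_inner_comm x' y'] at p3
  simp only [ContinuousLinearMap.add_apply] at p3
  have hx2 : x = (inner ℝ x e : ℝ) • e + x' := by
    rw [hx']
    abel
  have hy2 : y = (inner ℝ y e : ℝ) • e + y' := by
    rw [hy']
    abel
  have hby : (inner ℝ b y : ℝ) = (inner ℝ y e : ℝ) * smat s e e + smat s e y' := by
    rw [hbd]
    conv_lhs => rw [hy2]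
    rw [mqc2_add_right, mqc2_smul_right]
  have hbx : (inner ℝ b x : ℝ) = (inner ℝ x e : ℝ) * smat s e e + smat s e x' := by
    rw [hbd]
    conv_lhs => rw [hx2]
    rw [mqc2_add_right, mqc2_smul_right]
  have hS : smat s x y = (inner ℝ x e : ℝ) * (inner ℝ y e : ℝ) * smat s e e +
      (inner ℝ x e : ℝ) * smat s e y' + (inner ℝ y e : ℝ) * smat s e x' + smat s x' y' := by
    conv_lhs => rw [hx2, hy2]
    rw [mqc2_add_left, mqc2_add_right, mqc2_add_right, mqc2_smul_left, mqc2_smul_right,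
      mqc2_smul_left, mqc2_smul_right, smat_symm s x' e]
    ring
  rw [hby, hbx, hS, hbd, real_inner_comm x' y']
  linear_combination (-1 / 4) * p3 + (1 / 4) * p1 + (1 / 4) * p2

end aux

/-- Let `s` be bad with `e`; `-e` is also possible (`qf_neg`), so `e_j > 0` for some `j`, and
`e = u/‖u‖` for `u = cht j x = e/e_j`.  Put `b = S e` (`⟨b, y⟩ = smat s e y`).  For `x, y`:
`x = ⟨x,e⟩ e + x'`, `S(x,y) = ⟨x,e⟩ ⟨b,y⟩ + ⟨y,e⟩ ⟨b,x⟩ - ⟨x,e⟩ ⟨y,e⟩ ⟨b,e⟩ + S(x',y')`, and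
`2 S(x',y') = D²h(e)(x',y') + (h(e) + ⟨b,e⟩) ⟨x',y'⟩` by polarization of the condition
(`D²h(e)` is symmetric).  So `S(x,y) = xm h u b x y`. -/
theorem bad_sub {m : ℕ} {h : EuclideanSpace ℝ (Fin (m + 1)) → ℝ} (hh : EvC 3 h)
    {s : Sym2 (Fin (m + 1)) → ℝ} (hs : Bad h s) : ∃ j, s ∈ range (xiM h j) := by
  classical
  -- a chart
  obtain ⟨e, he, hb⟩ := hs
  have hex : ∃ (e : EuclideanSpace ℝ (Fin (m + 1))) (j : Fin (m + 1)), ‖e‖ = 1 ∧ 0 < e j ∧
      ∀ w, ‖w‖ = 1 → inner ℝ w e = (0 : ℝ) → 2 * smat s w w - smat s e e = qf h e w := by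
    have he0 : e ≠ 0 := by
      intro h0
      rw [h0, norm_zero] at he
      exact zero_ne_one he
    obtain ⟨j, hj⟩ : ∃ j, e j ≠ 0 := by
      by_contra hcon
      apply he0
      ext j
      by_contra h1
      exact hcon ⟨j, h1⟩
    rcases lt_or_gt_of_ne hj with hj | hj
    · refine ⟨-e, j, by rw [norm_neg, he], by rw [PiLp.neg_apply]; linarith, ?_⟩
      intro w hw hwe
      rw [inner_neg_right, neg_eq_zero] at hwe
      have hh2 : EvC 2 h := ⟨hh.hom, hh.c.of_le (by norm_num)⟩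
      rw [qf_neg hh2 he0]
      have h1 : smat s (-e) (-e) = smat s e e := by
        have h2 : (-e) = (-1 : ℝ) • e := by rw [neg_one_smul]
        rw [h2, mqc2_smul_left, mqc2_smul_right]
        ring
      rw [h1]
      exact hb w hw hwe
    · exact ⟨e, j, he, hj, hb⟩
  obtain ⟨e, j, he, hj, hb⟩ := hex
  refine ⟨j, (fun i => e (j.succAbove i) / e j, WithLp.toLp 2 (fun k => ∑ i, s s(i, k) * e i)), ?_⟩
  have hcht : cht j (fun i => e (j.succAbove i) / e j) = (e j)⁻¹ • e := by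
    ext k
    unfold cht
    rw [PiLp.smul_apply, smul_eq_mul]
    show (j.insertNth 1 (fun i => e (j.succAbove i) / e j) : Fin (m + 1) → ℝ) k = (e j)⁻¹ * e k
    refine Fin.succAboveCases j ?_ (fun i => ?_) k
    · rw [Fin.insertNth_apply_same, inv_mul_cancel₀ hj.ne']
    · rw [Fin.insertNth_apply_succAbove, div_eq_inv_mul]
  have hu : ‖cht j (fun i => e (j.succAbove i) / e j)‖⁻¹ •
      cht j (fun i => e (j.succAbove i) / e j) = e := by
    rw [hcht, norm_smul, he, mul_one, norm_inv, Real.norm_of_nonneg hj.le, inv_inv, smul_smul,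
      mul_inv_cancel₀ hj.ne', one_smul]
  funext p
  induction p using Sym2.ind with
  | _ a b =>
    show (xm h _ _ (EuclideanSpace.single a 1) (EuclideanSpace.single b 1) +
      xm h _ _ (EuclideanSpace.single b 1) (EuclideanSpace.single a 1)) / 2 = s s(a, b)
    rw [mqc2_main he hb hu (fun y => mqc2_inner s e y), mqc2_single]

end CI
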