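import Pool.Agent.H.MP_1693ff_gtD.MQC
import Pool.Agent.H.MP_1693ff_gtD.MQC2

/-!
# The case `i = -1`, `n ≥ 3`: the bad matrices are rare
-/

namespace CI

open Real Set Filter Topology MeasureTheory Asymptotics
open CF hiding St

/-- `ContDiff.dimH_range_le`, `dimH_iUnion`, `dense_compl_of_dimH_lt_finrank`:
`m + (m+1) < (m+2)(m+1)/2` for `m ≥ 2` (`Sym2.card`). -/
theorem bad_dense {n : ℕ} (hn : 3 ≤ n) {h : EuclideanSpace ℝ (Fin n) → ℝ} (hh : EvC 3 h) :
    Dense {s : Sym2 (Fin n) → ℝ | ¬ Bad h s} := by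
  obtain ⟨m, rfl⟩ : ∃ m, n = m + 1 := ⟨n - 1, by omega⟩
  have hsub : (⋃ j : Fin (m + 1), range (xiM h j))ᶜ ⊆
      {s : Sym2 (Fin (m + 1)) → ℝ | ¬ Bad h s} := by
    intro s hs hb
    obtain ⟨j, hj⟩ := bad_sub hh hb
    exact hs (mem_iUnion.2 ⟨j, hj⟩)
  refine Dense.mono hsub (dense_compl_of_dimH_lt_finrank ?_)
  have h1 : dimH (⋃ j : Fin (m + 1), range (xiM h j)) ≤ ((2 * m + 1 : ℕ) : ENNReal) := by
    rw [dimH_iUnion]
    refine iSup_le fun j => (xiM_c1 hh j).dimH_range_le.trans ?_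
    rw [Module.finrank_prod, Module.finrank_fin_fun, finrank_euclideanSpace_fin]
    exact_mod_cast (by omega : m + (m + 1) ≤ 2 * m + 1)
  refine h1.trans_lt ?_
  rw [Module.finrank_fintype_fun_eq_card, Sym2.card, Fintype.card_fin]
  have h2 : 2 * m + 1 < (m + 1 + 1).choose 2 := by
    rw [Nat.choose_two_right]
    have h3 : 2 * (2 * m + 1) + 2 ≤ (m + 1 + 1) * (m + 1 + 1 - 1) := by
      simp only [Nat.add_sub_cancel]
      nlinarith
    omega
  exact_mod_cast h2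

end CI
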