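import Pool.Agent.H.MP_1693ff_gtD.MQD
import Pool.Agent.H.MP_1693ff_gtD.MQC3
import Pool.Agent.H.MP_1693ff_gtD.MQB2

/-!
# The case `i = -1`, `n ≥ 3`: pairs are not generic
-/

namespace CI

open Real Set Filter Topology MeasureTheory Asymptotics
open CF hiding St

/-- `η` from `gq_small`, `s` small and not bad for `h = f₁ - f₂` (`bad_dense`), `g = gq s`:
if `(f₁, f₂ + g)` were a pair then `qf f₁ e w = qf f₂ e w + qf (gq s) e w` (`nec_pair`,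
`qf_add`), so `s` would be bad (`qf_sub`, `qf_gq`). -/
theorem generic_one {n : ℕ} (hn : 3 ≤ n) {f₁ f₂ : EuclideanSpace ℝ (Fin n) → ℝ}
    (h1 : EvC 3 f₁) (h2 : EvC 3 f₂) (k : ℕ) {ε : ℝ} (hε : 0 < ε) :
    ∃ g : EuclideanSpace ℝ (Fin n) → ℝ, EvC (⊤ : ℕ∞) g ∧
      (∀ j ≤ k, ∀ u, ‖u‖ = 1 → ‖iteratedFDeriv ℝ j g u‖ ≤ ε) ∧
      ¬ IsPair (-1) f₁ (fun u => f₂ u + g u) := by
  obtain ⟨η, hη, hs⟩ := gq_small (n := n) k hε
  have hh : EvC 3 (fun u => f₁ u - f₂ u) := by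
    refine ⟨fun t ht u => ?_, h1.c.sub h2.c⟩
    rw [h1.hom t ht, h2.hom t ht]
  obtain ⟨s, hbad, hdist⟩ := (bad_dense hn hh).exists_dist_lt (0 : Sym2 (Fin n) → ℝ) hη
  have hsm : ∀ p, |s p| ≤ η := by
    intro p
    rw [dist_zero_left] at hdist
    have h3 := norm_le_pi_norm s p
    rw [Real.norm_eq_abs] at h3
    linarith
  have h12 : EvC 2 f₁ := ⟨h1.hom, h1.c.of_le (by norm_num)⟩
  have h22 : EvC 2 f₂ := ⟨h2.hom, h2.c.of_le (by norm_num)⟩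
  have hg2 : EvC 2 (gq s) :=
    ⟨(gq_ev s).hom, (gq_ev s).c.of_le (by
      have h : ((2 : ℕ∞) : WithTop ℕ∞) ≤ ((⊤ : ℕ∞) : WithTop ℕ∞) := WithTop.coe_le_coe.2 le_top
      exact h)⟩
  have hsum : EvC 2 (fun u => f₂ u + gq s u) := by
    refine ⟨fun t ht u => ?_, h22.c.add hg2.c⟩
    rw [h22.hom t ht, hg2.hom t ht]
  refine ⟨gq s, gq_ev s, hs s hsm, fun hp => hbad ?_⟩
  obtain ⟨e, he, hq⟩ := nec_pair h12 hsum hp
  have he0 : e ≠ 0 := by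
    rintro rfl
    rw [norm_zero] at he
    exact zero_ne_one he
  refine ⟨e, he, fun w hw o => ?_⟩
  have h3 := hq w hw o
  rw [qf_add h22 hg2 he0, qf_gq s he hw o] at h3
  rw [qf_sub h12 h22 he0]
  linarith

end CI
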