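import Pool.Agent.H.MP_1693ff_gtD.MTwo

/-!
# The case `i = -1`, `n = 2`: an open set of pairs
-/

namespace CI

open Real Set Filter Topology MeasureTheory Asymptotics
open CF hiding St

/-- the second function -/
noncomputable def mtwo2_f (u : Pl) : ℝ := 1 + (u 0 ^ 2 - u 1 ^ 2) / (100 * ‖u‖ ^ 2)

theorem mtwo2_one : EvC 3 (fun _ : Pl => (1 : ℝ)) :=
  ⟨fun _ _ _ => rfl, contDiffOn_const⟩

theorem mtwo2_evc : EvC 3 mtwo2_f := by
  refine ⟨fun t ht u => ?_, ?_⟩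
  · unfold mtwo2_f
    have h1 : (t • u) 0 = t * u 0 := rfl
    have h2 : (t • u) 1 = t * u 1 := rfl
    rw [h1, h2, norm_smul, Real.norm_eq_abs, mul_pow, mul_pow, mul_pow, sq_abs, ← mul_sub]
    have h3 : 100 * (t ^ 2 * ‖u‖ ^ 2) = t ^ 2 * (100 * ‖u‖ ^ 2) := by ring
    rw [h3, mul_div_mul_left _ _ (pow_ne_zero 2 ht)]
  · have c0 : ContDiff ℝ 3 fun u : Pl => u 0 := (EuclideanSpace.proj (𝕜 := ℝ) (0 : Fin 2)).contDiff
    have c1 : ContDiff ℝ 3 fun u : Pl => u 1 := (EuclideanSpace.proj (𝕜 := ℝ) (1 : Fin 2)).contDiff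
    have c2 : ContDiff ℝ 3 fun u : Pl => ‖u‖ ^ 2 := contDiff_norm_sq ℝ
    refine contDiffOn_const.add ?_
    refine ((c0.pow 2).sub (c1.pow 2)).contDiffOn.div (contDiff_const.mul c2).contDiffOn ?_
    intro u hu
    have h1 : ‖u‖ ≠ 0 := norm_ne_zero_iff.2 hu
    positivity

theorem mtwo2_val (θ : ℝ) : mtwo2_f (ev θ) = 1 + cos (2 * θ) / 100 := by
  unfold mtwo2_f
  have h1 : (ev θ) 0 = cos θ := rfl
  have h2 : (ev θ) 1 = sin θ := rfl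
  rw [h1, h2, norm_ev, cos_two_mul']
  ring

theorem mtwo2_curv (θ : ℝ) : curv (fun θ => mtwo2_f (ev θ)) θ = 1 - 3 * cos (2 * θ) / 100 := by
  have h0 : (fun θ => mtwo2_f (ev θ)) = fun θ => 1 + cos (2 * θ) / 100 := funext mtwo2_val
  rw [h0]
  unfold curv
  have hl : ∀ x : ℝ, HasDerivAt (fun x : ℝ => 2 * x) 2 x := fun x => by
    simpa using (hasDerivAt_id x).const_mul 2
  have h1 : deriv (fun θ : ℝ => 1 + cos (2 * θ) / 100) = fun θ => -(sin (2 * θ) * 2) / 100 := by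
    funext x
    have := (((hl x).cos).div_const 100).const_add 1
    rw [this.deriv]
    ring
  have h2 : deriv (fun θ : ℝ => -(sin (2 * θ) * 2) / 100) θ = -(cos (2 * θ) * 2 * 2) / 100 := by
    have := (((hl θ).sin.mul_const 2).neg).div_const 100
    exact this.deriv
  rw [h1, h2]
  ring

theorem mtwo2_ne {e : Pl} (he : ‖e‖ = 1) : e ∈ ({0}ᶜ : Set Pl) := by
  intro h
  rw [Set.mem_singleton_iff] at h
  rw [h, norm_zero] at he
  exact zero_ne_one he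

theorem mtwo2_at {g : Pl → ℝ} (hg : EvC 3 g) {e : Pl} (he : e ∈ ({0}ᶜ : Set Pl)) :
    ContDiffAt ℝ 3 g e :=
  hg.c.contDiffAt (isOpen_compl_singleton.mem_nhds he)

theorem mtwo2_f2 {g f : Pl → ℝ} (hg : EvC 3 g) (hf : EvC 3 f) {e : Pl} (he : ‖e‖ = 1) :
    fderiv ℝ (fderiv ℝ fun u => g u - f u) e =
      fderiv ℝ (fderiv ℝ g) e - fderiv ℝ (fderiv ℝ f) e := by
  have h1 : (fderiv ℝ fun u => g u - f u) =ᶠ[𝓝 e] fun u => fderiv ℝ g u - fderiv ℝ f u := by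
    filter_upwards [isOpen_compl_singleton.mem_nhds (mtwo2_ne he)] with u hu
    exact fderiv_fun_sub ((mtwo2_at hg hu).differentiableAt (by norm_num))
      ((mtwo2_at hf hu).differentiableAt (by norm_num))
  rw [h1.fderiv_eq]
  have h2 : DifferentiableAt ℝ (fderiv ℝ g) e :=
    ((mtwo2_at hg (mtwo2_ne he)).fderiv_right (m := 2) (by norm_num)).differentiableAt (by norm_num)
  have h3 : DifferentiableAt ℝ (fderiv ℝ f) e :=
    ((mtwo2_at hf (mtwo2_ne he)).fderiv_right (m := 2) (by norm_num)).differentiableAt (by norm_num)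
  exact fderiv_fun_sub h2 h3

theorem mtwo2_abs {g f : Pl → ℝ} {δ : ℝ}
    (h : ∀ j ≤ 3, ∀ u : Pl, ‖u‖ = 1 → ‖iteratedFDeriv ℝ j (fun u => g u - f u) u‖ ≤ δ)
    {e : Pl} (he : ‖e‖ = 1) : |g e - f e| ≤ δ := by
  have h1 := h 0 (by norm_num) e he
  rwa [norm_iteratedFDeriv_zero, Real.norm_eq_abs] at h1

theorem mtwo2_qf {g f : Pl → ℝ} (hg : EvC 3 g) (hf : EvC 3 f) {δ : ℝ}
    (h : ∀ j ≤ 3, ∀ u : Pl, ‖u‖ = 1 → ‖iteratedFDeriv ℝ j (fun u => g u - f u) u‖ ≤ δ)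
    {e w : Pl} (he : ‖e‖ = 1) (hw : ‖w‖ = 1) : |qf g e w - qf f e w| ≤ 2 * δ := by
  have h1 := mtwo2_abs h he
  have h2 := h 2 (by norm_num) e he
  have h3 := (iteratedFDeriv ℝ 2 (fun u => g u - f u) e).le_opNorm ![w, w]
  rw [iteratedFDeriv_two_apply, mtwo2_f2 hg hf he] at h3
  simp only [Matrix.cons_val_zero, Matrix.cons_val_one, Fin.prod_univ_two, hw, mul_one] at h3
  have h4 : qf g e w - qf f e w =
      (g e - f e) + (fderiv ℝ (fderiv ℝ g) e - fderiv ℝ (fderiv ℝ f) e) w w := by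
    unfold qf
    simp only [_root_.sub_apply]
    ring
  rw [h4]
  refine (abs_add_le _ _).trans ?_
  rw [Real.norm_eq_abs] at h3
  linarith

theorem mtwo2_ex (u : Pl) (hu : ‖u‖ = 1) : ∃ θ, u = ev θ := by
  have h1 : u 0 ^ 2 + u 1 ^ 2 = 1 := by
    have h := EuclideanSpace.norm_sq_eq u
    rw [Fin.sum_univ_two, hu] at h
    simp only [Real.norm_eq_abs, sq_abs] at h
    linarith
  obtain ⟨θ, h2, h3⟩ : ∃ θ : ℝ, cos θ = u 0 ∧ sin θ = u 1 := by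
    have h4 : ‖(⟨u 0, u 1⟩ : ℂ)‖ = 1 := by
      rw [Complex.norm_def, Complex.normSq_mk, Real.sqrt_eq_one]
      linarith
    refine ⟨Complex.arg ⟨u 0, u 1⟩, ?_, ?_⟩
    · have h5 := Complex.norm_mul_cos_arg (⟨u 0, u 1⟩ : ℂ)
      rw [h4, one_mul] at h5
      exact h5
    · have h5 := Complex.norm_mul_sin_arg (⟨u 0, u 1⟩ : ℂ)
      rw [h4, one_mul] at h5
      exact h5
  refine ⟨θ, ?_⟩
  ext i
  fin_cases i
  · exact h2.symm
  · exact h3.symm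

theorem mtwo2_pinch {f : ℝ → ℝ} (h : ∀ θ, |f θ - 1| ≤ 32 / 1000) (s t : ℝ) :
    f s ^ 4 < 2 * f t ^ 4 := by
  have h1 := abs_le.1 (h s)
  have h2 := abs_le.1 (h t)
  have h3 : f s ^ 4 ≤ (1032 / 1000 : ℝ) ^ 4 :=
    pow_le_pow_left₀ (by linarith [h1.1]) (by linarith [h1.2]) 4
  have h4 : (968 / 1000 : ℝ) ^ 4 ≤ f t ^ 4 :=
    pow_le_pow_left₀ (by norm_num) (by linarith [h2.1]) 4
  norm_num at h3 h4
  linarith

/-- `f₁ = 1`, `f₂ (u) = 1 + (u₀² - u₁²)/(100 |u|²)` (`f₂ (ev θ) = 1 + cos 2θ/100`,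
`curv = 1 - 3 cos 2θ/100`), `δ = 1/1000`.  For `g₁, g₂` close to `f₁, f₂`: `curv` is within
`2δ` (`smooth_of`, norms of `iteratedFDeriv` of orders `0` and `2` of the difference), the
pinching holds, and `curv g₁ - curv g₂` is positive at `θ = 0` and negative at `θ = π/2`, so zero
at some `θ₀`; `partB` and `adm_cond` (see the proof of PlanarPairs) give the body. -/
theorem two_open : ∃ f₁ f₂ : Pl → ℝ, EvC 3 f₁ ∧ EvC 3 f₂ ∧ ∃ δ > 0, ∀ g₁ g₂ : Pl → ℝ,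
    EvC 3 g₁ → EvC 3 g₂ →
    (∀ j ≤ 3, ∀ u, ‖u‖ = 1 → ‖iteratedFDeriv ℝ j (fun u => g₁ u - f₁ u) u‖ ≤ δ) →
    (∀ j ≤ 3, ∀ u, ‖u‖ = 1 → ‖iteratedFDeriv ℝ j (fun u => g₂ u - f₂ u) u‖ ≤ δ) →
    IsPair (-1) g₁ g₂ := by
  refine ⟨fun _ => 1, mtwo2_f, mtwo2_one, mtwo2_evc, 1 / 1000, by norm_num, ?_⟩
  intro g₁ g₂ hg₁ hg₂ h1 h2
  have hc : ∀ θ : ℝ, |cos (2 * θ)| ≤ 1 := fun θ => abs_cos_le_one _
  have p1 : ∀ θ, 0 < g₁ (ev θ) := by
    intro θ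
    have h := abs_le.1 (mtwo2_abs h1 (norm_ev θ))
    linarith [h.1]
  have p2 : ∀ θ, 0 < g₂ (ev θ) := by
    intro θ
    have h := abs_le.1 (mtwo2_abs h2 (norm_ev θ))
    rw [mtwo2_val] at h
    have h' := abs_le.1 (hc θ)
    linarith [h.1, h'.1]
  have p3 : ∀ θ, 0 < mtwo2_f (ev θ) := by
    intro θ
    rw [mtwo2_val]
    have h' := abs_le.1 (hc θ)
    linarith [h'.1]
  obtain ⟨s1, e1⟩ := smooth_of hg₁ p1
  obtain ⟨s2, e2⟩ := smooth_of hg₂ p2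
  obtain ⟨-, e3⟩ := smooth_of mtwo2_evc p3
  have q1 : ∀ θ, |curv (fun θ => g₁ (ev θ)) θ - 1| ≤ 2 / 1000 := by
    intro θ
    have h := mtwo2_qf hg₁ mtwo2_one h1 (norm_ev θ) (norm_ev (θ + π / 2))
    rw [← e1] at h
    have h' : qf (fun _ : Pl => (1 : ℝ)) (ev θ) (ev (θ + π / 2)) = 1 := by
      unfold qf
      simp
    rw [h'] at h
    linarith
  have q2 : ∀ θ, |curv (fun θ => g₂ (ev θ)) θ - (1 - 3 * cos (2 * θ) / 100)| ≤ 2 / 1000 := by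
    intro θ
    have h := mtwo2_qf hg₂ mtwo2_evc h2 (norm_ev θ) (norm_ev (θ + π / 2))
    rw [← e2, ← e3, mtwo2_curv] at h
    linarith
  have r1 : ∀ θ, |curv (fun θ => g₁ (ev θ)) θ - 1| ≤ 32 / 1000 := fun θ =>
    (q1 θ).trans (by norm_num)
  have r2 : ∀ θ, |curv (fun θ => g₂ (ev θ)) θ - 1| ≤ 32 / 1000 := by
    intro θ
    have h := abs_le.1 (q2 θ)
    have h' := abs_le.1 (hc θ)
    rw [abs_le]
    constructor <;> linarith [h.1, h.2, h'.1, h'.2]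
  have t1 : ∀ θ, 0 < curv (fun θ => g₁ (ev θ)) θ := fun θ => by
    linarith [(abs_le.1 (r1 θ)).1]
  have t2 : ∀ θ, 0 < curv (fun θ => g₂ (ev θ)) θ := fun θ => by
    linarith [(abs_le.1 (r2 θ)).1]
  have hcont : Continuous fun θ => curv (fun θ => g₁ (ev θ)) θ - curv (fun θ => g₂ (ev θ)) θ :=
    (fina4_aux4 s1).sub (fina4_aux4 s2)
  have hz : ∃ θ₀, curv (fun θ => g₁ (ev θ)) θ₀ = curv (fun θ => g₂ (ev θ)) θ₀ := by
    have hpi : (0 : ℝ) ≤ π / 2 := by positivity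
    have hI := intermediate_value_Icc' hpi hcont.continuousOn
    have ha : 0 ≤ curv (fun θ => g₁ (ev θ)) 0 - curv (fun θ => g₂ (ev θ)) 0 := by
      have h := abs_le.1 (q1 0)
      have h' := abs_le.1 (q2 0)
      rw [mul_zero, cos_zero] at h'
      linarith [h.1, h'.2]
    have hb : curv (fun θ => g₁ (ev θ)) (π / 2) - curv (fun θ => g₂ (ev θ)) (π / 2) ≤ 0 := by
      have h := abs_le.1 (q1 (π / 2))
      have h' := abs_le.1 (q2 (π / 2))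
      have h'' : 2 * (π / 2) = π := by ring
      rw [h'', cos_pi] at h'
      linarith [h.2, h'.1]
    obtain ⟨θ₀, -, hθ₀⟩ := hI ⟨hb, ha⟩
    exact ⟨θ₀, sub_eq_zero.1 hθ₀⟩
  obtain ⟨θ₀, hθ₀⟩ := hz
  obtain ⟨D, hD, H⟩ := partB s1 s2 t1 t2 hθ₀ (adm_cond s1 t1 (Or.inr (mtwo2_pinch r1)))
    (adm_cond s2 t2 (Or.inr (mtwo2_pinch r2)))
  obtain ⟨K, hK, k1, k2, k3, k4⟩ := H D le_rfl
  refine ⟨K, 0, D • ev θ₀, hK, ?_, k1, k2, ?_, ?_⟩
  · intro h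
    have h' : ‖D • ev θ₀‖ = 0 := by rw [← h, norm_zero]
    rw [norm_smul, norm_ev, mul_one, norm_eq_zero] at h'
    exact hD.ne' h'
  · intro u hu
    obtain ⟨θ, rfl⟩ := mtwo2_ex u hu
    exact k3 θ
  · intro u hu
    obtain ⟨θ, rfl⟩ := mtwo2_ex u hu
    exact k4 θ

end CI
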