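import Pool.Agent.H.MP_1693ff_gtD.MInt
import Pool.Agent.H.MP_1693ff_gtD.MTwo2
import Pool.Agent.H.MP_1693ff_gtD.MQD2
import Pool.Agent.H.MP_1693ff_gtD.MGenC

/-!
# When does the set of pairs have interior points?
-/

namespace CI

open Real Set Filter Topology MeasureTheory Asymptotics
open CF hiding St

theorem mint2_mono {E : Type*} [NormedAddCommGroup E] [InnerProductSpace ℝ E]
    {N M : WithTop ℕ∞} (h : M ≤ N) {f : E → ℝ} (hf : EvC N f) : EvC M f :=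
  ⟨hf.hom, hf.c.of_le h⟩

theorem mint2_add {E : Type*} [NormedAddCommGroup E] [InnerProductSpace ℝ E]
    {N : WithTop ℕ∞} {f g : E → ℝ} (hf : EvC N f) (hg : EvC N g) : EvC N (fun u => f u + g u) :=
  ⟨fun t ht u => by rw [hf.hom t ht u, hg.hom t ht u], hf.c.add hg.c⟩

/-- if arbitrarily small smooth perturbations of `f₂` destroy the property, there is no open set -/
theorem mint2_no {n : ℕ} {i : ℝ} {f₁ f₂ : EuclideanSpace ℝ (Fin n) → ℝ} (h1 : EvC 3 f₁)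
    (h2 : EvC 3 f₂) {δ : ℝ} (hδ : 0 < δ)
    (H : ∀ g₁ g₂ : EuclideanSpace ℝ (Fin n) → ℝ, EvC 3 g₁ → EvC 3 g₂ →
    (∀ j ≤ 3, ∀ u, ‖u‖ = 1 → ‖iteratedFDeriv ℝ j (fun u => g₁ u - f₁ u) u‖ ≤ δ) →
    (∀ j ≤ 3, ∀ u, ‖u‖ = 1 → ‖iteratedFDeriv ℝ j (fun u => g₂ u - f₂ u) u‖ ≤ δ) →
    IsPair i g₁ g₂)
    (hg : ∃ g : EuclideanSpace ℝ (Fin n) → ℝ, EvC (⊤ : ℕ∞) g ∧
      (∀ j ≤ 3, ∀ u, ‖u‖ = 1 → ‖iteratedFDeriv ℝ j g u‖ ≤ δ) ∧
      ¬ IsPair i f₁ (fun u => f₂ u + g u)) : False := by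
  obtain ⟨g, hg1, hg2, hg3⟩ := hg
  refine hg3 (H f₁ (fun u => f₂ u + g u) h1 (mint2_add h2 (mint2_mono ?_ hg1)) ?_ ?_)
  · have h3 : ((3 : ℕ∞) : WithTop ℕ∞) ≤ ((⊤ : ℕ∞) : WithTop ℕ∞) := WithTop.coe_le_coe.2 le_top
    exact h3
  · intro j _ u _
    have e : (fun u => f₁ u - f₁ u) = fun _ => (0 : ℝ) := funext fun u => sub_self _
    rw [e, iteratedFDeriv_fun_zero]
    simpa using hδ.le
  · intro j hj u hu
    have e : (fun u => f₂ u + g u - f₂ u) = g := funext fun u => add_sub_cancel_left _ _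
    rw [e]
    exact hg2 j hj u hu

/-- The set of pairs has interior points in the `C³` topology iff `i < -1` or `i = -1`,
`n = 2`. -/
theorem interior_iff {n : ℕ} (hn : 2 ≤ n) (i : ℝ) :
    (∃ f₁ f₂ : EuclideanSpace ℝ (Fin n) → ℝ, EvC 3 f₁ ∧ EvC 3 f₂ ∧ ∃ δ > 0,
    ∀ g₁ g₂ : EuclideanSpace ℝ (Fin n) → ℝ, EvC 3 g₁ → EvC 3 g₂ →
    (∀ j ≤ 3, ∀ u, ‖u‖ = 1 → ‖iteratedFDeriv ℝ j (fun u => g₁ u - f₁ u) u‖ ≤ δ) →
    (∀ j ≤ 3, ∀ u, ‖u‖ = 1 → ‖iteratedFDeriv ℝ j (fun u => g₂ u - f₂ u) u‖ ≤ δ) →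
    IsPair i g₁ g₂) ↔ i < -1 ∨ (i = -1 ∧ n = 2) := by
  constructor
  · rintro ⟨f₁, f₂, h1, h2, δ, hδ, H⟩
    rcases lt_trichotomy i (-1) with hi | hi | hi
    · exact Or.inl hi
    · right
      refine ⟨hi, ?_⟩
      by_contra hne
      have hn3 : 3 ≤ n := by omega
      subst hi
      exact mint2_no h1 h2 hδ H (generic_one hn3 h1 h2 3 hδ)
    · exfalso
      have k1 : EvC 2 f₁ := mint2_mono (by norm_num) h1
      have k2 : EvC 2 f₂ := mint2_mono (by norm_num) h2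
      have hu : ‖(EuclideanSpace.single (⟨0, by omega⟩ : Fin n) (1 : ℝ))‖ = 1 := by
        rw [PiLp.norm_single, norm_one]
      obtain ⟨g, hg1, hg2, -, hg3⟩ := generic hn hi k1 k2 3 hδ one_pos hu
      exact mint2_no h1 h2 hδ H ⟨g, hg1, hg2, hg3⟩
  · rintro (hi | ⟨hi, hn2⟩)
    · exact lt_open hn hi
    · subst hi
      subst hn2
      exact two_open

end CI
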