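import Pool.Agent.H.MP_1693ff_gtD.MRound

/-!
# Growth of the step sequence
-/

namespace CI

open Real Set Filter Topology MeasureTheory
open CF hiding St

variable {i r R s t M ε ac : ℝ} {Y₁ Y₂ y₁ y₂ Y₁' Y₂' y₁' y₂' : ℝ → ℝ}

/-- Geometric growth: `sq R s k ≥ s + 2k/R` (`ph_ge`) reaches `1` after `k₀` rounds, then
`ph_geo`. -/
theorem sq_geo {R m : ℝ} (hR : 1 ≤ R) : ∃ k₀ : ℕ, ∀ s, -m ≤ s → ∀ k : ℕ,
    (1 + 1 / R) ^ (2 * k) ≤ sq R s (k₀ + k) := by
  have hR0 : 0 < R := by linarith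
  obtain ⟨k₀, hk₀⟩ := exists_nat_ge ((m + 1) * R)
  have h1 : ∀ (s : ℝ) (k : ℕ), s + 2 * k / R ≤ sq R s k := by
    intro s k
    induction k with
    | zero => simp [sq]
    | succ k ih =>
      show s + 2 * ((k + 1 : ℕ) : ℝ) / R ≤ ph R (ph R (sq R s k))
      have e1 := ph_ge hR0 (sq R s k)
      have e2 := ph_ge hR0 (ph R (sq R s k))
      have e3 : s + 2 * ((k + 1 : ℕ) : ℝ) / R = (s + 2 * k / R) + 1 / R + 1 / R := by
        push_cast
        ring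
      rw [e3]
      linarith
  refine ⟨k₀, fun s hs k => ?_⟩
  induction k with
  | zero =>
    rw [Nat.mul_zero, pow_zero, Nat.add_zero]
    refine le_trans ?_ (h1 s k₀)
    have e1 : m + 1 ≤ 2 * (k₀ : ℝ) / R := by
      rw [le_div_iff₀ hR0]
      have : (0 : ℝ) ≤ k₀ := Nat.cast_nonneg _
      linarith
    linarith
  | succ k ih =>
    show _ ≤ ph R (ph R (sq R s (k₀ + k)))
    have hc : 0 < 1 + 1 / R := by positivity
    have h0 : 0 ≤ sq R s (k₀ + k) := le_trans (by positivity) ih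
    have e1 := ph_geo hR0 h0
    have h2 : 0 ≤ ph R (sq R s (k₀ + k)) := le_trans (mul_nonneg hc.le h0) e1
    have e2 := ph_geo hR0 h2
    calc (1 + 1 / R) ^ (2 * (k + 1)) = (1 + 1 / R) * ((1 + 1 / R) * (1 + 1 / R) ^ (2 * k)) := by ring
      _ ≤ (1 + 1 / R) * ((1 + 1 / R) * sq R s (k₀ + k)) := by gcongr
      _ ≤ (1 + 1 / R) * ph R (sq R s (k₀ + k)) := by gcongr
      _ ≤ _ := e2

/-- `|sq R s k| ≤ (1+2/r)^{2k} t`. -/
theorem sq_abs (hr : 0 < r) (hrR : r ≤ R) (ht : 1 ≤ t) (hs : |s| ≤ t) (k : ℕ) :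
    |sq R s k| ≤ (1 + 2 / r) ^ (2 * k) * t := by
  have hc : 1 ≤ 1 + 2 / r := by
    have : 0 < 2 / r := by positivity
    linarith
  induction k with
  | zero => simpa [sq] using hs
  | succ k ih =>
    show |ph R (ph R (sq R s k))| ≤ _
    have ht1 : 1 ≤ (1 + 2 / r) ^ (2 * k) * t :=
      one_le_mul_of_one_le_of_one_le (one_le_pow₀ hc) ht
    have e1 := ph_abs hr hrR ht1 ih
    have ht2 : 1 ≤ (1 + 2 / r) * ((1 + 2 / r) ^ (2 * k) * t) :=
      one_le_mul_of_one_le_of_one_le hc ht1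
    have e2 := ph_abs hr hrR ht2 e1
    refine e2.trans (le_of_eq ?_)
    ring

end CI
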