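import Pool.Agent.H.MP_1693ff_gtD.MDefs

/-!
# Tail integrals
-/

namespace CI

open Real Set Filter Topology MeasureTheory
open CF hiding St

variable {i r R s t M ε ac : ℝ} {Y₁ Y₂ y₁ y₂ Y₁' Y₂' y₁' y₂' : ℝ → ℝ}

/-- `∫ M ε a^{-i} ≤ M ε ∫ a ≤ M ε t²` and `∫_s^t a^{-2-i} ≤ s^{-(1+i)}/(1+i)`. -/
theorem tail_int (hi : -1 < i) (hM : 0 ≤ M) (hε : 0 ≤ ε) (hs : 1 ≤ s) (hst : s ≤ t)
    {g : ℝ → ℝ} (cg : Continuous g)
    (h : ∀ a, 1 ≤ a → |g a| ≤ M * (ε + 1 / a ^ 2) * a ^ (-i)) :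
    ∫ a in s..t, |g a| ≤ M * ε * t ^ 2 + M / (1 + i) * s ^ (-(1 + i)) := by
  have hs0 : (0 : ℝ) < s := lt_of_lt_of_le one_pos hs
  have hni : (0 : ℝ) ∉ Set.uIcc s t := by
    rw [Set.uIcc_of_le hst]
    exact fun h => absurd h.1 (not_le.2 hs0)
  have hpt : ∀ a ∈ Set.Icc s t, |g a| ≤ M * ε * a + M * a ^ (-2 - i) := by
    intro a ha
    have ha1 : 1 ≤ a := hs.trans ha.1
    have ha0 : 0 < a := lt_of_lt_of_le one_pos ha1
    refine (h a ha1).trans ?_
    have e1 : 1 / a ^ 2 * a ^ (-i) = a ^ (-2 - i) := by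
      have e0 : a ^ (-2 : ℝ) = 1 / a ^ 2 := by
        rw [Real.rpow_neg ha0.le, one_div, Real.rpow_two]
      rw [show (-2 - i : ℝ) = -2 + -i by ring, Real.rpow_add ha0, e0]
    have e2 : a ^ (-i) ≤ a := by
      calc a ^ (-i) ≤ a ^ (1 : ℝ) := Real.rpow_le_rpow_of_exponent_le ha1 (by linarith)
        _ = a := Real.rpow_one a
    calc M * (ε + 1 / a ^ 2) * a ^ (-i) = M * ε * a ^ (-i) + M * (1 / a ^ 2 * a ^ (-i)) := by ring
      _ = M * ε * a ^ (-i) + M * a ^ (-2 - i) := by rw [e1]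
      _ ≤ M * ε * a + M * a ^ (-2 - i) := by
          have := mul_le_mul_of_nonneg_left e2 (mul_nonneg hM hε)
          linarith
  have hc1 : IntervalIntegrable (fun a : ℝ => M * ε * a) volume s t :=
    (continuous_const.mul continuous_id).intervalIntegrable _ _
  have hc2 : IntervalIntegrable (fun a : ℝ => M * a ^ (-2 - i)) volume s t := by
    refine ContinuousOn.intervalIntegrable ?_
    refine continuousOn_const.mul ?_
    intro a ha
    have ha0 : a ≠ 0 := fun h0 => hni (h0 ▸ ha)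
    exact (Real.continuousAt_rpow_const a (-2 - i) (Or.inl ha0)).continuousWithinAt
  have hc3 : IntervalIntegrable (fun a : ℝ => |g a|) volume s t := cg.abs.intervalIntegrable _ _
  have h1 := intervalIntegral.integral_mono_on hst hc3 (hc1.add hc2) hpt
  refine h1.trans ?_
  rw [intervalIntegral.integral_add hc1 hc2, intervalIntegral.integral_const_mul,
    intervalIntegral.integral_const_mul, integral_id,
    integral_rpow (Or.inr ⟨by linarith, hni⟩)]
  have e3 : (-2 - i + 1 : ℝ) = -(1 + i) := by ring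
  rw [e3]
  have h2 : M * ε * ((t ^ 2 - s ^ 2) / 2) ≤ M * ε * t ^ 2 :=
    mul_le_mul_of_nonneg_left (by nlinarith [sq_nonneg s, sq_nonneg t]) (mul_nonneg hM hε)
  have h3 : (t ^ (-(1 + i)) - s ^ (-(1 + i))) / (-(1 + i)) ≤ s ^ (-(1 + i)) / (1 + i) := by
    have e4 : (t ^ (-(1 + i)) - s ^ (-(1 + i))) / (-(1 + i)) =
        (s ^ (-(1 + i)) - t ^ (-(1 + i))) / (1 + i) := by
      rw [div_neg, ← neg_div]
      congr 1
      ring
    rw [e4]
    have h4 : 0 ≤ t ^ (-(1 + i)) := Real.rpow_nonneg (hs0.le.trans hst) _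
    exact div_le_div_of_nonneg_right (by linarith) (by linarith)
  have h5 := mul_le_mul_of_nonneg_left h3 hM
  have e5 : M * (s ^ (-(1 + i)) / (1 + i)) = M / (1 + i) * s ^ (-(1 + i)) := by ring
  rw [e5] at h5
  linarith

end CI
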