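import Pool.Agent.H.MP_1693ff_gtD.MRoundD
import Pool.Agent.H.MP_1693ff_gtD.MIterA

/-!
# Iteration
-/

namespace CI

open Real Set Filter Topology MeasureTheory
open CF hiding St

variable {i r R s t M ε ac : ℝ} {Y₁ Y₂ y₁ y₂ Y₁' Y₂' y₁' y₂' : ℝ → ℝ}

theorem miterc_ph_le {R s : ℝ} (hR : 1 ≤ R) : s ≤ ph R s := by
  unfold ph
  have h1 : 0 ≤ √(1 + s ^ 2) / R := div_nonneg (Real.sqrt_nonneg _) (by linarith)
  linarith

theorem miterc_sq_ge {R s : ℝ} (hR : 1 ≤ R) (k : ℕ) : s ≤ sq R s k := by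
  induction k with
  | zero => exact le_refl _
  | succ k ih =>
    exact ih.trans ((miterc_ph_le hR).trans (miterc_ph_le hR))

/-- `k` rounds (induction with `round`; `|sq R s k| ≤ (1+2/r)^{2k} t` by `ph_abs`, `sq` is
increasing in `k` by `ph_ge`). -/
theorem iter (hr : 0 < r) (hR : 1 ≤ R) (hrR : r ≤ R) (hM : 0 ≤ M) (hε : 0 ≤ ε)
    (S : Sy r R Y₁ Y₂ y₁ y₂) (S' : Sy r R Y₁' Y₂' y₁' y₂')
    (C : Cmp i M ε R ac Y₁ Y₂ y₁ y₂ Y₁' Y₂' y₁' y₂') (ht : 1 ≤ t) (hs : |s| ≤ t)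
    (hac : ac - 1 / R ≤ s) (k : ℕ) :
    ∫ a in s..t, |Jf i (Y₂ a) - Jf i (Y₂' a)| ≤
      (∫ a in (sq R s k)..((1 + 2 / r) ^ (2 * k) * t), |Jf i (Y₂ a) - Jf i (Y₂' a)|) +
        k * (8 * M * ε * ((1 + 2 / r) ^ (2 * k) * t) ^ 2) := by
  induction k with
  | zero => simp [sq]
  | succ k ih =>
    have hq : 1 ≤ 1 + 2 / r := by
      have : 0 < 2 / r := by positivity
      linarith
    have hqk : 1 ≤ (1 + 2 / r) ^ (2 * k) := one_le_pow₀ hq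
    have hT : 1 ≤ (1 + 2 / r) ^ (2 * k) * t := by nlinarith
    have h1 := round (s := sq R s k) (t := (1 + 2 / r) ^ (2 * k) * t) hr hR hrR hM hε S S' C hT
      (sq_abs hr hrR ht hs k) (hac.trans (miterc_sq_ge hR k))
    have e1 : (1 + 2 / r) ^ 2 * ((1 + 2 / r) ^ (2 * k) * t) = (1 + 2 / r) ^ (2 * (k + 1)) * t := by
      rw [← mul_assoc, ← pow_add]
      congr 2
      ring
    rw [e1] at h1
    have e2 : sq R s (k + 1) = ph R (ph R (sq R s k)) := rfl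
    rw [e2]
    have hTT : (1 + 2 / r) ^ (2 * k) * t ≤ (1 + 2 / r) ^ (2 * (k + 1)) * t := by
      apply mul_le_mul_of_nonneg_right _ (by linarith)
      exact pow_le_pow_right₀ hq (by omega)
    have hsq : ((1 + 2 / r) ^ (2 * k) * t) ^ 2 ≤ ((1 + 2 / r) ^ (2 * (k + 1)) * t) ^ 2 :=
      pow_le_pow_left₀ (by linarith) hTT 2
    have h8 : 0 ≤ 8 * M * ε := by positivity
    have h2 : (k : ℝ) * (8 * M * ε * ((1 + 2 / r) ^ (2 * k) * t) ^ 2) ≤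
        (k : ℝ) * (8 * M * ε * ((1 + 2 / r) ^ (2 * (k + 1)) * t) ^ 2) :=
      mul_le_mul_of_nonneg_left (mul_le_mul_of_nonneg_left hsq h8) (Nat.cast_nonneg k)
    push_cast
    linarith

end CI
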