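import Pool.Agent.H.MP_1693ff_gtD.MIterC
import Pool.Agent.H.MP_1693ff_gtD.MIterB

/-!
# The one-sided estimate
-/

namespace CI

open Real Set Filter Topology MeasureTheory
open CF hiding St

theorem miterd_pos {r : ℝ} (hr : 0 < r) {Y : ℝ → ℝ} (h : ∀ a, r ≤ Y a * √(1 + a ^ 2)) (a : ℝ) :
    0 < Y a := by
  have h1 : 0 < √(1 + a ^ 2) := Real.sqrt_pos.2 (by positivity)
  have h2 := h a
  by_contra hn
  have h3 : Y a * √(1 + a ^ 2) ≤ 0 := mul_nonpos_of_nonpos_of_nonneg (not_lt.1 hn) h1.le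
  linarith

theorem miterd_cont (i : ℝ) {Y Y' : ℝ → ℝ} (c : Continuous Y) (c' : Continuous Y')
    (p : ∀ a, 0 < Y a) (p' : ∀ a, 0 < Y' a) : Continuous fun a => Jf i (Y a) - Jf i (Y' a) :=
  ((jf_cont i).comp_continuous c p).sub ((jf_cont i).comp_continuous c' p')

/-- **One side.**  `iter` with `s = ac - 1/R`, `t = m + 2` and `k ≥ k₀` (`sq_geo` for
`m + 1`), `tail_int` for `g = J Y₂ - J Y₂'` (`t3`).  `C₂ = 2 (1+2/r)⁴` (`k ≤ 2^k`),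
`q = (1+1/R)^{-2(1+i)}`, `C = 16 M (m+2)² + M/(1+i) · q^{-k₀}`.  The interval
`[ac - 1/R, ac + 1/R]` is contained in `[s, t]`. -/
theorem one_side {i r R m M : ℝ} (hi : -1 < i) (hr : 0 < r) (hR : 1 ≤ R) (hrR : r ≤ R)
    (hm : 0 ≤ m) (hM : 0 < M) : ∃ (C C₂ q : ℝ) (k₀ : ℕ), 0 < C ∧ 1 ≤ C₂ ∧ 0 < q ∧ q < 1 ∧
    ∀ Y₁ Y₂ y₁ y₂ Y₁' Y₂' y₁' y₂' : ℝ → ℝ, Sy r R Y₁ Y₂ y₁ y₂ → Sy r R Y₁' Y₂' y₁' y₂' →
    ∀ ac ε, |ac| ≤ m → 0 ≤ ε → Cmp i M ε R ac Y₁ Y₂ y₁ y₂ Y₁' Y₂' y₁' y₂' → ∀ k ≥ k₀,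
      ∫ a in (ac - 1 / R)..(ac + 1 / R), |Jf i (Y₂ a) - Jf i (Y₂' a)| ≤
        C * (ε * C₂ ^ k + q ^ k) := by
  have hi1 : 0 < 1 + i := by linarith
  have hR0 : 0 < R := by linarith
  have hRi : 0 < 1 / R := by positivity
  have hRi1 : 1 / R ≤ 1 := by
    rw [div_le_one hR0]
    exact hR
  obtain ⟨k₀, hk₀⟩ := sq_geo (R := R) (m := m + 1) hR
  obtain ⟨P, hP⟩ : ∃ P : ℝ, P = (1 + 1 / R) ^ 2 := ⟨_, rfl⟩
  have hP1 : 1 < P := by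
    rw [hP]
    nlinarith
  obtain ⟨q, hq⟩ : ∃ q : ℝ, q = P ^ (-(1 + i)) := ⟨_, rfl⟩
  have hq0 : 0 < q := by
    rw [hq]
    exact Real.rpow_pos_of_pos (by linarith) _
  have hq1 : q < 1 := by
    rw [hq]
    exact Real.rpow_lt_one_of_one_lt_of_neg hP1 (by linarith)
  obtain ⟨G, hG⟩ : ∃ G : ℝ, G = 1 + 2 / r := ⟨_, rfl⟩
  have hG1 : 1 ≤ G := by
    rw [hG]
    have : 0 < 2 / r := by positivity
    linarith
  refine ⟨16 * M * (m + 2) ^ 2 + M / (1 + i) * (q ^ k₀)⁻¹, 2 * G ^ 4, q, k₀, by positivity, ?_,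
    hq0, hq1, ?_⟩
  · have : 1 ≤ G ^ 4 := one_le_pow₀ hG1
    linarith
  intro Y₁ Y₂ y₁ y₂ Y₁' Y₂' y₁' y₂' S S' ac ε hac hε hC k hk
  obtain ⟨j, rfl⟩ := Nat.exists_eq_add_of_le hk
  obtain ⟨e1, e2⟩ := abs_le.1 hac
  have ht : 1 ≤ m + 2 := by linarith
  have hs : |ac - 1 / R| ≤ m + 2 := by
    rw [abs_le]
    constructor <;> linarith
  have hcont : Continuous fun a => Jf i (Y₂ a) - Jf i (Y₂' a) :=
    miterd_cont i S.c2 S'.c2 (miterd_pos hr fun a => (S.b2 a).1) (miterd_pos hr fun a => (S'.b2 a).1)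
  have hcabs : Continuous fun a => |Jf i (Y₂ a) - Jf i (Y₂' a)| := hcont.abs
  have i1 : ∫ a in (ac - 1 / R)..(ac + 1 / R), |Jf i (Y₂ a) - Jf i (Y₂' a)| ≤
      ∫ a in (ac - 1 / R)..(m + 2), |Jf i (Y₂ a) - Jf i (Y₂' a)| := by
    refine intervalIntegral.integral_mono_interval le_rfl (by linarith) (by linarith) ?_
      (hcabs.intervalIntegrable _ _)
    exact Eventually.of_forall fun a => abs_nonneg _
  have i2 := iter hr hR hrR hM.le hε S S' hC ht hs le_rfl (k₀ + j)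
  rw [← hG] at i2
  have i3 := hk₀ (ac - 1 / R) (by linarith) j
  have i4 := sq_abs (R := R) hr hrR ht hs (k₀ + j)
  rw [← hG] at i4
  have i5 : (1 : ℝ) ≤ (1 + 1 / R) ^ (2 * j) := one_le_pow₀ (by linarith)
  have i6 : sq R (ac - 1 / R) (k₀ + j) ≤ G ^ (2 * (k₀ + j)) * (m + 2) := (le_abs_self _).trans i4
  have i7 := tail_int (i := i) hi hM.le hε (i5.trans i3) i6 hcont hC.t3
  have i8 : sq R (ac - 1 / R) (k₀ + j) ^ (-(1 + i)) ≤ (q ^ k₀)⁻¹ * q ^ (k₀ + j) := by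
    have h1 : sq R (ac - 1 / R) (k₀ + j) ^ (-(1 + i)) ≤ ((1 + 1 / R) ^ (2 * j)) ^ (-(1 + i)) :=
      Real.rpow_le_rpow_of_nonpos (by linarith) i3 (by linarith)
    have h2 : ((1 + 1 / R) ^ (2 * j)) ^ (-(1 + i)) = q ^ j := by
      rw [pow_mul, ← hP, hq, ← Real.rpow_natCast (P ^ (-(1 + i))), ← Real.rpow_mul (by linarith),
        ← Real.rpow_natCast P, ← Real.rpow_mul (by linarith), mul_comm]
    rw [h2] at h1
    refine h1.trans (le_of_eq ?_)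
    rw [pow_add]
    field_simp
  have i9 : M / (1 + i) * sq R (ac - 1 / R) (k₀ + j) ^ (-(1 + i)) ≤
      M / (1 + i) * ((q ^ k₀)⁻¹ * q ^ (k₀ + j)) :=
    mul_le_mul_of_nonneg_left i8 (by positivity)
  have hk2 : ((k₀ + j : ℕ) : ℝ) ≤ 2 ^ (k₀ + j) := by
    exact_mod_cast (Nat.lt_two_pow_self (n := k₀ + j)).le
  have h12 : (1 : ℝ) ≤ 2 ^ (k₀ + j) := one_le_pow₀ (by norm_num)
  have hGp : 0 ≤ M * ε * (G ^ (2 * (k₀ + j)) * (m + 2)) ^ 2 := by positivity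
  have i10 : M * ε * (G ^ (2 * (k₀ + j)) * (m + 2)) ^ 2 +
      ((k₀ + j : ℕ) : ℝ) * (8 * M * ε * (G ^ (2 * (k₀ + j)) * (m + 2)) ^ 2) ≤
      16 * M * (m + 2) ^ 2 * (ε * (2 * G ^ 4) ^ (k₀ + j)) := by
    have h1 : 16 * M * (m + 2) ^ 2 * (ε * (2 * G ^ 4) ^ (k₀ + j)) =
        16 * 2 ^ (k₀ + j) * (M * ε * (G ^ (2 * (k₀ + j)) * (m + 2)) ^ 2) := by
      have h2 : (G ^ (2 * (k₀ + j))) ^ 2 = (G ^ 4) ^ (k₀ + j) := by
        rw [← pow_mul, ← pow_mul]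
        congr 1
        ring
      rw [mul_pow 2, mul_pow (G ^ (2 * (k₀ + j))), h2]
      ring
    rw [h1]
    have h3 : M * ε * (G ^ (2 * (k₀ + j)) * (m + 2)) ^ 2 +
      ((k₀ + j : ℕ) : ℝ) * (8 * M * ε * (G ^ (2 * (k₀ + j)) * (m + 2)) ^ 2) =
      (1 + 8 * ((k₀ + j : ℕ) : ℝ)) * (M * ε * (G ^ (2 * (k₀ + j)) * (m + 2)) ^ 2) := by ring
    rw [h3]
    exact mul_le_mul_of_nonneg_right (by linarith) hGp
  have i11 : 0 ≤ M / (1 + i) * (q ^ k₀)⁻¹ * (ε * (2 * G ^ 4) ^ (k₀ + j)) := by positivity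
  have i12 : 0 ≤ 16 * M * (m + 2) ^ 2 * q ^ (k₀ + j) := by positivity
  have i13 : (16 * M * (m + 2) ^ 2 + M / (1 + i) * (q ^ k₀)⁻¹) *
      (ε * (2 * G ^ 4) ^ (k₀ + j) + q ^ (k₀ + j)) =
      16 * M * (m + 2) ^ 2 * (ε * (2 * G ^ 4) ^ (k₀ + j)) +
      16 * M * (m + 2) ^ 2 * q ^ (k₀ + j) +
      M / (1 + i) * (q ^ k₀)⁻¹ * (ε * (2 * G ^ 4) ^ (k₀ + j)) +
      M / (1 + i) * ((q ^ k₀)⁻¹ * q ^ (k₀ + j)) := by ring
  rw [i13]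
  linarith

end CI
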