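import Pool.Agent.H.MP_1693ff_gtD.MDefs

/-!
# `Tf` is bi-Lipschitz
-/

namespace CI

open Real Set Filter Topology MeasureTheory
open CF hiding St

theorem mjb_log_le {x y : ℝ} (hx : 0 < x) (hy : 0 < y) : log x - log y ≤ (x - y) / y := by
  rw [← Real.log_div hx.ne' hy.ne', sub_div, div_self hy.ne']
  exact Real.log_le_sub_one_of_pos (div_pos hx hy)

theorem mjb_log_ge {x y : ℝ} (hx : 0 < x) (hy : 0 < y) : (x - y) / x ≤ log x - log y := by
  have h := mjb_log_le hy hx
  have e : (x - y) / x = -((y - x) / x) := by ring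
  rw [e]
  linarith

theorem mjb_log {c C x y : ℝ} (hc : 0 < c) (hx : x ∈ Icc c C) (hy : y ∈ Icc c C) (hyx : y ≤ x) :
    1 / C * (x - y) ≤ log x - log y ∧ log x - log y ≤ 1 / c * (x - y) := by
  have hx0 : 0 < x := lt_of_lt_of_le hc hx.1
  have hy0 : 0 < y := lt_of_lt_of_le hc hy.1
  have hC0 : 0 < C := lt_of_lt_of_le hx0 hx.2
  have h0 : 0 ≤ x - y := sub_nonneg.mpr hyx
  constructor
  · refine le_trans ?_ (mjb_log_ge hx0 hy0)
    rw [one_div_mul_eq_div]
    exact div_le_div_of_nonneg_left h0 hx0 hx.2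
  · refine (mjb_log_le hx0 hy0).trans ?_
    rw [one_div_mul_eq_div]
    exact div_le_div_of_nonneg_left h0 hc hy.1

/-- `T` is bounded and bi-Lipschitz on compact intervals. -/
theorem tf_lip (i : ℝ) {c C : ℝ} (hc : 0 < c) (hcC : c ≤ C) : ∃ l L : ℝ, 0 < l ∧ 0 < L ∧
    (∀ x ∈ Icc c C, |Tf i x| ≤ L) ∧ ∀ x ∈ Icc c C, ∀ y ∈ Icc c C,
      l * |x - y| ≤ |Tf i x - Tf i y| ∧ |Tf i x - Tf i y| ≤ L * |x - y| := by
  have hC : 0 < C := lt_of_lt_of_le hc hcC
  by_cases hi : i = 0
  · have hT : ∀ x, Tf i x = log x := fun x => by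
      unfold Tf
      rw [if_pos hi]
    refine ⟨1 / C, |log c| + |log C| + 1 / c, by positivity, by positivity, ?_, ?_⟩
    · intro x hx
      rw [hT]
      have hx0 : 0 < x := lt_of_lt_of_le hc hx.1
      have h1 : log c ≤ log x := Real.log_le_log hc hx.1
      have h2 : log x ≤ log C := Real.log_le_log hx0 hx.2
      have h3 : 0 < 1 / c := by positivity
      rw [abs_le]
      constructor
      · linarith [neg_abs_le (log c), abs_nonneg (log C)]
      · linarith [le_abs_self (log C), abs_nonneg (log c)]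
    · intro x hx y hy
      rw [hT, hT]
      have hL : 1 / c ≤ |log c| + |log C| + 1 / c := by linarith [abs_nonneg (log c), abs_nonneg (log C)]
      rcases le_total y x with h | h
      · obtain ⟨h1, h2⟩ := mjb_log hc hx hy h
        have h0 : 0 ≤ x - y := sub_nonneg.mpr h
        have h3 : 0 ≤ log x - log y := le_trans (by positivity) h1
        rw [abs_of_nonneg h0, abs_of_nonneg h3]
        exact ⟨h1, h2.trans (mul_le_mul_of_nonneg_right hL h0)⟩
      · obtain ⟨h1, h2⟩ := mjb_log hc hy hx h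
        have h0 : 0 ≤ y - x := sub_nonneg.mpr h
        have h3 : 0 ≤ log y - log x := le_trans (by positivity) h1
        rw [abs_sub_comm x y, abs_sub_comm (log x) (log y), abs_of_nonneg h0, abs_of_nonneg h3]
        exact ⟨h1, h2.trans (mul_le_mul_of_nonneg_right hL h0)⟩
  · have hT : ∀ x, Tf i x = x / i := fun x => by
      unfold Tf
      rw [if_neg hi]
    have hi0 : 0 < |i| := abs_pos.mpr hi
    refine ⟨1 / |i|, (C + 1) / |i|, by positivity, by positivity, ?_, ?_⟩
    · intro x hx
      rw [hT, abs_div]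
      have hx0 : 0 < x := lt_of_lt_of_le hc hx.1
      rw [abs_of_pos hx0]
      exact div_le_div_of_nonneg_right (by linarith [hx.2]) hi0.le
    · intro x hx y hy
      rw [hT, hT, ← sub_div, abs_div]
      constructor
      · rw [one_div_mul_eq_div]
      · rw [div_mul_eq_mul_div]
        refine div_le_div_of_nonneg_right ?_ hi0.le
        nlinarith [abs_nonneg (x - y)]

end CI
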