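import Pool.Agent.H.MP_1693ff_gtD.MRad
import Pool.Agent.H.MP_1693ff_gtD.MUn
import Pool.Agent.H.MP_1693ff_gtD.MJ

/-!
# Chord functions and `Jf`
-/

namespace CI

open Real Set Filter Topology MeasureTheory
open CF hiding St

variable {E : Type*} [NormedAddCommGroup E] [InnerProductSpace ℝ E]

/-- `radial K p (a e + ω)/d = Λ⁻¹ radial K p (un)`, `Λ = d √(1+a²)` (`rad_smul`, `un_facts`),
`jf_mul` with `c = Λ⁻¹` (`Jc i Λ⁻¹ = - Jc i Λ`), `jf_tf` and the definition of `chord`. -/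
theorem psi_eq (i : ℝ) {K : Set E} (hK : IsBody K) {p e ω : E} (hp : p ∈ interior K)
    (ne : ‖e‖ = 1) (nω : ‖ω‖ = 1) (o : inner ℝ e ω = (0 : ℝ)) {d : ℝ} (hd : 0 < d) (a : ℝ) :
    Jf i (radial K p (a • e + ω) / d) + Jf i (radial K p (-(a • e + ω)) / d) =
      (d * √(1 + a ^ 2)) ^ (-i) * Tf i (chord i K p (un e ω a)) -
        2 * Jc i (d * √(1 + a ^ 2)) := by
  obtain ⟨-, hu1, hv, hvu⟩ := un_facts ne nω o a
  have hs : 0 < √(1 + a ^ 2) := Real.sqrt_pos.2 (by positivity)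
  have hL : 0 < d * √(1 + a ^ 2) := mul_pos hd hs
  have hu : un e ω a ≠ 0 := by
    intro h0
    rw [h0, norm_zero] at hu1
    exact zero_ne_one hu1
  have hu' : -un e ω a ≠ 0 := neg_ne_zero.2 hu
  have e1 : radial K p (a • e + ω) / d = (d * √(1 + a ^ 2))⁻¹ * radial K p (un e ω a) := by
    rw [hvu, rad_smul hK hp hu hs, mul_inv]
    ring
  have e2 : radial K p (-(a • e + ω)) / d =
      (d * √(1 + a ^ 2))⁻¹ * radial K p (-un e ω a) := by
    rw [hvu, ← smul_neg, rad_smul hK hp hu' hs, mul_inv]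
    ring
  have r1 := rad_pos hK hp hu
  have r2 := rad_pos hK hp hu'
  have hc : chord i K p (un e ω a) = if i = 0 then radial K p (un e ω a) *
      radial K p (-un e ω a) else radial K p (un e ω a) ^ i + radial K p (-un e ω a) ^ i := rfl
  have hJc : Jc i (d * √(1 + a ^ 2))⁻¹ = -Jc i (d * √(1 + a ^ 2)) := by
    unfold Jc
    split_ifs with h
    · exact Real.log_inv _
    · rw [neg_zero]
  have hpow : ((d * √(1 + a ^ 2))⁻¹) ^ i = (d * √(1 + a ^ 2)) ^ (-i) := by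
    rw [Real.inv_rpow hL.le, Real.rpow_neg hL.le]
  rw [e1, e2, jf_mul i (inv_pos.2 hL) r1, jf_mul i (inv_pos.2 hL) r2, hc, ← jf_tf i r1 r2,
    hJc, hpow]
  ring

end CI
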