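import Pool.Agent.H.MP_1693ff_gtD.MRad

/-!
# Bounds of the chord functions
-/

namespace CI

open Real Set Filter Topology MeasureTheory
open CF hiding St

variable {E : Type*} [NormedAddCommGroup E] [InnerProductSpace ℝ E]

theorem msyc_pow (i : ℝ) {m x : ℝ} (hm : 1 ≤ m) (h1 : m⁻¹ ≤ x) (h2 : x ≤ m) :
    m ^ (-|i|) ≤ x ^ i ∧ x ^ i ≤ m ^ |i| := by
  have hm0 : 0 < m := by linarith
  have hx : 0 < x := lt_of_lt_of_le (inv_pos.mpr hm0) h1
  rcases le_or_gt 0 i with hi | hi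
  · rw [abs_of_nonneg hi]
    constructor
    · rw [rpow_neg hm0.le, ← inv_rpow hm0.le]
      exact rpow_le_rpow (inv_pos.mpr hm0).le h1 hi
    · exact rpow_le_rpow hx.le h2 hi
  · rw [abs_of_neg hi]
    constructor
    · rw [neg_neg]
      exact rpow_le_rpow_of_nonpos hx h2 hi.le
    · rw [rpow_neg hm0.le, ← inv_rpow hm0.le]
      exact rpow_le_rpow_of_nonpos (inv_pos.mpr hm0) h1 hi.le

theorem msyc_rad {K : Set E} (hK : IsBody K) {p u : E} {m : ℝ} (hm : 1 ≤ m)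
    (h1 : Metric.closedBall p m⁻¹ ⊆ K) (h2 : K ⊆ Metric.closedBall p m) (hu : ‖u‖ = 1) :
    m⁻¹ ≤ radial K p u ∧ radial K p u ≤ m := by
  have hm0 : 0 < m⁻¹ := inv_pos.mpr (by linarith)
  have hp : p ∈ interior K :=
    interior_mono h1 (Metric.ball_subset_interior_closedBall (Metric.mem_ball_self hm0))
  have hv : u ≠ 0 := by
    intro h0
    rw [h0, norm_zero] at hu
    exact zero_ne_one hu
  have h := rad_bd hK hp hv hm0 h1 h2
  rwa [hu, mul_one] at h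

theorem msyc_chord {K : Set E} (hK : IsBody K) {p u : E} (i : ℝ) {m : ℝ} (hm : 1 ≤ m)
    (h1 : Metric.closedBall p m⁻¹ ⊆ K) (h2 : K ⊆ Metric.closedBall p m) (hu : ‖u‖ = 1) :
    chord i K p u ∈ Icc (min (m⁻¹ * m⁻¹) (2 * m ^ (-|i|))) (max (m * m) (2 * m ^ |i|)) := by
  have hm0 : 0 < m⁻¹ := inv_pos.mpr (by linarith)
  have r1 := msyc_rad hK hm h1 h2 hu
  have r2 := msyc_rad hK hm h1 h2 (u := -u) (by rw [norm_neg, hu])
  unfold chord
  by_cases hi : i = 0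
  · rw [if_pos hi]
    constructor
    · exact (min_le_left _ _).trans (mul_le_mul r1.1 r2.1 hm0.le (hm0.le.trans r1.1))
    · exact (mul_le_mul r1.2 r2.2 (hm0.le.trans r2.1) (by linarith)).trans (le_max_left _ _)
  · rw [if_neg hi]
    have p1 := msyc_pow i hm r1.1 r1.2
    have p2 := msyc_pow i hm r2.1 r2.2
    constructor
    · exact (min_le_right _ _).trans (by linarith [p1.1, p2.1])
    · exact le_trans (by linarith [p1.2, p2.2]) (le_max_right _ _)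

/-- Chord functions are bounded in the class `Cl`: `m⁻¹ ≤ radial K p u ≤ m` for unit vectors. -/
theorem cl_bd (i : ℝ) {m : ℝ} (hm : 1 ≤ m) : ∃ c₀ C₀ : ℝ, 0 < c₀ ∧ c₀ ≤ C₀ ∧
    ∀ (c p e ω : E) (f₁ F₂ : E → ℝ) (K : Set E) (d A B : ℝ), Cl i m c f₁ F₂ K p e ω d A B →
      ∀ u, ‖u‖ = 1 → f₁ u ∈ Icc c₀ C₀ ∧ F₂ u ∈ Icc c₀ C₀ := by
  have hm0 : 0 < m := by linarith
  refine ⟨min (m⁻¹ * m⁻¹) (2 * m ^ (-|i|)), max (m * m) (2 * m ^ |i|), ?_, ?_, ?_⟩
  · exact lt_min (by positivity) (by positivity)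
  · have h1 : m⁻¹ ≤ 1 := inv_le_one_of_one_le₀ hm
    have h0 : 0 < m⁻¹ := inv_pos.mpr hm0
    exact (min_le_left _ _).trans (le_trans (by nlinarith) (le_max_left _ _))
  · intro c p e ω f₁ F₂ K d A B h u hu
    constructor
    · rw [← h.ch1 u hu]
      exact msyc_chord h.body i hm h.i1 h.o1 hu
    · rw [← h.ch2 u hu]
      exact msyc_chord h.body i hm h.i2 h.o2 hu

end CI
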