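import Pool.Agent.H.MP_1693ff_gtD.MCmp
import Pool.Agent.H.MP_1693ff_gtD.MCmpB
import Pool.Agent.H.MP_1693ff_gtD.MSyB
import Pool.Agent.H.MP_1693ff_gtD.MSyC

/-!
# Comparison of two bodies
-/

namespace CI

open Real Set Filter Topology MeasureTheory
open CF hiding St

variable {E : Type*} [NormedAddCommGroup E] [InnerProductSpace ℝ E]

/-- `t1`, `t2`: `psi_eq`, `psi_cmp` (with `cl_bd`), for `t1` with
`|f₁ (un e ω a) - f₁ (un e' ω' a)| ≤ 2 L ε` (`un_diff`); `t3`, `t4`: `cmp_t3`, `cmp_t4`. -/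
theorem cmp_of {i m L : ℝ} (hi : -1 < i) (hm : 1 ≤ m) (hL : 0 ≤ L) : ∃ M : ℝ, 0 < M ∧
    ∀ (c p e ω p' e' ω' : E) (f₁ F₂ F₂' : E → ℝ) (K K' : Set E) (d A B d' A' B' ε : ℝ),
      Cl i m c f₁ F₂ K p e ω d A B → Cl i m c f₁ F₂' K' p' e' ω' d' A' B' → ‖e - e'‖ ≤ ε →
      ‖ω - ω'‖ ≤ ε → |d - d'| ≤ ε → |A - A'| ≤ ε → |B - B'| ≤ ε →
      (∀ u v, ‖u‖ = 1 → ‖v‖ = 1 → |f₁ u - f₁ v| ≤ L * ‖u - v‖) →
      (∀ a, 1 / m ^ 2 ≤ |a - inner ℝ e c / inner ℝ ω c| →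
        |F₂ (un e ω a) - F₂' (un e' ω' a)| ≤ ε) →
      Cmp i M ε (m ^ 2) (inner ℝ e c / inner ℝ ω c) (fun a => radial K p (a • e + ω) / d)
        (fun a => radial K (p + d • e) (a • e + ω) / d) (fun a => radial K p (-(a • e + ω)) / d)
        (fun a => radial K (p + d • e) (-(a • e + ω)) / d)
        (fun a => radial K' p' (a • e' + ω') / d')
        (fun a => radial K' (p' + d' • e') (a • e' + ω') / d')
        (fun a => radial K' p' (-(a • e' + ω')) / d')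
        (fun a => radial K' (p' + d' • e') (-(a • e' + ω')) / d') := by
  obtain ⟨c₀, C₀, hc, hcC, hbd⟩ := cl_bd (E := E) i hm
  obtain ⟨M1, l1, hM1, _, hpsi⟩ := psi_cmp hi hm hc hcC
  refine ⟨M1 * (2 + 2 * L) + 4 * m, by positivity, ?_⟩
  intro c p e ω p' e' ω' f₁ F₂ F₂' K K' d A B d' A' B' ε h h' he hω hd hA hB hf hF
  have hε : 0 ≤ ε := (norm_nonneg _).trans he
  obtain ⟨hp, hq, hd0⟩ := Cl.int hm h
  obtain ⟨hp', hq', hd0'⟩ := Cl.int hm h'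
  have hdI : d ∈ Icc m⁻¹ m := ⟨h.d0, h.d1⟩
  have hdI' : d' ∈ Icc m⁻¹ m := ⟨h'.d0, h'.d1⟩
  have hb := hbd c p e ω f₁ F₂ K d A B h
  have hb' := hbd c p' e' ω' f₁ F₂' K' d' A' B' h'
  have hu : ∀ a, ‖un e ω a‖ = 1 := fun a => (un_facts h.ne h.nω h.o a).2.1
  have hu' : ∀ a, ‖un e' ω' a‖ = 1 := fun a => (un_facts h'.ne h'.nω h'.o a).2.1
  have hdiff : ∀ a, ‖un e ω a - un e' ω' a‖ ≤ 2 * ε := fun a => by
    have := un_diff e ω e' ω' a
    linarith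
  refine ⟨?_, ?_, ?_, ?_⟩
  · intro a
    rw [psi_eq i h.body hp h.ne h.nω h.o hd0 a, psi_eq i h'.body hp' h'.ne h'.nω h'.o hd0' a,
      h.ch1 _ (hu a), h'.ch1 _ (hu' a)]
    have ha : 0 ≤ 1 + |a| := by positivity
    have h1 := (hpsi d hdI d' hdI' (f₁ (un e ω a)) (hb _ (hu a)).1 (f₁ (un e' ω' a))
      (hb' _ (hu' a)).1 a).1
    refine h1.trans (mul_le_mul_of_nonneg_right ?_ ha)
    have h2 : |f₁ (un e ω a) - f₁ (un e' ω' a)| ≤ L * (2 * ε) :=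
      (hf _ _ (hu a) (hu' a)).trans (mul_le_mul_of_nonneg_left (hdiff a) hL)
    have h3 : M1 * (|d - d'| + |f₁ (un e ω a) - f₁ (un e' ω' a)|) ≤ M1 * (ε + L * (2 * ε)) :=
      mul_le_mul_of_nonneg_left (add_le_add hd h2) hM1.le
    have h4 : 0 ≤ M1 * ε := by positivity
    have h5 : 0 ≤ 4 * m * ε := by positivity
    have h6 : (M1 * (2 + 2 * L) + 4 * m) * ε =
        M1 * (ε + L * (2 * ε)) + M1 * ε + 4 * m * ε := by ring
    linarith
  · intro a hac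
    rw [psi_eq i h.body hq h.ne h.nω h.o hd0 a, psi_eq i h'.body hq' h'.ne h'.nω h'.o hd0' a,
      h.ch2 _ (hu a), h'.ch2 _ (hu' a)]
    have ha : 0 ≤ 1 + |a| := by positivity
    have h1 := (hpsi d hdI d' hdI' (F₂ (un e ω a)) (hb _ (hu a)).2 (F₂' (un e' ω' a))
      (hb' _ (hu' a)).2 a).1
    refine h1.trans (mul_le_mul_of_nonneg_right ?_ ha)
    have h3 : M1 * (|d - d'| + |F₂ (un e ω a) - F₂' (un e' ω' a)|) ≤ M1 * (ε + ε) :=
      mul_le_mul_of_nonneg_left (add_le_add hd (hF a hac)) hM1.le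
    have h4 : 0 ≤ M1 * (2 * L) * ε := by positivity
    have h5 : 0 ≤ 4 * m * ε := by positivity
    have h6 : (M1 * (2 + 2 * L) + 4 * m) * ε =
        M1 * (ε + ε) + M1 * (2 * L) * ε + 4 * m * ε := by ring
    linarith
  · intro a ha
    refine (cmp_t3 hi hm h h' hA hB ha).trans ?_
    have ha0 : 0 < a := by linarith
    refine mul_le_mul_of_nonneg_right ?_ (Real.rpow_nonneg ha0.le _)
    refine mul_le_mul_of_nonneg_right ?_ (by positivity)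
    have : 0 ≤ M1 * (2 + 2 * L) := by positivity
    linarith
  · intro a ha
    refine (cmp_t4 hi hm h h' hA hB ha).trans ?_
    have ha0 : 0 < a := by linarith
    refine mul_le_mul_of_nonneg_right ?_ (Real.rpow_nonneg ha0.le _)
    refine mul_le_mul_of_nonneg_right ?_ (by positivity)
    have : 0 ≤ M1 * (2 + 2 * L) := by positivity
    linarith

end CI
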