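import Pool.Agent.H.MP_1693ff_gtD.MIterD
import Pool.Agent.H.MP_1693ff_gtD.MFlip

/-!
# Stability
-/

namespace CI

open Real Set Filter Topology MeasureTheory
open CF hiding St

theorem mstab_pos {r a Y : ℝ} (hr : 0 < r) (h : r ≤ Y * √(1 + a ^ 2)) : 0 < Y := by
  have h1 : 0 < Y * √(1 + a ^ 2) := hr.trans_le h
  have h2 : 0 < √(1 + a ^ 2) := Real.sqrt_pos.mpr (by positivity)
  exact (pos_iff_pos_of_mul_pos h1).mpr h2

theorem mstab_cont (i : ℝ) {Y Y' : ℝ → ℝ} (cY : Continuous Y) (cY' : Continuous Y')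
    (pY : ∀ a, 0 < Y a) (pY' : ∀ a, 0 < Y' a) :
    Continuous (fun a => |Jf i (Y a) - Jf i (Y' a)|) :=
  (((jf_cont i).comp_continuous cY pY).sub ((jf_cont i).comp_continuous cY' pY')).abs

/-- **Stability.**  `one_side` for the system and for the reflected one
(`intervalIntegral.integral_comp_neg`), triangle inequality. -/
theorem stab {i r R m M : ℝ} (hi : -1 < i) (hr : 0 < r) (hR : 1 ≤ R) (hrR : r ≤ R)
    (hm : 0 ≤ m) (hM : 0 < M) : ∃ (C C₂ q : ℝ) (k₀ : ℕ), 0 < C ∧ 1 ≤ C₂ ∧ 0 < q ∧ q < 1 ∧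
    ∀ Y₁ Y₂ y₁ y₂ Y₁' Y₂' y₁' y₂' : ℝ → ℝ, Sy r R Y₁ Y₂ y₁ y₂ → Sy r R Y₁' Y₂' y₁' y₂' →
    ∀ ac ε, |ac| ≤ m → 0 ≤ ε → Cmp i M ε R ac Y₁ Y₂ y₁ y₂ Y₁' Y₂' y₁' y₂' → ∀ k ≥ k₀,
      ∫ a in (ac - 1 / R)..(ac + 1 / R),
        |(Jf i (Y₂ a) + Jf i (y₂ a)) - (Jf i (Y₂' a) + Jf i (y₂' a))| ≤
        C * (ε * C₂ ^ k + q ^ k) := by
  obtain ⟨C, C₂, q, k₀, hC, hC₂, hq0, hq1, h⟩ := one_side (i := i) (m := m) hi hr hR hrR hm hM
  refine ⟨2 * C, C₂, q, k₀, by linarith, hC₂, hq0, hq1, ?_⟩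
  intro Y₁ Y₂ y₁ y₂ Y₁' Y₂' y₁' y₂' S S' ac ε hac hε hcmp k hk
  have e1 := h Y₁ Y₂ y₁ y₂ Y₁' Y₂' y₁' y₂' S S' ac ε hac hε hcmp k hk
  have e2 := h _ _ _ _ _ _ _ _ S.flip S'.flip (-ac) ε (by rw [abs_neg]; exact hac) hε
    hcmp.flip k hk
  have e3 : ∫ a in (-ac - 1 / R)..(-ac + 1 / R), |Jf i (y₂ (-a)) - Jf i (y₂' (-a))| =
      ∫ a in (ac - 1 / R)..(ac + 1 / R), |Jf i (y₂ a) - Jf i (y₂' a)| := by
    have h3 := intervalIntegral.integral_comp_neg (a := -ac - 1 / R) (b := -ac + 1 / R)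
      (fun a => |Jf i (y₂ a) - Jf i (y₂' a)|)
    rw [show -(-ac + 1 / R) = ac - 1 / R by ring, show -(-ac - 1 / R) = ac + 1 / R by ring] at h3
    exact h3
  rw [e3] at e2
  have cA := mstab_cont i S.c2 S'.c2 (fun a => mstab_pos hr (S.b2 a).1)
    (fun a => mstab_pos hr (S'.b2 a).1)
  have cB := mstab_cont i S.d2 S'.d2 (fun a => mstab_pos hr (S.b4 a).1)
    (fun a => mstab_pos hr (S'.b4 a).1)
  have hRi : 0 ≤ 1 / R := by positivity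
  have e5 : ∫ a in (ac - 1 / R)..(ac + 1 / R),
      |(Jf i (Y₂ a) + Jf i (y₂ a)) - (Jf i (Y₂' a) + Jf i (y₂' a))| ≤
      ∫ a in (ac - 1 / R)..(ac + 1 / R),
        (|Jf i (Y₂ a) - Jf i (Y₂' a)| + |Jf i (y₂ a) - Jf i (y₂' a)|) := by
    apply intervalIntegral.integral_mono_on (by linarith)
    · have c1 := (jf_cont i).comp_continuous S.c2 (fun a => mstab_pos hr (S.b2 a).1)
      have c2 := (jf_cont i).comp_continuous S.d2 (fun a => mstab_pos hr (S.b4 a).1)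
      have c3 := (jf_cont i).comp_continuous S'.c2 (fun a => mstab_pos hr (S'.b2 a).1)
      have c4 := (jf_cont i).comp_continuous S'.d2 (fun a => mstab_pos hr (S'.b4 a).1)
      exact ((c1.add c2).sub (c3.add c4)).abs.intervalIntegrable _ _
    · exact (cA.add cB).intervalIntegrable _ _
    · intro a _
      have h6 : (Jf i (Y₂ a) + Jf i (y₂ a)) - (Jf i (Y₂' a) + Jf i (y₂' a)) =
          (Jf i (Y₂ a) - Jf i (Y₂' a)) + (Jf i (y₂ a) - Jf i (y₂' a)) := by ring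
      rw [h6]
      exact abs_add_le _ _
  rw [intervalIntegral.integral_add (cA.intervalIntegrable _ _) (cB.intervalIntegrable _ _)] at e5
  linarith

end CI
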