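import Pool.Agent.H.MP_1693ff_gtD.MKey
import Pool.Agent.H.MP_1693ff_gtD.MStab

/-!
# The key estimate
-/

namespace CI

open Real Set Filter Topology MeasureTheory
open CF hiding St

variable {E : Type*} [NormedAddCommGroup E] [InnerProductSpace ℝ E]

/-- the difference of the functions of two bodies at the second point -/
noncomputable def mkeyb_psi (i : ℝ) (K K' : Set E) (p e ω p' e' ω' : E) (d d' a : ℝ) : ℝ :=
  (Jf i (radial K (p + d • e) (a • e + ω) / d) +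
    Jf i (radial K (p + d • e) (-(a • e + ω)) / d)) -
  (Jf i (radial K' (p' + d' • e') (a • e' + ω') / d') +
    Jf i (radial K' (p' + d' • e') (-(a • e' + ω')) / d'))

theorem mkeyb_pos {x a r : ℝ} (hr : 0 < r) (h : r ≤ x * √(1 + a ^ 2)) : 0 < x := by
  by_contra hx
  have h1 : x * √(1 + a ^ 2) ≤ 0 := mul_nonpos_of_nonpos_of_nonneg (not_lt.1 hx) (Real.sqrt_nonneg _)
  linarith

theorem mkeyb_cont {i m d A B d' A' B' : ℝ} {c p e ω p' e' ω' : E} {f₁ F₂ F₂' : E → ℝ}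
    {K K' : Set E} (hm : 1 ≤ m) (h : Cl i m c f₁ F₂ K p e ω d A B)
    (h' : Cl i m c f₁ F₂' K' p' e' ω' d' A' B') :
    Continuous (mkeyb_psi i K K' p e ω p' e' ω' d d') := by
  have hr : 0 < (m ^ 2)⁻¹ := by positivity
  have s := sy_of hm h
  have s' := sy_of hm h'
  have hc : ∀ {g : ℝ → ℝ}, Continuous g → (∀ a, 0 < g a) → Continuous fun a => Jf i (g a) :=
    fun {g} hg hp => (jf_cont i).comp_continuous hg hp
  exact ((hc s.c2 fun a => mkeyb_pos hr (s.b2 a).1).add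
    (hc s.d2 fun a => mkeyb_pos hr (s.b4 a).1)).sub
    ((hc s'.c2 fun a => mkeyb_pos hr (s'.b2 a).1).add
    (hc s'.d2 fun a => mkeyb_pos hr (s'.b4 a).1))

theorem mkeyb_eq {i m d A B d' A' B' : ℝ} {c p e ω p' e' ω' : E} {f₁ F₂ F₂' : E → ℝ}
    {K K' : Set E} (hm : 1 ≤ m) (h : Cl i m c f₁ F₂ K p e ω d A B)
    (h' : Cl i m c f₁ F₂' K' p' e' ω' d' A' B') (a : ℝ) :
    mkeyb_psi i K K' p e ω p' e' ω' d d' a =
      ((d * √(1 + a ^ 2)) ^ (-i) * Tf i (F₂ (un e ω a)) - 2 * Jc i (d * √(1 + a ^ 2))) -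
        ((d' * √(1 + a ^ 2)) ^ (-i) * Tf i (F₂' (un e' ω' a)) - 2 * Jc i (d' * √(1 + a ^ 2))) := by
  obtain ⟨_, h2, h3⟩ := Cl.int hm h
  obtain ⟨_, h2', h3'⟩ := Cl.int hm h'
  unfold mkeyb_psi
  rw [psi_eq i h.body h2 h.ne h.nω h.o h3 a, psi_eq i h'.body h2' h'.ne h'.nω h'.o h3' a,
    h.ch2 _ (un_facts h.ne h.nω h.o a).2.1, h'.ch2 _ (un_facts h'.ne h'.nω h'.o a).2.1]

theorem mkeyb_ac {i m d A B : ℝ} {c p e ω : E} {f₁ F₂ : E → ℝ} {K : Set E} (hm : 1 ≤ m)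
    (h : Cl i m c f₁ F₂ K p e ω d A B) : |(inner ℝ e c : ℝ) / inner ℝ ω c| ≤ m := by
  have h1 : |(inner ℝ e c : ℝ)| ≤ 1 := by
    have := abs_real_inner_le_norm e c
    rwa [h.ne, h.cn, one_mul] at this
  have hm0 : 0 < m := by linarith
  have h2 : 0 < (inner ℝ ω c : ℝ) := lt_of_lt_of_le (inv_pos.2 hm0) h.cy
  rw [abs_div, abs_of_pos h2, div_le_iff₀ h2]
  have h3 : 1 ≤ m * (inner ℝ ω c : ℝ) := by
    have := mul_le_mul_of_nonneg_left h.cy hm0.le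
    rwa [mul_inv_cancel₀ hm0.ne'] at this
  linarith

/-- **Key estimate.**  `cmp_of`, `sy_of`, `stab` (`r = m⁻²`, `R = m²`, `|ac| ≤ m`), and for
`a ∈ [x₁, x₂]` (`|a| ≤ m + 1`) the lower bound of `psi_cmp`:
`(x₂ - x₁) (l δ - M ε) ≤ ∫ ≤ C (ε C₂^k + q^k)`, `x₂ - x₁ ≤ 2`. -/
theorem key {i m L : ℝ} (hi : -1 < i) (hm : 1 ≤ m) (hL : 0 ≤ L) :
    ∃ (C C₂ q : ℝ) (k₀ : ℕ), 0 < C ∧ 1 ≤ C₂ ∧ 0 < q ∧ q < 1 ∧
    ∀ (c p e ω p' e' ω' : E) (f₁ F₂ F₂' : E → ℝ) (K K' : Set E) (d A B d' A' B' ε : ℝ),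
      Cl i m c f₁ F₂ K p e ω d A B → Cl i m c f₁ F₂' K' p' e' ω' d' A' B' → ‖e - e'‖ ≤ ε →
      ‖ω - ω'‖ ≤ ε → |d - d'| ≤ ε → |A - A'| ≤ ε → |B - B'| ≤ ε →
      (∀ u v, ‖u‖ = 1 → ‖v‖ = 1 → |f₁ u - f₁ v| ≤ L * ‖u - v‖) →
      (∀ a, 1 / m ^ 2 ≤ |a - inner ℝ e c / inner ℝ ω c| →
        |F₂ (un e ω a) - F₂' (un e' ω' a)| ≤ ε) →
      ∀ k ≥ k₀, ∀ x₁ x₂ δ : ℝ, inner ℝ e c / inner ℝ ω c - 1 / m ^ 2 ≤ x₁ → x₁ ≤ x₂ →
      x₂ ≤ inner ℝ e c / inner ℝ ω c + 1 / m ^ 2 →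
      (∀ a ∈ Icc x₁ x₂, δ ≤ |F₂ (un e ω a) - F₂' (un e' ω' a)|) →
      (x₂ - x₁) * δ ≤ C * (ε * C₂ ^ k + q ^ k) := by
  have hm0 : 0 < m := by linarith
  have hm2 : 1 ≤ m ^ 2 := one_le_pow₀ hm
  have hm2p : 0 < m ^ 2 := by positivity
  obtain ⟨M, hM, hcmp⟩ := cmp_of (E := E) hi hm hL
  have hrR : (m ^ 2)⁻¹ ≤ m ^ 2 := (inv_le_one_of_one_le₀ hm2).trans hm2
  obtain ⟨C, C₂, q, k₀, hC, hC₂, hq0, hq1, hst⟩ :=
    stab hi (inv_pos.2 hm2p) hm2 hrR hm0.le hM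
  obtain ⟨c₀, C₀, hc₀, hcC, hbd⟩ := cl_bd (E := E) i hm
  obtain ⟨M', l, hM', hl, hpsi⟩ := psi_cmp hi hm hc₀ hcC
  refine ⟨(2 * M' + C) / l, C₂, q, k₀, by positivity, hC₂, hq0, hq1, ?_⟩
  intro c p e ω p' e' ω' f₁ F₂ F₂' K K' d A B d' A' B' ε h h' he hω hd hA hB hf hF k hk x₁ x₂ δ
    hx1 hx hx2 hδ
  have hε : 0 ≤ ε := (norm_nonneg _).trans he
  set ac : ℝ := (inner ℝ e c : ℝ) / inner ℝ ω c with hac
  have hac1 : |ac| ≤ m := mkeyb_ac hm h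
  have hcm := hcmp c p e ω p' e' ω' f₁ F₂ F₂' K K' d A B d' A' B' ε h h' he hω hd hA hB hf hF
  have hS := hst _ _ _ _ _ _ _ _ (sy_of hm h) (sy_of hm h') ac ε hac1 hε hcm k hk
  have hS' : ∫ a in (ac - 1 / m ^ 2)..(ac + 1 / m ^ 2),
      |mkeyb_psi i K K' p e ω p' e' ω' d d' a| ≤ C * (ε * C₂ ^ k + q ^ k) := hS
  have hcont : Continuous fun a => |mkeyb_psi i K K' p e ω p' e' ω' d d' a| :=
    (mkeyb_cont hm h h').abs
  have hinv : 1 / m ^ 2 ≤ 1 := by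
    rw [div_le_one hm2p]
    exact hm2
  have hlow : ∀ a ∈ Icc x₁ x₂, l * δ - M' * ε ≤ |mkeyb_psi i K K' p e ω p' e' ω' d d' a| := by
    intro a ha
    have ha1 : |a| ≤ m + 1 := by
      have h1 := abs_le.1 hac1
      rw [abs_le]
      constructor
      · linarith [ha.1]
      · linarith [ha.2]
    have hu := (un_facts h.ne h.nω h.o a).2.1
    have hu' := (un_facts h'.ne h'.nω h'.o a).2.1
    have h2 := (hpsi d ⟨h.d0, h.d1⟩ d' ⟨h'.d0, h'.d1⟩ _ (hbd c p e ω f₁ F₂ K d A B h _ hu).2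
      _ (hbd c p' e' ω' f₁ F₂' K' d' A' B' h' _ hu').2 a).2 ha1
    rw [mkeyb_eq hm h h' a]
    have h3 : l * δ ≤ l * |F₂ (un e ω a) - F₂' (un e' ω' a)| :=
      mul_le_mul_of_nonneg_left (hδ a ha) hl.le
    have h4 : M' * |d - d'| ≤ M' * ε := mul_le_mul_of_nonneg_left hd hM'.le
    linarith
  have h1 : (x₂ - x₁) * (l * δ - M' * ε) ≤
      ∫ a in x₁..x₂, |mkeyb_psi i K K' p e ω p' e' ω' d d' a| := by
    have h2 := intervalIntegral.integral_mono_on (μ := volume) hx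
      (continuous_const.intervalIntegrable x₁ x₂ : IntervalIntegrable
        (fun _ : ℝ => l * δ - M' * ε) volume x₁ x₂)
      (hcont.intervalIntegrable x₁ x₂) hlow
    rw [intervalIntegral.integral_const, smul_eq_mul] at h2
    exact h2
  have h2 : ∫ a in x₁..x₂, |mkeyb_psi i K K' p e ω p' e' ω' d d' a| ≤
      ∫ a in (ac - 1 / m ^ 2)..(ac + 1 / m ^ 2),
        |mkeyb_psi i K K' p e ω p' e' ω' d d' a| := by
    refine intervalIntegral.integral_mono_interval hx1 hx hx2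
      (Filter.Eventually.of_forall fun a => abs_nonneg _) ?_
    exact hcont.intervalIntegrable _ _
  have h3 := (h1.trans h2).trans hS'
  have hk1 : 1 ≤ C₂ ^ k := one_le_pow₀ hC₂
  have hqk : 0 ≤ q ^ k := pow_nonneg hq0.le k
  have h4 : (x₂ - x₁) * (M' * ε) ≤ 2 * (M' * ε) :=
    mul_le_mul_of_nonneg_right (by linarith) (by positivity)
  have h5 : ε ≤ ε * C₂ ^ k := le_mul_of_one_le_right hε hk1
  have h6 : 2 * (M' * ε) ≤ 2 * M' * (ε * C₂ ^ k + q ^ k) := by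
    have : M' * ε ≤ M' * (ε * C₂ ^ k + q ^ k) :=
      mul_le_mul_of_nonneg_left (by linarith) hM'.le
    linarith
  rw [div_mul_eq_mul_div, le_div_iff₀ hl]
  nlinarith

end CI
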