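import Pool.Agent.H.MP_1693ff_gtD.MDefs

/-!
# Smooth functions on the sphere are Lipschitz; the product space
-/

namespace CI

open Real Set Filter Topology MeasureTheory
open CF hiding St

/-- A `C²` function on the sphere is Lipschitz: bounded derivative on `1/2 ≤ ‖x‖ ≤ 1`
(compactness), mean value theorem along the segment if `‖u - v‖ ≤ 1` (it stays in
`1/2 ≤ ‖x‖ ≤ 1`); bounded for `‖u - v‖ ≥ 1`. -/
theorem evc_lip {E : Type*} [NormedAddCommGroup E] [InnerProductSpace ℝ E]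
    [FiniteDimensional ℝ E] {f : E → ℝ} (h : EvC 2 f) : ∃ L : ℝ, 0 ≤ L ∧
      ∀ u v, ‖u‖ = 1 → ‖v‖ = 1 → |f u - f v| ≤ L * ‖u - v‖ := by
  have h1 : LocallyLipschitzOn (Metric.sphere (0 : E) 1) f := by
    intro x hx
    have hx0 : x ≠ 0 := by
      intro h0
      rw [h0, mem_sphere_zero_iff_norm, norm_zero] at hx
      exact zero_ne_one hx
    have h2 : ContDiffAt ℝ 1 f x :=
      ((h.c.contDiffAt (isOpen_compl_singleton.mem_nhds hx0)).of_le (by norm_num))
    obtain ⟨K, t, ht, hK⟩ := h2.exists_lipschitzOnWith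
    exact ⟨K, t, mem_nhdsWithin_of_mem_nhds ht, hK⟩
  obtain ⟨K, hK⟩ := h1.exists_lipschitzOnWith_of_compact (isCompact_sphere 0 1)
  refine ⟨K, K.2, fun u v hu hv => ?_⟩
  have h2 := hK.dist_le_mul u (mem_sphere_zero_iff_norm.2 hu) v (mem_sphere_zero_iff_norm.2 hv)
  rwa [Real.dist_eq, dist_eq_norm] at h2

/-- A neighbourhood in the product: finitely many coordinates matter.  If `t⁰` is in the open set
`U` then there is `S₀` such that all `t` which agree with `t⁰` at all `(b, s)`, `s < S₀`, are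
in `U`. -/
theorem open_box {U : Set (Bool × ℕ → Icc (0 : ℝ) 1)} (hU : IsOpen U)
    {t : Bool × ℕ → Icc (0 : ℝ) 1} (ht : t ∈ U) : ∃ S₀ : ℕ, ∀ t' : Bool × ℕ → Icc (0 : ℝ) 1,
      (∀ b, ∀ s < S₀, t' (b, s) = t (b, s)) → t' ∈ U := by
  obtain ⟨I, u, hu, hsub⟩ := isOpen_pi_iff.1 hU t ht
  refine ⟨I.sup (fun p => p.2 + 1), fun t' h => hsub fun p hp => ?_⟩
  have h1 : p.2 < I.sup fun p => p.2 + 1 :=
    (Nat.lt_succ_self p.2).trans_le (Finset.le_sup (f := fun p : Bool × ℕ => p.2 + 1) hp)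
  have h2 : t' p = t p := h p.1 p.2 h1
  rw [h2]
  exact (hu p hp).2

/-- Points of the closure are approximated in the first `S` coordinates. -/
theorem closure_near {T : Set (Bool × ℕ → Icc (0 : ℝ) 1)} {t : Bool × ℕ → Icc (0 : ℝ) 1}
    (ht : t ∈ closure T) {η : ℝ} (hη : 0 < η) (S : ℕ) : ∃ t' ∈ T,
      ∀ b, ∀ s < S, |(t (b, s) : ℝ) - t' (b, s)| ≤ η := by
  have h1 : ∀ᶠ t' in 𝓝 t, ∀ b, ∀ s ∈ Finset.range S, |(t (b, s) : ℝ) - t' (b, s)| ≤ η := by
    refine eventually_all.2 fun b => (Filter.eventually_all_finset _).2 fun s _ => ?_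
    have h2 : Continuous fun t' : Bool × ℕ → Icc (0 : ℝ) 1 => |(t (b, s) : ℝ) - t' (b, s)| :=
      (continuous_const.sub (continuous_subtype_val.comp (continuous_apply (b, s)))).abs
    have h3 : (fun t' : Bool × ℕ → Icc (0 : ℝ) 1 => |(t (b, s) : ℝ) - t' (b, s)|) t < η := by
      simpa using hη
    filter_upwards [h2.continuousAt.eventually (gt_mem_nhds h3)] with t' ht'
    exact le_of_lt ht'
  obtain ⟨t', h2, h3⟩ := ((mem_closure_iff_frequently.1 ht).and_eventually h1).exists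
  exact ⟨t', h2, fun b s hs => h3 b s (Finset.mem_range.2 hs)⟩

end CI
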