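import Pool.Agent.H.MP_1693ff_gtD.MNow
import Pool.Agent.H.MP_1693ff_gtD.MEst
import Pool.Agent.H.MP_1693ff_gtD.MCount

/-!
# The parameters of realised pairs are nowhere dense
-/

namespace CI

open Real Set Filter Topology MeasureTheory
open CF hiding St

/-- A coordinate is bounded by the norm. -/
theorem mnowb_coord {n : ℕ} (x : EuclideanSpace ℝ (Fin n)) (l : Fin n) : |x l| ≤ ‖x‖ := by
  have h := PiLp.norm_apply_le x l
  rwa [Real.norm_eq_abs] at h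

/-- The norm is bounded by `n` times the maximal coordinate. -/
theorem mnowb_norm {n : ℕ} (x : EuclideanSpace ℝ (Fin n)) {a : ℝ} (ha : 0 ≤ a)
    (h : ∀ l, |x l| ≤ 1 / ((n : ℝ) + 1) * a) : ‖x‖ ≤ a := by
  have hn : (0 : ℝ) < (n : ℝ) + 1 := by positivity
  rw [EuclideanSpace.norm_eq]
  have h1 : ∑ l, ‖x l‖ ^ 2 ≤ ∑ _l : Fin n, (1 / ((n : ℝ) + 1) * a) ^ 2 := by
    refine Finset.sum_le_sum fun l _ => ?_
    rw [Real.norm_eq_abs]
    exact pow_le_pow_left₀ (abs_nonneg _) (h l) 2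
  have h2 : ∑ _l : Fin n, (1 / ((n : ℝ) + 1) * a) ^ 2 ≤ a ^ 2 := by
    rw [Finset.sum_const, Finset.card_univ, Fintype.card_fin, nsmul_eq_mul]
    have h3 : (n : ℝ) * (1 / ((n : ℝ) + 1) * a) ^ 2 = (n : ℝ) / ((n : ℝ) + 1) ^ 2 * a ^ 2 := by
      field_simp
    rw [h3]
    have h4 : (n : ℝ) / ((n : ℝ) + 1) ^ 2 ≤ 1 := by
      rw [div_le_one (by positivity)]
      nlinarith [Nat.cast_nonneg (α := ℝ) n]
    calc (n : ℝ) / ((n : ℝ) + 1) ^ 2 * a ^ 2 ≤ 1 * a ^ 2 :=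
          mul_le_mul_of_nonneg_right h4 (sq_nonneg a)
      _ = a ^ 2 := one_mul _
  calc √(∑ l, ‖x l‖ ^ 2) ≤ √(a ^ 2) := Real.sqrt_le_sqrt (h1.trans h2)
    _ = a := Real.sqrt_sq ha

/-- For every `τ` in the cube there is a realised pair close to the one with parameters
`blk b s₀ j t⁰ τ`. -/
theorem mnowb_ex {n : ℕ} {i m : ℝ}
    {f₁ f₂ : EuclideanSpace ℝ (Fin n) → ℝ} {δ : ℝ} (hδ : 0 < δ)
    (N : ℕ) {c : Bool → EuclideanSpace ℝ (Fin n)} (b : Bool)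
    {t₀ : Bool × ℕ → Icc (0 : ℝ) 1} {S₀ s₀ j : ℕ} (hs : S₀ ≤ s₀)
    (hS : ∀ t' : Bool × ℕ → Icc (0 : ℝ) 1, (∀ b, ∀ s < S₀, t' (b, s) = t₀ (b, s)) →
      t' ∈ interior (closure {t : Bool × ℕ → Icc (0 : ℝ) 1 |
      ∃ (K : Set (EuclideanSpace ℝ (Fin n))) (p e ω : EuclideanSpace ℝ (Fin n)) (d A B : ℝ),
        Cl i m (c b) f₁ (fun u => f₂ u + fam δ N c (fun x => (t x : ℝ)) u) K p e ω d A B}))
    {ζ : ℝ} (hζ : 0 < ζ) (τ : Fin j → ℝ) (hτ : ∀ x, τ x ∈ Icc (0 : ℝ) 1) :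
    ∃ (φ : EuclideanSpace ℝ (Fin n) → ℝ) (K : Set (EuclideanSpace ℝ (Fin n)))
      (p e ω : EuclideanSpace ℝ (Fin n)) (d A B : ℝ),
      Cl i m (c b) f₁ (fun u => f₂ u + φ u) K p e ω d A B ∧
      ∀ u, ‖u‖ = 1 → |φ u - fam δ N c (blk b s₀ j (fun x => (t₀ x : ℝ)) τ) u| ≤ ζ := by
  have hmem : ∀ x, blk b s₀ j (fun x => (t₀ x : ℝ)) τ x ∈ Icc (0 : ℝ) 1 :=
    blk_mem (fun x => (t₀ x).2) hτ
  set t' : Bool × ℕ → Icc (0 : ℝ) 1 := fun x => ⟨blk b s₀ j (fun x => (t₀ x : ℝ)) τ x, hmem x⟩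
    with ht'
  have h1 : ∀ b', ∀ s < S₀, t' (b', s) = t₀ (b', s) := by
    intro b' s hs'
    apply Subtype.ext
    change blk b s₀ j (fun x => (t₀ x : ℝ)) τ (b', s) = (t₀ (b', s) : ℝ)
    unfold blk
    rw [dif_neg]
    rintro ⟨_, h2, _⟩
    simp only at h2
    omega
  have h2 := interior_subset (hS t' h1)
  have hη : 0 < ζ / (4 * δ) := by positivity
  obtain ⟨S, hS'⟩ := exists_pow_lt_of_lt_one hη (by norm_num : (1 / 2 : ℝ) < 1)
  obtain ⟨t'', ht'', h3⟩ := closure_near h2 hη S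
  obtain ⟨K, p, e, ω, d, A, B, hCl⟩ := ht''
  refine ⟨fam δ N c (fun x => (t'' x : ℝ)), K, p, e, ω, d, A, B, hCl, ?_⟩
  intro u _
  have h4 := fam_near (E := EuclideanSpace ℝ (Fin n)) hδ.le hη.le N S c
    (t := blk b s₀ j (fun x => (t₀ x : ℝ)) τ) (t' := fun x => (t'' x : ℝ)) hmem
    (fun x => (t'' x).2) (fun b' s hs' => h3 b' s hs') u
  rw [abs_sub_comm]
  refine h4.trans ?_
  have h5 : 2 * δ * (ζ / (4 * δ) + (1 / 2) ^ S) ≤ 2 * δ * (ζ / (4 * δ) + ζ / (4 * δ)) := by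
    apply mul_le_mul_of_nonneg_left _ (by positivity)
    linarith
  refine h5.trans (le_of_eq ?_)
  field_simp
  ring

/-- **Nowhere dense.**  Suppose `t⁰` is an interior point of the closure, `S₀` from `open_box`.
`L` from `evc_lip`, `C₂, q, σ₀, k₀` from `block_est`.  Choose `j` with
`q^j (C₂/q)^{2n+3} < 1` and `s₀ ≥ S₀` with `2 ≤ 2^{s₀+N} σ₀`.  For `τ ∈ [0,1]^j` the point
`blk b s₀ j t⁰ τ` is in the closure.  For `k ≥ k₀` choose by `closure_near` (with small `η` and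
large `S`, `2δ(η + 2^{-S}) ≤ (q/C₂)^k`, `fam_near`) a point of the set near it and let
`v τ = (e, ω, d, A, B)` be the data of its realisation (`ι = Fin n ⊕ Fin n ⊕ Fin 3`, coordinates
bounded by `m`).  If all coordinates of `v τ - v τ'` are `≤ (q/C₂)^k/(n+1)` then
`‖e - e'‖ ≤ (q/C₂)^k` etc., and `block_est` gives `|τ x - τ' x| ≤ C' q^k`.  Contradiction to
`count`. -/
theorem nowhere {n : ℕ} {i m : ℝ} (hi : -1 < i) (hm : 1 ≤ m)
    {f₁ f₂ : EuclideanSpace ℝ (Fin n) → ℝ} (h1 : EvC 2 f₁) (h2 : EvC 2 f₂) {δ : ℝ} (hδ : 0 < δ)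
    (N : ℕ) {c : Bool → EuclideanSpace ℝ (Fin n)} (cn : ∀ b, ‖c b‖ = 1) (b : Bool) :
    interior (closure {t : Bool × ℕ → Icc (0 : ℝ) 1 |
      ∃ (K : Set (EuclideanSpace ℝ (Fin n))) (p e ω : EuclideanSpace ℝ (Fin n)) (d A B : ℝ),
        Cl i m (c b) f₁ (fun u => f₂ u + fam δ N c (fun x => (t x : ℝ)) u) K p e ω d A B}) =
      ∅ := by
  classical
  by_contra hne
  obtain ⟨t₀, ht₀⟩ := Set.nonempty_iff_ne_empty.mpr hne
  obtain ⟨S₀, hS₀⟩ := open_box isOpen_interior ht₀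
  obtain ⟨L₁, hL₁, hf₁⟩ := evc_lip h1
  obtain ⟨L₂, hL₂, hf₂⟩ := evc_lip h2
  have hL : 0 ≤ max L₁ L₂ := le_max_of_le_left hL₁
  have hf₁' : ∀ u v : EuclideanSpace ℝ (Fin n), ‖u‖ = 1 → ‖v‖ = 1 →
      |f₁ u - f₁ v| ≤ max L₁ L₂ * ‖u - v‖ := fun u v hu hv =>
    (hf₁ u v hu hv).trans (mul_le_mul_of_nonneg_right (le_max_left _ _) (norm_nonneg _))
  have hf₂' : ∀ u v : EuclideanSpace ℝ (Fin n), ‖u‖ = 1 → ‖v‖ = 1 →
      |f₂ u - f₂ v| ≤ max L₁ L₂ * ‖u - v‖ := fun u v hu hv =>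
    (hf₂ u v hu hv).trans (mul_le_mul_of_nonneg_right (le_max_right _ _) (norm_nonneg _))
  obtain ⟨C₂, q, σ₀, k₀, hC₂, hq0, hq1, hσ₀, hblk⟩ :=
    block_est (E := EuclideanSpace ℝ (Fin n)) hi hm hL
  -- the number of parameters
  have hr : 0 < C₂ / q := by positivity
  obtain ⟨j, hj⟩ : ∃ j : ℕ, q ^ j * (C₂ / q) ^ (Fintype.card (Fin n ⊕ Fin n ⊕ Fin 3)) < 1 := by
    have hR : 0 < (C₂ / q) ^ (Fintype.card (Fin n ⊕ Fin n ⊕ Fin 3)) := by positivity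
    obtain ⟨j, hj⟩ := exists_pow_lt_of_lt_one (inv_pos.mpr hR) hq1
    refine ⟨j, ?_⟩
    calc q ^ j * (C₂ / q) ^ (Fintype.card (Fin n ⊕ Fin n ⊕ Fin 3))
        < ((C₂ / q) ^ (Fintype.card (Fin n ⊕ Fin n ⊕ Fin 3)))⁻¹ *
          (C₂ / q) ^ (Fintype.card (Fin n ⊕ Fin n ⊕ Fin 3)) := mul_lt_mul_of_pos_right hj hR
      _ = 1 := inv_mul_cancel₀ hR.ne'
  -- the position of the block
  obtain ⟨s₀, hs₀, hs₀'⟩ : ∃ s₀ : ℕ, S₀ ≤ s₀ ∧ 2 ≤ 2 ^ (s₀ + N) * σ₀ := by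
    obtain ⟨s₁, hs₁⟩ := pow_unbounded_of_one_lt (2 / σ₀) (by norm_num : (1 : ℝ) < 2)
    refine ⟨max S₀ s₁, le_max_left _ _, ?_⟩
    have h3 : (2 : ℝ) ^ s₁ ≤ 2 ^ (max S₀ s₁ + N) :=
      pow_le_pow_right₀ (by norm_num) ((le_max_right _ _).trans (Nat.le_add_right _ _))
    have h4 : 2 / σ₀ ≤ 2 ^ (max S₀ s₁ + N) := hs₁.le.trans h3
    rwa [div_le_iff₀ hσ₀] at h4
  obtain ⟨C', hC', hest⟩ := hblk δ N b s₀ j hδ hs₀'
  have hn : (0 : ℝ) < (n : ℝ) + 1 := by positivity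
  have hc1 : (0 : ℝ) < 1 / ((n : ℝ) + 1) := by positivity
  have hc2 : 1 / ((n : ℝ) + 1) ≤ 1 := by
    rw [div_le_one hn]
    linarith [Nat.cast_nonneg (α := ℝ) n]
  refine count (ι := Fin n ⊕ Fin n ⊕ Fin 3) (j := j) (m := m) (c := 1 / ((n : ℝ) + 1)) (C := C')
    hq0 hq1 hC₂ hC' hc1 (by linarith) hj k₀ ?_
  intro k hk
  set ζ : ℝ := (q / C₂) ^ k with hζdef
  have hζ : 0 < ζ := by positivity
  have hex : ∀ τ : Fin j → ℝ, ∃ (φ : EuclideanSpace ℝ (Fin n) → ℝ)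
      (K : Set (EuclideanSpace ℝ (Fin n)))
      (p e ω : EuclideanSpace ℝ (Fin n)) (d A B : ℝ), (∀ x, τ x ∈ Icc (0 : ℝ) 1) →
      Cl i m (c b) f₁ (fun u => f₂ u + φ u) K p e ω d A B ∧
      ∀ u, ‖u‖ = 1 → |φ u - fam δ N c (blk b s₀ j (fun x => (t₀ x : ℝ)) τ) u| ≤ ζ := by
    intro τ
    by_cases hτ : ∀ x, τ x ∈ Icc (0 : ℝ) 1
    · obtain ⟨φ, K, p, e, ω, d, A, B, h3, h4⟩ := mnowb_ex hδ N b hs₀ hS₀ hζ τ hτ
      exact ⟨φ, K, p, e, ω, d, A, B, fun _ => ⟨h3, h4⟩⟩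
    · exact ⟨0, ∅, 0, 0, 0, 0, 0, 0, fun h => absurd h hτ⟩
  choose φ K p e ω d A B hCl using hex
  refine ⟨fun τ => if (∀ x, τ x ∈ Icc (0 : ℝ) 1) then
    Sum.elim (fun l => e τ l) (Sum.elim (fun l => ω τ l) ![d τ, A τ, B τ]) else 0, ?_, ?_⟩
  · intro τ l
    by_cases hτ : ∀ x, τ x ∈ Icc (0 : ℝ) 1
    · simp only [if_pos hτ]
      have hc := (hCl τ hτ).1
      rcases l with l | l | l
      · simp only [Sum.elim_inl]
        have h3 := mnowb_coord (e τ) l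
        rw [hc.ne] at h3
        linarith
      · simp only [Sum.elim_inr, Sum.elim_inl]
        have h3 := mnowb_coord (ω τ) l
        rw [hc.nω] at h3
        linarith
      · simp only [Sum.elim_inr]
        fin_cases l
        · simp only [Fin.zero_eta, Fin.isValue, Matrix.cons_val_zero]
          have hd0 := hc.d0
          have hd1 := hc.d1
          have hminv : 0 < m⁻¹ := inv_pos.mpr (by linarith)
          rw [abs_of_pos (by linarith)]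
          exact hd1
        · simpa using hc.A1
        · simpa using hc.B1
    · simp only [if_neg hτ, Pi.zero_apply, abs_zero]
      linarith
  · intro τ τ' hτ hτ' hl
    simp only [if_pos hτ, if_pos hτ'] at hl
    have hle : 1 / ((n : ℝ) + 1) * ζ ≤ ζ := by
      calc 1 / ((n : ℝ) + 1) * ζ ≤ 1 * ζ := mul_le_mul_of_nonneg_right hc2 hζ.le
        _ = ζ := one_mul _
    refine hest c f₁ f₂ (φ τ) (φ τ') (fun x => (t₀ x : ℝ)) τ τ' (K τ) (K τ') (p τ) (e τ) (ω τ)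
      (p τ') (e τ') (ω τ') (d τ) (A τ) (B τ) (d τ') (A τ') (B τ') k hk cn (fun x => (t₀ x).2)
      hτ hτ' hf₁' hf₂' (hCl τ hτ).2 (hCl τ' hτ').2 (hCl τ hτ).1 (hCl τ' hτ').1 ?_ ?_ ?_ ?_ ?_
    · refine mnowb_norm _ hζ.le fun l => ?_
      have h3 := hl (Sum.inl l)
      simpa using h3
    · refine mnowb_norm _ hζ.le fun l => ?_
      have h3 := hl (Sum.inr (Sum.inl l))
      simpa using h3
    · have h3 := hl (Sum.inr (Sum.inr 0))
      simp only [Sum.elim_inr, Fin.isValue, Matrix.cons_val_zero] at h3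
      exact h3.trans hle
    · have h3 := hl (Sum.inr (Sum.inr 1))
      simp only [Sum.elim_inr, Fin.isValue, Matrix.cons_val_one, Matrix.cons_val_zero] at h3
      exact h3.trans hle
    · have h3 := hl (Sum.inr (Sum.inr 2))
      simp only [Sum.elim_inr, Fin.isValue, Matrix.cons_val] at h3
      exact h3.trans hle

end CI
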