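import Pool.Agent.H.MP_1693ff_gtD.MQDefs

/-!
# The case `i = -1`, `n ≥ 3`: the quadratic perturbations
-/

namespace CI

open Real Set Filter Topology MeasureTheory Asymptotics
open CF hiding St

variable {n : ℕ}

theorem smat_symm (s : Sym2 (Fin n) → ℝ) (x y : EuclideanSpace ℝ (Fin n)) :
    smat s x y = smat s y x := by
  unfold smat
  rw [Finset.sum_comm]
  refine Finset.sum_congr rfl fun i _ => Finset.sum_congr rfl fun j _ => ?_
  rw [Sym2.eq_swap]
  ring

/-- `smat s` is smooth. -/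
theorem MQB_smooth (s : Sym2 (Fin n) → ℝ) :
    ContDiff ℝ (⊤ : ℕ∞) (fun u : EuclideanSpace ℝ (Fin n) => smat s u u) := by
  unfold smat
  have h : ∀ i : Fin n, ContDiff ℝ (⊤ : ℕ∞) (fun u : EuclideanSpace ℝ (Fin n) => u i) := fun i =>
    (EuclideanSpace.proj (𝕜 := ℝ) i).contDiff
  exact ContDiff.sum fun i _ => ContDiff.sum fun j _ => (contDiff_const.mul (h i)).mul (h j)

theorem gq_ev (s : Sym2 (Fin n) → ℝ) : EvC (⊤ : ℕ∞) (gq s) := by
  refine ⟨fun t ht u => ?_, ?_⟩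
  · have h1 : smat s (t • u) (t • u) = t ^ 2 * smat s u u := by
      unfold smat
      simp only [Finset.mul_sum]
      refine Finset.sum_congr rfl fun i _ => Finset.sum_congr rfl fun j _ => ?_
      simp only [PiLp.smul_apply, smul_eq_mul]
      ring
    unfold gq
    rw [h1, norm_smul, mul_pow, Real.norm_eq_abs, sq_abs, mul_div_mul_left _ _ (pow_ne_zero 2 ht)]
  · unfold gq
    refine (MQB_smooth s).contDiffOn.div (contDiff_norm_sq ℝ).contDiffOn fun u hu => ?_
    exact pow_ne_zero 2 (norm_ne_zero_iff.2 hu)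

/-- `gq` is linear in `s`. -/
theorem MQB_lin (s : Sym2 (Fin n) → ℝ) :
    gq s = fun u => ∑ p, s p • gq (Pi.single p (1 : ℝ)) u := by
  funext u
  have h1 : ∀ q, s q = ∑ p, s p * (Pi.single p (1 : ℝ) : Sym2 (Fin n) → ℝ) q := by
    intro q
    simp [Pi.single_apply]
  unfold gq smat
  simp only [smul_eq_mul, Finset.sum_div, Finset.mul_sum]
  symm
  rw [Finset.sum_comm]
  refine Finset.sum_congr rfl fun i _ => ?_
  rw [Finset.sum_comm]
  refine Finset.sum_congr rfl fun j _ => ?_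
  rw [h1 s(i, j), Finset.sum_mul, Finset.sum_mul, Finset.sum_div]
  refine Finset.sum_congr rfl fun p _ => ?_
  ring

/-- `gq s` is linear in `s`: `gq s = ∑ s_p g_p`, finitely many smooth functions with bounded
derivatives on the (compact) unit sphere. -/
theorem gq_small (k : ℕ) {ε : ℝ} (hε : 0 < ε) : ∃ η > 0, ∀ s : Sym2 (Fin n) → ℝ,
    (∀ p, |s p| ≤ η) → ∀ j ≤ k, ∀ u : EuclideanSpace ℝ (Fin n), ‖u‖ = 1 →
      ‖iteratedFDeriv ℝ j (gq s) u‖ ≤ ε := by
  have hcd : ∀ (s : Sym2 (Fin n) → ℝ) (j : ℕ) {u : EuclideanSpace ℝ (Fin n)}, u ≠ 0 →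
      ContDiffAt ℝ j (gq s) u := by
    intro s j u hu
    have h1 : ContDiffAt ℝ (⊤ : ℕ∞) (gq s) u :=
      (gq_ev s).c.contDiffAt (isOpen_compl_singleton.mem_nhds hu)
    refine h1.of_le ?_
    exact WithTop.coe_le_coe.2 le_top
  have hne : ∀ {u : EuclideanSpace ℝ (Fin n)}, ‖u‖ = 1 → u ≠ 0 := by
    rintro u hu rfl
    rw [norm_zero] at hu
    exact zero_ne_one hu
  have hC : ∀ (p : Sym2 (Fin n)) (j : ℕ), ∃ C : ℝ, ∀ u ∈ Metric.sphere (0 : EuclideanSpace ℝ (Fin n)) 1,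
      ‖iteratedFDeriv ℝ j (gq (Pi.single p (1 : ℝ))) u‖ ≤ C := by
    intro p j
    refine (isCompact_sphere (0 : EuclideanSpace ℝ (Fin n)) 1).exists_bound_of_continuousOn ?_
    intro u hu
    have hu' : u ≠ 0 := hne (by rwa [mem_sphere_zero_iff_norm] at hu)
    exact ((hcd _ j hu').continuousAt_iteratedFDeriv le_rfl).continuousWithinAt
  choose C hC using hC
  obtain ⟨S, hS⟩ : ∃ S : ℝ, S = ∑ p, ∑ j ∈ Finset.range (k + 1), |C p j| := ⟨_, rfl⟩
  have hS0 : 0 ≤ S := by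
    rw [hS]
    exact Finset.sum_nonneg fun p _ => Finset.sum_nonneg fun j _ => abs_nonneg _
  refine ⟨ε / (S + 1), div_pos hε (by linarith), fun s hs j hj u hu => ?_⟩
  have hu0 := hne hu
  rw [MQB_lin s, iteratedFDeriv_fun_sum_apply fun p _ => (hcd _ j hu0).const_smul _]
  have h1 : ∀ p, iteratedFDeriv ℝ j (fun u => s p • gq (Pi.single p (1 : ℝ)) u) u =
      s p • iteratedFDeriv ℝ j (gq (Pi.single p (1 : ℝ))) u := fun p =>
    iteratedFDeriv_const_smul_apply' (hcd _ j hu0)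
  have h2 : ∑ p, |C p j| ≤ S := by
    rw [hS]
    refine Finset.sum_le_sum fun p _ => ?_
    exact Finset.single_le_sum (f := fun j => |C p j|) (fun j _ => abs_nonneg _)
      (Finset.mem_range.2 (by omega))
  have h3 : ∀ p, ‖iteratedFDeriv ℝ j (fun u => s p • gq (Pi.single p (1 : ℝ)) u) u‖ ≤
      ε / (S + 1) * |C p j| := by
    intro p
    rw [h1 p, norm_smul]
    refine mul_le_mul (hs p) ?_ (norm_nonneg _) (by positivity)
    exact (hC p j u (mem_sphere_zero_iff_norm.2 hu)).trans (le_abs_self _)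
  refine (norm_sum_le_of_le _ fun p _ => h3 p).trans ?_
  rw [← Finset.mul_sum, div_mul_eq_mul_div, div_le_iff₀ (by linarith)]
  exact mul_le_mul_of_nonneg_left (by linarith) hε.le

end CI
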