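import Pool.Agent.H.MP_1693ff_gtD.MQDefs

/-!
# The case `i = -1`, `n ≥ 3`: regularity of the parametrisation
-/

namespace CI

open Real Set Filter Topology MeasureTheory Asymptotics
open CF hiding St

theorem mqc_cht_c {m : ℕ} (j : Fin (m + 1)) :
    ContDiff ℝ 1 (fun z : (Fin m → ℝ) × EuclideanSpace ℝ (Fin (m + 1)) => cht j z.1) := by
  rw [contDiff_euclidean]
  intro i
  rcases Fin.eq_self_or_eq_succAbove j i with h | ⟨k, h⟩
  · subst h
    have e : (fun z : (Fin m → ℝ) × EuclideanSpace ℝ (Fin (m + 1)) => cht i z.1 i) =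
        fun _ => (1 : ℝ) := by
      funext z
      show (i.insertNth (1 : ℝ) z.1 : Fin (m + 1) → ℝ) i = 1
      exact Fin.insertNth_apply_same (α := fun _ => ℝ) i (1 : ℝ) z.1
    rw [e]
    exact contDiff_const
  · subst h
    have e : (fun z : (Fin m → ℝ) × EuclideanSpace ℝ (Fin (m + 1)) => cht j z.1 (j.succAbove k)) =
        fun z => z.1 k := by
      funext z
      show (j.insertNth (1 : ℝ) z.1 : Fin (m + 1) → ℝ) (j.succAbove k) = z.1 k
      exact Fin.insertNth_apply_succAbove (α := fun _ => ℝ) j (1 : ℝ) z.1 k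
    rw [e]
    exact (contDiff_apply ℝ ℝ k).comp contDiff_fst

theorem mqc_cht_ne {m : ℕ} (j : Fin (m + 1)) (x : Fin m → ℝ) : cht j x ≠ 0 := by
  intro h
  have h1 : cht j x j = 0 := by rw [h]; rfl
  have h2 : cht j x j = 1 := by
    show (j.insertNth (1 : ℝ) x : Fin (m + 1) → ℝ) j = 1
    exact Fin.insertNth_apply_same (α := fun _ => ℝ) j (1 : ℝ) x
  rw [h2] at h1
  exact one_ne_zero h1

theorem mqc_v_c {m : ℕ} (j : Fin (m + 1)) :
    ContDiff ℝ 1 (fun z : (Fin m → ℝ) × EuclideanSpace ℝ (Fin (m + 1)) =>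
      ‖cht j z.1‖⁻¹ • cht j z.1) := by
  have h1 := mqc_cht_c j
  have h2 : ContDiff ℝ 1 (fun z : (Fin m → ℝ) × EuclideanSpace ℝ (Fin (m + 1)) => ‖cht j z.1‖) :=
    h1.norm ℝ fun z => mqc_cht_ne j z.1
  exact (h2.inv fun z => norm_ne_zero_iff.2 (mqc_cht_ne j z.1)).smul h1

theorem mqc_v_ne {m : ℕ} (j : Fin (m + 1)) (x : Fin m → ℝ) : ‖cht j x‖⁻¹ • cht j x ≠ 0 :=
  smul_ne_zero (inv_ne_zero (norm_ne_zero_iff.2 (mqc_cht_ne j x))) (mqc_cht_ne j x)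

theorem mqc_xm {m : ℕ} {h : EuclideanSpace ℝ (Fin (m + 1)) → ℝ} (hh : EvC 3 h)
    (j : Fin (m + 1)) (x y : EuclideanSpace ℝ (Fin (m + 1))) :
    ContDiff ℝ 1 (fun z : (Fin m → ℝ) × EuclideanSpace ℝ (Fin (m + 1)) =>
      xm h (cht j z.1) z.2 x y) := by
  have hv := mqc_v_c j
  have hb : ContDiff ℝ 1 (fun z : (Fin m → ℝ) × EuclideanSpace ℝ (Fin (m + 1)) => z.2) :=
    contDiff_snd
  have hne := mqc_v_ne j
  have h3 : ∀ u : EuclideanSpace ℝ (Fin (m + 1)), u ≠ 0 → ContDiffAt ℝ 3 h u := fun u hu =>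
    hh.c.contDiffAt (isOpen_compl_singleton.mem_nhds hu)
  have hhv : ContDiff ℝ 1 (fun z : (Fin m → ℝ) × EuclideanSpace ℝ (Fin (m + 1)) =>
      h (‖cht j z.1‖⁻¹ • cht j z.1)) := by
    rw [contDiff_iff_contDiffAt]
    intro z
    exact ((h3 _ (hne z.1)).of_le (by norm_num)).comp z hv.contDiffAt
  have hd : ContDiff ℝ 1 (fun z : (Fin m → ℝ) × EuclideanSpace ℝ (Fin (m + 1)) =>
      fderiv ℝ (fderiv ℝ h) (‖cht j z.1‖⁻¹ • cht j z.1)) := by
    rw [contDiff_iff_contDiffAt]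
    intro z
    have h4 : ContDiffAt ℝ 2 (fderiv ℝ h) (‖cht j z.1‖⁻¹ • cht j z.1) :=
      (h3 _ (hne z.1)).fderiv_right (by norm_num)
    have h5 : ContDiffAt ℝ 1 (fderiv ℝ (fderiv ℝ h)) (‖cht j z.1‖⁻¹ • cht j z.1) :=
      h4.fderiv_right (by norm_num)
    exact h5.comp z hv.contDiffAt
  have hi : ∀ w : EuclideanSpace ℝ (Fin (m + 1)),
      ContDiff ℝ 1 (fun z : (Fin m → ℝ) × EuclideanSpace ℝ (Fin (m + 1)) =>
        (inner ℝ w (‖cht j z.1‖⁻¹ • cht j z.1) : ℝ)) := fun w => contDiff_const.inner ℝ hv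
  have hbw : ∀ w : EuclideanSpace ℝ (Fin (m + 1)),
      ContDiff ℝ 1 (fun z : (Fin m → ℝ) × EuclideanSpace ℝ (Fin (m + 1)) =>
        (inner ℝ z.2 w : ℝ)) := fun w => hb.inner ℝ contDiff_const
  have hbv : ContDiff ℝ 1 (fun z : (Fin m → ℝ) × EuclideanSpace ℝ (Fin (m + 1)) =>
        (inner ℝ z.2 (‖cht j z.1‖⁻¹ • cht j z.1) : ℝ)) := hb.inner ℝ hv
  have hw : ∀ w : EuclideanSpace ℝ (Fin (m + 1)),
      ContDiff ℝ 1 (fun z : (Fin m → ℝ) × EuclideanSpace ℝ (Fin (m + 1)) =>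
        w - (inner ℝ w (‖cht j z.1‖⁻¹ • cht j z.1) : ℝ) • (‖cht j z.1‖⁻¹ • cht j z.1)) :=
    fun w => contDiff_const.sub ((hi w).smul hv)
  unfold xm
  exact ((((hi x).mul (hbw y)).add ((hi y).mul (hbw x))).sub (((hi x).mul (hi y)).mul hbv)).add
    ((((hd.clm_apply (hw x)).clm_apply (hw y)).add
      ((hhv.add hbv).mul ((hw x).inner ℝ (hw y)))).div_const 2)

/-- Each component is `C¹`: `u ↦ u/‖u‖` is smooth off `0`, `cht j x ≠ 0`, and
`e ↦ h e`, `e ↦ D²h(e)` are `C¹` off `0`. -/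
theorem xiM_c1 {m : ℕ} {h : EuclideanSpace ℝ (Fin (m + 1)) → ℝ} (hh : EvC 3 h)
    (j : Fin (m + 1)) : ContDiff ℝ 1 (xiM h j) := by
  rw [contDiff_pi]
  intro p
  induction p using Sym2.ind with
  | _ a b =>
    exact ((mqc_xm hh j (EuclideanSpace.single a 1) (EuclideanSpace.single b 1)).add
      (mqc_xm hh j (EuclideanSpace.single b 1) (EuclideanSpace.single a 1))).div_const 2

end CI
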