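import Pool.Agent.H.MP_1693ff_gtD.MQA
import Pool.Agent.H.MP_1693ff_gt.Nec3

/-!
# The case `i = -1`, `n ≥ 3`: necessary condition
-/

namespace CI

open Real Set Filter Topology MeasureTheory Asymptotics
open CF hiding St

/-- `partA` with `evc_taylor` for the unit vector `e = (p₂ - p₁)/‖p₂ - p₁‖`. -/
theorem nec_pair {n : ℕ} {f₁ F₂ : EuclideanSpace ℝ (Fin n) → ℝ} (h1 : EvC 2 f₁)
    (h2 : EvC 2 F₂) (h : IsPair (-1) f₁ F₂) : ∃ e : EuclideanSpace ℝ (Fin n), ‖e‖ = 1 ∧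
      ∀ w, ‖w‖ = 1 → inner ℝ w e = (0 : ℝ) → qf f₁ e w = qf F₂ e w := by
  obtain ⟨K, p₁, p₂, hK, hne, hp₁, hp₂, c1, c2⟩ := h
  have hD : 0 < ‖p₂ - p₁‖ := norm_pos_iff.2 (sub_ne_zero.2 hne.symm)
  have he : ‖‖p₂ - p₁‖⁻¹ • (p₂ - p₁)‖ = 1 := by
    rw [norm_smul, norm_inv, norm_norm, inv_mul_cancel₀ hD.ne']
  have he0 : ‖p₂ - p₁‖⁻¹ • (p₂ - p₁) ≠ 0 := by
    intro h0
    rw [h0, norm_zero] at he
    exact zero_ne_one he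
  refine ⟨‖p₂ - p₁‖⁻¹ • (p₂ - p₁), he, fun w hw hwe => ?_⟩
  have horth : inner ℝ w (p₂ - p₁) = (0 : ℝ) := by
    rw [inner_smul_right] at hwe
    exact (mul_eq_zero.1 hwe).resolve_left (inv_ne_zero hD.ne')
  have hu : ∀ t : ℝ, ‖cos t • (‖p₂ - p₁‖⁻¹ • (p₂ - p₁)) + sin t • w‖ = 1 := by
    intro t
    have hew : inner ℝ (‖p₂ - p₁‖⁻¹ • (p₂ - p₁)) w = (0 : ℝ) := by rw [real_inner_comm, hwe]
    have h1 : ‖cos t • (‖p₂ - p₁‖⁻¹ • (p₂ - p₁)) + sin t • w‖ ^ 2 = 1 := by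
      rw [norm_add_sq_real, norm_smul (cos t), norm_smul (sin t), he, hw, inner_smul_left,
        inner_smul_right, hew]
      simp only [Real.norm_eq_abs, mul_one, sq_abs, mul_zero, add_zero]
      exact Real.cos_sq_add_sin_sq t
    exact (pow_eq_one_iff_of_nonneg (norm_nonneg _) two_ne_zero).1 h1
  have t1 := evc_taylor h1 (w := w) he0
  have t2 := evc_taylor h2 (w := w) he0
  have hc1 : ∀ t : ℝ, chord (-1) K p₁ (cos t • (‖p₂ - p₁‖⁻¹ • (p₂ - p₁)) + sin t • w) =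
      f₁ (cos t • (‖p₂ - p₁‖⁻¹ • (p₂ - p₁)) + sin t • w) := fun t => c1 _ (hu t)
  have hc2 : ∀ t : ℝ, chord (-1) K p₂ (cos t • (‖p₂ - p₁‖⁻¹ • (p₂ - p₁)) + sin t • w) =
      F₂ (cos t • (‖p₂ - p₁‖⁻¹ • (p₂ - p₁)) + sin t • w) := fun t => c2 _ (hu t)
  simp only [← hc1] at t1
  simp only [← hc2] at t2
  exact partA K p₁ p₂ w hK hp₁ hp₂ hne hw horth _ _ _ _ _ _ t1 t2

end CI
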