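import Pool.Agent.H.MP_1693ff_gtD.MDefs

/-!
# The case `i = -1`, `n ≥ 3`: definitions
-/

namespace CI

open Real Set Filter Topology MeasureTheory Asymptotics
open CF hiding St

noncomputable section

/-- The symmetric bilinear form with matrix `s`. -/
def smat {n : ℕ} (s : Sym2 (Fin n) → ℝ) (x y : EuclideanSpace ℝ (Fin n)) : ℝ :=
  ∑ i, ∑ j, s s(i, j) * x i * y j

/-- The perturbation `⟨S u, u⟩/|u|²`. -/
def gq {n : ℕ} (s : Sym2 (Fin n) → ℝ) (u : EuclideanSpace ℝ (Fin n)) : ℝ :=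
  smat s u u / ‖u‖ ^ 2

/-- `f(e) + D²f(e)(w, w)`. -/
def qf {E : Type*} [NormedAddCommGroup E] [NormedSpace ℝ E] (f : E → ℝ) (e w : E) : ℝ :=
  f e + fderiv ℝ (fderiv ℝ f) e w w

/-- The matrix `S` with `S e = b` and `2 ⟨S x, y⟩ = D²h(e)(x, y) + (h(e) + ⟨b, e⟩) ⟨x, y⟩` for
`x, y ⊥ e`, `e = u/|u|`: the value at `(x, y)`. -/
def xm {E : Type*} [NormedAddCommGroup E] [InnerProductSpace ℝ E] (h : E → ℝ) (u b x y : E) : ℝ :=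
  (inner ℝ x (‖u‖⁻¹ • u) : ℝ) * inner ℝ b y + (inner ℝ y (‖u‖⁻¹ • u) : ℝ) * inner ℝ b x -
    (inner ℝ x (‖u‖⁻¹ • u) : ℝ) * inner ℝ y (‖u‖⁻¹ • u) * inner ℝ b (‖u‖⁻¹ • u) +
    (fderiv ℝ (fderiv ℝ h) (‖u‖⁻¹ • u) (x - (inner ℝ x (‖u‖⁻¹ • u) : ℝ) • (‖u‖⁻¹ • u))
      (y - (inner ℝ y (‖u‖⁻¹ • u) : ℝ) • (‖u‖⁻¹ • u)) +
      (h (‖u‖⁻¹ • u) + inner ℝ b (‖u‖⁻¹ • u)) *
      inner ℝ (x - (inner ℝ x (‖u‖⁻¹ • u) : ℝ) • (‖u‖⁻¹ • u))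
        (y - (inner ℝ y (‖u‖⁻¹ • u) : ℝ) • (‖u‖⁻¹ • u))) / 2

/-- The point of the affine chart `u_j = 1`. -/
def cht {m : ℕ} (j : Fin (m + 1)) (x : Fin m → ℝ) : EuclideanSpace ℝ (Fin (m + 1)) :=
  WithLp.toLp 2 (j.insertNth 1 x)

/-- The parametrisation of the bad matrices in the chart `j`. -/
def xiM {m : ℕ} (h : EuclideanSpace ℝ (Fin (m + 1)) → ℝ) (j : Fin (m + 1))
    (z : (Fin m → ℝ) × EuclideanSpace ℝ (Fin (m + 1))) : Sym2 (Fin (m + 1)) → ℝ := fun p =>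
  Sym2.lift ⟨fun a b => (xm h (cht j z.1) z.2 (EuclideanSpace.single a 1)
    (EuclideanSpace.single b 1) + xm h (cht j z.1) z.2 (EuclideanSpace.single b 1)
    (EuclideanSpace.single a 1)) / 2, fun a b => by ring⟩ p

end

end CI
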