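import Pool.Agent.H.MP_1693ff_gtD.MDefs
import Pool.Agent.H.MP_1693ff_gt.Nec3a

/-!
# Radial functions of a convex body
-/

namespace CI

open Real Set Filter Topology MeasureTheory
open CF hiding St

variable {E : Type*} [NormedAddCommGroup E] [InnerProductSpace ℝ E]

/-- `radial_eq`. -/
theorem rad_pos {K : Set E} (hK : IsBody K) {p v : E} (hp : p ∈ interior K) (hv : v ≠ 0) :
    0 < radial K p v := by
  obtain ⟨h1, h2⟩ := radial_eq hK hp hv
  rw [h1]
  exact inv_pos.2 h2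

theorem rad_smul {K : Set E} (hK : IsBody K) {p v : E} (hp : p ∈ interior K) (hv : v ≠ 0)
    {c : ℝ} (hc : 0 < c) : radial K p (c • v) = c⁻¹ * radial K p v := by
  obtain ⟨h1, _⟩ := radial_eq hK hp hv
  obtain ⟨h2, _⟩ := radial_eq hK hp (smul_ne_zero hc.ne' hv)
  rw [h1, h2, gauge_smul_of_nonneg hc.le, smul_eq_mul, mul_inv]

/-- `{c ≥ 0 : p + c v ∈ K} = [0, radial K p v]` (see the proof of `radial_eq`). -/
theorem le_rad {K : Set E} (hK : IsBody K) {p v : E} (hp : p ∈ interior K) (hv : v ≠ 0)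
    {c : ℝ} (hc : 0 < c) : c ≤ radial K p v ↔ p + c • v ∈ K := by
  obtain ⟨h1, h2⟩ := radial_eq hK hp hv
  obtain ⟨hco, h0, hcomp⟩ := nec3a_facts hK hp
  have h3 : p + c • v ∈ K ↔ c • v ∈ closure {x : E | p + x ∈ K} := by
    rw [hcomp.isClosed.closure_eq]
    rfl
  rw [h3, ← gauge_le_one_iff_mem_closure hco h0, gauge_smul_of_nonneg hc.le, smul_eq_mul, h1,
    ← one_div, le_div_iff₀ h2]

theorem rad_bd {K : Set E} (hK : IsBody K) {p v : E} (hp : p ∈ interior K) (hv : v ≠ 0)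
    {r R : ℝ} (hr : 0 < r) (h1 : Metric.closedBall p r ⊆ K) (h2 : K ⊆ Metric.closedBall p R) :
    r ≤ radial K p v * ‖v‖ ∧ radial K p v * ‖v‖ ≤ R := by
  have hn : 0 < ‖v‖ := norm_pos_iff.2 hv
  constructor
  · have h3 : p + (r / ‖v‖) • v ∈ K := by
      apply h1
      rw [Metric.mem_closedBall, dist_eq_norm, add_sub_cancel_left, norm_smul, norm_div, norm_norm,
        div_mul_cancel₀ _ hn.ne', Real.norm_of_nonneg hr.le]
    have h4 := (le_rad hK hp hv (div_pos hr hn)).2 h3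
    rwa [div_le_iff₀ hn] at h4
  · have h3 := rad_pos hK hp hv
    have h4 := h2 ((le_rad hK hp hv h3).1 le_rfl)
    rwa [Metric.mem_closedBall, dist_eq_norm, add_sub_cancel_left, norm_smul,
      Real.norm_of_nonneg h3.le] at h4

/-- `radial_eq`, `continuous_gauge`. -/
theorem rad_cont {K : Set E} (hK : IsBody K) {p : E} (hp : p ∈ interior K) :
    ContinuousOn (radial K p) {0}ᶜ := by
  obtain ⟨hco, h0, hcomp⟩ := nec3a_facts hK hp
  have h1 : ContinuousOn (fun v => (gauge {x : E | p + x ∈ K} v)⁻¹) {0}ᶜ :=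
    (continuous_gauge hco h0).continuousOn.inv₀ fun v hv => (radial_eq hK hp hv).2.ne'
  exact h1.congr fun v hv => (radial_eq hK hp hv).1

end CI
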