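import Pool.Agent.H.MP_1693ff_gtD.MDefs

/-!
# The step function
-/

namespace CI

open Real Set Filter Topology MeasureTheory
open CF hiding St

theorem mround_sqrt_lt {a b : ℝ} (hab : a < b) : √(1 + a ^ 2) < √(1 + b ^ 2) + (b - a) := by
  have hb0 : 0 ≤ √(1 + b ^ 2) := Real.sqrt_nonneg _
  have hb1 : √(1 + b ^ 2) ^ 2 = 1 + b ^ 2 := Real.sq_sqrt (by positivity)
  have hb2 : 0 < b + √(1 + b ^ 2) := by
    by_contra hcon
    push Not at hcon
    nlinarith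
  rw [Real.sqrt_lt' (by linarith)]
  nlinarith [mul_pos (sub_pos.2 hab) hb2]

theorem ph_mono {R : ℝ} (hR : 1 ≤ R) : StrictMono (ph R) := by
  intro a b hab
  have h0 : 0 < R := by linarith
  have h1 := mround_sqrt_lt hab
  have h2 : √(1 + a ^ 2) / R < √(1 + b ^ 2) / R + (b - a) := by
    have h3 : √(1 + a ^ 2) / R < (√(1 + b ^ 2) + (b - a)) / R := div_lt_div_of_pos_right h1 h0
    have h4 : (b - a) / R ≤ b - a := div_le_self (by linarith) hR
    rw [add_div] at h3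
    linarith
  change a + √(1 + a ^ 2) / R < b + √(1 + b ^ 2) / R
  linarith

theorem ph_ge {R : ℝ} (hR : 0 < R) (s : ℝ) : s + 1 / R ≤ ph R s := by
  have h1 : (1 : ℝ) ≤ √(1 + s ^ 2) := Real.one_le_sqrt.2 (by nlinarith [sq_nonneg s])
  have h2 : 1 / R ≤ √(1 + s ^ 2) / R := div_le_div_of_nonneg_right h1 hR.le
  change s + 1 / R ≤ s + √(1 + s ^ 2) / R
  linarith

theorem ph_geo {R s : ℝ} (hR : 0 < R) (hs : 0 ≤ s) : (1 + 1 / R) * s ≤ ph R s := by
  have h1 : s ≤ √(1 + s ^ 2) := Real.le_sqrt_of_sq_le (by linarith)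
  have h2 : s / R ≤ √(1 + s ^ 2) / R := div_le_div_of_nonneg_right h1 hR.le
  change (1 + 1 / R) * s ≤ s + √(1 + s ^ 2) / R
  have h3 : (1 + 1 / R) * s = s + s / R := by ring
  rw [h3]
  linarith

/-- `√(1+s²) ≤ 2t`. -/
theorem ph_abs {r R s t : ℝ} (hr : 0 < r) (hrR : r ≤ R) (ht : 1 ≤ t) (hs : |s| ≤ t) :
    |ph R s| ≤ (1 + 2 / r) * t := by
  have hR : 0 < R := by linarith
  have h1 : √(1 + s ^ 2) ≤ 2 * t := by
    rw [Real.sqrt_le_left (by linarith)]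
    have h2 : s ^ 2 ≤ t ^ 2 := by
      rw [← sq_abs]
      exact pow_le_pow_left₀ (abs_nonneg s) hs 2
    nlinarith
  have h3 : √(1 + s ^ 2) / R ≤ 2 * t / r := div_le_div₀ (by linarith) h1 hr hrR
  have h4 : 0 ≤ √(1 + s ^ 2) / R := by positivity
  change |s + √(1 + s ^ 2) / R| ≤ (1 + 2 / r) * t
  calc |s + √(1 + s ^ 2) / R| ≤ |s| + |√(1 + s ^ 2) / R| := abs_add_le _ _
    _ = |s| + √(1 + s ^ 2) / R := by rw [abs_of_nonneg h4]
    _ ≤ t + 2 * t / r := add_le_add hs h3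
    _ = (1 + 2 / r) * t := by ring

end CI
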