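import Pool.Agent.H.MP_1693ff_gtD.MShearB
import Pool.Agent.H.MP_1693ff_gtD.MRound

/-!
# One step, upper half
-/

namespace CI

open Real Set Filter Topology MeasureTheory
open CF hiding St

variable {i r R s t M ε ac : ℝ} {Y₁ Y₂ y₁ y₂ Y₁' Y₂' y₁' y₂' : ℝ → ℝ}

/-- positivity of a height. -/
theorem mroundb_pos (hr : 0 < r) {y a : ℝ} (h : r ≤ y * √(1 + a ^ 2)) : 0 < y := by
  have h1 : 0 < √(1 + a ^ 2) := Real.sqrt_pos.2 (by positivity)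
  by_contra hy
  push Not at hy
  have h2 : y * √(1 + a ^ 2) ≤ 0 := mul_nonpos_of_nonpos_of_nonneg hy h1.le
  linarith

/-- the translate of a slope parameter in the range. -/
theorem mroundb_mem (hr : 0 < r) (hR : 1 ≤ R) (ht : 1 ≤ t) (hs : |s| ≤ t) {a y z z' : ℝ}
    (hz : r ≤ z * √(1 + a ^ 2) ∧ z * √(1 + a ^ 2) ≤ R)
    (hz' : r ≤ z' * √(1 + a ^ 2) ∧ z' * √(1 + a ^ 2) ≤ R)
    (ha : a ∈ Ioc s t) (hy : 0 < y) (h1 : min z z' < y) (h2 : y ≤ max z z') :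
    a + y⁻¹ ∈ Ioc (ph R s) ((1 + 2 / r) * t) := by
  have hq : 0 < √(1 + a ^ 2) := Real.sqrt_pos.2 (by positivity)
  have h3 : y * √(1 + a ^ 2) ≤ R := by
    rcases le_max_iff.1 h2 with h | h
    · exact (mul_le_mul_of_nonneg_right h hq.le).trans hz.2
    · exact (mul_le_mul_of_nonneg_right h hq.le).trans hz'.2
  have h4 : r ≤ y * √(1 + a ^ 2) := by
    rcases min_lt_iff.1 h1 with h | h
    · exact hz.1.trans (mul_le_mul_of_nonneg_right h.le hq.le)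
    · exact hz'.1.trans (mul_le_mul_of_nonneg_right h.le hq.le)
  have hR0 : 0 < R := by linarith
  have h5 : √(1 + a ^ 2) / R ≤ y⁻¹ := by
    rw [div_le_iff₀ hR0, ← div_eq_inv_mul, le_div_iff₀ hy]
    linarith
  have h6 : y⁻¹ ≤ √(1 + a ^ 2) / r := by
    rw [le_div_iff₀ hr, ← div_eq_inv_mul, div_le_iff₀ hy]
    linarith
  have h7 : ph R s < ph R a := ph_mono hR ha.1
  have ha2 := ha.2
  have ha1 := ha.1
  have hs1 := (abs_le.1 hs).1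
  have h8 : √(1 + a ^ 2) ≤ 2 * t := by
    rw [Real.sqrt_le_left (by linarith)]
    nlinarith
  have h9 : √(1 + a ^ 2) / r ≤ 2 * t / r := div_le_div_of_nonneg_right h8 hr.le
  have h10 : (1 + 2 / r) * t = t + 2 * t / r := by ring
  refine ⟨?_, ?_⟩
  · have h11 : ph R a = a + √(1 + a ^ 2) / R := rfl
    linarith
  · rw [h10]
    linarith

/-- `shear` with `Y₂ → Y₁`: for `a ∈ (s, t]` and `min < y ≤ max`: `y ≤ R/√(1+a²)`, so
`a + y⁻¹ ≥ ph R a > ph R s`; `y > r/√(1+a²)`, so `a + y⁻¹ ≤ t + 2t/r`. -/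
theorem step_up (hr : 0 < r) (hR : 1 ≤ R) (hrR : r ≤ R) (S : Sy r R Y₁ Y₂ y₁ y₂)
    (S' : Sy r R Y₁' Y₂' y₁' y₂') (ht : 1 ≤ t) (hs : |s| ≤ t) :
    ∫ a in s..t, |Jf i (Y₂ a) - Jf i (Y₂' a)| ≤
      ∫ a in (ph R s)..((1 + 2 / r) * t), |Jf i (Y₁ a) - Jf i (Y₁' a)| := by
  refine shear i S.c2 S.c1 S'.c2 S'.c1 (fun a => mroundb_pos hr (S.b2 a).1)
    (fun a => mroundb_pos hr (S.b1 a).1) (fun a => mroundb_pos hr (S'.b2 a).1)
    (fun a => mroundb_pos hr (S'.b1 a).1) S.up S'.up (abs_le.1 hs).2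
    ((abs_le.1 (ph_abs hr hrR ht hs)).2) fun a ha y hy h1 h2 =>
      mroundb_mem hr hR ht hs (S.b2 a) (S'.b2 a) ha hy h1 h2

end CI
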