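import Pool.Agent.H.MP_1693ff_gtD.MRoundB

/-!
# One step, lower half
-/

namespace CI

open Real Set Filter Topology MeasureTheory
open CF hiding St

variable {i r R s t M ε ac : ℝ} {Y₁ Y₂ y₁ y₂ Y₁' Y₂' y₁' y₂' : ℝ → ℝ}

/-- The same with `y₁ → y₂`. -/
theorem step_lo (hr : 0 < r) (hR : 1 ≤ R) (hrR : r ≤ R) (S : Sy r R Y₁ Y₂ y₁ y₂)
    (S' : Sy r R Y₁' Y₂' y₁' y₂') (ht : 1 ≤ t) (hs : |s| ≤ t) :
    ∫ a in s..t, |Jf i (y₁ a) - Jf i (y₁' a)| ≤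
      ∫ a in (ph R s)..((1 + 2 / r) * t), |Jf i (y₂ a) - Jf i (y₂' a)| := by
  refine shear i S.d1 S.d2 S'.d1 S'.d2 (fun a => mroundb_pos hr (S.b3 a).1)
    (fun a => mroundb_pos hr (S.b4 a).1) (fun a => mroundb_pos hr (S'.b3 a).1)
    (fun a => mroundb_pos hr (S'.b4 a).1) S.lo S'.lo (abs_le.1 hs).2
    ((abs_le.1 (ph_abs hr hrR ht hs)).2) fun a ha y hy h1 h2 =>
      mroundb_mem hr hR ht hs (S.b3 a) (S'.b3 a) ha hy h1 h2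

end CI
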