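import Pool.Agent.H.MP_1693ff_gtD.MRoundB
import Pool.Agent.H.MP_1693ff_gtD.MRoundC

/-!
# One round of the comparison
-/

namespace CI

open Real Set Filter Topology MeasureTheory
open CF hiding St

variable {i r R s t M ε ac : ℝ} {Y₁ Y₂ y₁ y₂ Y₁' Y₂' y₁' y₂' : ℝ → ℝ}

theorem mroundd_pos {r R : ℝ} (hr : 0 < r) {Y : ℝ → ℝ}
    (b : ∀ a, r ≤ Y a * √(1 + a ^ 2) ∧ Y a * √(1 + a ^ 2) ≤ R) (a : ℝ) : 0 < Y a := by
  have h1 : 0 < √(1 + a ^ 2) := Real.sqrt_pos.mpr (by positivity)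
  have h2 := (b a).1
  by_contra h
  push Not at h
  nlinarith [mul_nonneg (neg_nonneg.mpr h) h1.le]

theorem mroundd_cont (i : ℝ) {Y : ℝ → ℝ} (cY : Continuous Y) (pY : ∀ a, 0 < Y a) :
    Continuous (fun a => Jf i (Y a)) :=
  (jf_cont i).comp_continuous cY pY

theorem mroundd_int {l b : ℝ} (hl : |l| ≤ b) (hb : 1 ≤ b) : ∫ a in l..b, (1 + |a|) ≤ 4 * b ^ 2 := by
  have hlb : l ≤ b := (le_abs_self l).trans hl
  have h0 := abs_le.mp hl
  have h1 : ∫ a in l..b, (1 + |a|) ≤ ∫ _a in l..b, (1 + b) := by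
    refine intervalIntegral.integral_mono_on hlb
      ((continuous_const.add continuous_abs).intervalIntegrable _ _)
      (continuous_const.intervalIntegrable _ _) fun a ha => ?_
    have h2 : |a| ≤ b := abs_le.mpr ⟨by linarith [ha.1], ha.2⟩
    linarith
  rw [intervalIntegral.integral_const, smul_eq_mul] at h1
  nlinarith

theorem mroundd_cmp {u v : ℝ → ℝ} (cu : Continuous u) (cv : Continuous v) {l b D : ℝ}
    (hl : |l| ≤ b) (hb : 1 ≤ b) (hD : 0 ≤ D)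
    (h : ∀ a, l ≤ a → a ≤ b → u a ≤ v a + D * (1 + |a|)) :
    ∫ a in l..b, u a ≤ (∫ a in l..b, v a) + 4 * D * b ^ 2 := by
  have hlb : l ≤ b := (le_abs_self l).trans hl
  have cD : Continuous (fun a : ℝ => D * (1 + |a|)) :=
    continuous_const.mul (continuous_const.add continuous_abs)
  have h1 : ∫ a in l..b, u a ≤ ∫ a in l..b, (v a + D * (1 + |a|)) :=
    intervalIntegral.integral_mono_on hlb (cu.intervalIntegrable _ _)
      ((cv.add cD).intervalIntegrable _ _) fun a ha => h a ha.1 ha.2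
  rw [intervalIntegral.integral_add (cv.intervalIntegrable _ _) (cD.intervalIntegrable _ _),
    intervalIntegral.integral_const_mul] at h1
  have h2 := mul_le_mul_of_nonneg_left (mroundd_int hl hb) hD
  linarith

theorem mroundd_tri {p q p' q' e : ℝ} (h : |(p + q) - (p' + q')| ≤ e) : |p - p'| ≤ |q - q'| + e := by
  have h1 : p - p' = ((p + q) - (p' + q')) - (q - q') := by ring
  rw [h1]
  refine (abs_sub _ _).trans ?_
  linarith

theorem mroundd_tri' {p q p' q' e : ℝ} (h : |(p + q) - (p' + q')| ≤ e) :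
    |q - q'| ≤ |p - p'| + e := by
  have h1 : q - q' = ((p + q) - (p' + q')) - (p - p') := by ring
  rw [h1]
  refine (abs_sub _ _).trans ?_
  linarith

/-- One round.  `step_up`; `|J Y₁ - J Y₁'| ≤ |J y₁ - J y₁'| + M ε (1 + |a|)` (`t1`), `step_lo`;
`|J y₂ - J y₂'| ≤ |J Y₂ - J Y₂'| + M ε (1 + |a|)` for `a ≥ ph (ph s) ≥ s + 2/R ≥ ac + 1/R` (`t2`);
`∫_l^b (1 + |a|) ≤ 4 b²` for `|l| ≤ b`, `b ≥ 1`. -/
theorem round (hr : 0 < r) (hR : 1 ≤ R) (hrR : r ≤ R) (hM : 0 ≤ M) (hε : 0 ≤ ε)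
    (S : Sy r R Y₁ Y₂ y₁ y₂) (S' : Sy r R Y₁' Y₂' y₁' y₂')
    (C : Cmp i M ε R ac Y₁ Y₂ y₁ y₂ Y₁' Y₂' y₁' y₂') (ht : 1 ≤ t) (hs : |s| ≤ t)
    (hac : ac - 1 / R ≤ s) :
    ∫ a in s..t, |Jf i (Y₂ a) - Jf i (Y₂' a)| ≤
      (∫ a in (ph R (ph R s))..((1 + 2 / r) ^ 2 * t), |Jf i (Y₂ a) - Jf i (Y₂' a)|) +
        8 * M * ε * ((1 + 2 / r) ^ 2 * t) ^ 2 := by
  have hRp : 0 < R := by linarith
  set c : ℝ := 1 + 2 / r with hc
  have hc1 : 1 ≤ c := by
    have : 0 < 2 / r := by positivity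
    linarith
  have ht0 : 0 ≤ t := by linarith
  have h1 : 1 ≤ c * t := by nlinarith
  have hct : c * t ≤ c ^ 2 * t := by nlinarith [mul_nonneg (sub_nonneg.mpr hc1) (by linarith : 0 ≤ c * t)]
  have h2 : 1 ≤ c ^ 2 * t := h1.trans hct
  have hab1 : |ph R s| ≤ c * t := ph_abs hr hrR ht hs
  have hab2 : |ph R (ph R s)| ≤ c ^ 2 * t := by
    have := ph_abs hr hrR h1 hab1
    rw [← hc] at this
    calc |ph R (ph R s)| ≤ c * (c * t) := this
      _ = c ^ 2 * t := by ring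
  have hMε : 0 ≤ M * ε := mul_nonneg hM hε
  have cY1 := mroundd_cont i S.c1 (mroundd_pos hr S.b1)
  have cY2 := mroundd_cont i S.c2 (mroundd_pos hr S.b2)
  have cy1 := mroundd_cont i S.d1 (mroundd_pos hr S.b3)
  have cy2 := mroundd_cont i S.d2 (mroundd_pos hr S.b4)
  have cY1' := mroundd_cont i S'.c1 (mroundd_pos hr S'.b1)
  have cY2' := mroundd_cont i S'.c2 (mroundd_pos hr S'.b2)
  have cy1' := mroundd_cont i S'.d1 (mroundd_pos hr S'.b3)
  have cy2' := mroundd_cont i S'.d2 (mroundd_pos hr S'.b4)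
  have e1 := step_up (i := i) hr hR hrR S S' ht hs
  have e2 : ∫ a in (ph R s)..(c * t), |Jf i (Y₁ a) - Jf i (Y₁' a)| ≤
      (∫ a in (ph R s)..(c * t), |Jf i (y₁ a) - Jf i (y₁' a)|) + 4 * (M * ε) * (c * t) ^ 2 :=
    mroundd_cmp (cY1.sub cY1').abs (cy1.sub cy1').abs hab1 h1 hMε fun a _ _ =>
      mroundd_tri (C.t1 a)
  have e3 := step_lo (i := i) hr hR hrR S S' h1 hab1
  have ecc : c * (c * t) = c ^ 2 * t := by ring
  rw [← hc, ecc] at e3
  rw [← hc] at e1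
  have hge : ac + 1 / R ≤ ph R (ph R s) := by
    have g1 := ph_ge hRp s
    have g2 := ph_ge hRp (ph R s)
    linarith
  have e4 : ∫ a in (ph R (ph R s))..(c ^ 2 * t), |Jf i (y₂ a) - Jf i (y₂' a)| ≤
      (∫ a in (ph R (ph R s))..(c ^ 2 * t), |Jf i (Y₂ a) - Jf i (Y₂' a)|) +
        4 * (M * ε) * (c ^ 2 * t) ^ 2 := by
    refine mroundd_cmp (cy2.sub cy2').abs (cY2.sub cY2').abs hab2 h2 hMε fun a ha _ =>
      mroundd_tri' (C.t2 a ?_)
    have h3 : 1 / R ≤ a - ac := by linarith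
    exact h3.trans (le_abs_self _)
  have e5 : 4 * (M * ε) * (c * t) ^ 2 ≤ 4 * (M * ε) * (c ^ 2 * t) ^ 2 := by
    refine mul_le_mul_of_nonneg_left ?_ (by positivity)
    exact pow_le_pow_left₀ (by linarith) hct 2
  linarith

end CI
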