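import Pool.Agent.H.MP_1693ff_gtD.MJ

/-!
# Layer cake formula
-/

namespace CI

open Real Set Filter Topology MeasureTheory
open CF hiding St

theorem mshear_abs (i : ℝ) {x x' : ℝ} (h : 0 < x) (h' : 0 < x') :
    |Jf i x - Jf i x'| = Jf i (max x x') - Jf i (min x x') := by
  rcases le_total x x' with h1 | h1
  · have h2 : Jf i x ≤ Jf i x' := (jf_mono i).monotoneOn h h' h1
    rw [max_eq_right h1, min_eq_left h1, abs_sub_comm, abs_of_nonneg (sub_nonneg.2 h2)]
  · have h2 : Jf i x' ≤ Jf i x := (jf_mono i).monotoneOn h' h h1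
    rw [max_eq_left h1, min_eq_right h1, abs_of_nonneg (sub_nonneg.2 h2)]

theorem mshear_point (i : ℝ) {x x' : ℝ} (h : 0 < x) (h' : 0 < x') :
    ENNReal.ofReal |Jf i x - Jf i x'| =
      ∫⁻ y in Ioi (0 : ℝ), (Ioc (min x x') (max x x')).indicator
        (fun y => ENNReal.ofReal (y ^ (i - 1))) y := by
  have hm : 0 < min x x' := lt_min h h'
  rw [mshear_abs i h h', ← jf_lint i hm min_le_max, lintegral_indicator measurableSet_Ioc,
    Measure.restrict_restrict measurableSet_Ioc]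
  have h1 : Ioc (min x x') (max x x') ∩ Ioi 0 = Ioc (min x x') (max x x') :=
    inter_eq_left.2 fun y hy => hm.trans hy.1
  rw [h1]

/-- Layer cake.  `|J (Y a) - J (Y' a)| = J (max) - J (min) = ∫ y^{i-1}` over
`(min, max]` (`jf_lint`, `jf_mono`); Tonelli (`lintegral_lintegral_swap`). -/
theorem shear_lint (i : ℝ) {Y Y' : ℝ → ℝ} (cY : Continuous Y) (cY' : Continuous Y')
    (pY : ∀ a, 0 < Y a) (pY' : ∀ a, 0 < Y' a) (s t : ℝ) :
    ∫⁻ a in Ioc s t, ENNReal.ofReal |Jf i (Y a) - Jf i (Y' a)| =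
      ∫⁻ y in Ioi (0 : ℝ), ENNReal.ofReal (y ^ (i - 1)) *
        volume (Ioc s t ∩ {a | min (Y a) (Y' a) < y ∧ y ≤ max (Y a) (Y' a)}) := by
  have hE : MeasurableSet {p : ℝ × ℝ | min (Y p.1) (Y' p.1) < p.2 ∧ p.2 ≤ max (Y p.1) (Y' p.1)} :=
    (measurableSet_lt (((cY.min cY').measurable).comp measurable_fst) measurable_snd).inter
      (measurableSet_le measurable_snd (((cY.max cY').measurable).comp measurable_fst))
  have hf : Measurable (Function.uncurry fun a y : ℝ =>
      {p : ℝ × ℝ | min (Y p.1) (Y' p.1) < p.2 ∧ p.2 ≤ max (Y p.1) (Y' p.1)}.indicator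
        (fun p => ENNReal.ofReal (p.2 ^ (i - 1))) (a, y)) := by
    refine Measurable.indicator ?_ hE
    exact (measurable_snd.pow_const (i - 1)).ennreal_ofReal
  have h1 : ∀ a : ℝ, ENNReal.ofReal |Jf i (Y a) - Jf i (Y' a)| =
      ∫⁻ y in Ioi (0 : ℝ), {p : ℝ × ℝ | min (Y p.1) (Y' p.1) < p.2 ∧
        p.2 ≤ max (Y p.1) (Y' p.1)}.indicator
        (fun p => ENNReal.ofReal (p.2 ^ (i - 1))) (a, y) := by
    intro a
    rw [mshear_point i (pY a) (pY' a)]
    rfl
  simp only [h1]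
  rw [lintegral_lintegral_swap hf.aemeasurable]
  refine lintegral_congr fun y => ?_
  have hS : MeasurableSet {a : ℝ | min (Y a) (Y' a) < y ∧ y ≤ max (Y a) (Y' a)} :=
    (measurableSet_lt (cY.min cY').measurable measurable_const).inter
      (measurableSet_le measurable_const (cY.max cY').measurable)
  have h2 : (fun a : ℝ => {p : ℝ × ℝ | min (Y p.1) (Y' p.1) < p.2 ∧
        p.2 ≤ max (Y p.1) (Y' p.1)}.indicator
        (fun p => ENNReal.ofReal (p.2 ^ (i - 1))) (a, y)) =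
      {a : ℝ | min (Y a) (Y' a) < y ∧ y ≤ max (Y a) (Y' a)}.indicator
        (fun _ => ENNReal.ofReal (y ^ (i - 1))) := rfl
  rw [h2, lintegral_indicator_const hS, Measure.restrict_apply hS, inter_comm]

end CI
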