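import Pool.Agent.H.MP_1693ff_gtD.MShear

/-!
# Invariance of the measure `y^{i-1} da dy`
-/

namespace CI

open Real Set Filter Topology MeasureTheory
open CF hiding St

theorem mshearb_cont (i : ℝ) {Y Y' : ℝ → ℝ} (cY : Continuous Y) (cY' : Continuous Y')
    (pY : ∀ a, 0 < Y a) (pY' : ∀ a, 0 < Y' a) :
    Continuous fun a => |Jf i (Y a) - Jf i (Y' a)| :=
  (((jf_cont i).comp_continuous cY fun a => pY a).sub
    ((jf_cont i).comp_continuous cY' fun a => pY' a)).abs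

theorem mshearb_ofReal (i : ℝ) {s t : ℝ} {Y Y' : ℝ → ℝ} (cY : Continuous Y) (cY' : Continuous Y')
    (pY : ∀ a, 0 < Y a) (pY' : ∀ a, 0 < Y' a) (hst : s ≤ t) :
    ENNReal.ofReal (∫ a in s..t, |Jf i (Y a) - Jf i (Y' a)|) =
      ∫⁻ a in Ioc s t, ENNReal.ofReal |Jf i (Y a) - Jf i (Y' a)| := by
  rw [intervalIntegral.integral_of_le hst]
  exact ofReal_integral_eq_lintegral_ofReal
    (mshearb_cont i cY cY' pY pY').integrableOn_Ioc
    (Eventually.of_forall fun a => abs_nonneg _)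

theorem mshearb_meas {s t l b : ℝ} {Y Z Y' Z' : ℝ → ℝ}
    (h : ∀ a y, 0 < y → (y ≤ Y a ↔ y ≤ Z (a + y⁻¹)))
    (h' : ∀ a y, 0 < y → (y ≤ Y' a ↔ y ≤ Z' (a + y⁻¹)))
    (hr : ∀ a ∈ Ioc s t, ∀ y, 0 < y → min (Y a) (Y' a) < y → y ≤ max (Y a) (Y' a) →
      a + y⁻¹ ∈ Ioc l b) {y : ℝ} (hy : 0 < y) :
    volume (Ioc s t ∩ {a | min (Y a) (Y' a) < y ∧ y ≤ max (Y a) (Y' a)}) ≤
      volume (Ioc l b ∩ {a | min (Z a) (Z' a) < y ∧ y ≤ max (Z a) (Z' a)}) := by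
  rw [← measure_preimage_add_right volume y⁻¹
    (Ioc l b ∩ {a | min (Z a) (Z' a) < y ∧ y ≤ max (Z a) (Z' a)})]
  refine measure_mono fun a ha => ?_
  obtain ⟨ha1, ha2, ha3⟩ := ha
  refine ⟨hr a ha1 y hy ha2 ha3, ?_, ?_⟩
  · rcases min_lt_iff.1 ha2 with h1 | h1
    · exact min_lt_iff.2 (Or.inl (not_le.1 fun h2 => (not_le.2 h1) ((h a y hy).2 h2)))
    · exact min_lt_iff.2 (Or.inr (not_le.1 fun h2 => (not_le.2 h1) ((h' a y hy).2 h2)))
  · rcases le_max_iff.1 ha3 with h1 | h1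
    · exact le_max_iff.2 (Or.inl ((h a y hy).1 h1))
    · exact le_max_iff.2 (Or.inr ((h' a y hy).1 h1))

/-- For every `y > 0` the set `{a ∈ (s,t] : min (Y a) (Y' a) < y ≤ max}` (those `a` for which
exactly one of `y ≤ Y a`, `y ≤ Y' a` holds) is translated by `y⁻¹` into the
corresponding set of `Z, Z'`; Lebesgue measure is translation invariant; `shear_lint` for both.
Finally from lintegrals to interval integrals (`ofReal_integral_eq_lintegral_ofReal`, the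
integrands are continuous by `jf_cont`). -/
theorem shear (i : ℝ) {s t l b : ℝ} {Y Z Y' Z' : ℝ → ℝ} (cY : Continuous Y) (cZ : Continuous Z)
    (cY' : Continuous Y') (cZ' : Continuous Z') (pY : ∀ a, 0 < Y a) (pZ : ∀ a, 0 < Z a)
    (pY' : ∀ a, 0 < Y' a) (pZ' : ∀ a, 0 < Z' a)
    (h : ∀ a y, 0 < y → (y ≤ Y a ↔ y ≤ Z (a + y⁻¹)))
    (h' : ∀ a y, 0 < y → (y ≤ Y' a ↔ y ≤ Z' (a + y⁻¹))) (hst : s ≤ t) (hlb : l ≤ b)
    (hr : ∀ a ∈ Ioc s t, ∀ y, 0 < y → min (Y a) (Y' a) < y → y ≤ max (Y a) (Y' a) →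
      a + y⁻¹ ∈ Ioc l b) :
    ∫ a in s..t, |Jf i (Y a) - Jf i (Y' a)| ≤ ∫ a in l..b, |Jf i (Z a) - Jf i (Z' a)| := by
  have h0 : 0 ≤ ∫ a in l..b, |Jf i (Z a) - Jf i (Z' a)| :=
    intervalIntegral.integral_nonneg hlb fun a _ => abs_nonneg _
  rw [← ENNReal.ofReal_le_ofReal_iff h0, mshearb_ofReal i cY cY' pY pY' hst,
    mshearb_ofReal i cZ cZ' pZ pZ' hlb, shear_lint i cY cY' pY pY' s t,
    shear_lint i cZ cZ' pZ pZ' l b]
  refine setLIntegral_mono' measurableSet_Ioi fun y hy => ?_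
  exact mul_le_mul_right (mshearb_meas h h' hr hy) _

end CI
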