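import Pool.Agent.H.MP_1693ff_gtD.MRad
import Pool.Agent.H.MP_1693ff_gtD.MUn

/-!
# The system of a body
-/

namespace CI

open Real Set Filter Topology MeasureTheory
open CF hiding St

variable {E : Type*} [NormedAddCommGroup E] [InnerProductSpace ℝ E]

/-- interior points of `Cl`. -/
theorem Cl.int {i m d A B : ℝ} {c p e ω : E} {f₁ F₂ : E → ℝ} {K : Set E} (hm : 1 ≤ m)
    (h : Cl i m c f₁ F₂ K p e ω d A B) : p ∈ interior K ∧ p + d • e ∈ interior K ∧ 0 < d := by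
  have hm0 : 0 < m⁻¹ := inv_pos.2 (by linarith)
  refine ⟨?_, ?_, lt_of_lt_of_le hm0 h.d0⟩
  · exact interior_mono h.i1 (Metric.ball_subset_interior_closedBall (Metric.mem_ball_self hm0))
  · exact interior_mono h.i2 (Metric.ball_subset_interior_closedBall (Metric.mem_ball_self hm0))

/-- bounds of one height function. -/
theorem MSy_bd {m d x s : ℝ} (hm : 1 ≤ m) (d0 : m⁻¹ ≤ d) (d1 : d ≤ m) (h1 : m⁻¹ ≤ x * s)
    (h2 : x * s ≤ m) : (m ^ 2)⁻¹ ≤ x / d * s ∧ x / d * s ≤ m ^ 2 := by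
  have hm0 : 0 < m := by linarith
  have hmi : 0 < m⁻¹ := inv_pos.2 hm0
  have hd : 0 < d := lt_of_lt_of_le hmi d0
  have e : x / d * s = x * s / d := by ring
  rw [e]
  constructor
  · rw [le_div_iff₀ hd]
    refine le_trans ?_ h1
    calc (m ^ 2)⁻¹ * d ≤ (m ^ 2)⁻¹ * m := mul_le_mul_of_nonneg_left d1 (by positivity)
      _ = m⁻¹ := by field_simp
  · rw [div_le_iff₀ hd]
    refine h2.trans ?_
    calc m = m ^ 2 * m⁻¹ := by field_simp
      _ ≤ m ^ 2 * d := mul_le_mul_of_nonneg_left d0 (by positivity)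

/-- continuity of one height function. -/
theorem MSy_cont {K : Set E} (hK : IsBody K) {p e ω : E} (hp : p ∈ interior K) (ne : ‖e‖ = 1)
    (nω : ‖ω‖ = 1) (o : inner ℝ e ω = (0 : ℝ)) (d : ℝ) :
    Continuous (fun a : ℝ => radial K p (a • e + ω) / d) ∧
      Continuous (fun a : ℝ => radial K p (-(a • e + ω)) / d) := by
  have hc : Continuous (fun a : ℝ => a • e + ω) := by fun_prop
  have hne : ∀ a : ℝ, a • e + ω ≠ 0 := fun a => (un_facts ne nω o a).2.2.1
  constructor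
  · have h1 : Continuous (fun a : ℝ => radial K p (a • e + ω)) :=
      (rad_cont hK hp).comp_continuous hc fun a => hne a
    exact h1.div_const d
  · have h1 : Continuous (fun a : ℝ => radial K p (-(a • e + ω))) :=
      (rad_cont hK hp).comp_continuous hc.neg fun a => neg_ne_zero.2 (hne a)
    exact h1.div_const d

/-- `up`: for `y > 0`: `y ≤ radial K (p + d e) (a e + ω)/d` iff
`p + d e + d y (a e + ω) = p + d y ((a + y⁻¹) e + ω) ∈ K` (`le_rad`) iff
`y ≤ radial K p ((a + y⁻¹) e + ω)/d`.  `lo`: `y ≤ radial K p (-(a e + ω))/d` iff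
`p - d y (a e + ω) = p + d e - d y ((a + y⁻¹) e + ω) ∈ K`.  Bounds: `rad_bd`, `‖a e + ω‖ = √(1+a²)`,
`m⁻¹ ≤ d ≤ m`. -/
theorem sy_of {i m d A B : ℝ} {c p e ω : E} {f₁ F₂ : E → ℝ} {K : Set E} (hm : 1 ≤ m)
    (h : Cl i m c f₁ F₂ K p e ω d A B) :
    Sy ((m ^ 2)⁻¹) (m ^ 2) (fun a => radial K p (a • e + ω) / d)
      (fun a => radial K (p + d • e) (a • e + ω) / d) (fun a => radial K p (-(a • e + ω)) / d)
      (fun a => radial K (p + d • e) (-(a • e + ω)) / d) := by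
  obtain ⟨hp, hq, hd⟩ := h.int hm
  have hm0 : 0 < m⁻¹ := inv_pos.2 (by linarith)
  have hne : ∀ a : ℝ, a • e + ω ≠ 0 := fun a => (un_facts h.ne h.nω h.o a).2.2.1
  have hnn : ∀ a : ℝ, -(a • e + ω) ≠ 0 := fun a => neg_ne_zero.2 (hne a)
  have hno : ∀ a : ℝ, ‖a • e + ω‖ = √(1 + a ^ 2) := fun a => (un_facts h.ne h.nω h.o a).1
  have hno' : ∀ a : ℝ, ‖-(a • e + ω)‖ = √(1 + a ^ 2) := fun a => by rw [norm_neg, hno]
  obtain ⟨c1, d1⟩ := MSy_cont h.body hp h.ne h.nω h.o d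
  obtain ⟨c2, d2⟩ := MSy_cont h.body hq h.ne h.nω h.o d
  refine ⟨c1, c2, d1, d2, fun a => ?_, fun a => ?_, fun a => ?_, fun a => ?_, fun a y hy => ?_,
    fun a y hy => ?_⟩
  · have h1 := rad_bd h.body hp (hne a) hm0 h.i1 h.o1
    rw [hno] at h1
    exact MSy_bd hm h.d0 h.d1 h1.1 h1.2
  · have h1 := rad_bd h.body hq (hne a) hm0 h.i2 h.o2
    rw [hno] at h1
    exact MSy_bd hm h.d0 h.d1 h1.1 h1.2
  · have h1 := rad_bd h.body hp (hnn a) hm0 h.i1 h.o1
    rw [hno'] at h1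
    exact MSy_bd hm h.d0 h.d1 h1.1 h1.2
  · have h1 := rad_bd h.body hq (hnn a) hm0 h.i2 h.o2
    rw [hno'] at h1
    exact MSy_bd hm h.d0 h.d1 h1.1 h1.2
  · rw [le_div_iff₀ hd, le_div_iff₀ hd, le_rad h.body hq (hne a) (mul_pos hy hd),
      le_rad h.body hp (hne _) (mul_pos hy hd)]
    have e1 : p + d • e + (y * d) • (a • e + ω) = p + (y * d) • ((a + y⁻¹) • e + ω) := by
      have e2 : (y * d) • (y⁻¹ • e) = d • e := by
        rw [smul_smul]
        congr 1
        field_simp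
      rw [add_smul, smul_add, smul_add, smul_add, e2]
      abel
    rw [e1]
  · rw [le_div_iff₀ hd, le_div_iff₀ hd, le_rad h.body hp (hnn a) (mul_pos hy hd),
      le_rad h.body hq (hnn _) (mul_pos hy hd)]
    have e1 : p + (y * d) • -(a • e + ω) = p + d • e + (y * d) • -((a + y⁻¹) • e + ω) := by
      have e2 : (y * d) • (y⁻¹ • e) = d • e := by
        rw [smul_smul]
        congr 1
        field_simp
      rw [add_smul, smul_neg, smul_neg, smul_add, smul_add, smul_add, e2]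
      abel
    rw [e1]

end CI
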