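import Pool.Agent.H.MP_1693ff_gtD.MDefs

/-!
# Expansions of functions of one variable
-/

namespace CI

open Real Set Filter Topology MeasureTheory
open CF hiding St

theorem mtail_zero {D C : ℝ} (hC : 0 ≤ C) (h : ∀ᶠ s in 𝓝 (0 : ℝ), D * s ≤ C * s ^ 2) : D ≤ 0 := by
  by_contra hD
  push Not at hD
  obtain ⟨ε, hε, hb⟩ := Metric.eventually_nhds_iff.1 h
  set t : ℝ := min (ε / 2) (D / (2 * (C + 1))) with ht
  have ht0 : 0 < t := lt_min (by linarith) (by positivity)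
  have h1 : D * t ≤ C * t ^ 2 := by
    refine hb ?_
    rw [Real.dist_eq, sub_zero, abs_of_pos ht0]
    exact lt_of_le_of_lt (min_le_left _ _) (by linarith)
  have h2 : t ≤ D / (2 * (C + 1)) := min_le_right _ _
  have h3 : t * (2 * (C + 1)) ≤ D := by
    rwa [le_div_iff₀ (by positivity)] at h2
  have h4 : D ≤ C * t := by
    have : D * t ≤ C * t * t := by rw [mul_assoc, ← pow_two]; exact h1
    exact le_of_mul_le_mul_right this ht0
  nlinarith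

theorem mtail_neg {p : ℝ → Prop} (h : ∀ᶠ s in 𝓝 (0 : ℝ), p s) : ∀ᶠ s in 𝓝 (0 : ℝ), p (-s) := by
  have h1 : Tendsto (fun s : ℝ => -s) (𝓝 0) (𝓝 0) := by
    have := (continuous_neg (G := ℝ)).tendsto 0
    rwa [neg_zero] at this
  exact h1.eventually h

/-- A convex function on the line has a supporting line at `0` (slopes are monotone; or
`ConvexOn.le_slope_of_hasDerivWithinAt` and the like; or Hahn-Banach). -/
theorem subgrad {φ : ℝ → ℝ} (h : ConvexOn ℝ univ φ) : ∃ c, ∀ s, φ 0 + c * s ≤ φ s := by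
  have key : ∀ s t : ℝ, s < 0 → 0 < t → (φ 0 - φ s) / (0 - s) ≤ (φ t - φ 0) / (t - 0) :=
    fun s t hs ht => h.slope_mono_adjacent (mem_univ s) (mem_univ t) hs ht
  set A : Set ℝ := (fun t => (φ t - φ 0) / (t - 0)) '' Ioi 0 with hA
  have hne : A.Nonempty := ⟨_, 1, mem_Ioi.2 one_pos, rfl⟩
  have hbb : BddBelow A := by
    refine ⟨(φ 0 - φ (-1)) / (0 - (-1)), ?_⟩
    rintro y ⟨t, ht, rfl⟩
    exact key (-1) t (by norm_num) ht
  refine ⟨sInf A, fun s => ?_⟩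
  rcases lt_trichotomy s 0 with hs | hs | hs
  · have h1 : (φ 0 - φ s) / (0 - s) ≤ sInf A := by
      refine le_csInf hne ?_
      rintro y ⟨t, ht, rfl⟩
      exact key s t hs ht
    rw [div_le_iff₀ (by linarith)] at h1
    linarith
  · subst hs
    simp
  · have h1 : sInf A ≤ (φ s - φ 0) / (s - 0) := csInf_le hbb ⟨s, hs, rfl⟩
    rw [le_div_iff₀ (by linarith)] at h1
    linarith

/-- Taylor: a function of class `C²` near `0`. -/
theorem taylor2 {h : ℝ → ℝ} (c : ContDiffAt ℝ 2 h 0) :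
    ∃ B C : ℝ, 0 ≤ C ∧ ∀ᶠ s in 𝓝 (0 : ℝ), |h s - h 0 - B * s| ≤ C * s ^ 2 := by
  have c1 : ContDiffAt ℝ 1 (fderiv ℝ h) 0 := c.fderiv_right (by norm_num)
  obtain ⟨K, t, ht, hK⟩ := c1.exists_lipschitzOnWith
  have hd : ∀ᶠ y in 𝓝 (0 : ℝ), DifferentiableAt ℝ h y := by
    filter_upwards [c.eventually (by simp)] with y hy
    exact hy.differentiableAt (by norm_num)
  obtain ⟨ε, hε, hb⟩ := Metric.eventually_nhds_iff.1 (hd.and ht)
  refine ⟨fderiv ℝ h 0 1, K, K.2, Metric.eventually_nhds_iff.2 ⟨ε, hε, fun s hs => ?_⟩⟩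
  rw [Real.dist_eq, sub_zero] at hs
  have hmem : ∀ y ∈ Icc (-|s|) |s|, DifferentiableAt ℝ h y ∧ y ∈ t := by
    intro y hy
    refine hb ?_
    rw [Real.dist_eq, sub_zero]
    exact lt_of_le_of_lt (abs_le.2 hy) hs
  have h1 := Convex.norm_image_sub_le_of_norm_hasDerivWithin_le
    (f := fun y => h y - fderiv ℝ h 0 1 * y) (f' := fun y => fderiv ℝ h y 1 - fderiv ℝ h 0 1)
    (C := K * |s|) (s := Icc (-|s|) |s|) (x := 0) (y := s)
    (fun y hy => by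
      have h2 := (hmem y hy).1.hasFDerivAt.hasDerivAt
      have h3 : HasDerivAt (fun y : ℝ => fderiv ℝ h 0 1 * y) (fderiv ℝ h 0 1) y := by
        simpa using (hasDerivAt_id y).const_mul (fderiv ℝ h 0 1)
      exact (h2.sub h3).hasDerivWithinAt)
    (fun y hy => by
      have h0 : (0 : ℝ) ∈ Icc (-|s|) |s| := ⟨by have := abs_nonneg s; linarith, abs_nonneg s⟩
      have h2 := hK.norm_sub_le (hmem y hy).2 (hmem 0 h0).2
      rw [sub_zero] at h2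
      have h3 : ‖(fderiv ℝ h y - fderiv ℝ h 0) 1‖ ≤ ‖fderiv ℝ h y - fderiv ℝ h 0‖ * ‖(1 : ℝ)‖ :=
        (fderiv ℝ h y - fderiv ℝ h 0).le_opNorm 1
      rw [norm_one, mul_one] at h3
      show ‖fderiv ℝ h y 1 - fderiv ℝ h 0 1‖ ≤ K * |s|
      rw [← sub_apply]
      refine h3.trans (h2.trans (mul_le_mul_of_nonneg_left ?_ K.2))
      rw [Real.norm_eq_abs]
      exact abs_le.2 hy)
    (convex_Icc _ _) ⟨by have := abs_nonneg s; linarith, abs_nonneg s⟩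
    ⟨neg_abs_le s, le_abs_self s⟩
  simp only [mul_zero, sub_zero, Real.norm_eq_abs] at h1
  have h4 : h s - h 0 - fderiv ℝ h 0 1 * s = h s - fderiv ℝ h 0 1 * s - h 0 := by ring
  rw [h4]
  refine h1.trans (le_of_eq ?_)
  rw [mul_assoc, ← pow_two, sq_abs]

/-- `u s ≤ hP s = u 0 + B s + O(s²)`, `v s ≤ hQ s = v 0 + B' s + O(s²)`,
`u + v = Θ = Θ 0 + B'' s + O(s²)`: so `(B + B' - B'') s ≥ -C s²` for both signs of `s`, hence
`B + B' = B''`, and `u s = Θ s - v s ≥ u 0 + B s - C s²`. -/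
theorem pinch {u v Θ hP hQ : ℝ → ℝ} (c1 : ContDiffAt ℝ 2 hP 0) (c2 : ContDiffAt ℝ 2 hQ 0)
    (c3 : ContDiffAt ℝ 2 Θ 0) (h1 : ∀ᶠ s in 𝓝 (0 : ℝ), u s ≤ hP s)
    (h2 : ∀ᶠ s in 𝓝 (0 : ℝ), v s ≤ hQ s) (h3 : ∀ᶠ s in 𝓝 (0 : ℝ), u s + v s = Θ s)
    (e1 : hP 0 = u 0) (e2 : hQ 0 = v 0) :
    ∃ B C : ℝ, 0 ≤ C ∧ ∀ᶠ s in 𝓝 (0 : ℝ), |u s - u 0 - B * s| ≤ C * s ^ 2 := by
  obtain ⟨B1, C1, hC1, t1⟩ := taylor2 c1
  obtain ⟨B2, C2, hC2, t2⟩ := taylor2 c2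
  obtain ⟨B3, C3, hC3, t3⟩ := taylor2 c3
  have h30 : u 0 + v 0 = Θ 0 := h3.self_of_nhds
  have key : ∀ᶠ s in 𝓝 (0 : ℝ), (B3 - B1 - B2) * s ≤ (C1 + C2 + C3) * s ^ 2 := by
    filter_upwards [t1, t2, t3, h1, h2, h3] with s a1 a2 a3 a4 a5 a6
    rw [abs_le] at a1 a2 a3
    rw [e1] at a1
    rw [e2] at a2
    nlinarith [a1.2, a2.2, a3.1]
  have hC : 0 ≤ C1 + C2 + C3 := by positivity
  have d1 : B3 - B1 - B2 ≤ 0 := mtail_zero hC key
  have d2 : -(B3 - B1 - B2) ≤ 0 := by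
    refine mtail_zero hC ?_
    filter_upwards [mtail_neg key] with s hs
    have e3 : (-s) ^ 2 = s ^ 2 := by ring
    rw [e3] at hs
    linarith
  have d3 : B3 = B1 + B2 := by linarith
  subst d3
  refine ⟨B1, C1 + C2 + C3, hC, ?_⟩
  filter_upwards [t1, t2, t3, h1, h2, h3] with s a1 a2 a3 a4 a5 a6
  rw [abs_le] at a1 a2 a3
  rw [e1] at a1
  rw [e2] at a2
  have hs := sq_nonneg s
  have p1 : 0 ≤ C1 * s ^ 2 := mul_nonneg hC1 hs
  have p2 : 0 ≤ C2 * s ^ 2 := mul_nonneg hC2 hs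
  have p3 : 0 ≤ C3 * s ^ 2 := mul_nonneg hC3 hs
  rw [abs_le]
  constructor
  · linarith [a1.2, a2.2, a3.1]
  · linarith [a1.2, a2.2, a3.1]

end CI
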