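import Pool.Agent.H.MP_1693ff_gtD.MTail
import Pool.Agent.H.MP_1693ff_gtD.MRad

/-!
# Supporting lines
-/

namespace CI

open Real Set Filter Topology MeasureTheory
open CF hiding St

variable {E : Type*} [NormedAddCommGroup E] [InnerProductSpace ℝ E]

/-- The radial function of a convex body near an axis: upper bound by the supporting line.  For
`‖v‖ = 1`, `⟨v, ω⟩ = 0`: `s ↦ gauge (v + s ω)` is convex, so by `subgrad`
`gauge (v + s ω) ≥ g + c s` with `g = gauge v > 0`, and `radial = 1/gauge`. -/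
theorem rad_supp {K : Set E} (hK : IsBody K) {p v ω : E} (hp : p ∈ interior K) (nv : ‖v‖ = 1)
    (nω : ‖ω‖ = 1) (o : inner ℝ v ω = (0 : ℝ)) : ∃ g c : ℝ, 0 < g ∧ radial K p v = g⁻¹ ∧
      ∀ s, 0 < g + c * s → radial K p (v + s • ω) ≤ (g + c * s)⁻¹ := by
  obtain ⟨hc, h0, hcomp⟩ := nec3a_facts hK hp
  have hne : ∀ s : ℝ, v + s • ω ≠ 0 := by
    intro s h
    have h1 : inner ℝ v (v + s • ω) = (0 : ℝ) := by rw [h, inner_zero_right]
    rw [inner_add_right, inner_smul_right, real_inner_self_eq_norm_sq, nv, o] at h1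
    norm_num at h1
  have hv : v ≠ 0 := by
    have := hne 0
    rwa [zero_smul, add_zero] at this
  have hφ : ConvexOn ℝ univ fun s : ℝ => gauge {x : E | p + x ∈ K} (v + s • ω) := by
    refine ⟨convex_univ, ?_⟩
    intro x _ y _ a b ha hb hab
    have h1 : v + (a • x + b • y) • ω = a • (v + x • ω) + b • (v + y • ω) := by
      have h2 : v = (a + b) • v := by rw [hab, one_smul]
      nth_rewrite 1 [h2]
      simp only [smul_eq_mul]
      module
    change gauge {x : E | p + x ∈ K} (v + (a • x + b • y) • ω) ≤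
      a * gauge {x : E | p + x ∈ K} (v + x • ω) + b * gauge {x : E | p + x ∈ K} (v + y • ω)
    rw [h1]
    refine (gauge_add_le hc (absorbent_nhds_zero h0) _ _).trans ?_
    rw [gauge_smul_of_nonneg ha, gauge_smul_of_nonneg hb, smul_eq_mul, smul_eq_mul]
  obtain ⟨c, hcs⟩ := subgrad hφ
  simp only [zero_smul, add_zero] at hcs
  refine ⟨gauge {x : E | p + x ∈ K} v, c, (radial_eq hK hp hv).2, (radial_eq hK hp hv).1, ?_⟩
  intro s hs
  rw [(radial_eq hK hp (hne s)).1]
  exact inv_anti₀ hs (hcs s)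

end CI
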