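import Pool.Agent.H.MP_1693ff_gtD.MQDefs
import Pool.Agent.H.MP_1693ff_gt.FinB

/-!
# The case `i = -1`, `n = 2`: functions of the angle
-/

namespace CI

open Real Set Filter Topology MeasureTheory Asymptotics
open CF hiding St

theorem mtwo_ev_eq : ev = fun θ : ℝ => (cos θ) • (!₂[1, 0] : Pl) + (sin θ) • (!₂[0, 1] : Pl) := by
  funext θ
  ext i
  fin_cases i <;> simp [ev]

theorem mtwo_ev_deriv (θ : ℝ) : HasDerivAt ev (ev (θ + π / 2)) θ := by
  have h : HasDerivAt (fun θ : ℝ => (cos θ) • (!₂[1, 0] : Pl) + (sin θ) • (!₂[0, 1] : Pl))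
      ((-sin θ) • (!₂[1, 0] : Pl) + (cos θ) • (!₂[0, 1] : Pl)) θ :=
    ((Real.hasDerivAt_cos θ).smul_const _).add ((Real.hasDerivAt_sin θ).smul_const _)
  have h2 : ev (θ + π / 2) = (-sin θ) • (!₂[1, 0] : Pl) + (cos θ) • (!₂[0, 1] : Pl) := by
    ext i
    fin_cases i <;> simp [ev, Real.cos_add_pi_div_two, Real.sin_add_pi_div_two]
  rw [h2, mtwo_ev_eq]
  exact h

theorem mtwo_ev_smooth (N : WithTop ℕ∞) : ContDiff ℝ N ev := by
  rw [mtwo_ev_eq]
  exact (Real.contDiff_cos.smul contDiff_const).add (Real.contDiff_sin.smul contDiff_const)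

theorem mtwo_ev_pi (θ : ℝ) : ev (θ + π) = -ev θ := by
  ext i
  fin_cases i <;> simp [ev, Real.cos_add_pi, Real.sin_add_pi]

theorem mtwo_ev_ne (θ : ℝ) : ev θ ≠ 0 := by
  intro h
  have := norm_ev θ
  rw [h, norm_zero] at this
  exact zero_ne_one this

theorem mtwo_per {f : ℝ → ℝ} (h : ∀ θ, f (θ + π) = f θ) (θ : ℝ) :
    deriv f (θ + π) = deriv f θ := by
  have h1 : (fun x => f (x + π)) = f := funext h
  rw [← deriv_comp_add_const, h1]

/-- For an even `C³` function `g` on the plane (constant on lines through `0`) which is positive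
on the unit circle, `θ ↦ g (ev θ)` is `Smooth` (`C³`, `π`-periodic, so the second derivative
is Lipschitz), and `curv` is `qf g (ev θ) (ev (θ + π/2))`. -/
theorem smooth_of {g : Pl → ℝ} (h : EvC 3 g) (hp : ∀ θ, 0 < g (ev θ)) :
    Smooth (fun θ => g (ev θ)) ∧ ∀ θ, curv (fun θ => g (ev θ)) θ = qf g (ev θ) (ev (θ + π / 2)) := by
  have hat : ∀ θ, ContDiffAt ℝ 3 g (ev θ) := fun θ =>
    h.c.contDiffAt (isOpen_compl_singleton.mem_nhds (mtwo_ev_ne θ))
  have hC3 : ContDiff ℝ 3 (fun θ => g (ev θ)) := by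
    rw [contDiff_iff_contDiffAt]
    intro θ
    exact (hat θ).comp θ (mtwo_ev_smooth 3).contDiffAt
  have hper : ∀ θ, g (ev (θ + π)) = g (ev θ) := by
    intro θ
    rw [mtwo_ev_pi, ← neg_one_smul ℝ (ev θ)]
    exact h.hom (-1) (by norm_num) _
  have hEuler : ∀ θ, fderiv ℝ g (ev θ) (ev θ) = 0 := by
    intro θ
    have h1 : HasDerivAt (fun t : ℝ => t • ev θ) ((1 : ℝ) • ev θ) 1 :=
      (hasDerivAt_id (1 : ℝ)).smul_const _
    rw [one_smul] at h1
    have h0 : HasFDerivAt g (fderiv ℝ g (ev θ)) ((1 : ℝ) • ev θ) := by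
      rw [one_smul]
      exact ((hat θ).differentiableAt (by norm_num)).hasFDerivAt
    have h2 : HasDerivAt (fun t : ℝ => g (t • ev θ)) (fderiv ℝ g (ev θ) (ev θ)) 1 :=
      h0.comp_hasDerivAt (1 : ℝ) h1
    have h3 : (fun t : ℝ => g (t • ev θ)) =ᶠ[𝓝 1] fun _ => g (ev θ) := by
      have : ∀ᶠ t : ℝ in 𝓝 1, t ≠ 0 := isOpen_compl_singleton.mem_nhds (by norm_num : (1 : ℝ) ≠ 0)
      filter_upwards [this] with t ht
      exact h.hom t ht _
    have h4 : HasDerivAt (fun t : ℝ => g (t • ev θ)) 0 1 :=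
      (hasDerivAt_const (1 : ℝ) (g (ev θ))).congr_of_eventuallyEq h3
    exact h2.unique h4
  have hd1 : ∀ θ, HasDerivAt (fun θ => g (ev θ)) (fderiv ℝ g (ev θ) (ev (θ + π / 2))) θ := by
    intro θ
    exact ((hat θ).differentiableAt (by norm_num)).hasFDerivAt.comp_hasDerivAt θ (mtwo_ev_deriv θ)
  have hderiv : deriv (fun θ => g (ev θ)) = fun θ => fderiv ℝ g (ev θ) (ev (θ + π / 2)) :=
    funext fun θ => (hd1 θ).deriv
  have hd2 : ∀ θ, HasDerivAt (fun θ => fderiv ℝ g (ev θ) (ev (θ + π / 2)))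
      (fderiv ℝ (fderiv ℝ g) (ev θ) (ev (θ + π / 2)) (ev (θ + π / 2)) +
        fderiv ℝ g (ev θ) (ev (θ + π / 2 + π / 2))) θ := by
    intro θ
    have h1 : ContDiffAt ℝ 2 (fderiv ℝ g) (ev θ) := (hat θ).fderiv_right (by norm_num)
    have h2 : HasDerivAt (fun θ => fderiv ℝ g (ev θ))
        (fderiv ℝ (fderiv ℝ g) (ev θ) (ev (θ + π / 2))) θ :=
      (h1.differentiableAt (by norm_num)).hasFDerivAt.comp_hasDerivAt θ (mtwo_ev_deriv θ)
    have h3 : HasDerivAt (fun θ => ev (θ + π / 2)) (ev (θ + π / 2 + π / 2)) θ :=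
      (mtwo_ev_deriv (θ + π / 2)).comp_add_const θ (π / 2)
    exact h2.clm_apply h3
  refine ⟨⟨hper, hp, hC3.of_le (by norm_num), ?_⟩, ?_⟩
  · have hF : ContDiff ℝ 1 (deriv (deriv (fun θ => g (ev θ)))) := by
      have h1 : ContDiff ℝ ((1 + 2 : ℕ) : WithTop ℕ∞) (fun θ => g (ev θ)) := by
        exact_mod_cast hC3
      have h2 := ContDiff.iterate_deriv' 1 2 h1
      exact_mod_cast h2
    have hFper : Function.Periodic (deriv (deriv (deriv (fun θ => g (ev θ))))) π :=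
      mtwo_per (mtwo_per (mtwo_per hper))
    have hFc : Continuous (deriv (deriv (deriv (fun θ => g (ev θ))))) :=
      hF.continuous_deriv le_rfl
    obtain ⟨C, hC⟩ := (hFper.isBounded_of_continuous Real.pi_ne_zero hFc).exists_norm_le
    refine ⟨C, fun a b => ?_⟩
    have := Convex.norm_image_sub_le_of_norm_deriv_le
      (f := deriv (deriv (fun θ => g (ev θ)))) (C := C) (s := Set.univ) (x := b) (y := a)
      (fun x _ => (hF.differentiable (by norm_num)) x)
      (fun x _ => hC _ ⟨x, rfl⟩) convex_univ trivial trivial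
    simpa [Real.norm_eq_abs] using this
  · intro θ
    have h1 : deriv (deriv (fun θ => g (ev θ))) θ =
        fderiv ℝ (fderiv ℝ g) (ev θ) (ev (θ + π / 2)) (ev (θ + π / 2)) +
        fderiv ℝ g (ev θ) (ev (θ + π / 2 + π / 2)) := by
      rw [hderiv]
      exact (hd2 θ).deriv
    have h2 : θ + π / 2 + π / 2 = θ + π := by ring
    unfold curv qf
    rw [h1, h2, mtwo_ev_pi, map_neg, hEuler, neg_zero, add_zero]

end CI
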